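import Pool.Agent.Fol.Defs

/-!
# Basic properties
-/

namespace Pool.Agent.Fol

/-! ### word length -/

section WL

variable {H H' : Type*}

theorem WL_mul [Monoid H] {S : Set H} {m n : ℕ} {g h : H} (hg : WL S m g)
    (hh : WL S n h) : WL S (m + n) (g * h) := by
  obtain ⟨l, h1, h2, rfl⟩ := hg
  obtain ⟨l', h1', h2', rfl⟩ := hh
  refine ⟨l ++ l', by rw [List.length_append]; omega, fun x hx => ?_, by rw [List.prod_append]⟩
  rcases List.mem_append.1 hx with h | h
  · exact h2 x h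
  · exact h2' x h

theorem WL_one [Monoid H] (S : Set H) (n : ℕ) : WL S n (1 : H) :=
  ⟨[], Nat.zero_le _, by simp, rfl⟩

theorem WL_gen [Monoid H] {S : Set H} {g : H} (hg : g ∈ S) : WL S 1 g :=
  ⟨[g], le_refl _, by simpa using hg, by simp⟩

theorem WL_mono [Monoid H] {S : Set H} {m n : ℕ} (hmn : m ≤ n) {g : H}
    (hg : WL S m g) : WL S n g := by
  obtain ⟨l, h1, h2, h3⟩ := hg
  exact ⟨l, h1.trans hmn, h2, h3⟩

theorem WL_inv [Group H] {S : Set H} (hS : ∀ s ∈ S, s⁻¹ ∈ S) {n : ℕ} {g : H}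
    (hg : WL S n g) : WL S n g⁻¹ := by
  obtain ⟨l, h1, h2, rfl⟩ := hg
  refine ⟨(l.map (fun x => x⁻¹)).reverse, by simpa using h1, fun x hx => ?_, ?_⟩
  · rw [List.mem_reverse, List.mem_map] at hx
    obtain ⟨y, hy, rfl⟩ := hx
    exact hS y (h2 y hy)
  · rw [List.prod_inv_reverse]

/-- a homomorphism with values of bounded length on the generators -/
theorem WL_map [Monoid H] [Monoid H'] {S : Set H} {S' : Set H'} (φ : H →* H') {c : ℕ}
    (hφ : ∀ s ∈ S, WL S' c (φ s)) {n : ℕ} {g : H} (hg : WL S n g) : WL S' (c * n) (φ g) := by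
  obtain ⟨l, h1, h2, rfl⟩ := hg
  suffices h : WL S' (c * l.length) (φ l.prod) from WL_mono (Nat.mul_le_mul_left c h1) h
  clear h1
  induction l with
  | nil => simpa using WL_one S' 0
  | cons x l ih =>
    rw [List.prod_cons, map_mul, List.length_cons, Nat.mul_add, mul_one, add_comm]
    exact WL_mul (hφ x (h2 x (by simp))) (ih fun y hy => h2 y (by simp [hy]))

theorem WL_subset [Monoid H] {S S' : Set H} (hS : S ⊆ S') {n : ℕ} {g : H}
    (hg : WL S n g) : WL S' n g := by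
  obtain ⟨l, h1, h2, h3⟩ := hg
  exact ⟨l, h1, fun x hx => hS (h2 x hx), h3⟩

theorem RL_mul [Monoid H] {S : Set H} {x y : ℝ} {g h : H} (hg : RL S x g)
    (hh : RL S y h) : RL S (x + y) (g * h) := by
  obtain ⟨m, h1, h2⟩ := hg
  obtain ⟨n, h3, h4⟩ := hh
  exact ⟨m + n, by push_cast; linarith, WL_mul h2 h4⟩

theorem RL_mono [Monoid H] {S : Set H} {x y : ℝ} (hxy : x ≤ y) {g : H}
    (hg : RL S x g) : RL S y g := by
  obtain ⟨m, h1, h2⟩ := hg
  exact ⟨m, h1.trans hxy, h2⟩

theorem RL_one [Monoid H] (S : Set H) {x : ℝ} (hx : 0 ≤ x) : RL S x (1 : H) :=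
  ⟨0, by simpa using hx, WL_one S 0⟩

theorem RL_inv [Group H] {S : Set H} (hS : ∀ s ∈ S, s⁻¹ ∈ S) {x : ℝ} {g : H}
    (hg : RL S x g) : RL S x g⁻¹ := by
  obtain ⟨m, h1, h2⟩ := hg
  exact ⟨m, h1, WL_inv hS h2⟩

theorem WL_RL [Monoid H] {S : Set H} {n : ℕ} {x : ℝ} (hx : (n : ℝ) ≤ x) {g : H}
    (hg : WL S n g) : RL S x g := ⟨n, hx, hg⟩

end WL

/-! ### pairs -/

lemma pr_mul (x y x' y' : P) : pr x y * pr x' y' = pr (x * x') (y * y') := by
  apply Equiv.ext
  intro w
  match w with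
  | [] => rfl
  | false :: w => rfl
  | true :: w => rfl

lemma pr_one : pr 1 1 = 1 := by
  apply Equiv.ext
  intro w
  match w with
  | [] => rfl
  | false :: w => rfl
  | true :: w => rfl

lemma pr_inv (x y : P) : (pr x y)⁻¹ = pr x⁻¹ y⁻¹ := by
  apply inv_eq_of_mul_eq_one_right
  rw [pr_mul, mul_inv_cancel, mul_inv_cancel, pr_one]

lemma pr_inj {x y x' y' : P} (h : pr x y = pr x' y') : x = x' ∧ y = y' := by
  constructor
  · apply Equiv.ext
    intro w
    have := Equiv.congr_fun h (false :: w)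
    exact (List.cons.inj this).2
  · apply Equiv.ext
    intro w
    have := Equiv.congr_fun h (true :: w)
    exact (List.cons.inj this).2

lemma pr_pow (x y : P) (n : ℕ) : pr x y ^ n = pr (x ^ n) (y ^ n) := by
  induction n with
  | zero => rw [pow_zero, pow_zero, pow_zero, pr_one]
  | succ n ih => rw [pow_succ, pow_succ, pow_succ, ih, pr_mul]

lemma aP_pr (x y : P) : aP * pr x y = pr y x * aP := by
  apply Equiv.ext
  intro w
  match w with
  | [] => rfl
  | false :: w => rfl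
  | true :: w => rfl

lemma aP_inv : aP⁻¹ = aP := inv_eq_of_mul_eq_one_left aP_mul_aP

lemma aP_pr_aP (x y : P) : aP * pr x y * aP = pr y x := by
  rw [aP_pr, mul_assoc, aP_mul_aP, mul_one]

lemma aP_ne_pr (x y : P) : aP ≠ pr x y := by
  intro h
  have := Equiv.congr_fun h [false]
  have h2 := (List.cons.inj this).1
  exact Bool.noConfusion h2

lemma letP_eq (ω : ℕ → Fin 3) (k : ℕ) (u : V) :
    letP ω k u = pr (if act (ω k) u then aP else 1) (letP ω (k + 1) u) := by
  apply Equiv.ext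
  intro w
  match w with
  | [] => rfl
  | false :: w =>
    show false :: (if act (ω k) u then flipF w else w) = false :: _
    by_cases h : act (ω k) u = true
    · rw [if_pos h, if_pos h]; rfl
    · rw [if_neg h, if_neg h]; rfl
  | true :: w => rfl

lemma letP_mul (ω : ℕ → Fin 3) (k : ℕ) (u v : V) :
    letP ω k (u * v) = letP ω k u * letP ω k v := (letHom ω k).map_mul u v

lemma letP_one (ω : ℕ → Fin 3) (k : ℕ) : letP ω k 1 = 1 := (letHom ω k).map_one

lemma letP_mul_self (ω : ℕ → Fin 3) (k : ℕ) (u : V) : letP ω k u * letP ω k u = 1 := by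
  rw [← letP_mul, V_mul_self, letP_one]

lemma letP_inv (ω : ℕ → Fin 3) (k : ℕ) (u : V) : (letP ω k u)⁻¹ = letP ω k u :=
  inv_eq_of_mul_eq_one_left (letP_mul_self ω k u)

@[simp] lemma ev_fa (ω : ℕ → Fin 3) (k : ℕ) : ev ω k fa = aP := liftF_fa _ _ _

@[simp] lemma ev_fu (ω : ℕ → Fin 3) (k : ℕ) (u : V) : ev ω k (fu u) = letP ω k u :=
  liftF_fu _ _ _ _

@[simp] lemma Sk_fa (ω : ℕ → Fin 3) (k : ℕ) :
    Sk ω k fa = fa * fu (lt (wS ω k)) * fa := liftF_fa _ _ _

@[simp] lemma Sk_fu (ω : ℕ → Fin 3) (k : ℕ) (u : V) : Sk ω k (fu u) = fu u := liftF_fu _ _ _ _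

@[simp] lemma chi_fa (i : Fin 3) : chi i fa = Multiplicative.ofAdd 1 := liftF_fa _ _ _

@[simp] lemma chi_fu (i : Fin 3) (u : V) :
    chi i (fu u) = if act i u then Multiplicative.ofAdd 1 else 1 := liftF_fu _ _ _ _

lemma wS_ne (ω : ℕ → Fin 3) (k : ℕ) : wS ω k ≠ ω k := by
  unfold wS
  split_ifs with h
  · generalize ω k = i
    revert i; decide
  · exact h

lemma act_lt (i j : Fin 3) : act i (lt j) = decide (j ≠ i) := by
  revert i j; decide

/-- the projection in the recursion -/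
noncomputable def piH (ω : ℕ → Fin 3) (k : ℕ) : F →* P :=
  liftF (letP ω (k + 1) (lt (wS ω k))) (letP_mul_self _ _ _)
    { toFun := fun u => if act (ω k) u then aP else 1
      map_one' := by simp [act_one]
      map_mul' := fun u v => by
        rw [act_mul]
        cases act (ω k) u <;> cases act (ω k) v <;> simp [aP_mul_aP] }

theorem ev_Sk_pi (ω : ℕ → Fin 3) (k : ℕ) (f : F) :
    ev ω k (Sk ω k f) = pr (piH ω k f) (ev ω (k + 1) f) := by
  have h : (ev ω k).comp (Sk ω k) =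
      { toFun := fun f => pr (piH ω k f) (ev ω (k + 1) f)
        map_one' := by rw [map_one, map_one, pr_one]
        map_mul' := fun f g => by rw [map_mul, map_mul, pr_mul] } := by
    apply homF_ext
    · show ev ω k (Sk ω k fa) = pr (piH ω k fa) (ev ω (k + 1) fa)
      rw [Sk_fa, map_mul, map_mul, ev_fa, ev_fu, ev_fa, letP_eq]
      rw [if_pos (by rw [act_lt]; exact decide_eq_true (wS_ne ω k)), aP_pr_aP]
      rfl
    · intro u
      show ev ω k (Sk ω k (fu u)) = pr (piH ω k (fu u)) (ev ω (k + 1) (fu u))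
      rw [Sk_fu, ev_fu, ev_fu, letP_eq]
      rfl
  exact DFunLike.congr_fun h f

/-- `Sk` in general -/
theorem ev_Sk' (ω : ℕ → Fin 3) (k : ℕ) (f : F) : ∃ x : P,
    ev ω k (Sk ω k f) = pr x (ev ω (k + 1) f) := ⟨_, ev_Sk_pi ω k f⟩

theorem NK_map {H : Type*} [Group H] (φ : F →* H) {i : Fin 3} {N : Subgroup H} [N.Normal]
    (h : φ ((fa * fu (lt i)) ^ 2) ∈ N) {f : F} (hf : f ∈ NK i) : φ f ∈ N := by
  have h1 : NK i ≤ N.comap φ := by
    unfold NK
    apply Subgroup.normalClosure_le_normal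
    rintro x rfl
    exact h
  exact h1 hf

/-- `Sk` on the kernel -/
theorem ev_Sk {ω : ℕ → Fin 3} {k : ℕ} {f : F} (hf : f ∈ NK (ω k)) :
    ev ω k (Sk ω k f) = pr 1 (ev ω (k + 1) f) := by
  rw [ev_Sk_pi]
  congr 1
  have h := NK_map (piH ω k) (i := ω k) (N := ⊥) (by
    rw [Subgroup.mem_bot, map_pow, map_mul]
    have h1 : piH ω k fa = letP ω (k + 1) (lt (wS ω k)) := liftF_fa _ _ _
    have h2 : piH ω k (fu (lt (ω k))) = 1 := by
      refine (liftF_fu _ _ _ _).trans ?_
      show (if act (ω k) (lt (ω k)) then aP else 1) = 1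
      rw [if_neg (by rw [act_lt]; simp)]
    rw [h1, h2, mul_one, pow_two, letP_mul_self]) hf
  exact Subgroup.mem_bot.1 h

instance NK_normal (i : Fin 3) : (NK i).Normal := by unfold NK; infer_instance

lemma NK_gen (i : Fin 3) : (fa * fu (lt i)) ^ 2 ∈ NK i :=
  Subgroup.subset_normalClosure (Set.mem_singleton _)

theorem Sk_NK {ω : ℕ → Fin 3} {k : ℕ} {f : F} (hf : f ∈ NK (ω k)) : Sk ω k f ∈ NK (up ω k) := by
  apply NK_map (Sk ω k) (i := ω k) _ hf
  rw [map_pow, map_mul, Sk_fa, Sk_fu]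
  by_cases h : up ω k = ω k
  · -- (a w a x)^2 with x the letter of `NK`
    rw [h]
    set x := fu (lt (ω k)) with hx
    set w := fu (lt (wS ω k)) with hw
    have hc : w * x = x * w := by rw [hw, hx, ← map_mul, ← map_mul, mul_comm]
    have hxx : x * x = 1 := fu_mul_self _
    have hww : w * w = 1 := fu_mul_self _
    have haa := fa_mul_fa
    -- τ = (a x)^2
    have hτ : (fa * x) ^ 2 ∈ NK (ω k) := NK_gen _
    have h1 : (fa * w) * (fa * x) ^ 2 * (fa * w)⁻¹ ∈ NK (ω k) := (NK_normal _).conj_mem _ hτ _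
    set g := fa * (w * x) * fa with hg
    have hgg : g * g = 1 := by
      calc g * g = fa * ((w * x) * (fa * fa) * (w * x)) * fa := by rw [hg]; group
        _ = fa * (w * (x * w) * x) * fa := by rw [haa, mul_one]; group
        _ = fa * ((w * w) * (x * x)) * fa := by rw [← hc]; group
        _ = 1 := by rw [hww, hxx, mul_one, mul_one, haa]
    have e1 : fa * w * fa * x = (fa * w) * (fa * x) ^ 2 * (fa * w)⁻¹ * g := by
      have hfi : fa⁻¹ = fa := fa_inv
      have hwi : w⁻¹ = w := inv_eq_of_mul_eq_one_left hww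
      have hxi : x⁻¹ = x := inv_eq_of_mul_eq_one_left hxx
      rw [hg, mul_inv_rev, hfi, hwi, pow_two]
      calc fa * w * fa * x = fa * w * fa * x * (fa * ((x * x) * fa)) := by
            rw [hxx, one_mul, haa, mul_one]
        _ = fa * w * (fa * x * (fa * x)) * (w * w) * (x * fa) := by rw [hww, mul_one]; group
        _ = fa * w * (fa * x * (fa * x)) * (w * (fa * fa) * w) * (x * fa) := by
            rw [haa, mul_one]
        _ = _ := by group
    rw [e1, pow_two]
    set τ := (fa * w) * (fa * x) ^ 2 * (fa * w)⁻¹ with hτd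
    have h2 : τ * g * (τ * g) = τ * (g * τ * g⁻¹) := by
      have hgi : g⁻¹ = g := inv_eq_of_mul_eq_one_left hgg
      rw [hgi]; group
    rw [h2]
    exact mul_mem h1 ((NK_normal _).conj_mem _ h1 _)
  · have hwe : wS ω k = up ω k := by unfold wS; rw [if_neg h]
    rw [hwe]
    set u := fu (lt (up ω k)) with hu
    set x := fu (lt (ω k)) with hx
    have hc : u * x = x * u := by rw [hu, hx, ← map_mul, ← map_mul, mul_comm]
    have hxx : x * x = 1 := fu_mul_self _
    have huu : u * u = 1 := fu_mul_self _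
    have haa := fa_mul_fa
    have hτ : (fa * u) ^ 2 ∈ NK (up ω k) := NK_gen _
    set τ := (fa * u) ^ 2 with hτd
    have hgg : (u * x) * (u * x) = 1 := by
      calc (u * x) * (u * x) = u * (x * u) * x := by group
        _ = (u * u) * (x * x) := by rw [← hc]; group
        _ = 1 := by rw [huu, hxx, mul_one]
    set g := u * x with hg
    have e1 : fa * u * fa * x = τ * g := by
      rw [hτd, hg, pow_two]
      calc fa * u * fa * x = fa * u * fa * (u * u) * x := by rw [huu, mul_one]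
        _ = _ := by group
    have h2 : (τ * g) ^ 2 = τ * (g * τ * g⁻¹) := by
      have hgi : g⁻¹ = g := inv_eq_of_mul_eq_one_left hgg
      rw [hgi, pow_two]; group
    rw [e1, h2]
    exact mul_mem hτ ((NK_normal _).conj_mem _ hτ _)

theorem Lk_NK {ω : ℕ → Fin 3} (v : T) (k : ℕ) {f : F} (hf : f ∈ NK (up ω (k + v.length))) :
    Lk ω v k f ∈ NK (up ω k) ∧ ev ω k (Lk ω v k f) = iot v (ev ω (k + v.length) f) := by
  induction v generalizing k with
  | nil => exact ⟨hf, rfl⟩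
  | cons x v ih =>
    have h1 : k + (x :: v).length = (k + 1) + v.length := by rw [List.length_cons]; omega
    rw [h1] at hf ⊢
    obtain ⟨h2, h3⟩ := ih (k + 1) hf
    have h4 : Sk ω k (Lk ω v (k + 1) f) ∈ NK (up ω k) := Sk_NK (k := k) h2
    have h5 := ev_Sk (ω := ω) (k := k) h2
    cases x
    · refine ⟨?_, ?_⟩
      · have := (NK_normal (up ω k)).conj_mem _ h4 fa
        rw [fa_inv] at this
        exact this
      · show ev ω k (fa * Sk ω k (Lk ω v (k + 1) f) * fa) = pr (iot v _) 1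
        rw [map_mul, map_mul, ev_fa, h5, aP_pr_aP, h3]
    · refine ⟨h4, ?_⟩
      show ev ω k (Sk ω k (Lk ω v (k + 1) f)) = pr 1 (iot v _)
      rw [h5, h3]

/-! ### numbers of letters -/

theorem AL_Sk {ω : ℕ → Fin 3} {k n : ℕ} {f : F} (hf : AL n f) : AL (2 * n) (Sk ω k f) := by
  induction hf with
  | u u => rw [Sk_fu]; exact AL.u u
  | a => rw [Sk_fa]; exact AL.mul (m := 1) (n := 1) (AL.mul (m := 1) (n := 0) AL.a (AL.u _)) AL.a
  | mul _ _ ih1 ih2 => rw [map_mul, Nat.mul_add]; exact AL.mul ih1 ih2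

theorem AL_inv {n : ℕ} {f : F} (hf : AL n f) : AL n f⁻¹ := by
  induction hf with
  | u u => rw [fu_inv]; exact AL.u u
  | a => rw [fa_inv]; exact AL.a
  | mul _ _ ih1 ih2 => rw [mul_inv_rev, add_comm]; exact AL.mul ih2 ih1

theorem AL_one : AL 0 (1 : F) := by
  have := AL.u 1
  rwa [map_one] at this

/-- the normal form -/
lemma AL_form {n : ℕ} {f : F} (hf : AL n f) : ∃ (u : V) (l : List V), l.length = n ∧
    f = fu u * (l.map (fun v => fa * fu v)).prod := by
  induction hf with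
  | u u => exact ⟨u, [], rfl, by simp⟩
  | a => exact ⟨1, [1], rfl, by simp⟩
  | @mul m n f g _ _ ih1 ih2 =>
    obtain ⟨u, l, h1, rfl⟩ := ih1
    obtain ⟨u', l', h1', rfl⟩ := ih2
    rcases List.eq_nil_or_concat l with rfl | ⟨l0, z, rfl⟩
    · refine ⟨u * u', l', ?_, ?_⟩
      · simp at h1; omega
      · rw [map_mul]; simp [mul_assoc]
    · refine ⟨u, l0 ++ (z * u') :: l', ?_, ?_⟩
      · simp at h1 ⊢; omega
      · simp [mul_assoc]

lemma WL_fa : WL gensF 1 fa := WL_gen (Or.inl rfl)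

lemma WL_fu (u : V) : WL gensF 1 (fu u) := WL_gen (Or.inr ⟨u, rfl⟩)

theorem AL_WL {n : ℕ} {f : F} (hf : AL n f) : WL gensF (2 * n + 1) f := by
  obtain ⟨u, l, rfl, rfl⟩ := AL_form hf
  rw [add_comm]
  apply WL_mul (WL_fu u)
  clear hf
  induction l with
  | nil => simpa using WL_one gensF 0
  | cons x l ih =>
    rw [List.map_cons, List.prod_cons, List.length_cons, Nat.mul_add, add_comm, mul_one]
    exact WL_mul (WL_mul WL_fa (WL_fu x)) ih

theorem WL_AL {n : ℕ} {f : F} (hf : WL gensF n f) : ∃ m ≤ n, AL m f := by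
  obtain ⟨l, h1, h2, rfl⟩ := hf
  suffices h : ∃ m ≤ l.length, AL m l.prod by
    obtain ⟨m, h3, h4⟩ := h
    exact ⟨m, h3.trans h1, h4⟩
  clear h1
  induction l with
  | nil => exact ⟨0, le_refl _, by simpa using AL_one⟩
  | cons x l ih =>
    obtain ⟨m, h3, h4⟩ := ih fun y hy => h2 y (by simp [hy])
    rw [List.prod_cons]
    rcases h2 x (by simp) with rfl | ⟨u, rfl⟩
    · exact ⟨1 + m, by rw [List.length_cons]; omega, AL.mul AL.a h4⟩
    · exact ⟨0 + m, by rw [List.length_cons]; omega, AL.mul (AL.u u) h4⟩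

lemma gens_inv (ω : ℕ → Fin 3) (k : ℕ) : ∀ s ∈ gens ω k, s⁻¹ ∈ gens ω k := by
  rintro s (rfl | ⟨u, rfl⟩)
  · rw [aP_inv]; exact Or.inl rfl
  · rw [letP_inv]; exact Or.inr ⟨u, rfl⟩

lemma gensF_inv : ∀ s ∈ gensF, s⁻¹ ∈ gensF := by
  rintro s (rfl | ⟨u, rfl⟩)
  · rw [fa_inv]; exact Or.inl rfl
  · rw [fu_inv]; exact Or.inr ⟨u, rfl⟩

lemma ev_gens {ω : ℕ → Fin 3} {k n : ℕ} {f : F} (hf : WL gensF n f) :
    WL (gens ω k) n (ev ω k f) := by
  have := WL_map (S' := gens ω k) (ev ω k) (c := 1) (by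
    rintro s (rfl | ⟨u, rfl⟩)
    · rw [ev_fa]; exact WL_gen (Or.inl rfl)
    · rw [ev_fu]; exact WL_gen (Or.inr ⟨u, rfl⟩)) hf
  rwa [one_mul] at this

lemma letP_ne_one {ω : ℕ → Fin 3} (hω : NC ω) (k : ℕ) {u : V} (hu : u ≠ 1) : letP ω k u ≠ 1 := by
  -- some later index acts
  have h1 : ∃ l, k ≤ l ∧ act (ω l) u = true := by
    by_cases h : act (ω k) u = true
    · exact ⟨k, le_refl _, h⟩
    · obtain ⟨l, hl, hne⟩ := hω k
      refine ⟨l, hl, ?_⟩
      have h2 : u = lt (ω k) := by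
        by_contra h3
        exact h (by unfold act; exact decide_eq_true ⟨hu, h3⟩)
      rw [h2, act_lt]
      exact decide_eq_true (fun h3 => hne h3.symm)
  obtain ⟨l, hl, h2⟩ := h1
  obtain ⟨d, rfl⟩ : ∃ d, l = k + d := ⟨l - k, by omega⟩
  clear hl
  induction d generalizing k with
  | zero =>
    intro h3
    rw [Nat.add_zero] at h2
    rw [letP_eq, if_pos h2, ← pr_one] at h3
    have h4 := (pr_inj h3).1
    exact aP_ne_pr 1 1 (h4.trans pr_one.symm)
  | succ d ih =>
    intro h3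
    rw [letP_eq, ← pr_one] at h3
    exact ih (k + 1) (by rw [show k + 1 + d = k + (d + 1) by omega]; exact h2) (pr_inj h3).2

end Pool.Agent.Fol
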