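import Pool.Agent.Fol.Basic

/-!
# Coordinates of tree automorphisms
-/

namespace Pool.Agent.Fol

open Finset Classical

theorem Theta_mul (m : ℕ) (σ ρ : T → P) :
    Theta m (fun u => σ u * ρ u) = Theta m σ * Theta m ρ := by
  induction m generalizing σ ρ with
  | zero => rfl
  | succ m ih =>
    show pr (aP * Theta m (fun u => σ (false :: u) * ρ (false :: u)) * aP)
        (Theta m (fun u => σ (true :: u) * ρ (true :: u))) = pr _ _ * pr _ _
    rw [ih, ih, pr_mul]
    congr 1
    simp only [mul_assoc]
    rw [← mul_assoc aP aP, aP_mul_aP, one_mul]

theorem Theta_one (m : ℕ) : Theta m (fun _ => 1) = 1 := by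
  induction m with
  | zero => rfl
  | succ m ih =>
    show pr (aP * Theta m (fun _ => 1) * aP) (Theta m (fun _ => 1)) = 1
    rw [ih, mul_one, aP_mul_aP, pr_one]

theorem Theta_inv (m : ℕ) (σ : T → P) : Theta m (fun u => (σ u)⁻¹) = (Theta m σ)⁻¹ := by
  refine (inv_eq_of_mul_eq_one_right ?_).symm
  rw [← Theta_mul]
  simp only [mul_inv_cancel]
  exact Theta_one m

theorem Theta_congr {m : ℕ} {σ ρ : T → P} :
    Theta m σ = Theta m ρ ↔ ∀ u : T, u.length = m → σ u = ρ u := by
  induction m generalizing σ ρ with
  | zero =>
    constructor
    · intro h u hu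
      rw [List.length_eq_zero_iff.1 hu]
      exact h
    · intro h
      exact h [] rfl
  | succ m ih =>
    constructor
    · intro h u hu
      obtain ⟨h1, h2⟩ := pr_inj h
      have h1' : Theta m (fun u => σ (false :: u)) = Theta m (fun u => ρ (false :: u)) := by
        have := mul_right_cancel h1
        exact mul_left_cancel this
      match u with
      | [] => simp at hu
      | false :: u => exact ih.1 h1' u (by simpa using hu)
      | true :: u => exact ih.1 h2 u (by simpa using hu)
    · intro h
      show pr _ _ = pr _ _
      rw [(ih (σ := fun u => σ (false :: u)) (ρ := fun u => ρ (false :: u))).2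
          (fun u hu => h _ (by simp [hu])),
        (ih (σ := fun u => σ (true :: u)) (ρ := fun u => ρ (true :: u))).2
          (fun u hu => h _ (by simp [hu]))]

/-- coordinates in which `Theta` is the direct product -/
theorem coord (m : ℕ) : ∃ c : P, ∀ σ : T → P,
    (∀ u w : T, u.length = m → Theta m σ (c (u ++ w)) = c (u ++ σ u w)) ∧
    (∀ w : T, w.length < m → Theta m σ (c w) = c w) := by
  induction m with
  | zero =>
    refine ⟨1, fun σ => ⟨fun u w hu => ?_, fun w hw => absurd hw (by simp)⟩⟩
    rw [List.length_eq_zero_iff.1 hu]
    rfl
  | succ m ih =>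
    obtain ⟨c, hc⟩ := ih
    refine ⟨pr (aP * c) c, fun σ => ⟨fun u w hu => ?_, fun w hw => ?_⟩⟩
    · match u with
      | [] => simp at hu
      | false :: u =>
        have h := (hc (fun u => σ (false :: u))).1 u w (by simpa using hu)
        show false :: flipF (Theta m (fun u => σ (false :: u)) (flipF (flipF (c (u ++ w))))) =
          false :: flipF (c (u ++ σ (false :: u) w))
        rw [flipF_invol, h]
      | true :: u =>
        have h := (hc (fun u => σ (true :: u))).1 u w (by simpa using hu)
        show true :: (Theta m (fun u => σ (true :: u)) (c (u ++ w))) =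
          true :: (c (u ++ σ (true :: u) w))
        rw [h]
    · match w with
      | [] => rfl
      | false :: w =>
        have h := (hc (fun u => σ (false :: u))).2 w (by simpa using hw)
        show false :: flipF (Theta m (fun u => σ (false :: u)) (flipF (flipF (c w)))) =
          false :: flipF (c w)
        rw [flipF_invol, h]
      | true :: w =>
        have h := (hc (fun u => σ (true :: u))).2 w (by simpa using hw)
        show true :: (Theta m (fun u => σ (true :: u)) (c w)) = true :: (c w)
        rw [h]

theorem iot_mul (v : T) (x y : P) : iot v (x * y) = iot v x * iot v y := by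
  induction v with
  | nil => rfl
  | cons b v ih =>
    cases b
    · show pr (iot v (x * y)) 1 = pr _ 1 * pr _ 1
      rw [ih, pr_mul, mul_one]
    · show pr 1 (iot v (x * y)) = pr 1 _ * pr 1 _
      rw [ih, pr_mul, mul_one]

theorem iot_inj {v : T} {x y : P} (h : iot v x = iot v y) : x = y := by
  induction v with
  | nil => exact h
  | cons b v ih =>
    cases b
    · exact ih (pr_inj h).1
    · exact ih (pr_inj h).2

theorem iot_apply (v w : T) (x : P) : iot v x (v ++ w) = v ++ x w := by
  induction v with
  | nil => rfl
  | cons b v ih =>
    cases b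
    · show false :: (iot v x (v ++ w)) = _
      rw [ih]; rfl
    · show true :: (iot v x (v ++ w)) = _
      rw [ih]; rfl

theorem iot_fix {v l : T} (x : P) (h : ¬ v <+: l) : iot v x l = l := by
  induction v generalizing l with
  | nil => exact absurd (List.nil_prefix) h
  | cons b v ih =>
    cases b
    · match l with
      | [] => rfl
      | false :: l =>
        show false :: (iot v x l) = _
        rw [ih (fun h' => h (by simpa using h'))]
      | true :: l => rfl
    · match l with
      | [] => rfl
      | false :: l => rfl
      | true :: l =>
        show true :: (iot v x l) = _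
        rw [ih (fun h' => h (by simpa using h'))]

/-- the product over a level -/
def coordXi : ℕ → (T → P) → P
  | 0, σ => σ []
  | k + 1, σ => pr (coordXi k (fun u => σ (false :: u))) (coordXi k (fun u => σ (true :: u)))

theorem coordXi_mul (m : ℕ) (σ ρ : T → P) :
    coordXi m (fun u => σ u * ρ u) = coordXi m σ * coordXi m ρ := by
  induction m generalizing σ ρ with
  | zero => rfl
  | succ m ih =>
    show pr (coordXi m (fun u => σ (false :: u) * ρ (false :: u)))
        (coordXi m (fun u => σ (true :: u) * ρ (true :: u))) = pr _ _ * pr _ _
    rw [ih, ih, pr_mul]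

theorem coordXi_one (m : ℕ) : coordXi m (fun _ => 1) = 1 := by
  induction m with
  | zero => rfl
  | succ m ih =>
    show pr (coordXi m (fun _ => 1)) (coordXi m (fun _ => 1)) = 1
    rw [ih, pr_one]

theorem coordXi_congr {m : ℕ} {σ ρ : T → P} :
    coordXi m σ = coordXi m ρ ↔ ∀ u : T, u.length = m → σ u = ρ u := by
  induction m generalizing σ ρ with
  | zero =>
    constructor
    · intro h u hu
      rw [List.length_eq_zero_iff.1 hu]
      exact h
    · intro h
      exact h [] rfl
  | succ m ih =>
    constructor
    · intro h u hu
      obtain ⟨h1, h2⟩ := pr_inj h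
      match u with
      | [] => simp at hu
      | false :: u => exact ih.1 h1 u (by simpa using hu)
      | true :: u => exact ih.1 h2 u (by simpa using hu)
    · intro h
      show pr _ _ = pr _ _
      rw [(ih (σ := fun u => σ (false :: u)) (ρ := fun u => ρ (false :: u))).2
          (fun u hu => h _ (by simp [hu])),
        (ih (σ := fun u => σ (true :: u)) (ρ := fun u => ρ (true :: u))).2
          (fun u hu => h _ (by simp [hu]))]

theorem coordXi_iot (v : T) (z : P) :
    coordXi v.length (fun u => if u = v then z else 1) = iot v z := by
  induction v with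
  | nil => rfl
  | cons b v ih =>
    cases b
    · show pr (coordXi v.length (fun u => if false :: u = false :: v then z else 1))
        (coordXi v.length (fun u => if true :: u = false :: v then z else 1)) = pr _ 1
      simp only [List.cons.injEq, true_and, Bool.true_eq_false, false_and, if_false]
      rw [ih, coordXi_one]
    · show pr (coordXi v.length (fun u => if false :: u = true :: v then z else 1))
        (coordXi v.length (fun u => if true :: u = true :: v then z else 1)) = pr 1 _
      simp only [List.cons.injEq, true_and, Bool.false_eq_true, false_and, if_false]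
      rw [ih, coordXi_one]

/-- the lamps: all products of the elements `iot w z` for `w` of length `k` -/
theorem lamp_fun (k : ℕ) {z : P} (hz : z ≠ 1) : ∃ Z : (List.Vector Bool k → Bool) → P,
    Function.Injective Z ∧ ∀ ε (i : List.Vector Bool k), ε i = false →
      Z (Function.update ε i true) = Z ε * iot i.1 z := by
  refine ⟨fun ε => coordXi k (fun w => if h : w.length = k then (if ε ⟨w, h⟩ = true then z else 1)
    else 1), ?_, ?_⟩
  · intro ε ε' h
    have h1 := coordXi_congr.1 h
    funext i
    have h2 := h1 i.1 i.2
    simp only [i.2, dif_pos] at h2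
    have h3 : (⟨i.1, i.2⟩ : List.Vector Bool k) = i := rfl
    rw [h3] at h2
    cases hi : ε i <;> cases hi' : ε' i <;> simp [hi, hi'] at h2 ⊢
    · exact hz h2.symm
    · exact hz h2
  · intro ε i hi
    have h1 : iot i.1 z = coordXi k (fun u => if u = i.1 then z else 1) := by
      have := coordXi_iot i.1 z
      rw [i.2] at this
      exact this.symm
    show coordXi k _ = coordXi k _ * _
    rw [h1, ← coordXi_mul]
    refine coordXi_congr.2 fun u hu => ?_
    rw [dif_pos hu, dif_pos hu]
    by_cases h2 : u = i.1
    · have h3 : (⟨u, hu⟩ : List.Vector Bool k) = i := Subtype.ext h2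
      rw [if_pos h2]
      have e1 : Function.update ε i true ⟨u, hu⟩ = true :=
        (congrArg (Function.update ε i true) h3).trans (Function.update_self i true ε)
      have e2 : ε ⟨u, hu⟩ = false := (congrArg ε h3).trans hi
      rw [if_pos e1, if_neg (by rw [e2]; simp), one_mul]
    · have h3 : (⟨u, hu⟩ : List.Vector Bool k) ≠ i := fun h => h2 (congrArg Subtype.val h)
      have e1 : Function.update ε i true ⟨u, hu⟩ = ε ⟨u, hu⟩ := Function.update_of_ne h3 true ε
      rw [if_neg h2, mul_one, e1]

end Pool.Agent.Fol
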