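import Pool.Agent.Fol.Defs

/-! Module CUBE: Faber-Krahn inequality on the hypercube. -/

namespace Pool.Agent.Fol

open Finset Classical

/-- the numerical inequality for the two halves -/
lemma cube_num {A B s t : ℝ} (hA : 0 < A) (hB : 0 < B) (hs : 0 < s) (ht : 0 < t) :
    A * (Real.log 2 - Real.log (s + t) + Real.log s) +
      B * (Real.log 2 - Real.log (s + t) + Real.log t) ≤
      2 * (Real.sqrt A - Real.sqrt B) ^ 2 := by
  have hAB : 0 < A + B := by positivity
  have hst : 0 < s + t := by positivity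
  -- log of ratios
  have h1 : Real.log (s * (A + B) / ((s + t) * A)) ≤ s * (A + B) / ((s + t) * A) - 1 :=
    Real.log_le_sub_one_of_pos (by positivity)
  have h2 : Real.log (t * (A + B) / ((s + t) * B)) ≤ t * (A + B) / ((s + t) * B) - 1 :=
    Real.log_le_sub_one_of_pos (by positivity)
  have h3 : Real.log (2 * A / (A + B)) ≤ 2 * A / (A + B) - 1 :=
    Real.log_le_sub_one_of_pos (by positivity)
  have h4 : Real.log (2 * B / (A + B)) ≤ 2 * B / (A + B) - 1 :=
    Real.log_le_sub_one_of_pos (by positivity)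
  have e1 : Real.log (s * (A + B) / ((s + t) * A)) =
      Real.log s + Real.log (A + B) - Real.log (s + t) - Real.log A := by
    rw [Real.log_div (by positivity) (by positivity), Real.log_mul (by positivity) (by positivity),
      Real.log_mul (by positivity) (by positivity)]
    ring
  have e2 : Real.log (t * (A + B) / ((s + t) * B)) =
      Real.log t + Real.log (A + B) - Real.log (s + t) - Real.log B := by
    rw [Real.log_div (by positivity) (by positivity), Real.log_mul (by positivity) (by positivity),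
      Real.log_mul (by positivity) (by positivity)]
    ring
  have e3 : Real.log (2 * A / (A + B)) = Real.log 2 + Real.log A - Real.log (A + B) := by
    rw [Real.log_div (by positivity) (by positivity), Real.log_mul (by positivity) (by positivity)]
  have e4 : Real.log (2 * B / (A + B)) = Real.log 2 + Real.log B - Real.log (A + B) := by
    rw [Real.log_div (by positivity) (by positivity), Real.log_mul (by positivity) (by positivity)]
  have k1 := mul_le_mul_of_nonneg_left h1 hA.le
  have k2 := mul_le_mul_of_nonneg_left h2 hB.le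
  have k3 := mul_le_mul_of_nonneg_left h3 hA.le
  have k4 := mul_le_mul_of_nonneg_left h4 hB.le
  rw [e1] at k1
  rw [e2] at k2
  rw [e3] at k3
  rw [e4] at k4
  have c1 : A * (s * (A + B) / ((s + t) * A) - 1) + B * (t * (A + B) / ((s + t) * B) - 1) = 0 := by
    field_simp
    ring
  have c2 : A * (2 * A / (A + B) - 1) + B * (2 * B / (A + B) - 1) = (A - B) ^ 2 / (A + B) := by
    field_simp
    ring
  have c3 : (A - B) ^ 2 / (A + B) ≤ 2 * (Real.sqrt A - Real.sqrt B) ^ 2 := by
    rw [div_le_iff₀ hAB]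
    obtain ⟨a, ha⟩ : ∃ a, a = Real.sqrt A := ⟨_, rfl⟩
    obtain ⟨b, hb⟩ : ∃ b, b = Real.sqrt B := ⟨_, rfl⟩
    have hAa : A = a ^ 2 := by rw [ha, Real.sq_sqrt hA.le]
    have hBb : B = b ^ 2 := by rw [hb, Real.sq_sqrt hB.le]
    rw [← ha, ← hb, hAa, hBb]
    have : 0 ≤ (a - b) ^ 2 * (a - b) ^ 2 := by positivity
    nlinarith
  nlinarith

/-- Cauchy-Schwarz: the distance of two vectors is at least the difference of their norms -/
lemma cube_cs {α : Type*} [Fintype α] (f g : α → ℝ) :
    (Real.sqrt (∑ x, f x ^ 2) - Real.sqrt (∑ x, g x ^ 2)) ^ 2 ≤ ∑ x, (f x - g x) ^ 2 := by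
  have h := Real.sum_mul_le_sqrt_mul_sqrt univ f g
  have e : ∑ x, (f x - g x) ^ 2 = ∑ x, f x ^ 2 + ∑ x, g x ^ 2 - 2 * ∑ x, f x * g x := by
    rw [Finset.mul_sum, ← Finset.sum_add_distrib, ← Finset.sum_sub_distrib]
    exact Finset.sum_congr rfl fun x _ => by ring
  have hA : 0 ≤ ∑ x, f x ^ 2 := Finset.sum_nonneg fun x _ => sq_nonneg _
  have hB : 0 ≤ ∑ x, g x ^ 2 := Finset.sum_nonneg fun x _ => sq_nonneg _
  have s1 := Real.sq_sqrt hA
  have s2 := Real.sq_sqrt hB
  rw [e]
  nlinarith

lemma cube_sum_cons {n : ℕ} (F : (Fin (n + 1) → Bool) → ℝ) :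
    ∑ ε, F ε = ∑ ε : Fin n → Bool, F (Fin.cons false ε) + ∑ ε : Fin n → Bool, F (Fin.cons true ε) := by
  rw [← (Fin.consEquiv (fun _ : Fin (n + 1) => Bool)).sum_comp, Fintype.sum_prod_type,
    Fintype.sum_bool, add_comm]
  rfl

/-- the support of the two halves -/
lemma cube_card_cons {n : ℕ} (f : (Fin (n + 1) → Bool) → ℝ) :
    (univ.filter (fun ε => f ε ≠ 0)).card =
      (univ.filter (fun ε : Fin n → Bool => f (Fin.cons false ε) ≠ 0)).card +
      (univ.filter (fun ε : Fin n → Bool => f (Fin.cons true ε) ≠ 0)).card := by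
  have h := cube_sum_cons (n := n) (fun ε => if f ε ≠ 0 then (1 : ℝ) else 0)
  rw [Finset.sum_boole, Finset.sum_boole, Finset.sum_boole] at h
  exact_mod_cast h

lemma cube_fin : ∀ (n : ℕ) (f : (Fin n → Bool) → ℝ) (K : ℕ), 1 ≤ K →
    (univ.filter (fun ε => f ε ≠ 0)).card ≤ K →
    (∑ ε, f ε ^ 2) * (n * Real.log 2 - Real.log K) ≤
      ∑ i, ∑ ε, (f ε - f (Function.update ε i (!(ε i)))) ^ 2 := by
  intro n
  induction n with
  | zero =>
    intro f K hK1 _
    have h1 : 0 ≤ ∑ ε, f ε ^ 2 := Finset.sum_nonneg fun x _ => sq_nonneg _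
    have h2 : 0 ≤ Real.log K := Real.log_nonneg (by exact_mod_cast hK1)
    simp only [Nat.cast_zero, zero_mul, zero_sub, Finset.univ_eq_empty, Finset.sum_empty]
    nlinarith
  | succ n ih =>
    intro f K hK1 hK
    set f0 : (Fin n → Bool) → ℝ := fun ε => f (Fin.cons false ε) with hf0
    set f1 : (Fin n → Bool) → ℝ := fun ε => f (Fin.cons true ε) with hf1
    set A : ℝ := ∑ ε, f0 ε ^ 2 with hA
    set B : ℝ := ∑ ε, f1 ε ^ 2 with hB
    set s : ℕ := (univ.filter (fun ε => f0 ε ≠ 0)).card with hs
    set t : ℕ := (univ.filter (fun ε => f1 ε ≠ 0)).card with ht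
    set D : ℝ := ∑ ε, (f0 ε - f1 ε) ^ 2 with hD
    set E0 : ℝ := ∑ i, ∑ ε, (f0 ε - f0 (Function.update ε i (!(ε i)))) ^ 2 with hE0
    set E1 : ℝ := ∑ i, ∑ ε, (f1 ε - f1 (Function.update ε i (!(ε i)))) ^ 2 with hE1
    have hst : s + t ≤ K := by rw [← cube_card_cons f]; exact hK
    have hAB : ∑ ε, f ε ^ 2 = A + B := cube_sum_cons _
    have hR : ∑ i, ∑ ε, (f ε - f (Function.update ε i (!(ε i)))) ^ 2 = E0 + E1 + 2 * D := by
      rw [Fin.sum_univ_succ]
      have h0 : ∑ ε, (f ε - f (Function.update ε 0 (!(ε 0)))) ^ 2 = 2 * D := by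
        rw [cube_sum_cons, two_mul]
        congr 1
        · refine Finset.sum_congr rfl fun ε _ => ?_
          rw [Fin.cons_zero, Fin.update_cons_zero]
          rfl
        · refine Finset.sum_congr rfl fun ε _ => ?_
          rw [Fin.cons_zero, Fin.update_cons_zero]
          simp only [Bool.not_true, hf0, hf1]
          ring
      have h1 : ∀ i : Fin n, ∑ ε, (f ε - f (Function.update ε i.succ (!(ε i.succ)))) ^ 2
          = ∑ ε, (f0 ε - f0 (Function.update ε i (!(ε i)))) ^ 2
            + ∑ ε, (f1 ε - f1 (Function.update ε i (!(ε i)))) ^ 2 := by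
        intro i
        rw [cube_sum_cons]
        congr 1
        · refine Finset.sum_congr rfl fun ε _ => ?_
          rw [Fin.cons_succ, ← Fin.cons_update]
        · refine Finset.sum_congr rfl fun ε _ => ?_
          rw [Fin.cons_succ, ← Fin.cons_update]
      rw [h0, Finset.sum_congr rfl fun i _ => h1 i, Finset.sum_add_distrib]
      ring
    rw [hAB, hR]
    have hA0 : 0 ≤ A := Finset.sum_nonneg fun x _ => sq_nonneg _
    have hB0 : 0 ≤ B := Finset.sum_nonneg fun x _ => sq_nonneg _
    have hE00 : 0 ≤ E0 := Finset.sum_nonneg fun i _ => Finset.sum_nonneg fun x _ => sq_nonneg _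
    have hE10 : 0 ≤ E1 := Finset.sum_nonneg fun i _ => Finset.sum_nonneg fun x _ => sq_nonneg _
    have hD0 : 0 ≤ D := Finset.sum_nonneg fun x _ => sq_nonneg _
    have hzero : ∀ g : (Fin n → Bool) → ℝ, (univ.filter (fun ε => g ε ≠ 0)).card = 0 →
        ∀ ε, g ε = 0 := by
      intro g hg ε
      by_contra h
      rw [Finset.card_eq_zero] at hg
      have : ε ∈ univ.filter (fun ε => g ε ≠ 0) := Finset.mem_filter.2 ⟨Finset.mem_univ _, h⟩
      rw [hg] at this
      exact absurd this (Finset.notMem_empty _)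
    have hpos : ∀ g : (Fin n → Bool) → ℝ, 1 ≤ (univ.filter (fun ε => g ε ≠ 0)).card →
        0 < ∑ ε, g ε ^ 2 := by
      intro g hg
      obtain ⟨ε, hε⟩ := Finset.card_pos.1 hg
      refine Finset.sum_pos' (fun x _ => sq_nonneg _) ⟨ε, Finset.mem_univ _, ?_⟩
      have := (Finset.mem_filter.1 hε).2
      positivity
    have hl2 : Real.log 2 ≤ 1 := by
      have := Real.log_two_lt_d9; linarith
    have hKpos : (0 : ℝ) < K := by exact_mod_cast hK1
    push_cast
    rcases Nat.eq_zero_or_pos s with hs0 | hs0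
    · have z0 := hzero f0 hs0
      have hA' : A = 0 := by rw [hA]; exact Finset.sum_eq_zero fun x _ => by rw [z0 x]; ring
      have hD' : D = B := by
        rw [hD, hB]; exact Finset.sum_congr rfl fun x _ => by rw [z0 x]; ring
      rcases Nat.eq_zero_or_pos t with ht0 | ht0
      · have z1 := hzero f1 ht0
        have hB' : B = 0 := by rw [hB]; exact Finset.sum_eq_zero fun x _ => by rw [z1 x]; ring
        rw [hA', hB', add_zero, zero_mul]
        positivity
      · have i1 := ih f1 t ht0 le_rfl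
        have htK : Real.log t ≤ Real.log K :=
          Real.log_le_log (by exact_mod_cast ht0) (by exact_mod_cast (by omega : t ≤ K))
        have : B * (Real.log 2 - Real.log K + Real.log t) ≤ 2 * B := by
          nlinarith
        rw [hA', hD']
        nlinarith
    · rcases Nat.eq_zero_or_pos t with ht0 | ht0
      · have z1 := hzero f1 ht0
        have hB' : B = 0 := by rw [hB]; exact Finset.sum_eq_zero fun x _ => by rw [z1 x]; ring
        have hD' : D = A := by
          rw [hD, hA]; exact Finset.sum_congr rfl fun x _ => by rw [z1 x]; ring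
        have i0 := ih f0 s hs0 le_rfl
        have hsK : Real.log s ≤ Real.log K :=
          Real.log_le_log (by exact_mod_cast hs0) (by exact_mod_cast (by omega : s ≤ K))
        have : A * (Real.log 2 - Real.log K + Real.log s) ≤ 2 * A := by
          nlinarith
        rw [hB', hD']
        nlinarith
      · have i0 := ih f0 s hs0 le_rfl
        have i1 := ih f1 t ht0 le_rfl
        have hs' : (0 : ℝ) < s := by exact_mod_cast hs0
        have ht' : (0 : ℝ) < t := by exact_mod_cast ht0
        have n1 := cube_num (hpos f0 hs0) (hpos f1 ht0) hs' ht'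
        have n2 := cube_cs f0 f1
        have hlog : Real.log ((s : ℝ) + t) ≤ Real.log K :=
          Real.log_le_log (by positivity) (by exact_mod_cast hst)
        rw [← hA, ← hB] at n1
        rw [← hA, ← hB, ← hD] at n2
        have n3 : A * (Real.log 2 - Real.log K + Real.log s) +
            B * (Real.log 2 - Real.log K + Real.log t) ≤ 2 * D := by
          nlinarith
        nlinarith

theorem cube_fk {ι : Type*} [Fintype ι] [DecidableEq ι] (f : (ι → Bool) → ℝ) (K : ℕ)
    (hK1 : 1 ≤ K) (hK : (univ.filter (fun ε => f ε ≠ 0)).card ≤ K) :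
    (∑ ε, f ε ^ 2) * (Fintype.card ι * Real.log 2 - Real.log K) ≤
      ∑ i, ∑ ε, (f ε - f (Function.update ε i (!(ε i)))) ^ 2 := by
  obtain ⟨n, ⟨e⟩⟩ : ∃ n, Nonempty (ι ≃ Fin n) := ⟨_, ⟨Fintype.equivFin ι⟩⟩
  have hn : Fintype.card ι = n := by simpa using Fintype.card_congr e
  set c : (Fin n → Bool) ≃ (ι → Bool) := Equiv.arrowCongr e.symm (Equiv.refl Bool) with hc
  have hcap : ∀ (ε : Fin n → Bool) (i : ι), c ε i = ε (e i) := fun ε i => rfl
  have hcard : (univ.filter (fun ε : Fin n → Bool => f (c ε) ≠ 0)).card =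
      (univ.filter (fun ε => f ε ≠ 0)).card :=
    Finset.card_equiv c fun ε => by simp
  have h := cube_fin n (fun ε => f (c ε)) K hK1 (hcard.le.trans hK)
  have hL : ∑ ε : Fin n → Bool, f (c ε) ^ 2 = ∑ ε, f ε ^ 2 := c.sum_comp fun ε => f ε ^ 2
  have hR : ∑ i : Fin n, ∑ ε : Fin n → Bool, (f (c ε) - f (c (Function.update ε i (!(ε i))))) ^ 2
      = ∑ i, ∑ ε, (f ε - f (Function.update ε i (!(ε i)))) ^ 2 := by
    rw [← e.sum_comp]
    refine Finset.sum_congr rfl fun i _ => ?_
    rw [← c.sum_comp]
    refine Finset.sum_congr rfl fun ε _ => ?_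
    have : c (Function.update ε (e i) (!(ε (e i)))) = Function.update (c ε) i (!(c ε i)) := by
      funext j
      rw [hcap]
      by_cases hj : j = i
      · subst hj; simp [hcap]
      · rw [Function.update_of_ne hj, Function.update_of_ne (by simpa using hj), hcap]
    rw [this]
  rw [hn, ← hL, ← hR]
  exact h

end Pool.Agent.Fol
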