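import Mathlib

/-!
# Grigorchuk groups: definitions for the lower bound of the Folner function

`P` is the group of permutations of the vertices of the binary tree (finite words of Booleans).
-/

namespace Pool.Agent.Fol

/-! ### word length -/

/-- `g` is a product of at most `n` elements of `S` -/
def WL {H : Type*} [Monoid H] (S : Set H) (n : ℕ) (g : H) : Prop :=
  ∃ l : List H, l.length ≤ n ∧ (∀ x ∈ l, x ∈ S) ∧ l.prod = g

/-- `g` is a product of at most `x` elements of `S` -/
def RL {H : Type*} [Monoid H] (S : Set H) (x : ℝ) (g : H) : Prop :=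
  ∃ N : ℕ, (N : ℝ) ≤ x ∧ WL S N g

/-! ### letters -/

/-- the Klein four group -/
abbrev V := Multiplicative (ZMod 2 × ZMod 2)

/-- the three letters -/
def lt : Fin 3 → V
  | 0 => Multiplicative.ofAdd (1, 0)
  | 1 => Multiplicative.ofAdd (0, 1)
  | 2 => Multiplicative.ofAdd (1, 1)

/-- does the letter `u` act at a level with special letter `i`? -/
def act (i : Fin 3) (u : V) : Bool := decide (u ≠ 1 ∧ u ≠ lt i)

/-! ### the tree -/

/-- vertices of the binary tree -/
abbrev T := List Bool

/-- permutations of the vertices -/
abbrev P := Equiv.Perm T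

/-- change the first letter -/
def flipF : T → T
  | [] => []
  | x :: w => (!x) :: w

lemma flipF_invol : Function.Involutive flipF := by
  intro w
  cases w with
  | nil => rfl
  | cons x w => simp [flipF]

/-- the generator `a` -/
def aP : P := flipF_invol.toPerm

/-- the action of the letter `u`, with index `k` -/
def letF (ω : ℕ → Fin 3) (u : V) : ℕ → T → T
  | _, [] => []
  | k, false :: w => false :: (if act (ω k) u then flipF w else w)
  | k, true :: w => true :: letF ω u (k + 1) w

lemma act_one (i : Fin 3) : act i 1 = false := by simp [act]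

lemma act_mul (i : Fin 3) (u v : V) : act i (u * v) = xor (act i u) (act i v) := by
  revert i u v; decide

lemma letF_one (ω : ℕ → Fin 3) (k : ℕ) (w : T) : letF ω 1 k w = w := by
  induction w generalizing k with
  | nil => rfl
  | cons x w ih =>
    cases x
    · simp [letF, act_one]
    · simp [letF, ih]

lemma letF_mul (ω : ℕ → Fin 3) (u v : V) (k : ℕ) (w : T) :
    letF ω (u * v) k w = letF ω u k (letF ω v k w) := by
  induction w generalizing k with
  | nil => rfl
  | cons x w ih =>
    cases x
    · simp only [letF, act_mul]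
      rcases Bool.eq_false_or_eq_true (act (ω k) u) with hu | hu <;>
      rcases Bool.eq_false_or_eq_true (act (ω k) v) with hv | hv <;>
      simp [hu, hv, flipF_invol w]
    · simp [letF, ih]

lemma V_mul_self (u : V) : u * u = 1 := by revert u; decide

/-- the letter `u` with index `k` as a permutation -/
def letP (ω : ℕ → Fin 3) (k : ℕ) (u : V) : P where
  toFun := letF ω u k
  invFun := letF ω u k
  left_inv w := by rw [← letF_mul, V_mul_self, letF_one]
  right_inv w := by rw [← letF_mul, V_mul_self, letF_one]

/-- the letters with index `k` -/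
def letHom (ω : ℕ → Fin 3) (k : ℕ) : V →* P where
  toFun := letP ω k
  map_one' := Equiv.ext fun w => letF_one ω k w
  map_mul' u v := Equiv.ext fun w => letF_mul ω u v k w

/-- the action of a pair -/
def prF (x y : T → T) : T → T
  | [] => []
  | false :: w => false :: x w
  | true :: w => true :: y w

/-- the pair `(x, y)` -/
def pr (x y : P) : P where
  toFun := prF x y
  invFun := prF x.symm y.symm
  left_inv w := by
    match w with
    | [] => rfl
    | false :: w => simp [prF]
    | true :: w => simp [prF]
  right_inv w := by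
    match w with
    | [] => rfl
    | false :: w => simp [prF]
    | true :: w => simp [prF]

/-- generators of the group with index `k` -/
def gens (ω : ℕ → Fin 3) (k : ℕ) : Set P := {g | g = aP ∨ ∃ u : V, g = letP ω k u}

/-! ### the free product of `Z / 2` and the Klein four group -/

/-- the free product -/
abbrev F := Monoid.Coprod (Multiplicative (ZMod 2)) V

/-- the generator `a` -/
def fa : F := Monoid.Coprod.inl (Multiplicative.ofAdd 1)

/-- the letters -/
def fu : V →* F := Monoid.Coprod.inr

/-- the homomorphism given by an involution -/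
def invHom {H : Type*} [Group H] (x : H) (hx : x * x = 1) : Multiplicative (ZMod 2) →* H where
  toFun z := if z = 1 then 1 else x
  map_one' := if_pos rfl
  map_mul' z w := by
    have h : ∀ z : Multiplicative (ZMod 2), z = 1 ∨ z = Multiplicative.ofAdd 1 := by decide
    have h1 : (Multiplicative.ofAdd 1 : Multiplicative (ZMod 2)) ≠ 1 := by decide
    have h2 : (Multiplicative.ofAdd 1 : Multiplicative (ZMod 2)) * Multiplicative.ofAdd 1 = 1 := by
      decide
    rcases h z with rfl | rfl <;> rcases h w with rfl | rfl <;> simp [h1, h2, hx]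

/-- homomorphisms on the free product -/
def liftF {H : Type*} [Group H] (x : H) (hx : x * x = 1) (φ : V →* H) : F →* H :=
  Monoid.Coprod.lift (invHom x hx) φ

@[simp] lemma liftF_fa {H : Type*} [Group H] (x : H) (hx : x * x = 1) (φ : V →* H) :
    liftF x hx φ fa = x := by
  have h1 : (Multiplicative.ofAdd 1 : Multiplicative (ZMod 2)) ≠ 1 := by decide
  unfold liftF fa
  rw [Monoid.Coprod.lift_apply_inl]
  simp [invHom]

@[simp] lemma liftF_fu {H : Type*} [Group H] (x : H) (hx : x * x = 1) (φ : V →* H) (u : V) :
    liftF x hx φ (fu u) = φ u := by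
  unfold liftF fu
  rw [Monoid.Coprod.lift_apply_inr]

lemma homF_ext {H : Type*} [Monoid H] {φ ψ : F →* H} (ha : φ fa = ψ fa)
    (hu : ∀ u, φ (fu u) = ψ (fu u)) : φ = ψ := by
  apply Monoid.Coprod.hom_ext
  · refine MonoidHom.ext fun z => ?_
    have h : ∀ z : Multiplicative (ZMod 2), z = 1 ∨ z = Multiplicative.ofAdd 1 := by decide
    rcases h z with rfl | rfl
    · rw [map_one, map_one]
    · exact ha
  · exact MonoidHom.ext fun u => hu u

lemma fa_mul_fa : fa * fa = 1 := by
  unfold fa
  rw [← map_mul]
  have : (Multiplicative.ofAdd 1 : Multiplicative (ZMod 2)) * Multiplicative.ofAdd 1 = 1 := by decide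
  rw [this, map_one]

lemma fu_mul_self (u : V) : fu u * fu u = 1 := by rw [← map_mul, V_mul_self, map_one]

lemma fa_inv : fa⁻¹ = fa := inv_eq_of_mul_eq_one_left fa_mul_fa

lemma fu_inv (u : V) : (fu u)⁻¹ = fu u := inv_eq_of_mul_eq_one_left (fu_mul_self u)

/-- induction on the free product -/
lemma F_induction {p : F → Prop} (one : p 1) (a : ∀ f, p f → p (fa * f))
    (u : ∀ (u : V) (f : F), p f → p (fu u * f)) (f : F) : p f := by
  have key : ∀ f g : F, p g → p (f * g) := by
    intro f
    induction f using Monoid.Coprod.induction_on with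
    | inl m =>
      intro g hg
      have h : ∀ z : Multiplicative (ZMod 2), z = 1 ∨ z = Multiplicative.ofAdd 1 := by decide
      rcases h m with rfl | rfl
      · simpa using hg
      · exact a g hg
    | inr n => intro g hg; exact u n g hg
    | mul x y hx hy => intro g hg; rw [mul_assoc]; exact hx _ (hy _ hg)
  simpa using key f 1 one

/-- generators of the free product -/
def gensF : Set F := {f | f = fa ∨ ∃ u : V, f = fu u}

/-- number of letters `a` -/
inductive AL : ℕ → F → Prop
  | u (u : V) : AL 0 (fu u)
  | a : AL 1 fa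
  | mul {m n : ℕ} {f g : F} (hf : AL m f) (hg : AL n g) : AL (m + n) (f * g)

lemma aP_mul_aP : aP * aP = 1 := Equiv.ext fun w => flipF_invol w

/-- evaluation with index `k` -/
def ev (ω : ℕ → Fin 3) (k : ℕ) : F →* P := liftF aP aP_mul_aP (letHom ω k)

lemma S_aux (w : V) : (fa * fu w * fa) * (fa * fu w * fa) = 1 := by
  calc (fa * fu w * fa) * (fa * fu w * fa) = fa * (fu w * (fa * fa) * fu w) * fa := by group
    _ = 1 := by rw [fa_mul_fa, mul_one, fu_mul_self, mul_one, fa_mul_fa]

/-- the substitution `a ↦ a w a` -/
def Sx (w : V) : F →* F := liftF (fa * fu w * fa) (S_aux w) fu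

/-- the special letter of the previous level -/
def up (ω : ℕ → Fin 3) : ℕ → Fin 3
  | 0 => 0
  | k + 1 => ω k

/-- the letter of the substitution with index `k`, different from `ω k` -/
def wS (ω : ℕ → Fin 3) (k : ℕ) : Fin 3 := if up ω k = ω k then ω k + 1 else up ω k

/-- the substitution with index `k` -/
def Sk (ω : ℕ → Fin 3) (k : ℕ) : F →* F := Sx (lt (wS ω k))

/-- the normal closure of `(a u) ^ 2` -/
def NK (i : Fin 3) : Subgroup F := Subgroup.normalClosure {(fa * fu (lt i)) ^ 2}

/-- the parity: `a` and the letters different from `lt i` are odd -/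
def chi (i : Fin 3) : F →* Multiplicative (ZMod 2) :=
  liftF (Multiplicative.ofAdd 1) (by decide)
    { toFun := fun u => if act i u then Multiplicative.ofAdd 1 else 1
      map_one' := by simp [act_one]
      map_mul' := by revert i; decide }

/-- an element at a vertex -/
def iot : T → P → P
  | [], x => x
  | false :: v, x => pr (iot v x) 1
  | true :: v, x => pr 1 (iot v x)

/-- a word for the element at a vertex -/
def Lk (ω : ℕ → Fin 3) : T → ℕ → F → F
  | [], _, f => f
  | false :: v, k, f => fa * Sk ω k (Lk ω v (k + 1) f) * fa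
  | true :: v, k, f => Sk ω k (Lk ω v (k + 1) f)

/-- the embedding of the functions on the vertices of level `m` -/
def Theta : ℕ → (T → P) → P
  | 0, σ => σ []
  | m + 1, σ => pr (aP * Theta m (fun u => σ (false :: u)) * aP) (Theta m (fun u => σ (true :: u)))

/-- the vertex `1 ^ k` -/
def ones (k : ℕ) : T := List.replicate k true

/-- all elements at the level `r` equal to `x` -/
def cst : ℕ → P → P
  | 0, x => x
  | r + 1, x => pr (cst r x) (cst r x)

/-- the relations of the toggles -/
def NF (v p : Fin 3) : Subgroup F :=
  Subgroup.normalClosure ({x | ∃ κ ∈ NK v, x = fu (lt v) * κ * fu (lt v) * κ⁻¹} ∪ {(fa * fu (lt p)) ^ 4})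

/-- the pattern of the sequence needed for the toggles: sites at level `m`, `k` levels below -/
structure Cond (ω : ℕ → Fin 3) (m k r : ℕ) (v p : Fin 3) : Prop where
  m1 : 1 ≤ m
  r1 : 1 ≤ r
  r3 : r ≤ 3
  k3 : 3 ≤ k
  hv : ω (m - 1) = v
  hfirst : ∀ i, i + 1 < r → ω (m + i) ≠ v
  hret : ω (m + r - 1) = v
  hk : ω (m + k - 1) = v
  hp : ω (m + k) = p
  hpv : p ≠ v

/-- not eventually constant -/
def NC (ω : ℕ → Fin 3) : Prop := ∀ k, ∃ l, k ≤ l ∧ ω l ≠ ω k

end Pool.Agent.Fol
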