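import Pool.Agent.Fol.Basic

/-!
# Energy inequality for commuting averages
-/

namespace Pool.Agent.Fol

set_option linter.unusedSectionVars false
set_option warn.classDefReducibility false

open Finset

section Abstract

variable {E : Type*} [NormedAddCommGroup E] [InnerProductSpace ℝ E]
variable {J : Type*} [Fintype J]

/-- the average -/
noncomputable def av (U : J → (E →ₗ[ℝ] E)) : E →ₗ[ℝ] E := (Fintype.card J : ℝ)⁻¹ • ∑ j, U j

lemma av_apply (U : J → (E →ₗ[ℝ] E)) (u : E) : av U u = (Fintype.card J : ℝ)⁻¹ • ∑ j, U j u := by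
  unfold av
  rw [LinearMap.smul_apply, LinearMap.sum_apply]

lemma av_norm_le [Nonempty J] {U : J → (E →ₗ[ℝ] E)} (hU : ∀ j u, ‖U j u‖ = ‖u‖) (u : E) :
    ‖av U u‖ ≤ ‖u‖ := by
  have hn : (0 : ℝ) < Fintype.card J := by exact_mod_cast Fintype.card_pos
  rw [av_apply, norm_smul, Real.norm_of_nonneg (inv_nonneg.2 hn.le)]
  calc (Fintype.card J : ℝ)⁻¹ * ‖∑ j, U j u‖ ≤ (Fintype.card J : ℝ)⁻¹ * ∑ j, ‖U j u‖ :=
        mul_le_mul_of_nonneg_left (norm_sum_le _ _) (inv_nonneg.2 hn.le)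
    _ = ‖u‖ := by
        simp only [hU, sum_const, card_univ, nsmul_eq_mul]
        field_simp

/-- the variance identity -/
lemma av_variance [Nonempty J] {U : J → (E →ₗ[ℝ] E)} (hU : ∀ j u, ‖U j u‖ = ‖u‖) (u : E) :
    2 * (Fintype.card J : ℝ) ^ 2 * (‖u‖ ^ 2 - ‖av U u‖ ^ 2) = ∑ j, ∑ j', ‖U j u - U j' u‖ ^ 2 := by
  have hn : (0 : ℝ) < Fintype.card J := by exact_mod_cast Fintype.card_pos
  have h1 : ∀ j j', ‖U j u - U j' u‖ ^ 2 = 2 * ‖u‖ ^ 2 - 2 * inner ℝ (U j u) (U j' u) := by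
    intro j j'
    rw [norm_sub_sq_real, hU, hU]; ring
  have h2 : ‖av U u‖ ^ 2 = ((Fintype.card J : ℝ)⁻¹) ^ 2 * ∑ j, ∑ j', inner ℝ (U j u) (U j' u) := by
    rw [av_apply, norm_smul, mul_pow, Real.norm_of_nonneg (inv_nonneg.2 hn.le),
      ← real_inner_self_eq_norm_sq, sum_inner]
    congr 1
    apply sum_congr rfl
    intro j _
    rw [inner_sum]
  have h3 : ∑ j : J, ∑ j' : J, ‖U j u - U j' u‖ ^ 2 =
      2 * (Fintype.card J : ℝ) ^ 2 * ‖u‖ ^ 2 - 2 * ∑ j, ∑ j', inner ℝ (U j u) (U j' u) := by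
    simp only [h1, sum_sub_distrib, sum_const, card_univ, nsmul_eq_mul, ← mul_sum]
    ring
  rw [h3, h2]
  field_simp

lemma av_energy_nonneg [Nonempty J] {U : J → (E →ₗ[ℝ] E)} (hU : ∀ j u, ‖U j u‖ = ‖u‖) (u : E) :
    0 ≤ ‖u‖ ^ 2 - ‖av U u‖ ^ 2 := by
  have := av_norm_le hU u
  nlinarith [norm_nonneg (av U u)]

/-- one generator is controlled by the energy -/
lemma av_single [Nonempty J] {U : J → (E →ₗ[ℝ] E)} (hU : ∀ j u, ‖U j u‖ = ‖u‖) {j0 : J}
    (h0 : ∀ u, U j0 u = u) (u : E) (j : J) :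
    ‖u - U j u‖ ^ 2 ≤ (Fintype.card J : ℝ) ^ 2 * (‖u‖ ^ 2 - ‖av U u‖ ^ 2) := by
  classical
  have h1 := av_variance hU u
  have h2 : 2 * ‖u - U j u‖ ^ 2 ≤ ∑ a, ∑ b, ‖U a u - U b u‖ ^ 2 := by
    by_cases hj : j = j0
    · rw [hj, h0, sub_self, norm_zero]
      have : (0 : ℝ) ≤ ∑ a, ∑ b, ‖U a u - U b u‖ ^ 2 :=
        sum_nonneg fun a _ => sum_nonneg fun b _ => by positivity
      simpa using this
    · have e1 : ‖u - U j u‖ ^ 2 ≤ ∑ b, ‖U j0 u - U b u‖ ^ 2 := by
        have := single_le_sum (f := fun b => ‖U j0 u - U b u‖ ^ 2)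
          (fun b _ => by positivity) (mem_univ j)
        simpa only [h0] using this
      have e2 : ‖u - U j u‖ ^ 2 ≤ ∑ b, ‖U j u - U b u‖ ^ 2 := by
        have := single_le_sum (f := fun b => ‖U j u - U b u‖ ^ 2)
          (fun b _ => by positivity) (mem_univ j0)
        simp only [h0] at this
        rwa [norm_sub_rev] at this
      have e3 : (∑ b, ‖U j0 u - U b u‖ ^ 2) + ∑ b, ‖U j u - U b u‖ ^ 2 ≤
          ∑ a, ∑ b, ‖U a u - U b u‖ ^ 2 := by
        have h4 := sum_le_sum_of_subset_of_nonneg (s := ({j0, j} : Finset J)) (t := univ)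
          (f := fun a => ∑ b, ‖U a u - U b u‖ ^ 2) (subset_univ _)
          (fun a _ _ => sum_nonneg fun b _ => by positivity)
        rwa [sum_pair (fun h => hj h.symm)] at h4
      linarith
  rw [← h1] at h2
  linarith

/-- the energy decreases under commuting contractions -/
lemma av_comm_energy [Nonempty J] {U : J → (E →ₗ[ℝ] E)} (hU : ∀ j u, ‖U j u‖ = ‖u‖)
    (C : E →ₗ[ℝ] E) (hC : ∀ u, ‖C u‖ ≤ ‖u‖) (hcomm : ∀ j u, U j (C u) = C (U j u)) (u : E) :
    ‖C u‖ ^ 2 - ‖av U (C u)‖ ^ 2 ≤ ‖u‖ ^ 2 - ‖av U u‖ ^ 2 := by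
  have hn : (0 : ℝ) < Fintype.card J := by exact_mod_cast Fintype.card_pos
  have h1 := av_variance hU u
  have h2 := av_variance hU (C u)
  have h3 : ∑ j, ∑ j', ‖U j (C u) - U j' (C u)‖ ^ 2 ≤ ∑ j, ∑ j', ‖U j u - U j' u‖ ^ 2 := by
    apply sum_le_sum
    intro j _
    apply sum_le_sum
    intro j' _
    rw [hcomm, hcomm, ← map_sub]
    exact pow_le_pow_left₀ (norm_nonneg _) (hC _) 2
  rw [← h1, ← h2] at h3
  have h4 : (0 : ℝ) < 2 * (Fintype.card J : ℝ) ^ 2 := by positivity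
  exact le_of_mul_le_mul_left h3 h4

/-- the energy decreases under the average itself -/
lemma av_self_energy {B : E →ₗ[ℝ] E} (hB : ∀ u v, inner ℝ (B u) v = inner ℝ u (B v)) (u : E) :
    ‖B u‖ ^ 2 - ‖B (B u)‖ ^ 2 ≤ ‖u‖ ^ 2 - ‖B u‖ ^ 2 := by
  have h1 : ‖B u‖ ^ 2 ≤ ‖u‖ * ‖B (B u)‖ := by
    rw [← real_inner_self_eq_norm_sq, hB]
    exact real_inner_le_norm _ _
  nlinarith [sq_nonneg (‖u‖ - ‖B (B u)‖)]

variable {X : Type*}

/-- the product of the averages -/
noncomputable def avl (U : X → J → (E →ₗ[ℝ] E)) : List X → E → E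
  | [], f => f
  | x :: l, f => av (U x) (avl U l f)

lemma avl_norm_le [Nonempty J] {U : X → J → (E →ₗ[ℝ] E)} (hU : ∀ x j u, ‖U x j u‖ = ‖u‖)
    (l : List X) (f : E) : ‖avl U l f‖ ≤ ‖f‖ := by
  induction l with
  | nil => exact le_refl _
  | cons x l ih => exact (av_norm_le (hU x) _).trans ih

/-- The energy inequality. -/
theorem avl_energy [Nonempty J] {U : X → J → (E →ₗ[ℝ] E)} (hU : ∀ x j u, ‖U x j u‖ = ‖u‖)
    (hcomm : ∀ x x', x ≠ x' → ∀ j j' u, U x j (U x' j' u) = U x' j' (U x j u))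
    (hsym : ∀ x u v, inner ℝ (av (U x) u) v = inner ℝ u (av (U x) v)) (l : List X) (hl : l.Nodup)
    (f : E) : (l.map (fun x => ‖avl U l f‖ ^ 2 - ‖av (U x) (avl U l f)‖ ^ 2)).sum ≤
      ‖f‖ ^ 2 - ‖avl U l f‖ ^ 2 := by
  induction l with
  | nil => simp [avl]
  | cons x0 l ih =>
    rw [List.nodup_cons] at hl
    have h1 := ih hl.2
    set g := avl U l f with hg
    have h2 : avl U (x0 :: l) f = av (U x0) g := rfl
    rw [h2, List.map_cons, List.sum_cons]
    have h3 := av_self_energy (hsym x0) g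
    have h4 : (l.map (fun x => ‖av (U x0) g‖ ^ 2 - ‖av (U x) (av (U x0) g)‖ ^ 2)).sum ≤
        (l.map (fun x => ‖g‖ ^ 2 - ‖av (U x) g‖ ^ 2)).sum := by
      apply List.sum_le_sum
      intro x hx
      have hne : x ≠ x0 := fun h => hl.1 (h ▸ hx)
      apply av_comm_energy (hU x) (av (U x0)) (av_norm_le (hU x0))
      intro j u
      rw [av_apply, av_apply, map_smul, map_sum]
      congr 1
      exact sum_congr rfl fun j' _ => hcomm x x0 hne j j' u
    linarith

end Abstract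

/-! ### functions of finite support on a group -/

section Group

variable (G : Type*) [Group G]

/-- functions of finite support -/
def FS : Type _ := G →₀ ℝ

noncomputable instance : AddCommGroup (FS G) := inferInstanceAs (AddCommGroup (G →₀ ℝ))
noncomputable instance : Module ℝ (FS G) := inferInstanceAs (Module ℝ (G →₀ ℝ))

variable {G}

/-- the value -/
def FS.val (u : FS G) (h : G) : ℝ := (show G →₀ ℝ from u) h

/-- the support -/
def FS.supp (u : FS G) : Finset G := (show G →₀ ℝ from u).support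

lemma FS.ext {u v : FS G} (h : ∀ x, u.val x = v.val x) : u = v := Finsupp.ext h

lemma FS.val_add (u v : FS G) (h : G) : (u + v).val h = u.val h + v.val h := rfl
lemma FS.val_sub (u v : FS G) (h : G) : (u - v).val h = u.val h - v.val h := rfl
lemma FS.val_smul (c : ℝ) (u : FS G) (h : G) : (c • u).val h = c * u.val h := rfl
lemma FS.val_zero (h : G) : (0 : FS G).val h = 0 := rfl
lemma FS.not_mem_supp {u : FS G} {h : G} : h ∉ u.supp ↔ u.val h = 0 := Finsupp.notMem_support_iff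

lemma FS.val_sum {ι : Type*} (s : Finset ι) (u : ι → FS G) (h : G) :
    (∑ i ∈ s, u i).val h = ∑ i ∈ s, (u i).val h := by
  classical
  induction s using Finset.induction_on with
  | empty => simp [FS.val_zero]
  | insert i s his ih => rw [sum_insert his, sum_insert his, FS.val_add, ih]

/-- the scalar product -/
noncomputable def FS.ip (u v : FS G) : ℝ := ∑ h ∈ u.supp, u.val h * v.val h

lemma FS.ip_eq {u v : FS G} {s : Finset G} (hs : u.supp ⊆ s ∨ v.supp ⊆ s) :
    FS.ip u v = ∑ h ∈ s, u.val h * v.val h := by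
  classical
  have h1 : FS.ip u v = ∑ h ∈ u.supp ∪ s, u.val h * v.val h := by
    apply sum_subset subset_union_left
    intro h _ h2
    rw [FS.not_mem_supp.1 h2, zero_mul]
  rw [h1]
  symm
  apply sum_subset subset_union_right
  intro h _ h2
  rcases hs with h3 | h3
  · rw [FS.not_mem_supp.1 (fun h4 => h2 (h3 h4)), zero_mul]
  · rw [FS.not_mem_supp.1 (fun h4 => h2 (h3 h4)), mul_zero]

/-- the scalar product as a core -/
noncomputable def FS.core (G : Type*) [Group G] : InnerProductSpace.Core ℝ (FS G) where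
  inner u v := FS.ip u v
  conj_inner_symm u v := by
    show FS.ip v u = FS.ip u v
    rw [FS.ip_eq (s := u.supp) (Or.inr (Finset.Subset.refl _))]
    exact sum_congr rfl fun h _ => mul_comm _ _
  re_inner_nonneg u := by
    show 0 ≤ FS.ip u u
    exact sum_nonneg fun h _ => mul_self_nonneg _
  add_left u v w := by
    classical
    show FS.ip (u + v) w = FS.ip u w + FS.ip v w
    rw [FS.ip_eq (s := w.supp) (Or.inr (Finset.Subset.refl _)),
      FS.ip_eq (u := u) (s := w.supp) (Or.inr (Finset.Subset.refl _)),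
      FS.ip_eq (u := v) (s := w.supp) (Or.inr (Finset.Subset.refl _)), ← sum_add_distrib]
    exact sum_congr rfl fun h _ => by rw [FS.val_add]; ring
  smul_left u v r := by
    show FS.ip (r • u) v = r * FS.ip u v
    rw [FS.ip_eq (s := v.supp) (Or.inr (Finset.Subset.refl _)),
      FS.ip_eq (u := u) (s := v.supp) (Or.inr (Finset.Subset.refl _)), mul_sum]
    exact sum_congr rfl fun h _ => by rw [FS.val_smul]; ring
  definite u hu := by
    have hu' : FS.ip u u = 0 := hu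
    unfold FS.ip at hu'
    rw [sum_eq_zero_iff_of_nonneg (fun h _ => mul_self_nonneg _)] at hu'
    apply FS.ext
    intro x
    rw [FS.val_zero]
    by_cases hx : x ∈ u.supp
    · exact mul_self_eq_zero.1 (hu' x hx)
    · exact FS.not_mem_supp.1 hx

noncomputable instance : NormedAddCommGroup (FS G) :=
  @InnerProductSpace.Core.toNormedAddCommGroup ℝ (FS G) _ _ _ (FS.core G)

noncomputable instance : InnerProductSpace ℝ (FS G) :=
  InnerProductSpace.ofCore (FS.core G).toCore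

lemma FS.inner_eq (u v : FS G) : inner ℝ u v = FS.ip u v := rfl

lemma FS.norm_sq (u : FS G) : ‖u‖ ^ 2 = ∑ h ∈ u.supp, (u.val h) ^ 2 := by
  rw [← real_inner_self_eq_norm_sq, FS.inner_eq]
  unfold FS.ip
  exact sum_congr rfl fun h _ => (pow_two _).symm

lemma FS.norm_sq' (u : FS G) {s : Finset G} (hs : u.supp ⊆ s) :
    ‖u‖ ^ 2 = ∑ h ∈ s, (u.val h) ^ 2 := by
  rw [← real_inner_self_eq_norm_sq, FS.inner_eq, FS.ip_eq (Or.inl hs)]
  exact sum_congr rfl fun h _ => (pow_two _).symm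

end Group

end Pool.Agent.Fol
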