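import Pool.Agent.Fol.Energy
import Pool.Agent.Fol.Cube

/-!
# The bound in one fibre
-/

namespace Pool.Agent.Fol

open Finset

set_option linter.unusedSectionVars false

section RightTranslation

variable {G : Type*} [Group G]

/-- right translation -/
noncomputable def RT (g : G) : FS G →ₗ[ℝ] FS G :=
  (Finsupp.lmapDomain ℝ ℝ (fun h : G => h * g⁻¹) : (G →₀ ℝ) →ₗ[ℝ] (G →₀ ℝ))

lemma RT_val (g : G) (u : FS G) (h : G) : (RT g u).val h = u.val (h * g) := by
  have hinj : Function.Injective (fun h : G => h * g⁻¹) := fun a b hab => mul_right_cancel hab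
  have h1 := Finsupp.mapDomain_apply hinj (show G →₀ ℝ from u) (h * g)
  rw [mul_inv_cancel_right] at h1
  exact h1

lemma RT_mul (g g' : G) (u : FS G) : RT (g * g') u = RT g (RT g' u) := by
  apply FS.ext
  intro x
  rw [RT_val, RT_val, RT_val, mul_assoc]

lemma RT_one (u : FS G) : RT (1 : G) u = u := by
  apply FS.ext
  intro x
  rw [RT_val, mul_one]

lemma RT_inner (g : G) (u v : FS G) : inner ℝ (RT g u) v = inner ℝ u (RT g⁻¹ v) := by
  classical
  rw [FS.inner_eq, FS.inner_eq, FS.ip_eq (s := u.supp.image (fun h => h * g⁻¹)) (Or.inl _)]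
  · rw [sum_image (fun a _ b _ hab => mul_right_cancel hab)]
    unfold FS.ip
    apply sum_congr rfl
    intro h _
    rw [RT_val, RT_val, inv_mul_cancel_right]
  · intro h hh
    by_contra hc
    apply FS.not_mem_supp.2 _ hh
    rw [RT_val]
    by_contra hne
    apply hc
    rw [mem_image]
    exact ⟨h * g, by by_contra hs; exact hne (FS.not_mem_supp.1 hs), by rw [mul_inv_cancel_right]⟩

lemma RT_norm (g : G) (u : FS G) : ‖RT g u‖ = ‖u‖ := by
  have h1 : ‖RT g u‖ ^ 2 = ‖u‖ ^ 2 := by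
    rw [← real_inner_self_eq_norm_sq, RT_inner, ← RT_mul, inv_mul_cancel, RT_one,
      real_inner_self_eq_norm_sq]
  exact (sq_eq_sq₀ (norm_nonneg _) (norm_nonneg _)).1 h1

lemma FS.sum_sq_le (u : FS G) (s : Finset G) : ∑ h ∈ s, (u.val h) ^ 2 ≤ ‖u‖ ^ 2 := by
  classical
  rw [FS.norm_sq' u (s := u.supp ∪ s) subset_union_left]
  exact sum_le_sum_of_subset_of_nonneg subset_union_right fun _ _ _ => sq_nonneg _

/-- the indicator function -/
noncomputable def ind (A : Finset G) : FS G := Finsupp.indicator A (fun _ _ => (1 : ℝ))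

lemma ind_val (A : Finset G) (h : G) [Decidable (h ∈ A)] : (ind A).val h = if h ∈ A then 1 else 0 := by
  classical
  have := Finsupp.indicator_apply A (fun _ _ => (1 : ℝ)) h
  show (Finsupp.indicator A (fun _ _ => (1 : ℝ))) h = _
  rw [this]
  by_cases hh : h ∈ A <;> simp [hh]

lemma ind_supp (A : Finset G) : (ind A).supp = A := by
  classical
  ext h
  constructor
  · intro hh
    by_contra hc
    apply FS.not_mem_supp.2 _ hh
    rw [ind_val, if_neg hc]
  · intro hh
    by_contra hc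
    have := FS.not_mem_supp.1 hc
    rw [ind_val, if_pos hh] at this
    exact one_ne_zero this

lemma ind_norm (A : Finset G) : ‖ind A‖ ^ 2 = A.card := by
  classical
  rw [FS.norm_sq, ind_supp]
  rw [sum_congr rfl (g := fun _ => (1 : ℝ)) (fun h hh => by rw [ind_val, if_pos hh, one_pow])]
  simp

lemma ind_inner (A : Finset G) (g : G) [DecidablePred (fun x => x * g ∈ A)] :
    inner ℝ (ind A) (RT g (ind A)) = ((A.filter (fun x => x * g ∈ A)).card : ℝ) := by
  classical
  rw [FS.inner_eq]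
  unfold FS.ip
  rw [ind_supp]
  rw [sum_congr rfl (g := fun h => if h * g ∈ A then (1 : ℝ) else 0) (fun h hh => by
    rw [ind_val, if_pos hh, RT_val, ind_val, one_mul])]
  rw [sum_boole]

end RightTranslation

section Main

variable {G Γ X J I : Type*} [Group G] [Group Γ] [Fintype X] [DecidableEq X]
    [Fintype J]

/-- the operators -/
noncomputable def UU (Φ : (X → Γ) →* G) (y : J → Γ) (x : X) (j : J) : FS G →ₗ[ℝ] FS G :=
  RT (Φ (Pi.mulSingle x (y j)))

lemma UU_norm (Φ : (X → Γ) →* G) (y : J → Γ) (x : X) (j : J) (u : FS G) : ‖UU Φ y x j u‖ = ‖u‖ :=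
  RT_norm _ _

lemma UU_comm (Φ : (X → Γ) →* G) (y : J → Γ) (x x' : X) (h : x ≠ x') (j j' : J) (u : FS G) :
    UU Φ y x j (UU Φ y x' j' u) = UU Φ y x' j' (UU Φ y x j u) := by
  unfold UU
  have h1 : (Pi.mulSingle x (y j) : X → Γ) * Pi.mulSingle x' (y j') =
      Pi.mulSingle x' (y j') * Pi.mulSingle x (y j) :=
    (Pi.mulSingle_commute (f := fun _ : X => Γ) h (y j) (y j')).eq
  rw [← RT_mul, ← RT_mul, ← map_mul, ← map_mul, h1]

lemma UU_sym (Φ : (X → Γ) →* G) (y : J → Γ) (inv : J → J) (hinv : ∀ j, y (inv j) = (y j)⁻¹)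
    (hinv2 : Function.Involutive inv) (x : X) (u v : FS G) :
    inner ℝ (av (UU Φ y x) u) v = inner ℝ u (av (UU Φ y x) v) := by
  rw [av_apply, av_apply, inner_smul_left, inner_smul_right, sum_inner, inner_sum]
  congr 1
  rw [← Equiv.sum_comp (Function.Involutive.toPerm inv hinv2)
    (fun j => inner ℝ u (UU Φ y x j v))]
  apply sum_congr rfl
  intro j _
  unfold UU
  rw [RT_inner, ← map_inv, ← Pi.mulSingle_inv]
  show inner ℝ u (RT (Φ (Pi.mulSingle x (y j)⁻¹)) v) =
    inner ℝ u (RT (Φ (Pi.mulSingle x (y (inv j)))) v)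
  rw [hinv]

/-- the average is in the convex hull -/
lemma avl_hull (Φ : (X → Γ) →* G) (y : J → Γ) (j0 : J) (hj0 : y j0 = 1) (f : FS G) (l : List X)
    (hl : l.Nodup) : avl (UU Φ y) l f ∈ convexHull ℝ
      {w | ∃ φ : X → J, (∀ x, x ∉ l → φ x = j0) ∧ w = RT (Φ (y ∘ φ)) f} := by
  have : Nonempty J := ⟨j0⟩
  induction l with
  | nil =>
    apply subset_convexHull
    refine ⟨fun _ => j0, fun _ _ => rfl, ?_⟩
    have h1 : (y ∘ fun _ : X => j0) = 1 := by
      funext x
      exact hj0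
    rw [h1, map_one, RT_one]
    rfl
  | cons x0 l ih =>
    rw [List.nodup_cons] at hl
    have h1 := ih hl.2
    have h2 : avl (UU Φ y) (x0 :: l) f = av (UU Φ y x0) (avl (UU Φ y) l f) := rfl
    rw [h2, av_apply, smul_sum]
    have hn : (0 : ℝ) < Fintype.card J := by exact_mod_cast Fintype.card_pos
    refine (convex_convexHull ℝ _).sum_mem (fun _ _ => (inv_pos.2 hn).le) ?_ ?_
    · rw [sum_const, card_univ, nsmul_eq_mul, mul_inv_cancel₀ hn.ne']
    · intro j _
      have h3 : UU Φ y x0 j (avl (UU Φ y) l f) ∈ (UU Φ y x0 j) '' (convexHull ℝ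
          {w | ∃ φ : X → J, (∀ x, x ∉ l → φ x = j0) ∧ w = RT (Φ (y ∘ φ)) f}) :=
        ⟨_, h1, rfl⟩
      rw [LinearMap.image_convexHull] at h3
      refine convexHull_mono ?_ h3
      rintro _ ⟨_, ⟨φ, hφ, rfl⟩, rfl⟩
      refine ⟨Function.update φ x0 j, ?_, ?_⟩
      · intro x hx
        rw [List.mem_cons, not_or] at hx
        rw [Function.update_of_ne hx.1]
        exact hφ x hx.2
      · unfold UU
        rw [← RT_mul, ← map_mul]
        congr 3
        funext x
        rw [Pi.mul_apply]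
        by_cases hx : x = x0
        · subst hx
          simp [hφ x hl.1, hj0]
        · simp [Function.update_of_ne hx, Pi.mulSingle_eq_of_ne hx]

lemma hull_inner {E : Type*} [NormedAddCommGroup E] [InnerProductSpace ℝ E] {s : Set E} {c : ℝ}
    (hs : ∀ u ∈ s, ∀ v ∈ s, c ≤ inner ℝ u v) {u v : E} (hu : u ∈ convexHull ℝ s)
    (hv : v ∈ convexHull ℝ s) : c ≤ inner ℝ u v := by
  have h1 : ∀ w : E, Convex ℝ {v : E | c ≤ inner ℝ w v} := by
    intro w a ha b hb p q hp hq hpq
    simp only [Set.mem_ofPred_eq] at ha hb ⊢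
    rw [inner_add_right, inner_smul_right, inner_smul_right]
    calc c = p * c + q * c := by rw [← add_mul, hpq, one_mul]
      _ ≤ p * inner ℝ w a + q * inner ℝ w b :=
        add_le_add (mul_le_mul_of_nonneg_left ha hp) (mul_le_mul_of_nonneg_left hb hq)
  have h2 : ∀ u ∈ s, ∀ v ∈ convexHull ℝ s, c ≤ inner ℝ u v := by
    intro u hu v hv
    exact convexHull_min (fun w hw => hs u hu w hw) (h1 u) hv
  have h3 : u ∈ {u : E | c ≤ inner ℝ v u} := by
    refine convexHull_min (fun w hw => ?_) (h1 v) hu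
    show c ≤ inner ℝ v w
    rw [real_inner_comm]
    exact h2 w hw v hv
  have h4 : c ≤ inner ℝ v u := h3
  rwa [real_inner_comm] at h4

/-- the support of the average -/
lemma avl_supp (Φ : (X → Γ) →* G) (y : J → Γ) (j0 : J) (hj0 : y j0 = 1) (f : FS G) (l : List X)
    (hl : l.Nodup) (h : G) (hne : (avl (UU Φ y) l f).val h ≠ 0) :
    ∃ φ : X → J, f.val (h * Φ (y ∘ φ)) ≠ 0 := by
  by_contra hc
  push Not at hc
  have h1 : Convex ℝ {w : FS G | w.val h = 0} := by
    intro a ha b hb p q _ _ _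
    simp only [Set.mem_ofPred_eq] at ha hb ⊢
    rw [FS.val_add, FS.val_smul, FS.val_smul, ha, hb]
    ring
  have h2 := avl_hull Φ y j0 hj0 f l hl
  have h3 := convexHull_min (t := {w : FS G | w.val h = 0}) (by
    rintro _ ⟨φ, _, rfl⟩
    show (RT _ f).val h = 0
    rw [RT_val]
    exact hc φ) h1 h2
  exact hne h3

/-- the displacement by a product of generators -/
lemma disp_le (Φ : (X → Γ) →* G) (y : J → Γ) (j0 : J) (hj0 : y j0 = 1) (x : X) (u : FS G) (l : List Γ)
    (hl : ∀ a ∈ l, a ∈ Set.range y) :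
    ‖u - RT (Φ (Pi.mulSingle x l.prod)) u‖ ≤
      l.length * (Fintype.card J * Real.sqrt (‖u‖ ^ 2 - ‖av (UU Φ y x) u‖ ^ 2)) := by
  have : Nonempty J := ⟨j0⟩
  induction l with
  | nil =>
    simp only [List.prod_nil, Pi.mulSingle_one, map_one, RT_one, sub_self, norm_zero]
    positivity
  | cons a l ih =>
    have h1 := ih fun b hb => hl b (List.mem_cons_of_mem _ hb)
    obtain ⟨j, hj⟩ := hl a List.mem_cons_self
    have h2 : u - RT (Φ (Pi.mulSingle x (a :: l).prod)) u =
        (u - UU Φ y x j u) + UU Φ y x j (u - RT (Φ (Pi.mulSingle x l.prod)) u) := by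
      rw [map_sub]
      unfold UU
      rw [← RT_mul, ← map_mul, ← Pi.mulSingle_mul, hj, List.prod_cons]
      abel
    rw [h2]
    refine (norm_add_le _ _).trans ?_
    rw [UU_norm]
    have h3 : ‖u - UU Φ y x j u‖ ≤
        Fintype.card J * Real.sqrt (‖u‖ ^ 2 - ‖av (UU Φ y x) u‖ ^ 2) := by
      have h4 := av_single (U := UU Φ y x) (UU_norm Φ y x) (j0 := j0) (fun u => by
        unfold UU
        rw [hj0, Pi.mulSingle_one, map_one, RT_one]) u j
      have h5 := Real.sqrt_le_sqrt h4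
      rwa [Real.sqrt_sq (norm_nonneg _), Real.sqrt_mul (by positivity),
        Real.sqrt_sq (by positivity)] at h5
    have h6 : ((a :: l).length : ℝ) = l.length + 1 := by
      rw [List.length_cons]; push_cast; ring
    rw [h6]
    linarith

variable [Fintype I] [DecidableEq I]

/-- a lamp configuration -/
def gE (Φ : (X → Γ) →* G) (Z : (I → Bool) → Γ) (ε : X × I → Bool) : G :=
  Φ (fun x => Z (fun i => ε (x, i)))

lemma gE_update (Φ : (X → Γ) →* G) (z : I → Γ) (Z : (I → Bool) → Γ)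
    (hZz : ∀ ε i, ε i = false → Z (Function.update ε i true) = Z ε * z i)
    (ε : X × I → Bool) (x : X) (i : I) (hε : ε (x, i) = false) :
    gE Φ Z (Function.update ε (x, i) true) = gE Φ Z ε * Φ (Pi.mulSingle x (z i)) := by
  unfold gE
  rw [← map_mul]
  congr 1
  funext x'
  rw [Pi.mul_apply]
  by_cases hx : x' = x
  · subst hx
    rw [Pi.mulSingle_eq_same, ← hZz _ _ hε]
    congr 1
    funext i'
    by_cases hi : i' = i
    · subst hi
      simp
    · rw [Function.update_of_ne hi, Function.update_of_ne (by simp [hi])]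
  · rw [Pi.mulSingle_eq_of_ne hx, mul_one]
    congr 1
    funext i'
    rw [Function.update_of_ne (by simp [hx])]

open Classical in
/-- the cube inequality summed over translates -/
lemma cube_sum (Φ : (X → Γ) →* G) (hΦ : Function.Injective Φ) (y : J → Γ)
    (z : I → Γ) (Z : (I → Bool) → Γ) (hZ : Function.Injective Z)
    (hZz : ∀ ε i, ε i = false → Z (Function.update ε i true) = Z ε * z i)
    (D : Subgroup G) (hD : ∀ σ, Φ σ ∈ D) (A : Finset G) (K : ℕ) (hJ : Nonempty J)
    (hK1 : 1 ≤ K * Fintype.card (X → J))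
    (hK : ∀ h : G, (A.filter (fun x => h⁻¹ * x ∈ D)).card ≤ K) (u : FS G)
    (hu : ∀ h, u.val h ≠ 0 → ∃ φ : X → J, h * Φ (y ∘ φ) ∈ A) :
    ‖u‖ ^ 2 * (Fintype.card (X × I) * Real.log 2 - Real.log (K * Fintype.card (X → J) : ℕ)) ≤
      ∑ x : X, ∑ i : I, ‖u - RT (Φ (Pi.mulSingle x (z i))) u‖ ^ 2 := by
  classical
  set H : Finset G := univ.biUnion (fun ε : X × I → Bool => u.supp.image (fun k => k * (gE Φ Z ε)⁻¹))
    with hH
  -- the support of one function on the cube
  have hsupp : ∀ h : G, (univ.filter (fun ε : X × I → Bool => u.val (h * gE Φ Z ε) ≠ 0)).card ≤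
      K * Fintype.card (X → J) := by
    intro h
    choose! φ hφ using hu
    have h1 : (univ.filter (fun ε : X × I → Bool => u.val (h * gE Φ Z ε) ≠ 0)).card ≤
        ((A.filter (fun x => h⁻¹ * x ∈ D)) ×ˢ (univ : Finset (X → J))).card := by
      apply card_le_card_of_injOn (fun ε => (h * gE Φ Z ε * Φ (y ∘ φ (h * gE Φ Z ε)),
        φ (h * gE Φ Z ε)))
      · intro ε hε
        have hε' : u.val (h * gE Φ Z ε) ≠ 0 := (mem_filter.1 hε).2
        rw [mem_coe, mem_product]
        refine ⟨mem_filter.2 ⟨hφ _ hε', ?_⟩, mem_univ _⟩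
        show h⁻¹ * (h * gE Φ Z ε * Φ (y ∘ φ (h * gE Φ Z ε))) ∈ D
        rw [mul_assoc, inv_mul_cancel_left]
        exact D.mul_mem (hD _) (hD _)
      · intro ε _ ε' _ heq
        simp only [Prod.mk.injEq] at heq
        have h2 := heq.1
        rw [heq.2] at h2
        have h3 := mul_left_cancel (mul_right_cancel h2)
        have h4 := hΦ h3
        funext xi
        exact congrFun (hZ (congrFun h4 xi.1)) xi.2
    rw [card_product, card_univ] at h1
    exact h1.trans (Nat.mul_le_mul_right _ (hK h))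
  -- translates
  have hL : ∀ ε : X × I → Bool, ∑ h ∈ H, (u.val (h * gE Φ Z ε)) ^ 2 = ‖u‖ ^ 2 := by
    intro ε
    rw [FS.norm_sq' u (s := H.image (fun h => h * gE Φ Z ε))]
    · rw [sum_image (fun a _ b _ hab => mul_right_cancel hab)]
    · intro k hk
      rw [mem_image]
      refine ⟨k * (gE Φ Z ε)⁻¹, ?_, by rw [inv_mul_cancel_right]⟩
      rw [hH, mem_biUnion]
      exact ⟨ε, mem_univ _, mem_image_of_mem _ hk⟩
  have hR : ∀ (w : FS G) (g : G), ∑ h ∈ H, (w.val (h * g)) ^ 2 ≤ ‖w‖ ^ 2 := by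
    intro w g
    have := FS.sum_sq_le w (H.image (fun h => h * g))
    rwa [sum_image (fun a _ b _ hab => mul_right_cancel hab)] at this
  -- one edge
  have hedge : ∀ (ε : X × I → Bool) (xi : X × I),
      ∑ h ∈ H, (u.val (h * gE Φ Z ε) - u.val (h * gE Φ Z (Function.update ε xi (!(ε xi))))) ^ 2 ≤
        ‖u - RT (Φ (Pi.mulSingle xi.1 (z xi.2))) u‖ ^ 2 := by
    have key : ∀ (ε : X × I → Bool) (xi : X × I), ε xi = false →
        ∑ h ∈ H, (u.val (h * gE Φ Z ε) - u.val (h * gE Φ Z (Function.update ε xi true))) ^ 2 ≤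
        ‖u - RT (Φ (Pi.mulSingle xi.1 (z xi.2))) u‖ ^ 2 := by
      intro ε xi hε
      refine le_trans (le_of_eq ?_) (hR (u - RT (Φ (Pi.mulSingle xi.1 (z xi.2))) u) (gE Φ Z ε))
      apply sum_congr rfl
      intro h _
      rw [FS.val_sub, RT_val, show xi = (xi.1, xi.2) from rfl,
        gE_update Φ z Z hZz ε xi.1 xi.2 hε, mul_assoc]
    intro ε xi
    rcases Bool.eq_false_or_eq_true (ε xi) with ht | hf
    · have h1 := key (Function.update ε xi false) xi (by simp)
      rw [Function.update_idem] at h1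
      have h2 : Function.update ε xi true = ε := by
        rw [← ht, Function.update_eq_self]
      rw [h2] at h1
      rw [ht]
      refine le_trans (le_of_eq ?_) h1
      apply sum_congr rfl
      intro h _
      show _ = _
      simp only [Bool.not_true]
      ring
    · have h1 := key ε xi hf
      rw [hf]
      exact h1
  -- conclusion
  have hcube : ∀ h : G, (∑ ε : X × I → Bool, (u.val (h * gE Φ Z ε)) ^ 2) *
      (Fintype.card (X × I) * Real.log 2 - Real.log (K * Fintype.card (X → J) : ℕ)) ≤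
      ∑ xi : X × I, ∑ ε : X × I → Bool,
        (u.val (h * gE Φ Z ε) - u.val (h * gE Φ Z (Function.update ε xi (!(ε xi))))) ^ 2 := by
    intro h
    exact cube_fk (fun ε => u.val (h * gE Φ Z ε)) (K * Fintype.card (X → J)) hK1 (hsupp h)
  have h5 := sum_le_sum (fun h (_ : h ∈ H) => hcube h)
  rw [← sum_mul, sum_comm, sum_congr rfl (fun ε _ => hL ε), sum_const, card_univ, nsmul_eq_mul] at h5
  have h6 : ∑ h ∈ H, ∑ xi : X × I, ∑ ε : X × I → Bool,
        (u.val (h * gE Φ Z ε) - u.val (h * gE Φ Z (Function.update ε xi (!(ε xi))))) ^ 2 ≤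
      Fintype.card (X × I → Bool) * ∑ x : X, ∑ i : I, ‖u - RT (Φ (Pi.mulSingle x (z i))) u‖ ^ 2 := by
    rw [sum_comm]
    have h7 : ∀ xi : X × I, ∑ h ∈ H, ∑ ε : X × I → Bool,
        (u.val (h * gE Φ Z ε) - u.val (h * gE Φ Z (Function.update ε xi (!(ε xi))))) ^ 2 ≤
        Fintype.card (X × I → Bool) * ‖u - RT (Φ (Pi.mulSingle xi.1 (z xi.2))) u‖ ^ 2 := by
      intro xi
      rw [sum_comm]
      refine (sum_le_sum fun ε _ => hedge ε xi).trans (le_of_eq ?_)
      rw [sum_const, card_univ, nsmul_eq_mul]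
    refine (sum_le_sum fun xi _ => h7 xi).trans (le_of_eq ?_)
    rw [← mul_sum, Fintype.sum_prod_type]
  have h8 := h5.trans h6
  have h9 : (0 : ℝ) < Fintype.card (X × I → Bool) := by exact_mod_cast Fintype.card_pos
  rw [mul_assoc] at h8
  exact le_of_mul_le_mul_left h8 h9

open Classical in
/-- The bound in one fibre. -/
theorem fiber_bound (Φ : (X → Γ) →* G) (hΦ : Function.Injective Φ)
    (y : J → Γ) (j0 : J) (hj0 : y j0 = 1) (inv : J → J) (hinv : ∀ j, y (inv j) = (y j)⁻¹)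
    (hinv2 : Function.Involutive inv) (z : I → Γ) (Z : (I → Bool) → Γ) (hZ : Function.Injective Z)
    (hZz : ∀ ε i, ε i = false → Z (Function.update ε i true) = Z ε * z i)
    (L : ℕ) (hL : ∀ i, WL (Set.range y) L (z i)) (D : Subgroup G) (hD : ∀ σ, Φ σ ∈ D)
    (A : Finset G) (hA : A.Nonempty) (K : ℕ)
    (hK : ∀ h : G, (A.filter (fun x => h⁻¹ * x ∈ D)).card ≤ K) (p : ℝ)
    (hp : p ≤ 1 / 2) (hesc : ∀ φ ψ : X → J,
      ((A.filter (fun x => x * (Φ (y ∘ φ) * Φ (y ∘ ψ)) ∉ A)).card : ℝ) ≤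
        p * A.card) :
    Fintype.card X * Fintype.card I * Real.log 2 - Fintype.card X * Real.log (Fintype.card J) -
      2 * Fintype.card I * (L * Fintype.card J) ^ 2 * p ≤ Real.log K := by
  classical
  have : Nonempty J := ⟨j0⟩
  have hJ : (1 : ℝ) ≤ Fintype.card J := by exact_mod_cast Fintype.card_pos
  obtain ⟨a, ha⟩ := hA
  have hAc : (0 : ℝ) < A.card := by exact_mod_cast card_pos.2 ⟨a, ha⟩
  have hK1 : 1 ≤ K := by
    refine le_trans ?_ (hK a)
    apply card_pos.2
    exact ⟨a, mem_filter.2 ⟨ha, by rw [inv_mul_cancel]; exact D.one_mem⟩⟩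
  have hp0 : 0 ≤ p := by
    have h1 := hesc (fun _ => j0) (fun _ => j0)
    have h2 : (0 : ℝ) ≤ p * A.card := le_trans (Nat.cast_nonneg _) h1
    by_contra hc
    push Not at hc
    nlinarith
  set f : FS G := ind A with hf
  set l : List X := (univ : Finset X).toList with hl
  have hnd : l.Nodup := nodup_toList _
  set u := avl (UU Φ y) l f with hu
  -- the energy
  have hen := avl_energy (U := UU Φ y) (UU_norm Φ y) (fun x x' h j j' u => UU_comm Φ y x x' h j j' u)
    (UU_sym Φ y inv hinv hinv2) l hnd f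
  have hen' : ∑ x : X, (‖u‖ ^ 2 - ‖av (UU Φ y x) u‖ ^ 2) ≤ ‖f‖ ^ 2 - ‖u‖ ^ 2 := by
    refine le_trans (le_of_eq ?_) hen
    rw [hl, sum_map_toList]
  -- the lower bound of the norm
  have hlow : (1 - p) * A.card ≤ ‖u‖ ^ 2 := by
    rw [← real_inner_self_eq_norm_sq]
    have h1 := avl_hull Φ y j0 hj0 f l hnd
    refine hull_inner ?_ h1 h1
    rintro _ ⟨φ, _, rfl⟩ _ ⟨ψ, _, rfl⟩
    have h2 : (Φ (y ∘ φ))⁻¹ = Φ (y ∘ (inv ∘ φ)) := by
      rw [← map_inv]
      congr 1
      funext x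
      exact (hinv (φ x)).symm
    rw [RT_inner, ← RT_mul, h2, hf, ind_inner]
    have h3 := hesc (inv ∘ φ) ψ
    have h4 := card_filter_add_card_filter_not (s := A)
      (fun x => x * (Φ (y ∘ (inv ∘ φ)) * Φ (y ∘ ψ)) ∈ A)
    have h5 : ((A.filter (fun x => x * (Φ (y ∘ (inv ∘ φ)) * Φ (y ∘ ψ)) ∈ A)).card : ℝ) +
        ((A.filter (fun x => x * (Φ (y ∘ (inv ∘ φ)) * Φ (y ∘ ψ)) ∉ A)).card : ℝ) = A.card := by
      exact_mod_cast h4
    have h6 : ((A.filter (fun x => x * (Φ (y ∘ (inv ∘ φ)) * Φ (y ∘ ψ)) ∉ A)).card : ℝ) ≤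
        p * A.card := by
      convert h3
    linarith
  have hfn : ‖f‖ ^ 2 = A.card := ind_norm A
  have hpos : 0 < ‖u‖ ^ 2 := by nlinarith
  -- the displacement of the lamps
  have hlamp : ∀ (x : X) (i : I), ‖u - RT (Φ (Pi.mulSingle x (z i))) u‖ ^ 2 ≤
      (L * Fintype.card J) ^ 2 * (‖u‖ ^ 2 - ‖av (UU Φ y x) u‖ ^ 2) := by
    intro x i
    obtain ⟨w, hw1, hw2, hw3⟩ := hL i
    have h1 := disp_le Φ y j0 hj0 x u w hw2
    rw [hw3] at h1
    have h2 : 0 ≤ ‖u‖ ^ 2 - ‖av (UU Φ y x) u‖ ^ 2 := av_energy_nonneg (UU_norm Φ y x) u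
    have h3 : (w.length : ℝ) * (Fintype.card J * Real.sqrt (‖u‖ ^ 2 - ‖av (UU Φ y x) u‖ ^ 2)) ≤
        L * Fintype.card J * Real.sqrt (‖u‖ ^ 2 - ‖av (UU Φ y x) u‖ ^ 2) := by
      rw [mul_assoc]
      apply mul_le_mul_of_nonneg_right (by exact_mod_cast hw1)
      positivity
    calc ‖u - RT (Φ (Pi.mulSingle x (z i))) u‖ ^ 2 ≤
        (L * Fintype.card J * Real.sqrt (‖u‖ ^ 2 - ‖av (UU Φ y x) u‖ ^ 2)) ^ 2 :=
          pow_le_pow_left₀ (norm_nonneg _) (h1.trans h3) 2
      _ = _ := by rw [mul_pow, Real.sq_sqrt h2]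
  have hcube := cube_sum Φ hΦ y z Z hZ hZz D hD A K ⟨j0⟩
    (Nat.one_le_iff_ne_zero.2 (Nat.mul_ne_zero (by omega) Fintype.card_ne_zero))
    (fun h => by convert hK h) u (by
      intro h hne
      obtain ⟨φ, hφ⟩ := avl_supp Φ y j0 hj0 f l hnd h hne
      refine ⟨φ, ?_⟩
      by_contra hc
      apply hφ
      rw [hf, ind_val, if_neg hc])
  have h1 : ∑ x : X, ∑ i : I, ‖u - RT (Φ (Pi.mulSingle x (z i))) u‖ ^ 2 ≤
      Fintype.card I * (L * Fintype.card J) ^ 2 * (p * A.card) := by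
    calc ∑ x : X, ∑ i : I, ‖u - RT (Φ (Pi.mulSingle x (z i))) u‖ ^ 2 ≤
        ∑ x : X, ∑ _i : I, (L * Fintype.card J) ^ 2 * (‖u‖ ^ 2 - ‖av (UU Φ y x) u‖ ^ 2) :=
          sum_le_sum fun x _ => sum_le_sum fun i _ => hlamp x i
      _ = Fintype.card I * (L * Fintype.card J) ^ 2 * ∑ x : X, (‖u‖ ^ 2 - ‖av (UU Φ y x) u‖ ^ 2) := by
          rw [mul_sum]
          apply sum_congr rfl
          intro x _
          rw [sum_const, card_univ, nsmul_eq_mul]
          ring
      _ ≤ Fintype.card I * (L * Fintype.card J) ^ 2 * (p * A.card) := by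
          apply mul_le_mul_of_nonneg_left _ (by positivity)
          rw [hfn] at hen'
          linarith
  have h2 : Real.log ((K * Fintype.card (X → J) : ℕ) : ℝ) =
      Real.log K + Fintype.card X * Real.log (Fintype.card J) := by
    rw [Fintype.card_fun]
    push_cast
    have hJ0 : (0 : ℝ) < Fintype.card J := by linarith
    have hK0 : (0 : ℝ) < K := by exact_mod_cast hK1
    rw [Real.log_mul hK0.ne' (by positivity), Real.log_pow]
  have h3 : Fintype.card I * (L * Fintype.card J : ℝ) ^ 2 * (p * A.card) ≤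
      ‖u‖ ^ 2 * (2 * Fintype.card I * (L * Fintype.card J) ^ 2 * p) := by
    have h4 : (A.card : ℝ) ≤ 2 * ‖u‖ ^ 2 := by nlinarith
    have h5 : (0 : ℝ) ≤ Fintype.card I * (L * Fintype.card J : ℝ) ^ 2 * p := by positivity
    calc Fintype.card I * (L * Fintype.card J : ℝ) ^ 2 * (p * A.card) =
        (Fintype.card I * (L * Fintype.card J : ℝ) ^ 2 * p) * A.card := by ring
      _ ≤ (Fintype.card I * (L * Fintype.card J : ℝ) ^ 2 * p) * (2 * ‖u‖ ^ 2) :=
        mul_le_mul_of_nonneg_left h4 h5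
      _ = _ := by ring
  have h4 := (hcube.trans h1).trans h3
  have h5 := le_of_mul_le_mul_left h4 hpos
  rw [h2, Fintype.card_prod] at h5
  push_cast at h5
  linarith

end Main

end Pool.Agent.Fol
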