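import Pool.Agent.Fol.Site

/-!
# Passing to subgroups and quotients
-/

namespace Pool.Agent.Fol

open Finset Classical

/-- a weighted pigeonhole principle -/
lemma pigeon {ι : Type*} (s : Finset ι) (e n : ι → ℝ) (q : ℝ) (hn : ∀ i ∈ s, 0 ≤ n i)
    (he : ∀ i ∈ s, n i = 0 → 0 ≤ e i) (hpos : 0 < ∑ i ∈ s, n i)
    (h : ∑ i ∈ s, e i ≤ q * ∑ i ∈ s, n i) : ∃ i ∈ s, 0 < n i ∧ e i ≤ q * n i := by
  by_contra hc
  push Not at hc
  have h1 : ∀ i ∈ s, q * n i ≤ e i := by
    intro i hi
    rcases (hn i hi).eq_or_lt with h2 | h2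
    · rw [← h2, mul_zero]
      exact he i hi h2.symm
    · exact (hc i hi h2).le
  obtain ⟨i, hi, hi2⟩ : ∃ i ∈ s, 0 < n i := by
    by_contra hc2
    push Not at hc2
    have := sum_nonpos hc2
    linarith
  have h3 : ∑ i ∈ s, q * n i < ∑ i ∈ s, e i := sum_lt_sum h1 ⟨i, hi, hc i hi hi2⟩
  rw [← mul_sum] at h3
  linarith

section

variable {G : Type*} [Group G]

/-- one coset -/
lemma coset_step (K : Subgroup G) {J : Type*} [Fintype J] (t : J → G) (ht : ∀ j, t j ∈ K)
    (A : Finset G) (hA : A.Nonempty) (q : ℝ) (h : ∑ j, (esc A (t j) : ℝ) ≤ q * A.card) :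
    ∃ B : Finset K, B.Nonempty ∧ B.card ≤ A.card ∧
      ∑ j, (esc B (⟨t j, ht j⟩ : K) : ℝ) ≤ q * B.card := by
  set m : G → G ⧸ K := fun x => (x : G ⧸ K) with hm
  have hmt : ∀ (x : G) (j : J), m (x * t j) = m x := by
    intro x j
    rw [hm]
    dsimp only
    exact (QuotientGroup.mk_mul_of_mem x (ht j))
  have hcard : ∑ c ∈ A.image m, ((A.filter (fun x => m x = c)).card : ℝ) = A.card := by
    rw [← Nat.cast_sum, ← card_eq_sum_card_image]
  have hesc : ∑ c ∈ A.image m, ∑ j, (esc (A.filter (fun x => m x = c)) (t j) : ℝ) =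
      ∑ j, (esc A (t j) : ℝ) := by
    rw [sum_comm]
    apply sum_congr rfl
    intro j _
    have h1 : ∀ c ∈ A.image m, (esc (A.filter (fun x => m x = c)) (t j) : ℝ) =
        (((A.filter (fun x => x * t j ∉ A)).filter (fun x => m x = c)).card : ℝ) := by
      intro c _
      unfold esc
      congr 2
      ext x
      simp only [mem_filter]
      constructor
      · rintro ⟨⟨h1, h2⟩, h3⟩
        refine ⟨⟨h1, fun h4 => h3 ⟨h4, ?_⟩⟩, h2⟩
        rw [hmt, h2]
      · rintro ⟨⟨h1, h2⟩, h3⟩
        exact ⟨⟨h1, h3⟩, fun h4 => h2 h4.1⟩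
    rw [sum_congr rfl h1, ← Nat.cast_sum]
    congr 1
    unfold esc
    rw [card_eq_sum_card_fiberwise (f := m) (t := A.image m)]
    intro x hx
    exact mem_image_of_mem _ (mem_filter.1 hx).1
  have hAc : (0 : ℝ) < A.card := by exact_mod_cast card_pos.2 hA
  obtain ⟨c, -, hc2, hc3⟩ := pigeon (A.image m)
    (fun c => ∑ j, (esc (A.filter (fun x => m x = c)) (t j) : ℝ))
    (fun c => ((A.filter (fun x => m x = c)).card : ℝ)) q (fun _ _ => Nat.cast_nonneg _)
    (fun _ _ _ => sum_nonneg fun _ _ => Nat.cast_nonneg _) (by rw [hcard]; exact hAc)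
    (by rw [hcard, hesc]; exact h)
  -- translate into the subgroup
  have hne : (A.filter (fun x => m x = c)).Nonempty := by
    rw [← card_pos]
    exact_mod_cast hc2
  obtain ⟨g, hg⟩ := hne
  set Ac := A.filter (fun x => m x = c) with hAc'
  have hgK : ∀ x ∈ Ac, g⁻¹ * x ∈ K := by
    intro x hx
    have h1 : m g = m x := by rw [(mem_filter.1 hg).2, (mem_filter.1 hx).2]
    exact QuotientGroup.eq.1 h1
  have hmemAc : ∀ (x : K), (g * x ∈ Ac ↔ g * x ∈ A) := by
    intro x
    rw [hAc', mem_filter]
    constructor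
    · exact fun h => h.1
    · intro h
      refine ⟨h, ?_⟩
      rw [← (mem_filter.1 hg).2]
      exact QuotientGroup.mk_mul_of_mem g x.2
  set B : Finset K := (Ac.preimage (fun x : K => g * x) (fun x _ y _ hxy =>
    Subtype.ext (mul_left_cancel hxy))) with hB
  have hBmem : ∀ x : K, x ∈ B ↔ g * x ∈ Ac := fun x => mem_preimage
  have hBcard : B.card = Ac.card := by
    rw [hB, card_preimage]
    congr 1
    apply filter_true_of_mem
    intro x hx
    exact ⟨⟨g⁻¹ * x, hgK x hx⟩, mul_inv_cancel_left _ _⟩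
  refine ⟨B, ?_, ?_, ?_⟩
  · rw [← card_pos, hBcard, card_pos]
    exact ⟨g, hg⟩
  · rw [hBcard]
    exact card_filter_le _ _
  · rw [hBcard]
    refine le_trans (le_of_eq ?_) hc3
    apply sum_congr rfl
    intro j _
    congr 1
    unfold esc
    apply card_bij (fun (x : K) _ => g * (x : G))
    · intro x hx
      simp only [mem_filter, hBmem] at hx
      rw [mem_filter]
      refine ⟨hx.1, ?_⟩
      have h1 := hx.2
      rw [Subgroup.coe_mul, ← mul_assoc] at h1
      exact h1
    · intro x _ y _ hxy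
      exact Subtype.ext (mul_left_cancel hxy)
    · intro x hx
      rw [mem_filter] at hx
      refine ⟨⟨g⁻¹ * x, hgK x hx.1⟩, ?_, mul_inv_cancel_left _ _⟩
      have h1 : g * (g⁻¹ * x * t j) = x * t j := by group
      have h2 : g * (g⁻¹ * x) = x := by group
      have h3 : g * (g⁻¹ * x) ∈ Ac ∧ g * (g⁻¹ * x * t j) ∉ Ac := by
        rw [h1, h2]
        exact hx
      simp only [mem_filter, hBmem]
      exact h3

/-- image in a quotient -/
lemma quot_step {Q : Type*} [Group Q] (π : G →* Q) {J : Type*} [Fintype J] (t : J → G)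
    (B : Finset G) (hB : B.Nonempty) (q : ℝ) (h : ∑ j, (esc B (t j) : ℝ) ≤ q * B.card) :
    ∃ A : Finset Q, A.Nonempty ∧ A.card ≤ B.card ∧
      ∑ j, (esc A (π (t j)) : ℝ) ≤ q * A.card := by
  set f : Q → ℕ := fun x => (B.filter (fun b => π b = x)).card with hf
  set L : ℕ → Finset Q := fun i => (B.image π).filter (fun x => i < f x) with hL
  have hfle : ∀ x, f x ≤ B.card := fun x => card_filter_le _ _
  have hf0 : ∀ x, x ∉ B.image π → f x = 0 := by
    intro x hx
    rw [hf]
    dsimp only
    rw [card_eq_zero, filter_eq_empty_iff]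
    intro b hb hbx
    exact hx (mem_image.2 ⟨b, hb, hbx⟩)
  have hLmem : ∀ i x, x ∈ L i ↔ i < f x := by
    intro i x
    rw [hL]
    dsimp only
    rw [mem_filter]
    constructor
    · exact fun h => h.2
    · intro h
      refine ⟨?_, h⟩
      by_contra hc
      rw [hf0 x hc] at h
      exact absurd h (Nat.not_lt_zero _)
  have hcount : ∀ a b n : ℕ, a ≤ n → ((range n).filter (fun i => i < a ∧ ¬ i < b)).card = a - b := by
    intro a b n ha
    have : (range n).filter (fun i => i < a ∧ ¬ i < b) = Finset.Ico b a := by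
      ext i
      simp only [mem_filter, mem_range, mem_Ico]
      omega
    rw [this, Nat.card_Ico]
  have hsum1 : ∑ i ∈ range B.card, (L i).card = B.card := by
    have h1 : ∀ i, (L i).card = ∑ x ∈ B.image π, if i < f x then 1 else 0 := by
      intro i
      rw [hL]
      dsimp only
      rw [card_filter]
    rw [sum_congr rfl (fun i _ => h1 i), sum_comm]
    have h2 : ∀ x ∈ B.image π, (∑ i ∈ range B.card, if i < f x then 1 else 0) = f x := by
      intro x _
      rw [← card_filter]
      have := hcount (f x) 0 B.card (hfle x)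
      simpa using this
    rw [sum_congr rfl h2, hf]
    rw [← card_eq_sum_card_fiberwise (f := π) (t := B.image π)]
    intro x hx
    exact mem_image_of_mem _ hx
  have hsum2 : ∀ j, ∑ i ∈ range B.card, esc (L i) (π (t j)) ≤ esc B (t j) := by
    intro j
    have h1 : ∀ i, esc (L i) (π (t j)) =
        ∑ x ∈ B.image π, if (i < f x ∧ ¬ i < f (x * π (t j))) then 1 else 0 := by
      intro i
      unfold esc
      rw [← card_filter]
      congr 1
      ext x
      have e1 : x ∈ (L i).filter (fun x => x * π (t j) ∉ L i) ↔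
          (i < f x ∧ ¬ i < f (x * π (t j))) := by
        rw [mem_filter, hLmem, hLmem]
      rw [e1, mem_filter]
      constructor
      · rintro ⟨h1, h2⟩
        refine ⟨?_, h1, h2⟩
        by_contra hc
        rw [hf0 x hc] at h1
        exact absurd h1 (Nat.not_lt_zero _)
      · rintro ⟨-, h1, h2⟩
        exact ⟨h1, h2⟩
    rw [sum_congr rfl (fun i _ => h1 i), sum_comm]
    have h2 : ∀ x ∈ B.image π, (∑ i ∈ range B.card,
        if (i < f x ∧ ¬ i < f (x * π (t j))) then 1 else 0) ≤
        ((B.filter (fun b => b * t j ∉ B)).filter (fun b => π b = x)).card := by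
      intro x _
      rw [← card_filter, hcount _ _ _ (hfle x)]
      have h3 : f x ≤ ((B.filter (fun b => b * t j ∉ B)).filter (fun b => π b = x)).card +
          f (x * π (t j)) := by
        have h4 : (B.filter (fun b => π b = x)) ⊆
            ((B.filter (fun b => b * t j ∉ B)).filter (fun b => π b = x)) ∪
            ((B.filter (fun b => π b = x * π (t j))).image (fun b => b * (t j)⁻¹)) := by
          intro b hb
          rw [mem_filter] at hb
          rw [mem_union]
          by_cases h5 : b * t j ∈ B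
          · right
            rw [mem_image]
            refine ⟨b * t j, mem_filter.2 ⟨h5, ?_⟩, mul_inv_cancel_right _ _⟩
            rw [map_mul, hb.2]
          · left
            exact mem_filter.2 ⟨mem_filter.2 ⟨hb.1, h5⟩, hb.2⟩
        refine (card_le_card h4).trans ((card_union_le _ _).trans ?_)
        exact Nat.add_le_add_left card_image_le _
      omega
    refine (sum_le_sum h2).trans (le_of_eq ?_)
    unfold esc
    rw [← card_eq_sum_card_fiberwise (f := π) (t := B.image π)]
    intro x hx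
    exact mem_image_of_mem _ (mem_filter.1 hx).1
  have hBc : (0 : ℝ) < B.card := by exact_mod_cast card_pos.2 hB
  have hs1 : ∑ i ∈ range B.card, ((L i).card : ℝ) = B.card := by exact_mod_cast hsum1
  obtain ⟨i, -, hi2, hi3⟩ := pigeon (range B.card)
    (fun i => ∑ j, (esc (L i) (π (t j)) : ℝ)) (fun i => ((L i).card : ℝ)) q
    (fun _ _ => Nat.cast_nonneg _) (fun _ _ _ => sum_nonneg fun _ _ => Nat.cast_nonneg _)
    (by rw [hs1]; exact hBc) (by
      rw [hs1, sum_comm]
      refine le_trans (sum_le_sum fun j _ => ?_) h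
      exact_mod_cast hsum2 j)
  refine ⟨L i, ?_, ?_, hi3⟩
  · rw [← card_pos]
    exact_mod_cast hi2
  · calc (L i).card ≤ (B.image π).card := card_filter_le _ _
      _ ≤ B.card := card_image_le

/-- Subquotients. -/
theorem subquot_step {Q : Type*} [Group Q] (K : Subgroup G) (π : K →* Q) {J : Type*} [Fintype J]
    (t : J → K) (A : Finset G) (hA : A.Nonempty) (q : ℝ)
    (h : ∑ j, (esc A (t j : G) : ℝ) ≤ q * A.card) :
    ∃ B : Finset Q, B.Nonempty ∧ B.card ≤ A.card ∧ ∑ j, (esc B (π (t j)) : ℝ) ≤ q * B.card := by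
  obtain ⟨A', h1, h2, h3⟩ := coset_step K (fun j => (t j : G)) (fun j => (t j).2) A hA q h
  obtain ⟨B, h4, h5, h6⟩ := quot_step π t A' h1 q h3
  exact ⟨B, h4, h5.trans h2, h6⟩

end

end Pool.Agent.Fol
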