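import Pool.Agent.Fol.MI
import Pool.Agent.Fol.Reduce

/-!
# The lower bounds
-/

namespace Pool.Agent.Fol

open Finset Classical

/-! ### the exponential bound -/

lemma ind_disp {G : Type*} [Group G] (A : Finset G) (g : G) :
    ‖ind A - RT g (ind A)‖ ^ 2 = 2 * esc A g := by
  have h1 := card_filter_add_card_filter_not (s := A) (fun x => x * g ∈ A)
  have h2 : ((A.filter (fun x => x * g ∈ A)).card : ℝ) + esc A g = A.card := by
    exact_mod_cast h1
  rw [norm_sub_sq_real, RT_norm, ind_norm, ind_inner]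
  linarith

theorem exp_lower {ω : ℕ → Fin 3} (hω : NC ω) (A : Finset P) (hA : A.Nonempty) (q : ℝ) (hq : 0 ≤ q)
    (hesc : ∀ s ∈ gens ω 0, (esc A s : ℝ) ≤ q * A.card) (k : ℕ) (hk : 200 * 2 ^ k * q ≤ 1 / 4) :
    (2 : ℝ) ^ k / 4 ≤ Real.log A.card := by
  obtain ⟨z0, hz0, hl⟩ := lamps0 hω k
  obtain ⟨Z, hZ, hZz⟩ := lamp_fun k hz0
  have hAc : (0 : ℝ) < A.card := by exact_mod_cast card_pos.2 hA
  have h1 := cube_sum (G := P) (Γ := P) (X := Unit) (J := Unit) (I := List.Vector Bool k)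
    (Pi.evalMonoidHom (fun _ => P) ()) (fun σ ρ h => funext fun _ => h) (fun _ => 1)
    (fun i => iot i.1 z0) Z hZ hZz ⊤ (fun _ => Subgroup.mem_top _) A A.card ⟨()⟩
    (by rw [Fintype.card_fun]; simpa using hA) (fun h => card_filter_le _ _) (ind A) (by
      intro h hne
      refine ⟨fun _ => (), ?_⟩
      by_contra hc
      apply hne
      rw [ind_val, if_neg]
      intro hh
      apply hc
      show h * 1 ∈ A
      rwa [mul_one])
  rw [ind_norm] at h1
  have h2 : ∑ x : Unit, ∑ i : List.Vector Bool k, ‖ind A - RT (Pi.evalMonoidHom (fun _ => P) ()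
      (Pi.mulSingle x (iot i.1 z0))) (ind A)‖ ^ 2 ≤ A.card * (2 ^ k * (200 * 2 ^ k * q)) := by
    rw [Fintype.sum_unique]
    have h3 : ∀ i : List.Vector Bool k, ‖ind A - RT (Pi.evalMonoidHom (fun _ => P) ()
      (Pi.mulSingle default (iot i.1 z0))) (ind A)‖ ^ 2 ≤ A.card * (200 * 2 ^ k * q) := by
      intro i
      rw [ind_disp]
      have h4 := esc_WL (A := A) hesc (by positivity) (hl i.1 i.2)
      push_cast at h4
      have h5 : (Pi.evalMonoidHom (fun _ => P) ()) (Pi.mulSingle (default : Unit) (iot i.1 z0)) =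
        iot i.1 z0 := by
        show (Pi.mulSingle (default : Unit) (iot i.1 z0) : Unit → P) default = _
        rw [Pi.mulSingle_eq_same]
      rw [h5]
      linarith
    refine (sum_le_sum fun i _ => h3 i).trans (le_of_eq ?_)
    rw [sum_const, card_univ, card_vector, Fintype.card_bool, nsmul_eq_mul]
    push_cast
    ring
  have h3 := h1.trans h2
  have h4 := le_of_mul_le_mul_left h3 hAc
  rw [Fintype.card_prod, card_vector, Fintype.card_bool, Fintype.card_fun] at h4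
  simp only [Fintype.card_unit, one_mul, pow_one, mul_one] at h4
  push_cast at h4
  have h5 : (0.69 : ℝ) < Real.log 2 := by
    have := Real.log_two_gt_d9
    linarith
  have h6 : (0 : ℝ) < 2 ^ k := by positivity
  have h7 : (2 : ℝ) ^ k * (200 * 2 ^ k * q) ≤ 2 ^ k * (1 / 4) := mul_le_mul_of_nonneg_left hk h6.le
  have h8 : (2 : ℝ) ^ k * 0.69 ≤ 2 ^ k * Real.log 2 := mul_le_mul_of_nonneg_left h5.le h6.le
  linarith

/-! ### patterns in the sequence -/

lemma ret4 (a b c d : Fin 3) : b = a ∨ c = b ∨ d = c ∨ (b ≠ a ∧ c = a) ∨ (c ≠ b ∧ d = b) ∨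
    (b ≠ a ∧ c ≠ a ∧ d = a) := by
  revert a b c d; decide

lemma ret (ω : ℕ → Fin 3) (m0 : ℕ) : ∃ m r, m0 + 1 ≤ m ∧ m ≤ m0 + 3 ∧ 1 ≤ r ∧ r ≤ 3 ∧
    (∀ i, i + 1 < r → ω (m + i) ≠ ω (m - 1)) ∧ ω (m + r - 1) = ω (m - 1) := by
  rcases ret4 (ω m0) (ω (m0 + 1)) (ω (m0 + 2)) (ω (m0 + 3)) with h | h | h | h | h | h
  · exact ⟨m0 + 1, 1, by omega, by omega, by omega, by omega, fun i hi => by omega, h⟩
  · exact ⟨m0 + 2, 1, by omega, by omega, by omega, by omega, fun i hi => by omega, h⟩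
  · exact ⟨m0 + 3, 1, by omega, by omega, by omega, by omega, fun i hi => by omega, h⟩
  · refine ⟨m0 + 1, 2, by omega, by omega, by omega, by omega, fun i hi => ?_, h.2⟩
    obtain rfl : i = 0 := by omega
    exact h.1
  · refine ⟨m0 + 2, 2, by omega, by omega, by omega, by omega, fun i hi => ?_, h.2⟩
    obtain rfl : i = 0 := by omega
    exact h.1
  · refine ⟨m0 + 1, 3, by omega, by omega, by omega, by omega, fun i hi => ?_, h.2.2⟩
    rcases (by omega : i = 0 ∨ i = 1) with rfl | rfl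
    · exact h.1
    · exact h.2.1

lemma kfind (ω : ℕ → Fin 3) {m l l2 : ℕ} {v : Fin 3} (hm : m ≤ l) (hl : ω l = v) (hl2 : l ≤ l2)
    (h2 : ω l2 ≠ v) : ∃ k, l + 1 ≤ m + k ∧ m + k ≤ l2 ∧ ω (m + k - 1) = v ∧ ω (m + k) ≠ v := by
  have hex : ∃ t, ω (l + t) ≠ v := ⟨l2 - l, by rw [Nat.add_sub_cancel' hl2]; exact h2⟩
  set t := Nat.find hex with ht
  have h3 : ω (l + t) ≠ v := Nat.find_spec hex
  have h4 : ∀ s, s < t → ω (l + s) = v := fun s hs => not_not.1 (Nat.find_min hex hs)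
  have h5 : t ≠ 0 := by
    intro h
    rw [h] at h3
    exact h3 hl
  have h6 : t ≤ l2 - l := Nat.find_min' hex (by rw [Nat.add_sub_cancel' hl2]; exact h2)
  refine ⟨l + t - m, by omega, by omega, ?_, ?_⟩
  · have := h4 (t - 1) (by omega)
    rw [show m + (l + t - m) - 1 = l + (t - 1) by omega]
    exact this
  · rw [show m + (l + t - m) = l + t by omega]
    exact h3

/-- the letters which occur late occur infinitely often -/
lemma inf_often (ω : ℕ → Fin 3) : ∃ M1, ∀ i, M1 ≤ i → ∀ j, ∃ l, j ≤ l ∧ ω l = ω i := by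
  have h1 : ∀ x : Fin 3, ∃ J : ℕ, (∀ j, ∃ l, j ≤ l ∧ ω l = x) ∨ ∀ l, J ≤ l → ω l ≠ x := by
    intro x
    by_cases h : ∀ j, ∃ l, j ≤ l ∧ ω l = x
    · exact ⟨0, Or.inl h⟩
    · push Not at h
      obtain ⟨J, hJ⟩ := h
      exact ⟨J, Or.inr hJ⟩
  choose J hJ using h1
  refine ⟨∑ x, J x, fun i hi => ?_⟩
  rcases hJ (ω i) with h | h
  · exact h
  · exact absurd rfl (h i ((single_le_sum (f := J) (fun x _ => Nat.zero_le _) (mem_univ (ω i))).trans hi))

/-! ### two numerical lemmas -/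

lemma num_pow2 (m : ℕ) : (2 : ℝ) ^ m / 2 ≤ ((2 : ℝ) ^ (m / 2)) ^ 2 := by
  rw [← pow_mul, div_le_iff₀ (by norm_num), ← pow_succ]
  exact pow_le_pow_right₀ (by norm_num) (by omega)

lemma num_A (K : ℝ) : ∃ m2 : ℕ, ∀ m, m2 ≤ m → K * (8 / 3 : ℝ) ^ m < 2 ^ m * 2 ^ (m / 2) := by
  obtain ⟨m2, hm2⟩ := pow_unbounded_of_one_lt (2 * K ^ 2) (by norm_num : (1 : ℝ) < 9 / 8)
  refine ⟨m2, fun m hm => ?_⟩
  have h1 : 2 * K ^ 2 < (9 / 8 : ℝ) ^ m := hm2.trans_le (pow_le_pow_right₀ (by norm_num) hm)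
  apply lt_of_pow_lt_pow_left₀ 2 (by positivity)
  have h2 := num_pow2 m
  have h3 : (2 : ℝ) ^ m * 2 ^ m * (2 ^ m / 2) ≤ (2 ^ m * 2 ^ (m / 2)) ^ 2 := by
    rw [mul_pow, pow_two ((2 : ℝ) ^ m)]
    exact mul_le_mul_of_nonneg_left h2 (by positivity)
  refine lt_of_lt_of_le ?_ h3
  have h4 : (K * (8 / 3 : ℝ) ^ m) ^ 2 = K ^ 2 * (64 / 9) ^ m := by
    rw [mul_pow, ← pow_mul, mul_comm m 2, pow_mul]
    norm_num
  have h5 : (2 : ℝ) ^ m * 2 ^ m * (2 ^ m / 2) = (64 / 9) ^ m * (9 / 8) ^ m / 2 := by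
    rw [← mul_pow, mul_div_assoc', ← mul_pow, ← mul_pow]
    norm_num
  rw [h4, h5]
  have h6 : (0 : ℝ) < (64 / 9) ^ m := by positivity
  nlinarith [mul_lt_mul_of_pos_left h1 h6]

/-! ### abstract forms -/

/-- Superexponential. -/
theorem superexp {ω : ℕ → Fin 3} (hω : NC ω) (C cS : ℝ) (hC : 1 ≤ C) (hcS : 1 ≤ cS) :
    ∃ n : ℕ, ∀ A : Finset P, A.Nonempty →
      (∀ s ∈ gens ω 0, (esc A s : ℝ) * n ≤ cS * A.card) → C * Real.exp (C * n) < A.card := by
  obtain ⟨CM, c, M0, hCM, hc, hMI⟩ := MI_all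
  obtain ⟨M1, hM1⟩ := inf_often ω
  obtain ⟨m2, hm2⟩ := num_A (8 * C * CM * cS / c)
  obtain ⟨m, r, hm1, -, hr1, hr3, hr4, hr5⟩ := ret ω (M0 + M1 + m2)
  obtain ⟨l, hl1, hl2⟩ := hM1 (m - 1) (by omega) (2 * m + 3)
  obtain ⟨l2, hl3, hl4⟩ := hω l
  obtain ⟨k, hk1, hk2, hk3, hk4⟩ := kfind ω (m := m) (by omega) hl2 hl3 (by rwa [← hl2])
  have hcond : Cond ω m k r (ω (m - 1)) (ω (m + k)) :=
    { m1 := by omega, r1 := hr1, r3 := hr3, k3 := by omega, hv := rfl, hfirst := hr4, hret := hr5,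
      hk := hk3, hp := rfl, hpv := hk4 }
  set B : ℝ := (8 / 3) ^ m * 2 ^ k + 4 ^ m with hB
  have hBpos : 0 < B := by positivity
  have hB1 : 1 ≤ B := by
    have h1 : (1 : ℝ) ≤ 4 ^ m := one_le_pow₀ (by norm_num)
    have h2 : (0 : ℝ) < (8 / 3) ^ m * 2 ^ k := by positivity
    linarith
  have hB2 : B ≤ 2 * ((8 / 3) ^ m * 2 ^ k) := by
    have h1 : (4 : ℝ) ^ m ≤ (8 / 3) ^ m * 2 ^ k := by
      have h2 : (4 : ℝ) ^ m = (8 / 3) ^ m * (3 / 2) ^ m := by rw [← mul_pow]; norm_num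
      rw [h2]
      apply mul_le_mul_of_nonneg_left _ (by positivity)
      calc (3 / 2 : ℝ) ^ m ≤ 2 ^ m := pow_le_pow_left₀ (by norm_num) (by norm_num) m
        _ ≤ 2 ^ k := pow_le_pow_right₀ (by norm_num) (by omega)
    linarith
  set n := ⌈CM * B * cS⌉₊ with hn
  have hn1 : CM * B * cS ≤ n := Nat.le_ceil _
  have h1le : 1 ≤ CM * B * cS := by
    have := mul_le_mul (mul_le_mul hCM hB1 (by norm_num) (by linarith)) hcS (by norm_num)
      (by positivity)
    linarith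
  have hn2 : (n : ℝ) ≤ 2 * (CM * B * cS) := by
    have := Nat.ceil_lt_add_one (a := CM * B * cS) (by positivity)
    linarith
  have hnpos : (0 : ℝ) < n := by linarith
  refine ⟨n, fun A hA hesc => ?_⟩
  have h1 := hMI ω hω m k r _ _ hcond (by omega) A hA (cS / n) (by positivity) (fun s hs => by
    have := hesc s hs
    rw [div_mul_eq_mul_div, le_div_iff₀ hnpos]
    exact this) (by
    rw [mul_div_assoc', div_le_one hnpos]
    exact hn1)
  have h2 := hm2 m (by omega)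
  have hAc : (0 : ℝ) < A.card := by exact_mod_cast card_pos.2 hA
  have h3 : C + C * n < Real.log A.card := by
    refine lt_of_lt_of_le ?_ h1
    have h4 : C + C * n ≤ 8 * C * CM * cS * ((8 / 3) ^ m * 2 ^ k) := by
      have h5 : C * 1 ≤ C * n := mul_le_mul_of_nonneg_left (by linarith) (by linarith)
      have h6 : C * n ≤ C * (2 * (CM * B * cS)) := mul_le_mul_of_nonneg_left hn2 (by linarith)
      have h7 : C * (2 * (CM * B * cS)) ≤ C * (2 * (CM * (2 * ((8 / 3) ^ m * 2 ^ k)) * cS)) := by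
        apply mul_le_mul_of_nonneg_left _ (by linarith)
        apply mul_le_mul_of_nonneg_left _ (by norm_num)
        apply mul_le_mul_of_nonneg_right _ (by linarith)
        exact mul_le_mul_of_nonneg_left hB2 (by linarith)
      linarith
    refine h4.trans_lt ?_
    rw [div_mul_eq_mul_div, div_lt_iff₀ hc] at h2
    have h8 : (0 : ℝ) < 2 ^ k := by positivity
    nlinarith [mul_lt_mul_of_pos_right h2 h8]
  have h4 : C * Real.exp (C * n) ≤ Real.exp (C + C * n) := by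
    rw [Real.exp_add]
    apply mul_le_mul_of_nonneg_right _ (Real.exp_pos _).le
    have := Real.add_one_le_exp C
    linarith
  refine h4.trans_lt ?_
  rw [← Real.exp_log hAc]
  exact Real.exp_lt_exp.2 h3

/-- At least exponential. -/
theorem expo {ω : ℕ → Fin 3} (hω : NC ω) (cS : ℝ) (hcS : 1 ≤ cS) :
    ∃ c : ℝ, 0 < c ∧ ∃ C : ℝ, 0 < C ∧ ∀ (n : ℕ) (A : Finset P), A.Nonempty →
      (∀ s ∈ gens ω 0, (esc A s : ℝ) * n ≤ cS * A.card) → Real.exp (c * n) ≤ C * A.card := by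
  refine ⟨1 / (6400 * cS), by positivity, 2, by norm_num, fun n A hA hesc => ?_⟩
  have hAc : (1 : ℝ) ≤ A.card := by exact_mod_cast card_pos.2 hA
  by_cases hn : (800 * cS : ℝ) ≤ n
  · have hnpos : (0 : ℝ) < n := by linarith
    -- the largest `k` with `2 ^ k * 800 * cS ≤ n`
    have hex : ∃ k : ℕ, (n : ℝ) < 2 ^ k * (800 * cS) := by
      obtain ⟨k, hk⟩ := pow_unbounded_of_one_lt ((n : ℝ) / (800 * cS)) (by norm_num : (1 : ℝ) < 2)
      exact ⟨k, by rwa [div_lt_iff₀ (by positivity)] at hk⟩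
    set k := Nat.find hex with hk
    have hk1 : (n : ℝ) < 2 ^ k * (800 * cS) := Nat.find_spec hex
    have hk0 : k ≠ 0 := by
      intro h
      rw [h, pow_zero, one_mul] at hk1
      linarith
    obtain ⟨k', hk'⟩ : ∃ k', k = k' + 1 := Nat.exists_eq_succ_of_ne_zero hk0
    have hk2 : 2 ^ k' * (800 * cS) ≤ (n : ℝ) := by
      have := Nat.find_min hex (m := k') (by omega)
      push Not at this
      exact this
    have h1 := exp_lower hω A hA (cS / n) (by positivity) (fun s hs => by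
      have := hesc s hs
      rw [div_mul_eq_mul_div, le_div_iff₀ hnpos]
      exact this) k' (by
      rw [mul_div_assoc', div_le_iff₀ hnpos]
      linarith)
    rw [hk', pow_succ] at hk1
    have h2 : 1 / (6400 * cS) * n ≤ Real.log A.card := by
      refine le_trans ?_ h1
      rw [div_mul_eq_mul_div, one_mul, div_le_iff₀ (by positivity)]
      linarith
    have h3 : Real.exp (1 / (6400 * cS) * n) ≤ A.card := by
      rw [← Real.exp_log (by linarith : (0 : ℝ) < A.card)]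
      exact Real.exp_le_exp.2 h2
    linarith
  · push Not at hn
    have h1 : 1 / (6400 * cS) * n ≤ Real.log 2 := by
      have h2 : (0.69 : ℝ) < Real.log 2 := by
        have := Real.log_two_gt_d9
        linarith
      refine le_trans ?_ h2.le
      rw [div_mul_eq_mul_div, one_mul, div_le_iff₀ (by positivity)]
      linarith
    have h2 : Real.exp (1 / (6400 * cS) * n) ≤ 2 := by
      rw [← Real.exp_log (by norm_num : (0 : ℝ) < 2)]
      exact Real.exp_le_exp.2 h1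
    linarith

lemma num_B (m : ℕ) : ((4 : ℝ) ^ m) ^ (26 / 25 : ℝ) / 2 ≤ (3 / 2) ^ m * (2 ^ m * 2 ^ (m / 2)) := by
  have h1 : ((4 : ℝ) ^ (52 / 25 : ℝ)) ≤ 18 := by
    have h2 : ((4 : ℝ) ^ (52 / 25 : ℝ)) ^ 25 ≤ 18 ^ 25 := by
      rw [← Real.rpow_natCast, ← Real.rpow_mul (by norm_num)]
      norm_num
    exact le_of_pow_le_pow_left₀ (by norm_num) (by norm_num) h2
  have h2 : (((4 : ℝ) ^ m) ^ (26 / 25 : ℝ)) ^ 2 ≤ 18 ^ m := by
    have h3 : (((4 : ℝ) ^ m) ^ (26 / 25 : ℝ)) ^ 2 = ((4 : ℝ) ^ (52 / 25 : ℝ)) ^ m := by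
      rw [← Real.rpow_natCast, ← Real.rpow_natCast, ← Real.rpow_natCast, ← Real.rpow_mul (by norm_num),
        ← Real.rpow_mul (by norm_num), ← Real.rpow_mul (by norm_num)]
      congr 1
      push_cast
      ring
    rw [h3]
    exact pow_le_pow_left₀ (by positivity) h1 m
  apply le_of_pow_le_pow_left₀ (n := 2) (by norm_num) (by positivity)
  have h3 := num_pow2 m
  have h4 : ((3 / 2 : ℝ) ^ m * (2 ^ m * 2 ^ (m / 2))) ^ 2 = 9 ^ m * (2 ^ (m / 2)) ^ 2 := by
    rw [← mul_assoc, ← mul_pow, mul_pow, ← pow_mul, mul_comm m 2, pow_mul]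
    norm_num
  have h5 : (9 : ℝ) ^ m * (2 ^ m / 2) ≤ 9 ^ m * (2 ^ (m / 2)) ^ 2 :=
    mul_le_mul_of_nonneg_left h3 (by positivity)
  have h6 : (9 : ℝ) ^ m * (2 ^ m / 2) = 18 ^ m / 2 := by
    rw [mul_div_assoc', ← mul_pow]
    norm_num
  rw [h4, div_pow]
  rw [h6] at h5
  have h7 : (0 : ℝ) < 18 ^ m := by positivity
  linarith

/-- Power in the exponent, if the letters recur with bounded gaps. -/
theorem power {ω : ℕ → Fin 3} {R : ℕ} (hR : ∀ i j : ℕ, ∃ l, j ≤ l ∧ l ≤ j + R ∧ ω l = ω i)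
    (hnc : ∃ i, ω i ≠ ω 0) (cS : ℝ) (hcS : 1 ≤ cS) :
    ∃ c : ℝ, 0 < c ∧ ∃ C : ℝ, 0 < C ∧ ∀ (n : ℕ) (A : Finset P), A.Nonempty →
      (∀ s ∈ gens ω 0, (esc A s : ℝ) * n ≤ cS * A.card) →
        Real.exp (c * (n : ℝ) ^ (26 / 25 : ℝ)) ≤ C * A.card := by
  have hne : ∀ x : Fin 3, ∃ i, ω i ≠ x := by
    intro x
    obtain ⟨i, hi⟩ := hnc
    by_cases h : ω 0 = x
    · exact ⟨i, by rwa [h] at hi⟩
    · exact ⟨0, h⟩
  have hω : NC ω := by
    intro k
    obtain ⟨i, hi⟩ := hne (ω k)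
    obtain ⟨l, hl1, -, hl3⟩ := hR i k
    exact ⟨l, hl1, by rwa [hl3]⟩
  obtain ⟨CM, c, M0, hCM, hc, hMI⟩ := MI_all
  set D : ℝ := CM * cS * 2 ^ (2 * R + 12) with hD
  have hDpos : 0 < D := by positivity
  set c1 : ℝ := c / 2 / (4 * D) ^ (26 / 25 : ℝ) with hc1
  have hc1pos : 0 < c1 := by positivity
  refine ⟨c1, hc1pos, Real.exp (c1 * (D * 4 ^ M0) ^ (26 / 25 : ℝ)), Real.exp_pos _, ?_⟩
  intro n A hA hesc
  have hAc : (1 : ℝ) ≤ A.card := by exact_mod_cast card_pos.2 hA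
  by_cases hn : D * 4 ^ M0 ≤ (n : ℝ)
  · have hnpos : (0 : ℝ) < n := lt_of_lt_of_le (by positivity) hn
    have hex : ∃ k : ℕ, (n : ℝ) < D * 4 ^ k := by
      obtain ⟨k, hk⟩ := pow_unbounded_of_one_lt ((n : ℝ) / D) (by norm_num : (1 : ℝ) < 4)
      exact ⟨k, by rw [div_lt_iff₀ hDpos] at hk; linarith⟩
    have hk1 : (n : ℝ) < D * 4 ^ (Nat.find hex) := Nat.find_spec hex
    have hk0 : M0 < Nat.find hex := by
      by_contra h
      push Not at h
      have : D * 4 ^ (Nat.find hex) ≤ D * 4 ^ M0 :=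
        mul_le_mul_of_nonneg_left (pow_le_pow_right₀ (by norm_num) h) hDpos.le
      linarith
    obtain ⟨m0, hm0⟩ : ∃ m0, Nat.find hex = m0 + 1 := Nat.exists_eq_succ_of_ne_zero (by omega)
    have hk2 : D * 4 ^ m0 ≤ (n : ℝ) := by
      have := Nat.find_min hex (m := m0) (by omega)
      push Not at this
      exact this
    rw [hm0, pow_succ] at hk1
    -- the pattern
    obtain ⟨m, r, hm1, hm3, hr1, hr3, hr4, hr5⟩ := ret ω m0
    have hexK : ∃ K : ℕ, (3 / 2 : ℝ) ^ m ≤ 2 ^ K := ⟨m, pow_le_pow_left₀ (by norm_num) (by norm_num) m⟩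
    set K := Nat.find hexK with hK
    have hK1 : (3 / 2 : ℝ) ^ m ≤ 2 ^ K := Nat.find_spec hexK
    have hK2 : (2 : ℝ) ^ K ≤ 2 * (3 / 2) ^ m := by
      rcases Nat.eq_zero_or_pos K with h | h
      · rw [h, pow_zero]
        have : (1 : ℝ) ≤ (3 / 2) ^ m := one_le_pow₀ (by norm_num)
        linarith
      · have h1 := Nat.find_min hexK (m := K - 1) (by omega)
        push Not at h1
        have h2 : (2 : ℝ) ^ K = 2 * 2 ^ (K - 1) := by
          rw [← pow_succ']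
          congr 1
          omega
        rw [h2]
        linarith
    obtain ⟨l, hl1, hl2, hl3⟩ := hR (m - 1) (m + K + 2)
    obtain ⟨i, hi⟩ := hne (ω (m - 1))
    obtain ⟨l2, hl4, hl5, hl6⟩ := hR i l
    obtain ⟨k, hk3, hk4, hk5, hk6⟩ := kfind ω (m := m) (by omega) hl3 hl4 (by rwa [hl6])
    have hcond : Cond ω m k r (ω (m - 1)) (ω (m + k)) :=
      { m1 := by omega, r1 := hr1, r3 := hr3, k3 := by omega, hv := rfl, hfirst := hr4, hret := hr5,
        hk := hk5, hp := rfl, hpv := hk6 }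
    have hkle : k ≤ K + 2 * R + 2 := by omega
    have hkge : K ≤ k := by omega
    have hB : (8 / 3 : ℝ) ^ m * 2 ^ k + 4 ^ m ≤ 2 ^ (2 * R + 12) * 4 ^ m0 := by
      have h1 : (2 : ℝ) ^ k ≤ 2 ^ (2 * R + 3) * (3 / 2) ^ m := by
        calc (2 : ℝ) ^ k ≤ 2 ^ (K + (2 * R + 2)) := pow_le_pow_right₀ (by norm_num) (by omega)
          _ = 2 ^ (2 * R + 2) * 2 ^ K := by rw [pow_add]; ring
          _ ≤ 2 ^ (2 * R + 2) * (2 * (3 / 2) ^ m) := mul_le_mul_of_nonneg_left hK2 (by positivity)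
          _ = 2 ^ (2 * R + 3) * (3 / 2) ^ m := by ring
      have h2 : (8 / 3 : ℝ) ^ m * 2 ^ k ≤ 2 ^ (2 * R + 3) * 4 ^ m := by
        calc (8 / 3 : ℝ) ^ m * 2 ^ k ≤ (8 / 3 : ℝ) ^ m * (2 ^ (2 * R + 3) * (3 / 2) ^ m) :=
              mul_le_mul_of_nonneg_left h1 (by positivity)
          _ = 2 ^ (2 * R + 3) * ((8 / 3) ^ m * (3 / 2) ^ m) := by ring
          _ = 2 ^ (2 * R + 3) * 4 ^ m := by rw [← mul_pow]; norm_num
      have h3 : (4 : ℝ) ^ m ≤ 4 ^ m0 * 2 ^ 6 := by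
        calc (4 : ℝ) ^ m ≤ 4 ^ (m0 + 3) := pow_le_pow_right₀ (by norm_num) hm3
          _ = 4 ^ m0 * 2 ^ 6 := by rw [pow_add]; norm_num
      have h4 : (1 : ℝ) ≤ 2 ^ (2 * R + 3) := one_le_pow₀ (by norm_num)
      have h5 : (0 : ℝ) < 4 ^ m := by positivity
      calc (8 / 3 : ℝ) ^ m * 2 ^ k + 4 ^ m ≤ 2 ^ (2 * R + 3) * 4 ^ m + 2 ^ (2 * R + 3) * 4 ^ m := by
            nlinarith
        _ = 2 * 2 ^ (2 * R + 3) * 4 ^ m := by ring
        _ ≤ 2 * 2 ^ (2 * R + 3) * (4 ^ m0 * 2 ^ 6) := mul_le_mul_of_nonneg_left h3 (by positivity)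
        _ = 2 ^ (2 * R + 10) * 4 ^ m0 := by ring
        _ ≤ 2 ^ (2 * R + 12) * 4 ^ m0 := by
            apply mul_le_mul_of_nonneg_right _ (by positivity)
            exact pow_le_pow_right₀ (by norm_num) (by omega)
    have h1 := hMI ω hω m k r _ _ hcond (by omega) A hA (cS / n) (by positivity) (fun s hs => by
      have := hesc s hs
      rw [div_mul_eq_mul_div, le_div_iff₀ hnpos]
      exact this) (by
      rw [mul_div_assoc', div_le_one hnpos]
      calc CM * ((8 / 3 : ℝ) ^ m * 2 ^ k + 4 ^ m) * cS ≤ CM * (2 ^ (2 * R + 12) * 4 ^ m0) * cS := by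
            apply mul_le_mul_of_nonneg_right _ (by linarith)
            exact mul_le_mul_of_nonneg_left hB (by linarith)
        _ = D * 4 ^ m0 := by rw [hD]; ring
        _ ≤ n := hk2)
    have h2 : c1 * (n : ℝ) ^ (26 / 25 : ℝ) ≤ Real.log A.card := by
      refine le_trans ?_ h1
      have h3 : (n : ℝ) ^ (26 / 25 : ℝ) ≤ (4 * D) ^ (26 / 25 : ℝ) * ((4 : ℝ) ^ m0) ^ (26 / 25 : ℝ) := by
        rw [← Real.mul_rpow (by positivity) (by positivity)]
        apply Real.rpow_le_rpow (by positivity) _ (by norm_num)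
        linarith
      have h4 : c1 * (n : ℝ) ^ (26 / 25 : ℝ) ≤ c * (((4 : ℝ) ^ m0) ^ (26 / 25 : ℝ) / 2) := by
        calc c1 * (n : ℝ) ^ (26 / 25 : ℝ) ≤
            c1 * ((4 * D) ^ (26 / 25 : ℝ) * ((4 : ℝ) ^ m0) ^ (26 / 25 : ℝ)) :=
              mul_le_mul_of_nonneg_left h3 hc1pos.le
          _ = c * (((4 : ℝ) ^ m0) ^ (26 / 25 : ℝ) / 2) := by
              rw [hc1]
              have : (4 * D) ^ (26 / 25 : ℝ) ≠ 0 := by positivity
              field_simp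
      refine h4.trans ?_
      apply mul_le_mul_of_nonneg_left _ hc.le
      refine (num_B m0).trans ?_
      calc (3 / 2 : ℝ) ^ m0 * (2 ^ m0 * 2 ^ (m0 / 2)) ≤ 2 ^ k * (2 ^ m * 2 ^ (m / 2)) := by
            apply mul_le_mul _ _ (by positivity) (by positivity)
            · calc (3 / 2 : ℝ) ^ m0 ≤ (3 / 2) ^ m := pow_le_pow_right₀ (by norm_num) (by omega)
                _ ≤ 2 ^ K := hK1
                _ ≤ 2 ^ k := pow_le_pow_right₀ (by norm_num) hkge
            · apply mul_le_mul _ _ (by positivity) (by positivity)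
              · exact pow_le_pow_right₀ (by norm_num) (by omega)
              · exact pow_le_pow_right₀ (by norm_num) (by omega)
        _ = 2 ^ k * 2 ^ m * 2 ^ (m / 2) := by ring
    have h3 : Real.exp (c1 * (n : ℝ) ^ (26 / 25 : ℝ)) ≤ A.card := by
      rw [← Real.exp_log (by linarith : (0 : ℝ) < A.card)]
      exact Real.exp_le_exp.2 h2
    have h4 : (1 : ℝ) ≤ Real.exp (c1 * (D * 4 ^ M0) ^ (26 / 25 : ℝ)) :=
      Real.one_le_exp (by positivity)
    refine h3.trans ?_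
    nlinarith
  · push Not at hn
    have h1 : Real.exp (c1 * (n : ℝ) ^ (26 / 25 : ℝ)) ≤
        Real.exp (c1 * (D * 4 ^ M0) ^ (26 / 25 : ℝ)) := by
      apply Real.exp_le_exp.2
      apply mul_le_mul_of_nonneg_left _ hc1pos.le
      exact Real.rpow_le_rpow (by positivity) hn.le (by norm_num)
    have h2 : (0 : ℝ) < Real.exp (c1 * (D * 4 ^ M0) ^ (26 / 25 : ℝ)) := Real.exp_pos _
    refine h1.trans ?_
    nlinarith

/-! ### all generating sets -/

section Gen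

variable {H : Type*} [Group H]

/-- the number of elements of `A` which leave `A` under some element of `S` -/
noncomputable def bd (S A : Finset H) : ℕ := Nat.card {g : H // g ∈ A ∧ ∃ s ∈ S, g * s ∉ A}

lemma bd_eq (S A : Finset H) : bd S A = (A.filter (fun g => ∃ s ∈ S, g * s ∉ A)).card :=
  Nat.subtype_card _ (fun x => by rw [mem_filter])

lemma esc_le_bd {S A : Finset H} {s : H} (hs : s ∈ S) : esc A s ≤ bd S A := by
  rw [bd_eq]
  apply card_le_card
  intro x hx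
  rw [mem_filter] at hx ⊢
  exact ⟨hx.1, s, hs, hx.2⟩

/-- the elements whose escape is controlled by the boundary -/
noncomputable def ctl (S : Finset H) : Subgroup H where
  carrier := {x | ∃ c : ℕ, ∀ A : Finset H, esc A x ≤ c * bd S A}
  one_mem' := ⟨0, fun A => by rw [esc_one]; exact Nat.zero_le _⟩
  mul_mem' := by
    rintro x y ⟨c, hc⟩ ⟨d, hd⟩
    refine ⟨c + d, fun A => (esc_mul A x y).trans ?_⟩
    rw [add_mul]
    exact Nat.add_le_add (hc A) (hd A)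
  inv_mem' := by
    rintro x ⟨c, hc⟩
    exact ⟨c, fun A => by rw [esc_inv]; exact hc A⟩

lemma ctl_top {S : Finset H} (hS : Subgroup.closure (S : Set H) = ⊤) (x : H) :
    ∃ c : ℕ, ∀ A : Finset H, esc A x ≤ c * bd S A := by
  have h1 : Subgroup.closure (S : Set H) ≤ ctl S := by
    rw [Subgroup.closure_le]
    intro s hs
    exact ⟨1, fun A => by rw [one_mul]; exact esc_le_bd hs⟩
  rw [hS] at h1
  exact h1 (Subgroup.mem_top x)

end Gen

/-- the group -/
abbrev GG (ω : ℕ → Fin 3) : Subgroup P := Subgroup.closure (gens ω 0)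

/-- passing from a group with a subquotient `GG ω` to permutations of the tree -/
lemma reduce {ω : ℕ → Fin 3} {G : Type*} [Group G] {S : Finset G}
    (hS : Subgroup.closure (S : Set G) = ⊤) (K : Subgroup G) (π : K →* GG ω)
    (hπ : Function.Surjective π) :
    ∃ cS : ℝ, 1 ≤ cS ∧ ∀ (n : ℕ) (A : Finset G), A.Nonempty → n * bd S A ≤ A.card →
      ∃ B : Finset P, B.Nonempty ∧ B.card ≤ A.card ∧ ∀ s ∈ gens ω 0,
        (esc B s : ℝ) * n ≤ cS * B.card := by
  choose c hc using ctl_top hS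
  have hmem : ∀ s ∈ gens ω 0, s ∈ GG ω := fun s hs => Subgroup.subset_closure hs
  set gg : Option V → GG ω := fun o => match o with
    | none => ⟨aP, hmem _ (Or.inl rfl)⟩
    | some u => ⟨letP ω 0 u, hmem _ (Or.inr ⟨u, rfl⟩)⟩ with hgg
  choose t ht using fun o => hπ (gg o)
  refine ⟨1 + ∑ o, (c (t o : G) : ℝ), ?_, ?_⟩
  · have : (0 : ℝ) ≤ ∑ o, (c (t o : G) : ℝ) := sum_nonneg fun _ _ => Nat.cast_nonneg _
    linarith
  intro n A hA hn
  rcases Nat.eq_zero_or_pos n with rfl | hnpos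
  · refine ⟨{1}, singleton_nonempty _, ?_, ?_⟩
    · rw [card_singleton]
      exact card_pos.2 hA
    · intro s _
      rw [Nat.cast_zero, mul_zero]
      have : (0 : ℝ) ≤ ∑ o, (c (t o : G) : ℝ) := sum_nonneg fun _ _ => Nat.cast_nonneg _
      positivity
  have hn' : (0 : ℝ) < n := by exact_mod_cast hnpos
  have h1 : ∑ o, (esc A (t o : G) : ℝ) ≤ ((∑ o, (c (t o : G) : ℝ)) / n) * A.card := by
    rw [div_mul_eq_mul_div, le_div_iff₀ hn', sum_mul, sum_mul]
    apply sum_le_sum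
    intro o _
    have h2 : (esc A (t o : G) : ℝ) ≤ c (t o : G) * bd S A := by exact_mod_cast hc _ A
    have h3 : (n : ℝ) * bd S A ≤ A.card := by exact_mod_cast hn
    calc (esc A (t o : G) : ℝ) * n ≤ c (t o : G) * bd S A * n :=
          mul_le_mul_of_nonneg_right h2 hn'.le
      _ = c (t o : G) * (n * bd S A) := by ring
      _ ≤ c (t o : G) * A.card := mul_le_mul_of_nonneg_left h3 (Nat.cast_nonneg _)
  obtain ⟨B, hB1, hB2, hB3⟩ := subquot_step K ((GG ω).subtype.comp π) t A hA _ h1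
  refine ⟨B, hB1, hB2, fun s hs => ?_⟩
  obtain ⟨o, ho⟩ : ∃ o : Option V, (gg o : P) = s := by
    rcases hs with rfl | ⟨u, rfl⟩
    · exact ⟨none, rfl⟩
    · exact ⟨some u, rfl⟩
  have h2 : ((GG ω).subtype.comp π) (t o) = s := by
    rw [MonoidHom.comp_apply, ht]
    exact ho
  have h3 : (esc B s : ℝ) ≤ ∑ o, (esc B (((GG ω).subtype.comp π) (t o)) : ℝ) := by
    rw [← h2]
    exact single_le_sum (f := fun o => (esc B (((GG ω).subtype.comp π) (t o)) : ℝ))
      (fun _ _ => Nat.cast_nonneg _) (mem_univ o)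
  have h4 := h3.trans hB3
  rw [div_mul_eq_mul_div, le_div_iff₀ hn'] at h4
  have h5 : (0 : ℝ) ≤ B.card := Nat.cast_nonneg _
  linarith

theorem folner_main {ω : ℕ → Fin 3} (hω : NC ω) {G : Type*} [Group G] {S : Finset G}
    (hS : Subgroup.closure (S : Set G) = ⊤) (K : Subgroup G) (π : K →* GG ω)
    (hπ : Function.Surjective π) :
    (∃ c : ℝ, 0 < c ∧ ∃ C : ℝ, 0 < C ∧ ∀ n : ℕ, ∀ A : Finset G, A.Nonempty →
        n * bd S A ≤ A.card → Real.exp (c * n) ≤ C * (A.card : ℝ)) ∧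
    (∀ C : ℝ, ∃ n : ℕ, ∀ A : Finset G, A.Nonempty →
        n * bd S A ≤ A.card → C * Real.exp (C * n) < (A.card : ℝ)) := by
  obtain ⟨cS, hcS, h1⟩ := reduce hS K π hπ
  constructor
  · obtain ⟨c, hc, C, hC, h2⟩ := expo hω cS hcS
    refine ⟨c, hc, C, hC, fun n A hA hn => ?_⟩
    obtain ⟨B, hB1, hB2, hB3⟩ := h1 n A hA hn
    refine (h2 n B hB1 hB3).trans (mul_le_mul_of_nonneg_left ?_ hC.le)
    exact_mod_cast hB2
  · intro C
    obtain ⟨n, h2⟩ := superexp hω (max C 1) cS (le_max_right _ _) hcS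
    refine ⟨n, fun A hA hn => ?_⟩
    obtain ⟨B, hB1, hB2, hB3⟩ := h1 n A hA hn
    have h3 := h2 B hB1 hB3
    have h4 : (B.card : ℝ) ≤ A.card := by exact_mod_cast hB2
    refine lt_of_le_of_lt ?_ (h3.trans_le h4)
    have h5 : Real.exp (C * n) ≤ Real.exp (max C 1 * n) :=
      Real.exp_le_exp.2 (mul_le_mul_of_nonneg_right (le_max_left _ _) (Nat.cast_nonneg _))
    calc C * Real.exp (C * n) ≤ max C 1 * Real.exp (C * n) :=
          mul_le_mul_of_nonneg_right (le_max_left _ _) (Real.exp_pos _).le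
      _ ≤ max C 1 * Real.exp (max C 1 * n) := by
          apply mul_le_mul_of_nonneg_left h5
          exact le_trans zero_le_one (le_max_right _ _)

theorem folner_power {ω : ℕ → Fin 3} {R : ℕ} (hR : ∀ i j : ℕ, ∃ l, j ≤ l ∧ l ≤ j + R ∧ ω l = ω i)
    (hnc : ∃ i, ω i ≠ ω 0) {G : Type*} [Group G] {S : Finset G}
    (hS : Subgroup.closure (S : Set G) = ⊤) (K : Subgroup G) (π : K →* GG ω)
    (hπ : Function.Surjective π) :
    ∃ c : ℝ, 0 < c ∧ ∃ C : ℝ, 0 < C ∧ ∀ n : ℕ, ∀ A : Finset G, A.Nonempty →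
        n * bd S A ≤ A.card → Real.exp (c * (n : ℝ) ^ (26 / 25 : ℝ)) ≤ C * (A.card : ℝ) := by
  obtain ⟨cS, hcS, h1⟩ := reduce hS K π hπ
  obtain ⟨c, hc, C, hC, h2⟩ := power hR hnc cS hcS
  refine ⟨c, hc, C, hC, fun n A hA hn => ?_⟩
  obtain ⟨B, hB1, hB2, hB3⟩ := h1 n A hA hn
  refine (h2 n B hB1 hB3).trans (mul_le_mul_of_nonneg_left ?_ hC.le)
  exact_mod_cast hB2

end Pool.Agent.Fol
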