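import Pool.Agent.Fol.Defs

/-!
# Han's inequality for the fibres of a finite subset of a group
-/

namespace Pool.Agent.Fol

open Finset Classical

/-- size of the fibre -/
noncomputable def hanN {G : Type*} [Group G] (S : Finset G) (C : Subgroup G) (x : G) : ℕ :=
  (S.filter (fun y => x⁻¹ * y ∈ C)).card

lemma hanN_pos {G : Type*} [Group G] {S : Finset G} {C : Subgroup G} {x : G} (hx : x ∈ S) :
    0 < hanN S C x :=
  Finset.card_pos.2 ⟨x, Finset.mem_filter.2 ⟨hx, by simp⟩⟩

lemma hanN_congr {G : Type*} [Group G] (S : Finset G) (C : Subgroup G) {x y : G}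
    (h : x⁻¹ * y ∈ C) : hanN S C x = hanN S C y := by
  unfold hanN
  congr 1
  refine Finset.filter_congr fun w _ => ?_
  constructor
  · intro hw
    have : y⁻¹ * w = (x⁻¹ * y)⁻¹ * (x⁻¹ * w) := by group
    rw [this]
    exact C.mul_mem (C.inv_mem h) hw
  · intro hw
    have : x⁻¹ * w = (x⁻¹ * y) * (y⁻¹ * w) := by group
    rw [this]
    exact C.mul_mem h hw

lemma hanN_eq_sum {G : Type*} [Group G] (S : Finset G) (C : Subgroup G) (x : G) :
    (hanN S C x : ℝ) = ∑ y ∈ S, if x⁻¹ * y ∈ C then (1 : ℝ) else 0 := by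
  rw [hanN, Finset.sum_boole]

lemma han_two {G : Type*} [Group G] (A B C : Subgroup G) (hA : A ≤ C) (hB : B ≤ C)
    (hAB : A ⊓ B = ⊥) (S : Finset G) :
    ∑ x ∈ S, (Real.log (hanN S A x) + Real.log (hanN S B x)) ≤
      ∑ x ∈ S, Real.log (hanN S C x) := by
  have hpt : ∀ x ∈ S, Real.log (hanN S A x) + Real.log (hanN S B x) ≤ Real.log (hanN S C x) +
      ((hanN S A x : ℝ) * hanN S B x / hanN S C x - 1) := by
    intro x hx
    have h1 : (0 : ℝ) < hanN S A x := by exact_mod_cast hanN_pos hx
    have h2 : (0 : ℝ) < hanN S B x := by exact_mod_cast hanN_pos hx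
    have h3 : (0 : ℝ) < hanN S C x := by exact_mod_cast hanN_pos hx
    have h4 := Real.log_le_sub_one_of_pos (x := (hanN S A x : ℝ) * hanN S B x / hanN S C x)
      (by positivity)
    rw [Real.log_div (mul_pos h1 h2).ne' h3.ne', Real.log_mul h1.ne' h2.ne'] at h4
    linarith
  have hkey : ∑ x ∈ S, (hanN S A x : ℝ) * hanN S B x / hanN S C x ≤ ∑ _x ∈ S, (1 : ℝ) := by
    calc ∑ x ∈ S, (hanN S A x : ℝ) * hanN S B x / hanN S C x
        = ∑ x ∈ S, ∑ x' ∈ S, ∑ x'' ∈ S, (if x⁻¹ * x' ∈ A then (1 : ℝ) else 0) *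
            (if x⁻¹ * x'' ∈ B then (1 : ℝ) else 0) / hanN S C x := by
          refine Finset.sum_congr rfl fun x _ => ?_
          rw [hanN_eq_sum S A, hanN_eq_sum S B, Finset.sum_mul_sum, Finset.sum_div]
          refine Finset.sum_congr rfl fun x' _ => ?_
          rw [Finset.sum_div]
      _ = ∑ x' ∈ S, ∑ x'' ∈ S, ∑ x ∈ S, (if x⁻¹ * x' ∈ A then (1 : ℝ) else 0) *
            (if x⁻¹ * x'' ∈ B then (1 : ℝ) else 0) / hanN S C x := by
          rw [Finset.sum_comm]
          refine Finset.sum_congr rfl fun x' _ => ?_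
          rw [Finset.sum_comm]
      _ ≤ ∑ x' ∈ S, ∑ x'' ∈ S, (if x'⁻¹ * x'' ∈ C then (1 : ℝ) else 0) / hanN S C x' := by
          refine Finset.sum_le_sum fun x' hx' => Finset.sum_le_sum fun x'' hx'' => ?_
          by_cases hex : ∃ x ∈ S, x⁻¹ * x' ∈ A ∧ x⁻¹ * x'' ∈ B
          · obtain ⟨x, hx, h1, h2⟩ := hex
            have h3 : x'⁻¹ * x'' ∈ C := by
              have : x'⁻¹ * x'' = (x⁻¹ * x')⁻¹ * (x⁻¹ * x'') := by group
              rw [this]
              exact C.mul_mem (C.inv_mem (hA h1)) (hB h2)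
            rw [Finset.sum_eq_single_of_mem x hx]
            · rw [if_pos h1, if_pos h2, if_pos h3, mul_one, hanN_congr S C (hA h1)]
            · intro y _ hyx
              by_cases h4 : y⁻¹ * x' ∈ A
              · by_cases h5 : y⁻¹ * x'' ∈ B
                · exfalso
                  apply hyx
                  have h6 : y⁻¹ * x ∈ A ⊓ B := by
                    constructor
                    · have : y⁻¹ * x = (y⁻¹ * x') * (x⁻¹ * x')⁻¹ := by group
                      rw [this]
                      exact A.mul_mem h4 (A.inv_mem h1)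
                    · have : y⁻¹ * x = (y⁻¹ * x'') * (x⁻¹ * x'')⁻¹ := by group
                      rw [this]
                      exact B.mul_mem h5 (B.inv_mem h2)
                  rw [hAB, Subgroup.mem_bot] at h6
                  exact (inv_mul_eq_one.1 h6)
                · rw [if_neg h5, mul_zero, zero_div]
              · rw [if_neg h4, zero_mul, zero_div]
          · push Not at hex
            rw [Finset.sum_eq_zero]
            · positivity
            · intro y hy
              by_cases h4 : y⁻¹ * x' ∈ A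
              · rw [if_neg (hex y hy h4), mul_zero, zero_div]
              · rw [if_neg h4, zero_mul, zero_div]
      _ = ∑ _x ∈ S, (1 : ℝ) := by
          refine Finset.sum_congr rfl fun x' hx' => ?_
          rw [← Finset.sum_div, ← hanN_eq_sum]
          have h3 : (0 : ℝ) < hanN S C x' := by exact_mod_cast hanN_pos hx'
          exact div_self h3.ne'
  calc ∑ x ∈ S, (Real.log (hanN S A x) + Real.log (hanN S B x))
      ≤ ∑ x ∈ S, (Real.log (hanN S C x) +
        ((hanN S A x : ℝ) * hanN S B x / hanN S C x - 1)) := Finset.sum_le_sum hpt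
    _ = ∑ x ∈ S, Real.log (hanN S C x) +
        (∑ x ∈ S, (hanN S A x : ℝ) * hanN S B x / hanN S C x - ∑ _x ∈ S, (1 : ℝ)) := by
        rw [Finset.sum_add_distrib, Finset.sum_sub_distrib]
    _ ≤ ∑ x ∈ S, Real.log (hanN S C x) := by linarith

theorem han {G T ι : Type*} [Group G] [MulAction G T] [FaithfulSMul G T] [Fintype ι]
    (X : ι → Set T) (hX : Pairwise (fun i j => Disjoint (X i) (X j))) (A : Finset G) :
    ∑ a ∈ A, ∑ i, Real.log ((A.filter (fun b => a⁻¹ * b ∈ fixingSubgroup G (X i)ᶜ)).card) ≤
      A.card * Real.log A.card := by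
  have hind : ∀ s : Finset ι, ∑ a ∈ A, ∑ i ∈ s, Real.log (hanN A (fixingSubgroup G (X i)ᶜ) a) ≤
      ∑ a ∈ A, Real.log (hanN A (fixingSubgroup G (⋃ i ∈ s, X i)ᶜ) a) := by
    intro s
    induction s using Finset.induction_on with
    | empty =>
      simp only [Finset.sum_empty, Finset.sum_const_zero]
      refine Finset.sum_nonneg fun a ha => Real.log_nonneg ?_
      exact_mod_cast hanN_pos ha
    | insert i s his ih =>
      have h1 : ∑ a ∈ A, ∑ j ∈ insert i s, Real.log (hanN A (fixingSubgroup G (X j)ᶜ) a)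
          = ∑ a ∈ A, Real.log (hanN A (fixingSubgroup G (X i)ᶜ) a)
            + ∑ a ∈ A, ∑ j ∈ s, Real.log (hanN A (fixingSubgroup G (X j)ᶜ) a) := by
        rw [← Finset.sum_add_distrib]
        exact Finset.sum_congr rfl fun a _ => Finset.sum_insert his
      rw [h1]
      have h2 := han_two (fixingSubgroup G (X i)ᶜ) (fixingSubgroup G (⋃ j ∈ s, X j)ᶜ)
        (fixingSubgroup G (⋃ j ∈ insert i s, X j)ᶜ) ?_ ?_ ?_ A
      · rw [Finset.sum_add_distrib] at h2
        linarith
      · refine fixingSubgroup_antitone G T (Set.compl_subset_compl.2 ?_)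
        exact Set.subset_biUnion_of_mem (u := fun j => X j) (Finset.mem_insert_self i s)
      · refine fixingSubgroup_antitone G T (Set.compl_subset_compl.2 ?_)
        exact Set.biUnion_subset_biUnion_left fun j hj => Finset.mem_insert_of_mem hj
      · rw [eq_bot_iff]
        intro g hg
        rw [Subgroup.mem_bot]
        refine FaithfulSMul.eq_of_smul_eq_smul (α := T) fun t => ?_
        rw [one_smul]
        rw [Subgroup.mem_inf, mem_fixingSubgroup_iff, mem_fixingSubgroup_iff] at hg
        obtain ⟨hg1, hg2⟩ := hg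
        by_cases ht : t ∈ X i
        · apply hg2
          intro hcon
          simp only [Set.mem_iUnion] at hcon
          obtain ⟨j, hj, htj⟩ := hcon
          have hij : i ≠ j := fun h => his (h ▸ hj)
          exact Set.disjoint_left.1 (hX hij) ht htj
        · exact hg1 t ht
  refine (hind Finset.univ).trans ?_
  rw [← nsmul_eq_mul]
  refine Finset.sum_le_card_nsmul _ _ _ fun a ha => ?_
  refine Real.log_le_log (by exact_mod_cast hanN_pos ha) ?_
  exact_mod_cast Finset.card_le_card (Finset.filter_subset _ _)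

end Pool.Agent.Fol
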