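import Pool.Agent.Fol.Defs

/-! # Module INDEX: an explicit quotient of the free product is finite -/

namespace Pool.Agent.Fol

open Pointwise

theorem index_abs {G : Type*} [Group G] (a v p : G) (ha : a * a = 1) (hv : v * v = 1)
    (hp : p * p = 1) (hvp : v * p = p * v) (hap : (a * p) ^ 4 = 1)
    (hind : ∀ S : Set G, 1 ∈ S → (∀ x ∈ S, a * x ∈ S) → (∀ x ∈ S, v * x ∈ S) →
      (∀ x ∈ S, p * x ∈ S) → ∀ x, x ∈ S)
    (hcomm : ∀ g : G, Commute v (g * (a * v) ^ 2 * g⁻¹)) : Finite G := by
  have hai : a⁻¹ = a := inv_eq_of_mul_eq_one_left ha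
  have hvi : v⁻¹ = v := inv_eq_of_mul_eq_one_left hv
  have hpi : p⁻¹ = p := inv_eq_of_mul_eq_one_left hp
  set t : G := (a * v) ^ 2 with ht
  -- `t` is an involution
  have ht1 : v * t * v⁻¹ = t⁻¹ := by
    rw [ht, pow_two]
    simp only [mul_inv_rev, hai, hvi]
    calc v * (a * v * (a * v)) * v = v * a * (v * a) * (v * v) := by group
      _ = v * a * (v * a) := by rw [hv, mul_one]
  have ht2 : v * t * v⁻¹ = t := by
    have := hcomm 1
    rw [one_mul, inv_one, mul_one] at this
    rw [this.eq, mul_inv_cancel_right]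
  have htt : t * t = 1 := by
    have h3 : t = t⁻¹ := ht2.symm.trans ht1
    calc t * t = t * t⁻¹ := by rw [← h3]
      _ = 1 := mul_inv_cancel t
  -- conjugates of `v` commute with conjugates of `t`
  have hc1 : ∀ g h : G, Commute (g * v * g⁻¹) (h * t * h⁻¹) := by
    intro g h
    have h1 := hcomm (g⁻¹ * h)
    have h2 : Commute (g * v * g⁻¹) (g * (g⁻¹ * h * t * (g⁻¹ * h)⁻¹) * g⁻¹) := by
      unfold Commute SemiconjBy
      calc g * v * g⁻¹ * (g * (g⁻¹ * h * t * (g⁻¹ * h)⁻¹) * g⁻¹)
          = g * (v * (g⁻¹ * h * t * (g⁻¹ * h)⁻¹)) * g⁻¹ := by group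
        _ = g * ((g⁻¹ * h * t * (g⁻¹ * h)⁻¹) * v) * g⁻¹ := by rw [h1.eq]
        _ = _ := by group
    have h3 : g * (g⁻¹ * h * t * (g⁻¹ * h)⁻¹) * g⁻¹ = h * t * h⁻¹ := by group
    rwa [h3] at h2
  have htv : ∀ g : G, g * t * g⁻¹ = (g * a * v * (g * a)⁻¹) * (g * v * g⁻¹) := by
    intro g
    rw [ht, pow_two]
    simp only [mul_inv_rev, hai]
    group
  have hc2 : ∀ g h : G, Commute (g * t * g⁻¹) (h * t * h⁻¹) := by
    intro g h
    rw [htv g]
    exact (hc1 (g * a) h).mul_left (hc1 g h)
  -- the normal closure of `t`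
  set N : Subgroup G := Subgroup.normalClosure {t} with hN
  have hNn : N.Normal := Subgroup.normalClosure_normal
  have hset : ∀ x ∈ Group.conjugatesOfSet ({t} : Set G), ∃ g : G, x = g * t * g⁻¹ := by
    intro x hx
    rw [Group.mem_conjugatesOfSet_iff] at hx
    obtain ⟨y, hy, hxy⟩ := hx
    obtain rfl : y = t := hy
    obtain ⟨g, hg⟩ := isConj_iff.1 hxy
    exact ⟨g, hg.symm⟩
  have hNc : ∀ x ∈ N, ∀ y ∈ N, Commute x y := by
    intro x hx y hy
    have h1 : ∀ z ∈ Group.conjugatesOfSet ({t} : Set G), ∀ y ∈ N, Commute z y := by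
      intro z hz y hy
      obtain ⟨g, rfl⟩ := hset z hz
      have hy' : y ∈ Subgroup.closure (Group.conjugatesOfSet ({t} : Set G)) := hy
      induction hy' using Subgroup.closure_induction with
      | mem w hw =>
        obtain ⟨h, rfl⟩ := hset w hw
        exact hc2 g h
      | one => exact Commute.one_right _
      | mul u w hu hw ihu ihw => exact (ihu hu).mul_right (ihw hw)
      | inv u hu ihu => exact (ihu hu).inv_right
    have hx' : x ∈ Subgroup.closure (Group.conjugatesOfSet ({t} : Set G)) := hx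
    induction hx' using Subgroup.closure_induction with
    | mem w hw => exact h1 w hw y hy
    | one => exact Commute.one_left _
    | mul u w hu hw ihu ihw => exact (ihu hu).mul_left (ihw hw)
    | inv u hu ihu => exact (ihu hu).inv_left
  have hN2 : ∀ x ∈ N, x ^ 2 = 1 := by
    intro x hx
    have hx' : x ∈ Subgroup.closure (Group.conjugatesOfSet ({t} : Set G)) := hx
    induction hx' using Subgroup.closure_induction with
    | mem w hw =>
      obtain ⟨h, rfl⟩ := hset w hw
      calc (h * t * h⁻¹) ^ 2 = h * (t * t) * h⁻¹ := by rw [pow_two]; group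
        _ = 1 := by rw [htt]; group
    | one => simp
    | mul u w hu hw ihu ihw =>
      rw [(hNc u hu w hw).mul_pow, ihu hu, ihw hw, mul_one]
    | inv u hu ihu => rw [inv_pow, ihu hu, inv_one]
  -- the quotient is finite
  have hq : Finite (G ⧸ N) := by
    let q : G →* G ⧸ N := QuotientGroup.mk' N
    have hqt : q t = 1 := (QuotientGroup.eq_one_iff t).2 (Subgroup.subset_normalClosure rfl)
    have hAA : q a * q a = 1 := by rw [← map_mul, ha, map_one]
    have hVV : q v * q v = 1 := by rw [← map_mul, hv, map_one]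
    have hPP : q p * q p = 1 := by rw [← map_mul, hp, map_one]
    have hAi : (q a)⁻¹ = q a := inv_eq_of_mul_eq_one_left hAA
    have hVi : (q v)⁻¹ = q v := inv_eq_of_mul_eq_one_left hVV
    have hPi : (q p)⁻¹ = q p := inv_eq_of_mul_eq_one_left hPP
    have hAV : q v * q a = q a * q v := by
      have h1 : q a * q v * (q a * q v) = 1 := by
        rw [← hqt, ht, pow_two, map_mul, map_mul]
      have h2 : (q a * q v)⁻¹ = q a * q v := inv_eq_of_mul_eq_one_left h1
      rw [mul_inv_rev, hAi, hVi] at h2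
      exact h2
    have hPV : q v * q p = q p * q v := by rw [← map_mul, hvp, map_mul]
    have hAP : IsOfFinOrder (q a * q p) := by
      rw [isOfFinOrder_iff_pow_eq_one]
      exact ⟨4, by norm_num, by rw [← map_mul, ← map_pow, hap, map_one]⟩
    have hAf : IsOfFinOrder (q a) := by
      rw [isOfFinOrder_iff_pow_eq_one]
      exact ⟨2, by norm_num, by rw [pow_two, hAA]⟩
    have hVf : IsOfFinOrder (q v) := by
      rw [isOfFinOrder_iff_pow_eq_one]
      exact ⟨2, by norm_num, by rw [pow_two, hVV]⟩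
    let R : Set (G ⧸ N) := (Subgroup.zpowers (q a * q p) : Set (G ⧸ N)) *
      (Subgroup.zpowers (q a) : Set (G ⧸ N)) * (Subgroup.zpowers (q v) : Set (G ⧸ N))
    have hR : R.Finite := ((finite_zpowers.2 hAP).mul (finite_zpowers.2 hAf)).mul
      (finite_zpowers.2 hVf)
    have hconj : ∀ g ∈ Subgroup.zpowers (q a * q p), q a * g * q a ∈
        Subgroup.zpowers (q a * q p) := by
      intro g hg
      obtain ⟨n, rfl⟩ := Subgroup.mem_zpowers_iff.1 hg
      have h1 : q a * (q a * q p) ^ n * q a = (q a * (q a * q p) * (q a)⁻¹) ^ n := by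
        rw [conj_zpow, hAi]
      rw [h1]
      apply Subgroup.zpow_mem
      have h2 : q a * (q a * q p) * (q a)⁻¹ = (q a * q p)⁻¹ := by
        rw [mul_inv_rev, hAi, hPi, ← mul_assoc, hAA, one_mul]
      rw [h2]
      exact Subgroup.inv_mem _ (Subgroup.mem_zpowers _)
    have hmem : ∀ x : G, q x ∈ R := by
      apply hind {x | q x ∈ R}
      · refine ⟨1, ⟨1, Subgroup.one_mem (Subgroup.zpowers (q a * q p)), 1,
          Subgroup.one_mem (Subgroup.zpowers (q a)), by simp⟩, 1,
          Subgroup.one_mem (Subgroup.zpowers (q v)), by simp⟩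
      · intro x hx
        obtain ⟨y, hy, k, hk, hyk⟩ := hx
        obtain ⟨g, hg, h, hh, rfl⟩ := hy
        refine ⟨(q a * g * q a) * (q a * h), ⟨_, hconj g hg, _, ?_, rfl⟩, k, hk, ?_⟩
        · exact Subgroup.mul_mem _ (Subgroup.mem_zpowers _) hh
        · simp only at hyk ⊢
          rw [map_mul, ← hyk]
          calc q a * g * q a * (q a * h) * k = q a * g * (q a * q a) * h * k := by group
            _ = q a * (g * h * k) := by rw [hAA]; group
      · intro x hx
        obtain ⟨y, hy, k, hk, hyk⟩ := hx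
        obtain ⟨g, hg, h, hh, rfl⟩ := hy
        refine ⟨g * h, ⟨g, hg, h, hh, rfl⟩, q v * k,
          Subgroup.mul_mem _ (Subgroup.mem_zpowers _) hk, ?_⟩
        simp only at hyk ⊢
        rw [map_mul, ← hyk]
        have hcg : Commute (q v) g := by
          obtain ⟨n, rfl⟩ := Subgroup.mem_zpowers_iff.1 hg
          exact (Commute.mul_right hAV hPV).zpow_right n
        have hch : Commute (q v) h := by
          obtain ⟨n, rfl⟩ := Subgroup.mem_zpowers_iff.1 hh
          exact Commute.zpow_right hAV n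
        rw [← mul_assoc, ← mul_assoc (q v), (hcg.mul_right hch).eq]
      · intro x hx
        obtain ⟨y, hy, k, hk, hyk⟩ := hx
        obtain ⟨g, hg, h, hh, rfl⟩ := hy
        refine ⟨((q a * q p)⁻¹ * (q a * g * q a)) * (q a * h), ⟨_, ?_, _, ?_, rfl⟩, k, hk, ?_⟩
        · exact Subgroup.mul_mem _ (Subgroup.inv_mem _ (Subgroup.mem_zpowers _)) (hconj g hg)
        · exact Subgroup.mul_mem _ (Subgroup.mem_zpowers _) hh
        · simp only at hyk ⊢
          rw [map_mul, ← hyk, mul_inv_rev, hAi, hPi]
          calc q p * q a * (q a * g * q a) * (q a * h) * k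
              = q p * (q a * q a) * g * (q a * q a) * h * k := by group
            _ = q p * (g * h * k) := by rw [hAA]; group
    have : (Set.univ : Set (G ⧸ N)).Finite := by
      apply hR.subset
      intro x _
      obtain ⟨y, rfl⟩ := QuotientGroup.mk'_surjective N x
      exact hmem y
    exact Set.finite_univ_iff.1 this
  -- finite generation
  have hFG : Group.FG G := by
    rw [Group.fg_def, Subgroup.fg_iff]
    refine ⟨{a, v, p}, ?_, by simp⟩
    rw [eq_top_iff]
    intro x _
    apply hind (Subgroup.closure {a, v, p} : Set G)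
    · exact Subgroup.one_mem _
    · exact fun x hx => Subgroup.mul_mem _ (Subgroup.subset_closure (by simp)) hx
    · exact fun x hx => Subgroup.mul_mem _ (Subgroup.subset_closure (by simp)) hx
    · exact fun x hx => Subgroup.mul_mem _ (Subgroup.subset_closure (by simp)) hx
  have hfi : N.FiniteIndex := Subgroup.finiteIndex_of_finite_quotient
  have hNfg : Group.FG N := Subgroup.fg_of_index_ne_zero N
  have hNfin : Finite N := by
    let _ : CommGroup N := { (inferInstance : Group N) with
      mul_comm := fun x y => Subtype.ext (hNc x x.2 y y.2) }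
    apply CommGroup.finite_of_fg_isMulTorsion
    intro x
    rw [isOfFinOrder_iff_pow_eq_one]
    exact ⟨2, by norm_num, Subtype.ext (by simpa using hN2 x x.2)⟩
  exact Finite.of_equiv _ (Subgroup.groupEquivQuotientProdSubgroup (s := N)).symm

theorem index_letters : ∀ v p : Fin 3, p ≠ v → ∀ u : V,
    u = 1 ∨ u = lt v ∨ u = lt p ∨ u = lt v * lt p := by
  decide

theorem NF_finite {v p : Fin 3} (h : p ≠ v) : Finite (F ⧸ NF v p) := by
  have hn : (NF v p).Normal := Subgroup.normalClosure_normal
  let q : F →* F ⧸ NF v p := QuotientGroup.mk' (NF v p)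
  apply index_abs (q fa) (q (fu (lt v))) (q (fu (lt p)))
  · rw [← map_mul, fa_mul_fa, map_one]
  · rw [← map_mul, fu_mul_self, map_one]
  · rw [← map_mul, fu_mul_self, map_one]
  · rw [← map_mul, ← map_mul, ← map_mul, ← map_mul, mul_comm]
  · rw [← map_mul, ← map_pow]
    exact (QuotientGroup.eq_one_iff _).2 (Subgroup.subset_normalClosure (Or.inr rfl))
  · intro S h1 ha hv hp x
    obtain ⟨f, rfl⟩ := QuotientGroup.mk'_surjective (NF v p) x
    change q f ∈ S
    induction f using F_induction with
    | one => rwa [map_one]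
    | a f hf => rw [map_mul]; exact ha _ hf
    | u u f hf =>
      rw [map_mul]
      have hu := index_letters v p h u
      rcases hu with rfl | rfl | rfl | rfl
      · rwa [map_one, map_one, one_mul]
      · exact hv _ hf
      · exact hp _ hf
      · rw [map_mul, map_mul, mul_assoc]
        exact hv _ (hp _ hf)
  · intro g
    obtain ⟨f, rfl⟩ := QuotientGroup.mk'_surjective (NF v p) g
    have h1 : q (fu (lt v) * (f * (fa * fu (lt v)) ^ 2 * f⁻¹) * fu (lt v) *
        (f * (fa * fu (lt v)) ^ 2 * f⁻¹)⁻¹) = 1 := by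
      apply (QuotientGroup.eq_one_iff _).2
      apply Subgroup.subset_normalClosure
      refine Or.inl ⟨_, ?_, rfl⟩
      have hnk : (NK v).Normal := Subgroup.normalClosure_normal
      exact hnk.conj_mem _ (Subgroup.subset_normalClosure rfl) f
    change Commute (q (fu (lt v))) (q f * (q fa * q (fu (lt v))) ^ 2 * (q f)⁻¹)
    rw [← map_mul, ← map_pow, ← map_inv, ← map_mul, ← map_mul]
    have h2 : q (fu (lt v)) * q (f * (fa * fu (lt v)) ^ 2 * f⁻¹) * q (fu (lt v)) *
        (q (f * (fa * fu (lt v)) ^ 2 * f⁻¹))⁻¹ = 1 := by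
      rw [← map_inv, ← map_mul, ← map_mul, ← map_mul]
      exact h1
    have hvv : q (fu (lt v)) * q (fu (lt v)) = 1 := by rw [← map_mul, fu_mul_self, map_one]
    have h3 : q (fu (lt v)) * q (f * (fa * fu (lt v)) ^ 2 * f⁻¹) * q (fu (lt v)) =
        q (f * (fa * fu (lt v)) ^ 2 * f⁻¹) := mul_inv_eq_one.1 h2
    unfold Commute SemiconjBy
    calc q (fu (lt v)) * q (f * (fa * fu (lt v)) ^ 2 * f⁻¹)
        = (q (fu (lt v)) * q (f * (fa * fu (lt v)) ^ 2 * f⁻¹) * q (fu (lt v))) *
          q (fu (lt v)) := by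
          rw [mul_assoc (_ * _) (q (fu (lt v))) (q (fu (lt v))), hvv, mul_one]
      _ = _ := by rw [h3]

end Pool.Agent.Fol
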