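import Pool.Agent.Fol.Basic

/-!
# Lamps and movers (module LAMPS)
-/

namespace Pool.Agent.Fol

/-! ### numbers of letters along `Lk` -/

lemma lamps_Lk_AL {ω : ℕ → Fin 3} (v : T) (k n : ℕ) {f : F} (hf : AL n f) :
    ∃ n' : ℕ, n' + 2 ≤ 2 ^ v.length * (n + 2) ∧ AL n' (Lk ω v k f) := by
  induction v generalizing k with
  | nil => exact ⟨n, by simp, hf⟩
  | cons x v ih =>
    obtain ⟨n', h1, h2⟩ := ih (k + 1)
    have h3 := AL_Sk (ω := ω) (k := k) h2
    rw [List.length_cons, pow_succ]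
    cases x
    · refine ⟨1 + 2 * n' + 1, ?_, AL.mul (AL.mul AL.a h3) AL.a⟩
      nlinarith
    · refine ⟨2 * n', ?_, h3⟩
      nlinarith

/-! ### movers -/

lemma lamps_gw (ω : ℕ → Fin 3) (w : T) (m : ℕ) : ∃ (g : F) (n : ℕ), n + 1 ≤ 2 ^ w.length ∧
    AL n g ∧ ∀ x : P, ∃ y : P,
      ev ω m g * iot (ones w.length) x * (ev ω m g)⁻¹ = iot w y := by
  induction w generalizing m with
  | nil => exact ⟨1, 0, by simp, AL_one, fun x => ⟨x, by simp [iot, ones]⟩⟩
  | cons b w ih =>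
    obtain ⟨g, n, h1, h2, h3⟩ := ih (m + 1)
    have h4 := AL_Sk (ω := ω) (k := m) h2
    obtain ⟨q, h5⟩ := ev_Sk' ω m g
    have h6 : ∀ x : P, ∃ y : P, ev ω m (Sk ω m g) * iot (ones (w.length + 1)) x *
        (ev ω m (Sk ω m g))⁻¹ = pr 1 (iot w y) := by
      intro x
      obtain ⟨y, hy⟩ := h3 x
      refine ⟨y, ?_⟩
      have e1 : iot (ones (w.length + 1)) x = pr 1 (iot (ones w.length) x) := rfl
      rw [h5, e1, pr_inv, pr_mul, pr_mul, mul_one, mul_inv_cancel, hy]
    cases b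
    · refine ⟨fa * Sk ω m g, 1 + 2 * n, ?_, AL.mul AL.a h4, ?_⟩
      · rw [List.length_cons, pow_succ]; omega
      · intro x
        obtain ⟨y, hy⟩ := h6 x
        refine ⟨y, ?_⟩
        rw [List.length_cons, map_mul, ev_fa, mul_inv_rev, aP_inv]
        calc aP * ev ω m (Sk ω m g) * iot (ones (w.length + 1)) x *
              ((ev ω m (Sk ω m g))⁻¹ * aP)
            = aP * (ev ω m (Sk ω m g) * iot (ones (w.length + 1)) x *
              (ev ω m (Sk ω m g))⁻¹) * aP := by group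
          _ = iot (false :: w) y := by rw [hy, aP_pr_aP]; rfl
    · refine ⟨Sk ω m g, 2 * n, ?_, h4, ?_⟩
      · rw [List.length_cons, pow_succ]; omega
      · intro x
        obtain ⟨y, hy⟩ := h6 x
        exact ⟨y, by rw [List.length_cons, hy]; rfl⟩

theorem mover (ω : ℕ → Fin 3) (m k : ℕ) (i : Fin 3) (w : T) (hw : w.length = k) :
    ∃ (b : Bool) (f : F), chi i f = 1 ∧ WL gensF (10 * 2 ^ k) f ∧
      ∀ x : P, ∃ y : P, ev ω m f * iot (ones (k + 1)) x * (ev ω m f)⁻¹ = iot (b :: w) y := by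
  subst hw
  obtain ⟨g, n, h1, h2, h3⟩ := lamps_gw ω w (m + 1)
  have h4 := AL_Sk (ω := ω) (k := m) h2
  obtain ⟨q, h5⟩ := ev_Sk' ω m g
  have h6 : ∀ x : P, ∃ y : P, ev ω m (Sk ω m g) * iot (ones (w.length + 1)) x *
      (ev ω m (Sk ω m g))⁻¹ = pr 1 (iot w y) := by
    intro x
    obtain ⟨y, hy⟩ := h3 x
    refine ⟨y, ?_⟩
    have e1 : iot (ones (w.length + 1)) x = pr 1 (iot (ones w.length) x) := rfl
    rw [h5, e1, pr_inv, pr_mul, pr_mul, mul_one, mul_inv_cancel, hy]
  by_cases hc : chi i (Sk ω m g) = 1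
  · refine ⟨true, Sk ω m g, hc, WL_mono ?_ (AL_WL h4), ?_⟩
    · omega
    · intro x
      obtain ⟨y, hy⟩ := h6 x
      exact ⟨y, by rw [hy]; rfl⟩
  · have hc' : chi i (Sk ω m g) = Multiplicative.ofAdd 1 := by
      have h : ∀ z : Multiplicative (ZMod 2), z ≠ 1 → z = Multiplicative.ofAdd 1 := by decide
      exact h _ hc
    refine ⟨false, fa * Sk ω m g, ?_, WL_mono ?_ (AL_WL (AL.mul AL.a h4)), ?_⟩
    · rw [map_mul, chi_fa, hc']
      decide
    · omega
    · intro x
      obtain ⟨y, hy⟩ := h6 x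
      refine ⟨y, ?_⟩
      rw [map_mul, ev_fa, mul_inv_rev, aP_inv]
      calc aP * ev ω m (Sk ω m g) * iot (ones (w.length + 1)) x *
            ((ev ω m (Sk ω m g))⁻¹ * aP)
          = aP * (ev ω m (Sk ω m g) * iot (ones (w.length + 1)) x *
            (ev ω m (Sk ω m g))⁻¹) * aP := by group
        _ = iot (false :: w) y := by rw [hy, aP_pr_aP]; rfl

/-! ### the base element -/

lemma lamps_comm_ne {ω : ℕ → Fin 3} (hω : NC ω) (k : ℕ) {u : V} (hu : u ≠ 1) :
    aP * letP ω k u * (aP * letP ω k u) ≠ 1 := by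
  intro h
  have h1 : aP * letP ω k u * aP = letP ω k u := by
    have h2 : aP * letP ω k u * aP * letP ω k u = 1 := by rw [← h]; group
    have := eq_inv_of_mul_eq_one_left h2
    rwa [letP_inv] at this
  rw [letP_eq ω k u, aP_pr_aP] at h1
  have h3 := (pr_inj h1).1
  have h4 := letP_ne_one hω (k + 1) hu
  by_cases hc : act (ω k) u = true
  · rw [if_pos hc, letP_eq ω (k + 1) u] at h3
    exact aP_ne_pr _ _ h3.symm
  · rw [if_neg hc] at h3
    exact h4 h3

lemma lamps_lt_ne (i : Fin 3) : lt i ≠ 1 := by revert i; decide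

/-- a commutator with a nontrivial value -/
lemma lamps_base {ω : ℕ → Fin 3} (hω : NC ω) (i : ℕ) (hi : 1 ≤ i) : ∃ g κ : F,
    κ ∈ NK (up ω i) ∧ (∃ n ≤ 6, AL n (g * κ * g⁻¹ * κ⁻¹)) ∧ ev ω i (g * κ * g⁻¹ * κ⁻¹) ≠ 1 := by
  obtain ⟨i, rfl⟩ : ∃ i', i = i' + 1 := ⟨i - 1, by omega⟩
  have hup : up ω (i + 1) = ω i := rfl
  rw [hup]
  have hκ := NK_gen (ω i)
  have hAL : AL 2 ((fa * fu (lt (ω i))) ^ 2) := by
    rw [pow_two]
    exact AL.mul (AL.mul AL.a (AL.u _)) (AL.mul AL.a (AL.u _))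
  set x := lt (ω i) with hx
  have hx1 : x ≠ 1 := lamps_lt_ne _
  by_cases h : ω i = ω (i + 1)
  · -- the special letter is repeated
    obtain ⟨y, hy1, hy2⟩ : ∃ y : V, y ≠ 1 ∧ act (ω (i + 1)) y = true := by
      generalize ω (i + 1) = j
      revert j; decide
    refine ⟨fu y, (fa * fu x) ^ 2, hκ, ⟨0 + 2 + 0 + 2, by norm_num, ?_⟩, ?_⟩
    · refine AL.mul (AL.mul (AL.mul (AL.u _) hAL) ?_) (AL_inv hAL)
      rw [fu_inv]
      exact AL.u _
    · have e1 : letP ω (i + 1) x = pr 1 (letP ω (i + 1 + 1) x) := by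
        rw [letP_eq, if_neg]
        rw [hx, act_lt, h]
        simp
      have e2 : ev ω (i + 1) ((fa * fu x) ^ 2) =
          pr (letP ω (i + 1 + 1) x) (letP ω (i + 1 + 1) x) := by
        rw [map_pow, map_mul, ev_fa, ev_fu, e1, pow_two]
        calc aP * pr 1 (letP ω (i + 1 + 1) x) * (aP * pr 1 (letP ω (i + 1 + 1) x))
            = (aP * pr 1 (letP ω (i + 1 + 1) x) * aP) * pr 1 (letP ω (i + 1 + 1) x) := by group
          _ = _ := by rw [aP_pr_aP, pr_mul, mul_one, one_mul]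
      have e3 : letP ω (i + 1) y = pr aP (letP ω (i + 1 + 1) y) := by
        rw [letP_eq, if_pos hy2]
      rw [map_mul, map_mul, map_mul, map_inv, map_inv, e2, ev_fu, e3, pr_inv, pr_inv, pr_mul,
        pr_mul, pr_mul, ← pr_one]
      intro h1
      have h2 := (pr_inj h1).1
      rw [aP_inv, letP_inv] at h2
      apply lamps_comm_ne hω (i + 1 + 1) hx1
      rw [← h2]
      group
  · -- the special letter changes
    refine ⟨fa, (fa * fu x) ^ 2, hκ, ⟨1 + 2 + 1 + 2, by norm_num, ?_⟩, ?_⟩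
    · refine AL.mul (AL.mul (AL.mul AL.a hAL) ?_) (AL_inv hAL)
      rw [fa_inv]
      exact AL.a
    · have e1 : letP ω (i + 1) x = pr aP (letP ω (i + 1 + 1) x) := by
        rw [letP_eq, if_pos]
        rw [hx, act_lt]
        exact decide_eq_true h
      set X := letP ω (i + 1 + 1) x with hX
      have hXX : X * X = 1 := letP_mul_self _ _ _
      have e2 : ev ω (i + 1) ((fa * fu x) ^ 2) = pr (X * aP) (aP * X) := by
        rw [map_pow, map_mul, ev_fa, ev_fu, e1, pow_two]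
        calc aP * pr aP X * (aP * pr aP X) = (aP * pr aP X * aP) * pr aP X := by group
          _ = _ := by rw [aP_pr_aP, pr_mul]
      rw [map_mul, map_mul, map_mul, map_inv, map_inv, e2, ev_fa, aP_inv, aP_pr_aP, pr_inv,
        pr_mul, ← pr_one]
      intro h1
      have h2 := (pr_inj h1).1
      apply lamps_comm_ne hω (i + 1 + 1) hx1
      rw [← hX, ← h2, mul_inv_rev, aP_inv]
      have hXi : X⁻¹ = X := letP_inv _ _ _
      rw [hXi]

/-! ### commutators along `Lk` -/

lemma lamps_Lk_comm {ω : ℕ → Fin 3} (v : T) (k : ℕ) (g κ : F)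
    (hκ : κ ∈ NK (up ω (k + v.length))) : ∃ g' κ' : F, κ' ∈ NK (up ω k) ∧
      Lk ω v k (g * κ * g⁻¹ * κ⁻¹) = g' * κ' * g'⁻¹ * κ'⁻¹ := by
  induction v generalizing k with
  | nil => exact ⟨g, κ, hκ, rfl⟩
  | cons x v ih =>
    have h1 : k + (x :: v).length = (k + 1) + v.length := by rw [List.length_cons]; omega
    rw [h1] at hκ
    obtain ⟨g', κ', h2, h3⟩ := ih (k + 1) hκ
    have h4 : Sk ω k κ' ∈ NK (up ω k) := Sk_NK (k := k) h2
    have h5 : Sk ω k (Lk ω v (k + 1) (g * κ * g⁻¹ * κ⁻¹)) =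
        Sk ω k g' * Sk ω k κ' * (Sk ω k g')⁻¹ * (Sk ω k κ')⁻¹ := by
      rw [h3, map_mul, map_mul, map_mul, map_inv, map_inv]
    cases x
    · refine ⟨fa * Sk ω k g' * fa, fa * Sk ω k κ' * fa, ?_, ?_⟩
      · have := (NK_normal (up ω k)).conj_mem _ h4 fa
        rwa [fa_inv] at this
      · show fa * Sk ω k (Lk ω v (k + 1) (g * κ * g⁻¹ * κ⁻¹)) * fa = _
        rw [h5]
        have haa : fa⁻¹ = fa := fa_inv
        have e1 : ∀ y : F, fa * y * fa = fa * y * fa⁻¹ := fun y => by rw [haa]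
        rw [e1, e1 (Sk ω k g'), e1 (Sk ω k κ')]
        group
    · exact ⟨Sk ω k g', Sk ω k κ', h4, h5⟩

instance lamps_NF_normal (v p : Fin 3) : (NF v p).Normal := by unfold NF; infer_instance

/-- the last step -/
lemma lamps_last {ω : ℕ → Fin 3} {j : ℕ} (hne : up ω j ≠ ω j) (g κ : F) (hκ : κ ∈ NK (ω j)) :
    Sk ω j (g * κ * g⁻¹ * κ⁻¹) ∈ NF (up ω j) (ω j) := by
  set v := up ω j with hv
  set p := ω j with hp
  set N := NF v p with hN
  have hw : wS ω j = v := by unfold wS; rw [if_neg hne]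
  set φ : F →* F ⧸ N := (QuotientGroup.mk' N).comp (Sk ω j) with hφ
  set π := QuotientGroup.mk' N with hπ
  -- `T`
  set A : F := fa * fu (lt v) * fa with hA
  set q : F := fu (lt p) with hq
  have hAA : A * A = 1 := S_aux _
  have hqq : q * q = 1 := fu_mul_self _
  have hT : (A * q) ^ 2 ∈ NK v := by
    have := Sk_NK (ω := ω) (k := j) (f := (fa * fu (lt (ω j))) ^ 2) (NK_gen _)
    rwa [map_pow, map_mul, Sk_fa, Sk_fu, hw] at this
  set t : F := (A * q) ^ 2 with ht
  -- the letter `v` commutes with the kernel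
  have hvκ : ∀ κ ∈ NK v, π (fu (lt v)) * π κ = π κ * π (fu (lt v)) := by
    intro κ hκ
    have h1 : fu (lt v) * κ * fu (lt v) * κ⁻¹ ∈ N :=
      Subgroup.subset_normalClosure (Or.inl ⟨κ, hκ, rfl⟩)
    have h2 : π (fu (lt v) * κ * fu (lt v) * κ⁻¹) = 1 := (QuotientGroup.eq_one_iff _).2 h1
    rw [map_mul, map_mul, map_mul, map_inv] at h2
    have h3 : π (fu (lt v)) * π κ * π (fu (lt v)) = π κ := by
      rw [mul_inv_eq_one] at h2
      exact h2
    have h4 : π (fu (lt v)) * π (fu (lt v)) = 1 := by rw [← map_mul, fu_mul_self, map_one]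
    calc π (fu (lt v)) * π κ = π (fu (lt v)) * π κ * (π (fu (lt v)) * π (fu (lt v))) := by
          rw [h4, mul_one]
      _ = (π (fu (lt v)) * π κ * π (fu (lt v))) * π (fu (lt v)) := by group
      _ = _ := by rw [h3]
  have hcv : π (fu (lt v)) * π t = π t * π (fu (lt v)) := hvκ t hT
  have hcA : π A * π t = π t * π A := by
    have h1 : fa * t * fa⁻¹ ∈ NK v := (NK_normal v).conj_mem _ hT fa
    have h2 := hvκ _ h1
    rw [fa_inv] at h2
    have haa : π fa * π fa = 1 := by rw [← map_mul, fa_mul_fa, map_one]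
    rw [map_mul, map_mul] at h2
    rw [hA, map_mul, map_mul]
    calc π fa * π (fu (lt v)) * π fa * π t
        = π fa * π (fu (lt v)) * π fa * π t * (π fa * π fa) := by rw [haa, mul_one]
      _ = π fa * (π (fu (lt v)) * (π fa * π t * π fa)) * π fa := by group
      _ = π fa * (π fa * π t * π fa * π (fu (lt v))) * π fa := by rw [h2]
      _ = (π fa * π fa) * π t * (π fa * π (fu (lt v)) * π fa) := by group
      _ = _ := by rw [haa, one_mul]
  have hti : A * t * A = t⁻¹ := by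
    have h1 : A * t * A * t = 1 := by
      rw [ht, pow_two]
      calc A * (A * q * (A * q)) * A * (A * q * (A * q))
          = (A * A) * q * A * q * (A * A) * q * A * q := by group
        _ = q * A * (q * q) * A * q := by rw [hAA]; group
        _ = q * (A * A) * q := by rw [hqq]; group
        _ = 1 := by rw [hAA, mul_one, hqq]
    exact eq_inv_of_mul_eq_one_left h1
  have hqi : q * t * q = t⁻¹ := by
    have h1 : q * t * q * t = 1 := by
      rw [ht, pow_two]
      calc q * (A * q * (A * q)) * q * (A * q * (A * q))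
          = q * A * q * A * (q * q) * A * q * A * q := by group
        _ = q * A * q * (A * A) * q * A * q := by rw [hqq]; group
        _ = q * A * (q * q) * A * q := by rw [hAA]; group
        _ = q * (A * A) * q := by rw [hqq]; group
        _ = 1 := by rw [hAA, mul_one, hqq]
    exact eq_inv_of_mul_eq_one_left h1
  have hπt : (π t)⁻¹ = π t := by
    rw [← map_inv, ← hti, map_mul, map_mul, hcA, mul_assoc, ← map_mul, hAA, map_one, mul_one]
  have hcq : π q * π t = π t * π q := by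
    have h1 : π q * π t * π q = π t := by
      rw [← map_mul, ← map_mul, hqi, map_inv, hπt]
    have h2 : π q * π q = 1 := by rw [← map_mul, hqq, map_one]
    calc π q * π t = π q * π t * (π q * π q) := by rw [h2, mul_one]
      _ = (π q * π t * π q) * π q := by group
      _ = _ := by rw [h1]
  have hcu : ∀ u : V, π (fu u) * π t = π t * π (fu u) := by
    intro u
    have h1 : u = 1 ∨ u = lt v ∨ u = lt p ∨ u = lt v * lt p := by
      have : ∀ v p : Fin 3, v ≠ p → ∀ u : V, u = 1 ∨ u = lt v ∨ u = lt p ∨ u = lt v * lt p := by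
        decide
      exact this v p hne u
    rcases h1 with rfl | rfl | rfl | rfl
    · rw [map_one, map_one, one_mul, mul_one]
    · exact hcv
    · exact hcq
    · rw [map_mul, map_mul, mul_assoc, ← hq, hcq, ← mul_assoc, hcv, mul_assoc]
  have hcφ : ∀ y : F, φ y * π t = π t * φ y := by
    intro y
    induction y using F_induction with
    | one => rw [map_one, one_mul, mul_one]
    | a f hf =>
      rw [map_mul, mul_assoc, hf, ← mul_assoc, ← mul_assoc]
      congr 1
      show π (Sk ω j fa) * π t = π t * π (Sk ω j fa)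
      rw [Sk_fa, hw]
      exact hcA
    | u u f hf =>
      rw [map_mul, mul_assoc, hf, ← mul_assoc, ← mul_assoc]
      congr 1
      show π (Sk ω j (fu u)) * π t = π t * π (Sk ω j (fu u))
      rw [Sk_fu]
      exact hcu u
  -- the kernel is mapped into the centraliser
  let Z : Subgroup F :=
    { carrier := {x | ∀ y, φ y * φ x = φ x * φ y}
      mul_mem' := by
        intro x x' hx hx' y
        rw [map_mul, ← mul_assoc, hx y, mul_assoc, hx' y, mul_assoc]
      one_mem' := by intro y; rw [map_one, mul_one, one_mul]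
      inv_mem' := by
        intro x hx y
        rw [map_inv]
        have := hx y
        calc φ y * (φ x)⁻¹ = (φ x)⁻¹ * (φ x * φ y) * (φ x)⁻¹ := by group
          _ = (φ x)⁻¹ * (φ y * φ x) * (φ x)⁻¹ := by rw [this]
          _ = _ := by group }
  have hZn : Z.Normal := by
    constructor
    intro x hx g y
    have h1 : φ (g * x * g⁻¹) = φ x := by
      rw [map_mul, map_mul, hx g, mul_assoc, ← map_mul, mul_inv_cancel, map_one, mul_one]
    rw [h1]
    exact hx y
  have hle : NK p ≤ Z := by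
    unfold NK
    apply Subgroup.normalClosure_le_normal
    rintro x rfl y
    have h1 : φ ((fa * fu (lt p)) ^ 2) = π t := by
      show π (Sk ω j ((fa * fu (lt p)) ^ 2)) = π t
      rw [map_pow, map_mul, Sk_fa, Sk_fu, hw]
    rw [h1]
    exact hcφ y
  have h1 := hle hκ g
  have h2 : π (Sk ω j (g * κ * g⁻¹ * κ⁻¹)) = 1 := by
    show φ (g * κ * g⁻¹ * κ⁻¹) = 1
    rw [map_mul, map_mul, map_mul, map_inv, map_inv, h1]
    group
  exact (QuotientGroup.eq_one_iff _).1 h2

/-! ### the lamps -/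

theorem lamps {ω : ℕ → Fin 3} (hω : NC ω) (j k : ℕ) (hj : 1 ≤ j) (hk : 1 ≤ k)
    (hne : ω (j - 1) ≠ ω j) : ∃ z0 : P, z0 ≠ 1 ∧ ∀ w : T, w.length = k →
      ∃ f : F, f ∈ NF (ω (j - 1)) (ω j) ∧ WL gensF (100 * 2 ^ k) f ∧ ev ω j f = iot w z0 := by
  have hup : up ω j = ω (j - 1) := by
    obtain ⟨j, rfl⟩ : ∃ j', j = j' + 1 := ⟨j - 1, by omega⟩
    rfl
  rw [← hup] at hne ⊢
  obtain ⟨g, κ, h1, ⟨n, hn, h2⟩, h3⟩ := lamps_base hω (j + k) (by omega)
  refine ⟨_, h3, ?_⟩
  intro w hw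
  have hf0 : g * κ * g⁻¹ * κ⁻¹ ∈ NK (up ω (j + w.length)) := by
    rw [hw]
    exact mul_mem ((NK_normal _).conj_mem _ h1 g) (inv_mem h1)
  obtain ⟨h4, h5⟩ := Lk_NK w j hf0
  obtain ⟨n', h6, h7⟩ := lamps_Lk_AL (ω := ω) w j n h2
  refine ⟨Lk ω w j (g * κ * g⁻¹ * κ⁻¹), ?_, ?_, ?_⟩
  · match w, hw with
    | [], hw => simp at hw; omega
    | b :: w', hw =>
      have h8 : κ ∈ NK (up ω (j + 1 + w'.length)) := by
        have : j + 1 + w'.length = j + k := by rw [← hw, List.length_cons]; omega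
        rw [this]
        exact h1
      obtain ⟨g', κ', h9, h10⟩ := lamps_Lk_comm w' (j + 1) g κ h8
      have h11 : Sk ω j (Lk ω w' (j + 1) (g * κ * g⁻¹ * κ⁻¹)) ∈ NF (up ω j) (ω j) := by
        rw [h10]
        exact lamps_last hne g' κ' h9
      cases b
      · have := (lamps_NF_normal (up ω j) (ω j)).conj_mem _ h11 fa
        rw [fa_inv] at this
        exact this
      · exact h11
  · refine WL_mono ?_ (AL_WL h7)
    rw [hw] at h6
    have : 2 ^ k * (n + 2) ≤ 2 ^ k * 8 := Nat.mul_le_mul_left _ (by omega)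
    omega
  · rw [h5, hw]

theorem lamps0 {ω : ℕ → Fin 3} (hω : NC ω) (k : ℕ) : ∃ z0 : P, z0 ≠ 1 ∧ ∀ w : T, w.length = k →
      WL (gens ω 0) (100 * 2 ^ k) (iot w z0) := by
  rcases Nat.eq_zero_or_pos k with rfl | hk
  · refine ⟨aP, ?_, ?_⟩
    · intro h
      exact aP_ne_pr 1 1 (h.trans pr_one.symm)
    · intro w hw
      rw [List.length_eq_zero_iff.1 hw]
      exact WL_mono (by norm_num) (WL_gen (Or.inl rfl))
  · obtain ⟨g, κ, h1, ⟨n, hn, h2⟩, h3⟩ := lamps_base hω k hk
    refine ⟨_, h3, ?_⟩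
    intro w hw
    have hf0 : g * κ * g⁻¹ * κ⁻¹ ∈ NK (up ω (0 + w.length)) := by
      rw [hw, Nat.zero_add]
      exact mul_mem ((NK_normal _).conj_mem _ h1 g) (inv_mem h1)
    obtain ⟨h4, h5⟩ := Lk_NK w 0 hf0
    obtain ⟨n', h6, h7⟩ := lamps_Lk_AL (ω := ω) w 0 n h2
    rw [hw, Nat.zero_add] at h5
    rw [← h5]
    apply ev_gens
    refine WL_mono ?_ (AL_WL h7)
    rw [hw] at h6
    have : 2 ^ k * (n + 2) ≤ 2 ^ k * 8 := Nat.mul_le_mul_left _ (by omega)
    omega

end Pool.Agent.Fol
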