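import Pool.Agent.Fol.Defs

/-!
# Schreier generators
-/

namespace Pool.Agent.Fol

open Classical in
theorem schreier {H : Type*} [Group H] (S : Set H) (hS : S.Finite) (hSi : ∀ s ∈ S, s⁻¹ ∈ S)
    (N : Subgroup H) [N.Normal] [Finite (H ⧸ N)] : ∃ Y : Finset H, (∀ y ∈ Y, y ∈ N) ∧
      (∀ y ∈ Y, y⁻¹ ∈ Y) ∧ 1 ∈ Y ∧ ∀ (n : ℕ) (f : H), f ∈ N → WL S n f → WL (Y : Set H) n f := by
  have _ := hSi
  let ρ : H ⧸ N → H := fun q => if q = 1 then 1 else q.out
  have hρ : ∀ q : H ⧸ N, ((ρ q : H) : H ⧸ N) = q := by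
    intro q
    by_cases hq : q = 1
    · simp [ρ, hq]
    · simp [ρ, hq]
  have hρ1 : ρ 1 = 1 := by simp [ρ]
  let sch : (H ⧸ N) → H → H := fun q s => ρ q * s * (ρ (q * (s : H ⧸ N)))⁻¹
  have hsch : ∀ q s, sch q s ∈ N := by
    intro q s
    rw [← QuotientGroup.eq_one_iff]
    simp only [sch, QuotientGroup.mk_mul, QuotientGroup.mk_inv, hρ]
    group
  have hfin : ((fun x : (H ⧸ N) × H => sch x.1 x.2) '' (Set.univ ×ˢ S)).Finite :=
    (Set.Finite.prod Set.finite_univ hS).image _
  let Y0 : Finset H := hfin.toFinset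
  have hY0 : ∀ q, ∀ s ∈ S, sch q s ∈ Y0 := by
    intro q s hs
    simp only [Y0, Set.Finite.mem_toFinset]
    exact ⟨(q, s), ⟨Set.mem_univ _, hs⟩, rfl⟩
  have hY0N : ∀ y ∈ Y0, y ∈ N := by
    intro y hy
    simp only [Y0, Set.Finite.mem_toFinset] at hy
    obtain ⟨x, _, rfl⟩ := hy
    exact hsch _ _
  refine ⟨insert 1 (Y0 ∪ Y0.image (fun y => y⁻¹)), ?_, ?_, Finset.mem_insert_self _ _, ?_⟩
  · intro y hy
    simp only [Finset.mem_insert, Finset.mem_union, Finset.mem_image] at hy
    rcases hy with rfl | hy | ⟨z, hz, rfl⟩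
    · exact N.one_mem
    · exact hY0N y hy
    · exact N.inv_mem (hY0N z hz)
  · intro y hy
    simp only [Finset.mem_insert, Finset.mem_union, Finset.mem_image] at hy ⊢
    rcases hy with rfl | hy | ⟨z, hz, rfl⟩
    · left; simp
    · right; right; exact ⟨y, hy, rfl⟩
    · right; left; simpa using hz
  · intro n f hf hw
    obtain ⟨l, hl, hlS, rfl⟩ := hw
    have key : ∀ (l : List H), (∀ x ∈ l, x ∈ S) → ∀ q : H ⧸ N, ∃ l' : List H,
        l'.length = l.length ∧ (∀ x ∈ l', x ∈ Y0) ∧ l'.prod = ρ q * l.prod *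
          (ρ (q * ((l.prod : H) : H ⧸ N)))⁻¹ := by
      intro l
      induction l with
      | nil =>
        intro _ q
        exact ⟨[], rfl, by simp, by simp⟩
      | cons s l ih =>
        intro hS' q
        obtain ⟨l', h1, h2, h3⟩ := ih (fun x hx => hS' x (List.mem_cons_of_mem _ hx))
          (q * (s : H ⧸ N))
        refine ⟨sch q s :: l', by simp [h1], ?_, ?_⟩
        · intro x hx
          rcases List.mem_cons.1 hx with rfl | hx
          · exact hY0 q s (hS' s List.mem_cons_self)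
          · exact h2 x hx
        · rw [List.prod_cons, h3, List.prod_cons, QuotientGroup.mk_mul, ← mul_assoc q]
          simp only [sch]
          group
    obtain ⟨l', h1, h2, h3⟩ := key l hlS 1
    refine ⟨l', by omega, ?_, ?_⟩
    · intro x hx
      simp only [Finset.coe_insert, Finset.coe_union, Set.mem_insert_iff, Set.mem_union,
        Finset.mem_coe]
      right; left
      exact h2 x hx
    · rw [h3, (QuotientGroup.eq_one_iff _).2 hf, mul_one, hρ1]
      simp

end Pool.Agent.Fol
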