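import Pool.Agent.Fol.Coord
import Pool.Agent.Fol.Schreier
import Pool.Agent.Fol.Basic

/-!
# Escape from a finite set, and the sites
-/

namespace Pool.Agent.Fol

open Finset Classical

section Escape

variable {H : Type*} [Group H]

/-- the number of elements of `A` which leave `A` -/
noncomputable def esc (A : Finset H) (g : H) : ℕ := (A.filter (fun x => x * g ∉ A)).card

lemma esc_one (A : Finset H) : esc A 1 = 0 := by
  unfold esc
  rw [card_eq_zero, filter_eq_empty_iff]
  intro x hx
  rw [mul_one, not_not]
  exact hx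

lemma esc_mul (A : Finset H) (g h : H) : esc A (g * h) ≤ esc A g + esc A h := by
  have h1 : A.filter (fun x => x * (g * h) ∉ A) ⊆
      A.filter (fun x => x * g ∉ A) ∪ ((A.filter (fun x => x * h ∉ A)).image (fun x => x * g⁻¹)) := by
    intro x hx
    rw [mem_filter] at hx
    rw [mem_union]
    by_cases hg : x * g ∈ A
    · right
      rw [mem_image]
      refine ⟨x * g, mem_filter.2 ⟨hg, ?_⟩, by rw [mul_inv_cancel_right]⟩
      rw [mul_assoc]
      exact hx.2
    · left
      exact mem_filter.2 ⟨hx.1, hg⟩
  refine (card_le_card h1).trans ((card_union_le _ _).trans ?_)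
  exact Nat.add_le_add_left card_image_le _

lemma esc_inv (A : Finset H) (g : H) : esc A g⁻¹ = esc A g := by
  have h1 : ∀ g : H, (A.filter (fun x => x * g ∈ A)).card + esc A g = A.card := fun g =>
    card_filter_add_card_filter_not (s := A) (fun x => x * g ∈ A)
  have h2 : (A.filter (fun x => x * g⁻¹ ∈ A)).card = (A.filter (fun x => x * g ∈ A)).card := by
    apply card_bij (fun x _ => x * g⁻¹)
    · intro x hx
      rw [mem_filter] at hx ⊢
      exact ⟨hx.2, by rw [inv_mul_cancel_right]; exact hx.1⟩
    · intro x _ x' _ h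
      exact mul_right_cancel h
    · intro x hx
      rw [mem_filter] at hx
      exact ⟨x * g, mem_filter.2 ⟨hx.2, by rw [mul_inv_cancel_right]; exact hx.1⟩,
        by rw [mul_inv_cancel_right]⟩
  have h3 := h1 g
  have h4 := h1 g⁻¹
  omega

lemma esc_WL {A : Finset H} {S : Set H} {b : ℝ} (hS : ∀ s ∈ S, (esc A s : ℝ) ≤ b) {n : ℕ} {g : H}
    (hb : 0 ≤ b) (hg : WL S n g) : (esc A g : ℝ) ≤ n * b := by
  obtain ⟨l, hl, hlS, rfl⟩ := hg
  have h1 : (esc A l.prod : ℝ) ≤ l.length * b := by
    clear hl
    induction l with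
    | nil => simp [esc_one]
    | cons x l ih =>
      rw [List.prod_cons, List.length_cons]
      have h2 := ih fun y hy => hlS y (List.mem_cons_of_mem _ hy)
      have h3 := hS x (hlS x List.mem_cons_self)
      have h4 : (esc A (x * l.prod) : ℝ) ≤ esc A x + esc A l.prod := by exact_mod_cast esc_mul A _ _
      push_cast
      linarith
  refine h1.trans (mul_le_mul_of_nonneg_right ?_ hb)
  exact_mod_cast hl

lemma esc_RL {A : Finset H} {S : Set H} {b x : ℝ} (hS : ∀ s ∈ S, (esc A s : ℝ) ≤ b) {g : H}
    (hb : 0 ≤ b) (hg : RL S x g) : (esc A g : ℝ) ≤ x * b := by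
  obtain ⟨n, hn, hg⟩ := hg
  exact (esc_WL hS hb hg).trans (mul_le_mul_of_nonneg_right hn hb)

end Escape

/-! ### the sites -/

/-- extend a function on the words of length `m` -/
noncomputable def vx {m : ℕ} (σ : List.Vector Bool m → P) : T → P :=
  fun u => if h : u.length = m then σ ⟨u, h⟩ else 1

lemma vx_one {m : ℕ} : vx (1 : List.Vector Bool m → P) = fun _ => 1 := by
  funext u
  unfold vx
  split_ifs <;> rfl

lemma vx_mul {m : ℕ} (σ ρ : List.Vector Bool m → P) (u : T) : vx (σ * ρ) u = vx σ u * vx ρ u := by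
  unfold vx
  split_ifs
  · rfl
  · rw [mul_one]

lemma iot_one (v : T) : iot v 1 = 1 := by
  have h := iot_mul v 1 1
  rw [mul_one] at h
  exact (mul_eq_left.1 h.symm)

/-- the embedding of the functions on the sites -/
noncomputable def siteHom (m k : ℕ) (b : P) : (List.Vector Bool m → P) →* P where
  toFun σ := Theta m (fun u => b * iot (ones k) (vx σ u) * b⁻¹)
  map_one' := by
    rw [vx_one]
    simp only [iot_one, mul_one, mul_inv_cancel]
    exact Theta_one m
  map_mul' σ ρ := by
    rw [← Theta_mul]
    congr 1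
    funext u
    rw [vx_mul, iot_mul]
    group

lemma siteHom_apply (m k : ℕ) (b : P) (σ : List.Vector Bool m → P) :
    siteHom m k b σ = Theta m (fun u => b * iot (ones k) (vx σ u) * b⁻¹) := rfl

lemma siteHom_eq (m k : ℕ) (b : P) (σ : List.Vector Bool m → P) :
    siteHom m k b σ = Theta m (fun _ => b) * Theta m (fun u => iot (ones k) (vx σ u)) *
      (Theta m (fun _ => b))⁻¹ := by
  rw [siteHom_apply, Theta_mul, Theta_mul, Theta_inv]

lemma siteHom_inj (m k : ℕ) (b : P) : Function.Injective (siteHom m k b) := by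
  intro σ ρ h
  rw [siteHom_apply, siteHom_apply, Theta_congr] at h
  funext ⟨u, hu⟩
  have h1 := h u hu
  have h2 := iot_inj (mul_left_cancel (mul_right_cancel h1))
  simp only [vx] at h2
  rwa [dif_pos hu, dif_pos hu] at h2

/-- the joint move of the sites -/
lemma joint {Y : Finset F} {C0 : ℝ} {ω : ℕ → Fin 3} {m k : ℕ}
    (hY : ∀ y ∈ Y, ∀ ε : T → Bool, RL (gens ω 0) C0
      (Theta m (fun u => if ε u then iot (ones k) (ev ω (m + k) y) else 1)))
    (φ : T → F) (hφ : ∀ u, φ u ∈ Y) : RL (gens ω 0) (Y.card * C0)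
      (Theta m (fun u => iot (ones k) (ev ω (m + k) (φ u)))) := by
  have key : ∀ Z : Finset F, Z ⊆ Y → RL (gens ω 0) (Z.card * C0)
      (Theta m (fun u => if φ u ∈ Z then iot (ones k) (ev ω (m + k) (φ u)) else 1)) := by
    intro Z
    induction Z using Finset.induction_on with
    | empty =>
      intro _
      simp only [notMem_empty, if_false, card_empty, Nat.cast_zero, zero_mul]
      rw [Theta_one]
      exact RL_one _ (le_refl _)
    | insert y Z hy ih =>
      intro hZ
      have h1 := ih ((subset_insert _ _).trans hZ)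
      have h2 := hY y (hZ (mem_insert_self _ _)) (fun u => decide (φ u = y))
      have h3 := RL_mul h2 h1
      rw [← Theta_mul] at h3
      rw [card_insert_of_notMem hy]
      have h4 : (fun u => if φ u ∈ insert y Z then iot (ones k) (ev ω (m + k) (φ u)) else 1) =
          fun u => (if decide (φ u = y) = true then iot (ones k) (ev ω (m + k) y) else 1) *
            (if φ u ∈ Z then iot (ones k) (ev ω (m + k) (φ u)) else 1) := by
        funext u
        by_cases h5 : φ u = y
        · rw [if_pos (by rw [h5]; exact mem_insert_self _ _), if_pos (by simpa using h5),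
            if_neg (by rw [h5]; exact hy), mul_one, h5]
        · rw [if_neg (c := decide (φ u = y) = true) (by simpa using h5), one_mul]
          by_cases h6 : φ u ∈ Z
          · rw [if_pos h6, if_pos (mem_insert_of_mem h6)]
          · rw [if_neg h6, if_neg (by rw [mem_insert]; tauto)]
      rw [h4]
      refine RL_mono (le_of_eq ?_) h3
      push_cast
      ring
  have h1 := key Y (Subset.refl _)
  simpa only [hφ, if_true] using h1

/-- the set of the words moved by the sites -/
def moved (c : P) (m : ℕ) (v : T) : Set T := {l | ∃ u w : T, u.length = m ∧ l = c (u ++ (v ++ w))}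

lemma moved_disj (c : P) (m : ℕ) {v v' : T} (hv : v.length = v'.length) (hne : v ≠ v') :
    Disjoint (moved c m v) (moved c m v') := by
  rw [Set.disjoint_left]
  rintro l ⟨u, w, hu, rfl⟩ ⟨u', w', hu', h⟩
  have h1 := c.injective h
  have h2 := List.append_inj h1 (by rw [hu, hu'])
  have h3 := List.append_inj h2.2 hv
  exact hne h3.1

lemma siteHom_supp {m k : ℕ} {b : P} {v : T} {c : P} (hc : ∀ σ : T → P,
    (∀ u w : T, u.length = m → Theta m σ (c (u ++ w)) = c (u ++ σ u w)) ∧
    (∀ w : T, w.length < m → Theta m σ (c w) = c w))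
    (hb : ∀ x : P, ∃ y : P, b * iot (ones k) x * b⁻¹ = iot v y) (σ : List.Vector Bool m → P) :
    siteHom m k b σ ∈ fixingSubgroup P (moved c m v)ᶜ := by
  rw [mem_fixingSubgroup_iff]
  intro l hl
  rw [Equiv.Perm.smul_def, siteHom_apply]
  obtain ⟨l', rfl⟩ := c.surjective l
  rcases lt_or_ge l'.length m with h1 | h1
  · exact (hc _).2 _ h1
  · have h2 : l' = l'.take m ++ l'.drop m := (List.take_append_drop m l').symm
    have h3 : (l'.take m).length = m := by rw [List.length_take]; omega
    rw [h2, (hc _).1 _ _ h3]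
    obtain ⟨y, hy⟩ := hb (vx σ (l'.take m))
    rw [hy, iot_fix]
    rintro ⟨w, hw⟩
    apply hl
    refine ⟨l'.take m, w, h3, ?_⟩
    rw [hw, ← h2]

end Pool.Agent.Fol
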