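import Pool.Agent.Fol.Basic

/-!
# The diagonal embedding of level `m` (module SKELETON)

`Theta m (fun _ => ev ω m f)` has word length at most `C * (8/3) ^ m * n` for every product `f` of
`n` generators with `chi (ω (m - 1)) f = 1`.
-/

namespace Pool.Agent.Fol

open Finset Classical

/-- evaluation of a list of letters -/
noncomputable def skelEv (ω : ℕ → Fin 3) (k : ℕ) (l : List (Fin 3)) : P :=
  (l.map fun i => aP * letP ω k (lt i)).prod

/-- the substitution on lists of letters -/
def skelZeta (x i : Fin 3) : List (Fin 3) := if i = x then [x + 1, x, x + 2] else [i, i]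

lemma skelEv_nil (ω : ℕ → Fin 3) (k : ℕ) : skelEv ω k [] = 1 := rfl

lemma skelEv_cons (ω : ℕ → Fin 3) (k : ℕ) (i : Fin 3) (l : List (Fin 3)) :
    skelEv ω k (i :: l) = aP * letP ω k (lt i) * skelEv ω k l := by
  simp [skelEv]

lemma skelEv_append (ω : ℕ → Fin 3) (k : ℕ) (l l' : List (Fin 3)) :
    skelEv ω k (l ++ l') = skelEv ω k l * skelEv ω k l' := by
  simp [skelEv]

lemma skel_act_ne {x i : Fin 3} (h : i ≠ x) : act x (lt i) = true := by
  revert x i; decide

lemma skel_act_self (x : Fin 3) : act x (lt x) = false := by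
  revert x; decide

lemma skel_lt_mul (x : Fin 3) : lt (x + 1) * lt (x + 2) = lt x := by
  revert x; decide

lemma skel_pr_aP (x y : P) : aP * pr x y * aP = pr y x := by
  rw [aP_pr, mul_assoc, aP_mul_aP, mul_one]

lemma skel_cancel (x y : P) : x * aP * (aP * y) = x * y := by
  rw [mul_assoc, ← mul_assoc aP aP y, aP_mul_aP, one_mul]

lemma skel_n1 (x : Fin 3) : x + 1 ≠ x := by revert x; decide

lemma skel_n2 (x : Fin 3) : x + 2 ≠ x := by revert x; decide

lemma skel_cnt {i j : Fin 3} (h : i ≠ j) : [j + 1, j, j + 2].count i = 1 := by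
  revert i j; decide

lemma skel_letP_mul (ω : ℕ → Fin 3) (k : ℕ) (u v : V) :
    letP ω k (u * v) = letP ω k u * letP ω k v := (letHom ω k).map_mul u v

/-- one letter, even case -/
lemma skel_letter_ne (ω : ℕ → Fin 3) (k : ℕ) {i : Fin 3} (h : i ≠ ω k) :
    skelEv ω k (skelZeta (ω k) i) = pr (aP * (aP * letP ω (k + 1) (lt i)) * aP)
      (aP * letP ω (k + 1) (lt i)) := by
  have e : letP ω k (lt i) = pr aP (letP ω (k + 1) (lt i)) := by
    rw [letP_eq, skel_act_ne h]; rfl
  simp only [skelZeta, if_neg h, skelEv_cons, skelEv_nil, mul_one]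
  rw [e]
  set t := letP ω (k + 1) (lt i)
  calc aP * pr aP t * (aP * pr aP t) = (aP * pr aP t * aP) * pr aP t := by group
    _ = pr t aP * pr aP t := by rw [skel_pr_aP]
    _ = pr (t * aP) (aP * t) := pr_mul _ _ _ _
    _ = _ := by rw [← mul_assoc aP aP t, aP_mul_aP, one_mul]

/-- one letter, odd case -/
lemma skel_letter_eq (ω : ℕ → Fin 3) (k : ℕ) :
    skelEv ω k (skelZeta (ω k) (ω k)) = pr (aP * (aP * letP ω (k + 1) (lt (ω k))))
      (aP * letP ω (k + 1) (lt (ω k)) * aP) * aP := by
  have h1 : ω k + 1 ≠ ω k := skel_n1 _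
  have h2 : ω k + 2 ≠ ω k := skel_n2 _
  have e1 : letP ω k (lt (ω k + 1)) = pr aP (letP ω (k + 1) (lt (ω k + 1))) := by
    rw [letP_eq, skel_act_ne h1]; rfl
  have e2 : letP ω k (lt (ω k + 2)) = pr aP (letP ω (k + 1) (lt (ω k + 2))) := by
    rw [letP_eq, skel_act_ne h2]; rfl
  have e0 : letP ω k (lt (ω k)) = pr 1 (letP ω (k + 1) (lt (ω k))) := by
    rw [letP_eq, skel_act_self]; rfl
  simp only [skelZeta, if_true, skelEv_cons, skelEv_nil, mul_one]
  rw [e1, e2, e0]
  have e3 : letP ω (k + 1) (lt (ω k)) = letP ω (k + 1) (lt (ω k + 1)) * letP ω (k + 1) (lt (ω k + 2)) := by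
    rw [← skel_letP_mul, skel_lt_mul]
  set y := letP ω (k + 1) (lt (ω k + 1))
  set z := letP ω (k + 1) (lt (ω k + 2))
  set x := letP ω (k + 1) (lt (ω k))
  calc aP * pr aP y * (aP * pr 1 x * (aP * pr aP z))
      = (aP * pr aP y * aP) * pr 1 x * (aP * pr aP z * aP) * aP := by
        simp only [mul_assoc, aP_mul_aP, mul_one]
    _ = pr (y * z) (aP * x * aP) * aP := by
        rw [skel_pr_aP, skel_pr_aP, pr_mul, pr_mul, mul_one]
    _ = _ := by rw [← e3, ← mul_assoc aP aP x, aP_mul_aP, one_mul]

/-- the substitution lifts one level -/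
lemma skel_lift (ω : ℕ → Fin 3) (k : ℕ) (l : List (Fin 3)) :
    (Even (l.count (ω k)) → skelEv ω k (l.flatMap (skelZeta (ω k))) =
      pr (aP * skelEv ω (k + 1) l * aP) (skelEv ω (k + 1) l)) ∧
    (¬ Even (l.count (ω k)) → skelEv ω k (l.flatMap (skelZeta (ω k))) =
      pr (aP * skelEv ω (k + 1) l) (skelEv ω (k + 1) l * aP) * aP) := by
  induction l with
  | nil =>
    refine ⟨fun _ => ?_, fun h => absurd (by simp) h⟩
    simp only [List.flatMap_nil, skelEv_nil, mul_one, aP_mul_aP, pr_one]
  | cons i l ih =>
    rw [List.flatMap_cons, skelEv_append, skelEv_cons]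
    set e := skelEv ω (k + 1) l
    by_cases h : i = ω k
    · subst h
      set t := aP * letP ω (k + 1) (lt (ω k)) with ht
      have hl := skel_letter_eq ω k
      rw [← ht] at hl
      rw [hl, List.count_cons_self, Nat.even_add_one]
      refine ⟨fun h => ?_, fun h => ?_⟩
      · rw [ih.2 h]
        calc pr (aP * t) (t * aP) * aP * (pr (aP * e) (e * aP) * aP)
            = pr (aP * t) (t * aP) * (aP * pr (aP * e) (e * aP) * aP) := by group
          _ = _ := by
            rw [skel_pr_aP, pr_mul, skel_cancel]
            simp only [mul_assoc]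
      · rw [not_not] at h
        rw [ih.1 h]
        calc pr (aP * t) (t * aP) * aP * pr (aP * e * aP) e
            = pr (aP * t) (t * aP) * (aP * pr (aP * e * aP) e * aP) * aP := by
              simp only [mul_assoc, aP_mul_aP, mul_one]
          _ = _ := by
            rw [skel_pr_aP, pr_mul, mul_assoc aP e aP, skel_cancel]
            simp only [mul_assoc]
    · set t := aP * letP ω (k + 1) (lt i) with ht
      have hl := skel_letter_ne ω k h
      rw [← ht] at hl
      rw [hl, List.count_cons_of_ne h]
      refine ⟨fun h => ?_, fun h => ?_⟩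
      · rw [ih.1 h, pr_mul, mul_assoc aP e aP, skel_cancel]
        simp only [mul_assoc]
      · rw [ih.2 h, ← mul_assoc, pr_mul, skel_cancel]
        simp only [mul_assoc]

/-- iterated substitution from level `k + m` to level `k` -/
def skelIt (ω : ℕ → Fin 3) : ℕ → ℕ → List (Fin 3) → List (Fin 3)
  | _, 0, l => l
  | k, m + 1, l => (skelIt ω (k + 1) m l).flatMap (skelZeta (ω k))

/-- the counts after one substitution -/
lemma skel_count (x : Fin 3) (l : List (Fin 3)) :
    (l.flatMap (skelZeta x)).length = 2 * l.length + l.count x ∧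
    (l.flatMap (skelZeta x)).count x = l.count x ∧
    ∀ i, i ≠ x → (l.flatMap (skelZeta x)).count i = 2 * l.count i + l.count x := by
  induction l with
  | nil => simp
  | cons j l ih =>
    obtain ⟨h1, h2, h3⟩ := ih
    rw [List.flatMap_cons]
    by_cases h : j = x
    · subst h
      have e : skelZeta j j = [j + 1, j, j + 2] := by simp [skelZeta]
      have n1 : j + 1 ≠ j := skel_n1 _
      have n2 : j + 2 ≠ j := skel_n2 _
      refine ⟨?_, ?_, fun i hi => ?_⟩
      · rw [List.length_append, h1, e, List.count_cons_self]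
        simp only [List.length_cons, List.length_nil]; omega
      · rw [List.count_append, h2, e, List.count_cons_self, List.count_cons_of_ne n1,
          List.count_cons_self, List.count_cons_of_ne n2, List.count_nil]
        omega
      · rw [List.count_append, h3 i hi, e, List.count_cons_self, List.count_cons_of_ne (Ne.symm hi)]
        rw [skel_cnt hi]; omega
    · have e : skelZeta x j = [j, j] := by simp [skelZeta, h]
      refine ⟨?_, ?_, fun i hi => ?_⟩
      · rw [List.length_append, h1, e, List.count_cons_of_ne h]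
        simp only [List.length_cons, List.length_nil]; omega
      · rw [List.count_append, h2, e, List.count_cons_of_ne h, List.count_cons_of_ne h,
          List.count_cons_of_ne h, List.count_nil]
        omega
      · rw [List.count_append, h3 i hi, e, List.count_cons_of_ne h]
        by_cases hij : j = i
        · subst hij
          rw [List.count_cons_self, List.count_cons_self, List.count_cons_self, List.count_nil]
          omega
        · rw [List.count_cons_of_ne hij, List.count_cons_of_ne hij, List.count_cons_of_ne hij,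
            List.count_nil]
          omega

lemma skel_even (ω : ℕ → Fin 3) (l : List (Fin 3)) (m : ℕ) : ∀ k,
    Even (l.count (ω (k + m))) → ∀ i, Even ((skelIt ω k (m + 1) l).count i) := by
  have key : ∀ (x : Fin 3) (l : List (Fin 3)), Even (l.count x) →
      ∀ i, Even ((l.flatMap (skelZeta x)).count i) := by
    intro x l hx i
    obtain ⟨_, h2, h3⟩ := skel_count x l
    by_cases hi : i = x
    · rw [hi, h2]; exact hx
    · rw [h3 i hi]; exact (even_two_mul _).add hx
  induction m with
  | zero => intro k hk i; exact key _ _ hk i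
  | succ m ih =>
    intro k hk i
    refine key (ω k) (skelIt ω (k + 1) (m + 1) l) (ih (k + 1) ?_ _) i
    rwa [show k + 1 + m = k + (m + 1) by omega]

lemma skelIt_ev (ω : ℕ → Fin 3) (l : List (Fin 3)) (m : ℕ) : ∀ k,
    Even (l.count (ω (k + m))) → skelEv ω k (skelIt ω k (m + 1) l) =
      Theta (m + 1) (fun _ => skelEv ω (k + (m + 1)) l) := by
  induction m with
  | zero => intro k hk; exact (skel_lift ω k l).1 hk
  | succ m ih =>
    intro k hk
    have hk' : Even (l.count (ω (k + 1 + m))) := by
      rwa [show k + 1 + m = k + (m + 1) by omega]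
    have h1 := (skel_lift ω k (skelIt ω (k + 1) (m + 1) l)).1 (skel_even ω l m (k + 1) hk' _)
    rw [ih (k + 1) hk', show k + 1 + (m + 1) = k + (m + 1 + 1) by omega] at h1
    exact h1

lemma skelIt_len (ω : ℕ → Fin 3) (l : List (Fin 3)) (m : ℕ) : ∀ k, ∀ i,
    3 * ((skelIt ω k m l).length : ℝ) + 2 * ((skelIt ω k m l).count i : ℝ) ≤
      (8 / 3) ^ m * (5 * l.length) := by
  induction m with
  | zero =>
    intro k i
    simp only [skelIt, pow_zero, one_mul]
    have : ((l.count i : ℕ) : ℝ) ≤ l.length := by exact_mod_cast List.count_le_length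
    linarith
  | succ m ih =>
    intro k i
    obtain ⟨h1, h2, h3⟩ := skel_count (ω k) (skelIt ω (k + 1) m l)
    simp only [skelIt]
    rw [h1]
    have ihx := ih (k + 1) (ω k)
    have hpow : (8 / 3 : ℝ) ^ (m + 1) * (5 * l.length) = 8 / 3 * ((8 / 3) ^ m * (5 * l.length)) := by
      rw [pow_succ]; ring
    rw [hpow]
    by_cases hi : i = ω k
    · rw [hi, h2]
      push_cast
      have h4 : (((skelIt ω (k + 1) m l).count (ω k) : ℕ) : ℝ) ≤ (skelIt ω (k + 1) m l).length := by
        exact_mod_cast List.count_le_length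
      linarith
    · rw [h3 i hi]
      push_cast
      have ihi := ih (k + 1) i
      have h4 : (skelIt ω (k + 1) m l).count (ω k) + (skelIt ω (k + 1) m l).count i
          ≤ (skelIt ω (k + 1) m l).length := by
        generalize skelIt ω (k + 1) m l = L
        generalize ω k = x at hi
        induction L with
        | nil => simp
        | cons j L ihL =>
          rw [List.length_cons]
          by_cases hj : j = x
          · subst hj
            rw [List.count_cons_self, List.count_cons_of_ne (Ne.symm hi)]; omega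
          · rw [List.count_cons_of_ne hj]
            have := List.count_cons (a := i) (b := j) (l := L)
            rw [this]
            split_ifs <;> omega
      have h4' : (((skelIt ω (k + 1) m l).count (ω k) : ℕ) : ℝ)
          + ((skelIt ω (k + 1) m l).count i : ℕ) ≤ (skelIt ω (k + 1) m l).length := by
        exact_mod_cast h4
      have h5 : (0 : ℝ) ≤ ((skelIt ω (k + 1) m l).count (ω k) : ℕ) := Nat.cast_nonneg _
      have h6 : (0 : ℝ) ≤ ((skelIt ω (k + 1) m l).count i : ℕ) := Nat.cast_nonneg _
      linarith

/-- word length of an evaluated list -/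
lemma skelEv_RL (ω : ℕ → Fin 3) (l : List (Fin 3)) :
    RL (gens ω 0) (2 * l.length) (skelEv ω 0 l) := by
  refine ⟨2 * l.length, by push_cast; exact le_rfl, ?_⟩
  induction l with
  | nil => exact ⟨[], by simp, by simp, rfl⟩
  | cons i l ih =>
    obtain ⟨L, hL1, hL2, hL3⟩ := ih
    refine ⟨aP :: letP ω 0 (lt i) :: L, ?_, ?_, ?_⟩
    · simp only [List.length_cons]; omega
    · intro x hx
      rcases List.mem_cons.1 hx with rfl | hx
      · exact Or.inl rfl
      · rcases List.mem_cons.1 hx with rfl | hx
        · exact Or.inr ⟨_, rfl⟩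
        · exact hL2 x hx
    · rw [List.prod_cons, List.prod_cons, hL3, skelEv_cons, mul_assoc]

/-- word length of the diagonal image of a list -/
lemma skel_diag (ω : ℕ → Fin 3) {m : ℕ} (hm : 1 ≤ m) (l : List (Fin 3))
    (hl : Even (l.count (ω (m - 1)))) :
    RL (gens ω 0) (10 / 3 * (8 / 3) ^ m * l.length) (Theta m (fun _ => skelEv ω m l)) := by
  obtain ⟨m, rfl⟩ : ∃ j, m = j + 1 := ⟨m - 1, by omega⟩
  simp only [Nat.add_sub_cancel] at hl
  have h1 := skelIt_ev ω l m 0 (by simpa using hl)
  rw [Nat.zero_add] at h1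
  rw [← h1]
  refine RL_mono ?_ (skelEv_RL ω _)
  have h2 := skelIt_len ω l (m + 1) 0 0
  have h3 : (0 : ℝ) ≤ (((skelIt ω 0 (m + 1) l).count 0 : ℕ) : ℝ) := Nat.cast_nonneg _
  linarith

/-- the diagonal homomorphism -/
noncomputable def skelD (ω : ℕ → Fin 3) (m : ℕ) : F →* P where
  toFun f := Theta m (fun _ => ev ω m f)
  map_one' := by
    have : ∀ m : ℕ, Theta m (fun _ => (1 : P)) = 1 := by
      intro m
      induction m with
      | zero => rfl
      | succ m ih => simp only [Theta, ih, mul_one, aP_mul_aP, pr_one]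
    simp only [map_one, this]
  map_mul' f g := by
    have : ∀ (m : ℕ) (x y : P), Theta m (fun _ => x * y) = Theta m (fun _ => x) * Theta m (fun _ => y) := by
      intro m x y
      induction m with
      | zero => rfl
      | succ m ih =>
        simp only [Theta, ih, pr_mul]
        congr 1
        calc aP * (Theta m (fun _ => x) * Theta m (fun _ => y)) * aP
            = aP * Theta m (fun _ => x) * 1 * Theta m (fun _ => y) * aP := by group
          _ = _ := by rw [← aP_mul_aP]; group
    simp only [map_mul, this]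

lemma skelD_apply (ω : ℕ → Fin 3) (m : ℕ) (f : F) :
    skelD ω m f = Theta m (fun _ => ev ω m f) := rfl

/-- the transversal -/
noncomputable def skelA (b : Bool) : F := if b then fa else 1

lemma skelA_mul (b : Bool) : skelA b * skelA b = 1 := by
  cases b
  · simp [skelA]
  · simp [skelA, fa_mul_fa]

/-- generators -/
lemma skel_gen (ω : ℕ → Fin 3) {m : ℕ} (hm : 1 ≤ m) (b : Bool) {s : F} (hs : s ∈ gensF) :
    RL (gens ω 0) (40 / 3 * (8 / 3) ^ m) (skelD ω m (skelA b * s *
      skelA (xor b (decide (chi (ω (m - 1)) s ≠ 1))))) := by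
  set x := ω (m - 1) with hx
  set G : ℝ := (8 / 3) ^ m with hG
  have hG0 : 0 < G := by positivity
  have hinv := gens_inv ω 0
  have hone : RL (gens ω 0) (40 / 3 * G) (1 : P) :=
    ⟨0, by simpa using (by positivity : (0:ℝ) ≤ 40 / 3 * G), [], by simp, by simp, rfl⟩
  -- `a y`
  have hay : ∀ i, i ≠ x → RL (gens ω 0) (10 / 3 * G) (skelD ω m (fa * fu (lt i))) := by
    intro i hi
    have h1 := skel_diag ω hm [i] (by rw [← hx, List.count_cons_of_ne hi]; simp)
    have e : ev ω m (fa * fu (lt i)) = skelEv ω m [i] := by
      rw [map_mul, ev_fa, ev_fu, skelEv_cons, skelEv_nil, mul_one]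
    rw [skelD_apply, e]
    simpa using h1
  have hya : ∀ i, i ≠ x → RL (gens ω 0) (10 / 3 * G) (skelD ω m (fu (lt i) * fa)) := by
    intro i hi
    have h1 := RL_inv hinv (hay i hi)
    rw [← map_inv, mul_inv_rev, fa_inv, fu_inv] at h1
    exact h1
  have n1 : x + 1 ≠ x := skel_n1 _
  have n2 : x + 2 ≠ x := skel_n2 _
  have hxx : RL (gens ω 0) (20 / 3 * G) (skelD ω m (fu (lt x))) := by
    have h1 := RL_mul (hya (x + 1) n1) (hay (x + 2) n2)
    rw [← map_mul] at h1
    have e : fu (lt (x + 1)) * fa * (fa * fu (lt (x + 2))) = fu (lt x) := by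
      calc fu (lt (x + 1)) * fa * (fa * fu (lt (x + 2)))
          = fu (lt (x + 1)) * (fa * fa) * fu (lt (x + 2)) := by group
        _ = _ := by rw [fa_mul_fa, mul_one, ← map_mul, skel_lt_mul]
    rw [e] at h1
    exact RL_mono (by linarith) h1
  have haxax : RL (gens ω 0) (20 / 3 * G) (skelD ω m (fa * fu (lt x) * (fa * fu (lt x)))) := by
    have h1 := skel_diag ω hm [x, x] (by rw [← hx]; simp)
    have e : ev ω m (fa * fu (lt x) * (fa * fu (lt x))) = skelEv ω m [x, x] := by
      rw [map_mul, map_mul, ev_fa, ev_fu, skelEv_cons, skelEv_cons, skelEv_nil, mul_one]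
    rw [skelD_apply, e]
    refine RL_mono ?_ h1
    simp only [List.length_cons, List.length_nil]
    push_cast
    linarith
  have haxa : RL (gens ω 0) (40 / 3 * G) (skelD ω m (fa * fu (lt x) * fa)) := by
    have h1 := RL_mul haxax hxx
    rw [← map_mul] at h1
    have e : fa * fu (lt x) * (fa * fu (lt x)) * fu (lt x) = fa * fu (lt x) * fa := by
      rw [mul_assoc, mul_assoc fa (fu (lt x)) (fu (lt x)), fu_mul_self, mul_one]
    rw [e] at h1
    exact RL_mono (by linarith) h1
  have hV : ∀ u : V, u = 1 ∨ ∃ i, u = lt i := by decide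
  have hchi : ∀ u : V, chi x (fu u) = if act x u then Multiplicative.ofAdd 1 else 1 := by
    intro u
    unfold chi
    rw [liftF_fu]
    rfl
  have hne : (Multiplicative.ofAdd (1 : ZMod 2)) ≠ 1 := by decide
  rcases hs with rfl | ⟨u, rfl⟩
  · have h1 : chi x fa = Multiplicative.ofAdd 1 := by unfold chi; rw [liftF_fa]
    rw [h1]
    have e : skelA b * fa * skelA (xor b (decide ((Multiplicative.ofAdd (1 : ZMod 2)) ≠ 1))) = 1 := by
      rw [decide_eq_true hne]
      cases b <;> simp [skelA, fa_mul_fa]
    rw [e, map_one]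
    exact hone
  · rcases hV u with rfl | ⟨i, rfl⟩
    · rw [map_one, map_one, mul_one]
      simp only [ne_eq, not_true_eq_false, decide_false, Bool.xor_false]
      rw [skelA_mul, map_one]
      exact hone
    · by_cases hi : i = x
      · rw [hi, hchi, skel_act_self]
        simp only [Bool.false_eq_true, if_false, ne_eq, not_true_eq_false, decide_false,
          Bool.xor_false]
        cases b
        · simp only [skelA, Bool.false_eq_true, if_false, one_mul, mul_one]
          exact RL_mono (by linarith) hxx
        · simp only [skelA, if_true]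
          exact haxa
      · rw [hchi, skel_act_ne hi, if_pos rfl, decide_eq_true hne]
        cases b
        · simp only [skelA, Bool.false_xor, Bool.false_eq_true, if_false, if_true, one_mul]
          exact RL_mono (by linarith) (hya i hi)
        · simp only [skelA, Bool.true_xor, Bool.not_true, Bool.false_eq_true, if_false, if_true,
            mul_one]
          exact RL_mono (by linarith) (hay i hi)

lemma skel_xor (b : Bool) (p q : Multiplicative (ZMod 2)) :
    xor (xor b (decide (p ≠ 1))) (decide (q ≠ 1)) = xor b (decide (p * q ≠ 1)) := by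
  revert b p q; decide

theorem delta_cost : ∃ C : ℝ, 0 < C ∧ ∀ (ω : ℕ → Fin 3) (m n : ℕ) (f : F), 1 ≤ m → WL gensF n f →
    chi (ω (m - 1)) f = 1 → RL (gens ω 0) (C * (8 / 3) ^ m * n) (Theta m (fun _ => ev ω m f)) := by
  refine ⟨40 / 3, by norm_num, fun ω m n f hm hf hchi => ?_⟩
  have key : ∀ (l : List F), (∀ s ∈ l, s ∈ gensF) → ∀ b : Bool,
      RL (gens ω 0) (40 / 3 * (8 / 3) ^ m * l.length) (skelD ω m (skelA b * l.prod *
        skelA (xor b (decide (chi (ω (m - 1)) l.prod ≠ 1))))) := by
    intro l
    induction l with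
    | nil =>
      intro _ b
      simp only [List.prod_nil, map_one, ne_eq, not_true_eq_false, decide_false, Bool.xor_false,
        mul_one, skelA_mul, List.length_nil]
      exact ⟨0, by simp, [], by simp, by simp, rfl⟩
    | cons s l ih =>
      intro hl b
      have h1 := skel_gen ω hm b (hl s (List.mem_cons_self ..))
      set b' := xor b (decide (chi (ω (m - 1)) s ≠ 1)) with hb'
      have h2 := ih (fun t ht => hl t (List.mem_cons_of_mem _ ht)) b'
      have h3 := RL_mul h1 h2
      rw [← map_mul] at h3
      have hb : xor b' (decide (chi (ω (m - 1)) l.prod ≠ 1))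
          = xor b (decide (chi (ω (m - 1)) (s :: l).prod ≠ 1)) := by
        rw [hb', List.prod_cons, map_mul]
        exact skel_xor _ _ _
      have e : skelA b * s * skelA b' * (skelA b' * l.prod *
          skelA (xor b' (decide (chi (ω (m - 1)) l.prod ≠ 1)))) = skelA b * (s :: l).prod *
          skelA (xor b (decide (chi (ω (m - 1)) (s :: l).prod ≠ 1))) := by
        rw [hb, List.prod_cons]
        set B := skelA (xor b (decide (chi (ω (m - 1)) (s * l.prod) ≠ 1)))
        calc skelA b * s * skelA b' * (skelA b' * l.prod * B)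
            = skelA b * s * (skelA b' * skelA b') * l.prod * B := by group
          _ = _ := by rw [skelA_mul, mul_one]; group
      rw [e] at h3
      refine RL_mono ?_ h3
      rw [List.length_cons]
      push_cast
      linarith
  obtain ⟨l, hl1, hl2, hl3⟩ := hf
  have h1 := key l hl2 false
  rw [hl3, hchi] at h1
  simp only [ne_eq, not_true_eq_false, decide_false, Bool.xor_false, skelA, Bool.false_eq_true,
    if_false, one_mul, mul_one] at h1
  refine RL_mono ?_ h1
  refine mul_le_mul_of_nonneg_left ?_ (by positivity)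
  exact_mod_cast hl1

end Pool.Agent.Fol
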