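import Pool.Agent.Fol.Basic

/-!
# Costs of the toggles on a level of the tree, and elements equal at all vertices of a level
-/

namespace Pool.Agent.Fol

/-- the word for the function equal to `s` where `ε` holds and `1` elsewhere -/
def togW (ω : ℕ → Fin 3) (s : F) : ℕ → ℕ → (T → Bool) → F
  | 0, _, ε => if ε [] then s else 1
  | m + 1, k, ε => (fa * Sk ω k (fa * togW ω s m (k + 1) (fun u => ε (false :: u)) * fa) * fa) *
      Sk ω k (togW ω s m (k + 1) (fun u => ε (true :: u)))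

lemma togW_fa_conj {i : Fin 3} {f : F} (hf : f ∈ NK i) : fa * f * fa ∈ NK i := by
  have := (NK_normal i).conj_mem _ hf fa
  rwa [fa_inv] at this

lemma togW_spec (ω : ℕ → Fin 3) (s : F) (m k : ℕ) (hK : s ∈ NK (up ω (k + m))) (ε : T → Bool) :
    togW ω s m k ε ∈ NK (up ω k) ∧
      ev ω k (togW ω s m k ε) = Theta m (fun u => if ε u then ev ω (k + m) s else 1) := by
  induction m generalizing k ε with
  | zero =>
    show (if ε [] then s else 1) ∈ NK (up ω k) ∧
      ev ω k (if ε [] then s else 1) = (if ε [] then ev ω (k + 0) s else 1)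
    by_cases h : ε [] = true
    · rw [if_pos h, if_pos h]
      exact ⟨hK, rfl⟩
    · rw [if_neg h, if_neg h]
      exact ⟨one_mem _, map_one _⟩
  | succ m ih =>
    have e1 : k + (m + 1) = (k + 1) + m := by omega
    rw [e1] at hK ⊢
    obtain ⟨h1, h2⟩ := ih (k + 1) hK (fun u => ε (false :: u))
    obtain ⟨h3, h4⟩ := ih (k + 1) hK (fun u => ε (true :: u))
    have h5 : fa * togW ω s m (k + 1) (fun u => ε (false :: u)) * fa ∈ NK (ω k) :=
      togW_fa_conj h1
    have h6 := Sk_NK (k := k) h5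
    have h7 := Sk_NK (k := k) h3
    refine ⟨?_, ?_⟩
    · show _ * _ ∈ NK (up ω k)
      exact mul_mem (togW_fa_conj h6) h7
    · show ev ω k ((fa * Sk ω k (fa * togW ω s m (k + 1) (fun u => ε (false :: u)) * fa) * fa) *
        Sk ω k (togW ω s m (k + 1) (fun u => ε (true :: u)))) = pr (aP * Theta m _ * aP) (Theta m _)
      rw [map_mul, map_mul, map_mul, ev_fa, ev_Sk h5, ev_Sk (k := k) h3, aP_pr_aP, pr_mul,
        one_mul, mul_one, h4, map_mul, map_mul, ev_fa, h2]

lemma togW_AL (ω : ℕ → Fin 3) (s : F) (n : ℕ) (hs : AL n s) (m k : ℕ) (ε : T → Bool) :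
    ∃ j, j + 2 ≤ 4 ^ m * (n + 2) ∧ AL j (togW ω s m k ε) := by
  induction m generalizing k ε with
  | zero =>
    unfold togW
    by_cases h : ε [] = true
    · rw [if_pos h]; exact ⟨n, by simp, hs⟩
    · rw [if_neg h]; exact ⟨0, by simp, AL_one⟩
  | succ m ih =>
    obtain ⟨j0, h1, h2⟩ := ih (k + 1) (fun u => ε (false :: u))
    obtain ⟨j1, h3, h4⟩ := ih (k + 1) (fun u => ε (true :: u))
    refine ⟨(1 + 2 * (1 + j0 + 1) + 1) + 2 * j1, ?_, ?_⟩
    · have e : 4 ^ (m + 1) * (n + 2) = 4 * (4 ^ m * (n + 2)) := by ring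
      rw [e]; omega
    · exact AL.mul (AL.mul (AL.mul AL.a (AL_Sk (AL.mul (AL.mul AL.a h2) AL.a))) AL.a) (AL_Sk h4)

theorem tog_cost (ω : ℕ → Fin 3) (m n : ℕ) (s : F) (hs : AL n s) (hK : s ∈ NK (up ω m))
    (ε : T → Bool) : RL (gens ω 0) (2 * 4 ^ m * (n + 2))
      (Theta m (fun u => if ε u then ev ω m s else 1)) := by
  obtain ⟨_, h1⟩ := togW_spec ω s m 0 (by rwa [Nat.zero_add]) ε
  rw [Nat.zero_add] at h1
  obtain ⟨j, h2, h3⟩ := togW_AL ω s n hs m 0 ε
  rw [← h1]
  refine ⟨2 * j + 1, ?_, ev_gens (AL_WL h3)⟩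
  have h4 : ((j + 2 : ℕ) : ℝ) ≤ ((4 ^ m * (n + 2) : ℕ) : ℝ) := by exact_mod_cast h2
  push_cast at h4 ⊢
  nlinarith

lemma cst_inv (r : ℕ) (x : P) : (cst r x)⁻¹ = cst r x⁻¹ := by
  induction r with
  | zero => rfl
  | succ r ih =>
    show (pr (cst r x) (cst r x))⁻¹ = pr (cst r x⁻¹) (cst r x⁻¹)
    rw [pr_inv, ih]

theorem s_elem (ω : ℕ → Fin 3) (m r : ℕ) (v : Fin 3) (hr : 1 ≤ r)
    (hfirst : ∀ i, i + 1 < r → ω (m + i) ≠ v) (hret : ω (m + r - 1) = v) :
    ev ω m ((fa * fu (lt v)) ^ (2 ^ r)) = cst r (letP ω (m + r) (lt v)) := by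
  rw [map_pow, map_mul, ev_fa, ev_fu]
  induction r generalizing m with
  | zero => omega
  | succ r ih =>
    rcases Nat.eq_zero_or_pos r with rfl | hr0
    · have h1 : ω m = v := by simpa using hret
      rw [letP_eq ω m, if_neg (by rw [act_lt, h1]; simp)]
      show (aP * pr 1 _) ^ 2 = pr (letP ω (m + 1) (lt v)) (letP ω (m + 1) (lt v))
      rw [pow_two, ← mul_assoc, aP_pr_aP, pr_mul, one_mul, mul_one]
    · have h1 : ω m ≠ v := by simpa using hfirst 0 (by omega)
      have h2 := ih (m + 1) hr0 (fun i hi => by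
        have := hfirst (i + 1) (by omega)
        rwa [show m + 1 + i = m + (i + 1) by omega]) (by
        rw [← hret]; congr 1; omega)
      rw [letP_eq ω m, if_pos (by rw [act_lt]; exact decide_eq_true (Ne.symm h1)), pow_succ',
        pow_mul]
      have h3 : (aP * pr aP (letP ω (m + 1) (lt v))) ^ 2 =
          pr ((aP * letP ω (m + 1) (lt v))⁻¹) (aP * letP ω (m + 1) (lt v)) := by
        rw [pow_two, ← mul_assoc, aP_pr_aP, pr_mul, mul_inv_rev, letP_inv, aP_inv]
      rw [h3, pr_pow, inv_pow, h2, cst_inv, letP_inv, show m + (r + 1) = m + 1 + r by omega]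
      rfl

/-- conjugation of an element at `1 ^ k` by `cst r (letP ω j u)`, `r ≤ k` -/
theorem cst_conj (ω : ℕ → Fin 3) (j r k : ℕ) (hrk : r ≤ k) (u : V) (x : P) :
    cst r (letP ω (j + r) u) * iot (ones k) x * (cst r (letP ω (j + r) u))⁻¹ =
      iot (ones k) (letP ω (j + k) u * x * letP ω (j + k) u) := by
  have hone : ∀ (k : ℕ) (z : P), iot (ones (k + 1)) z = pr 1 (iot (ones k) z) := fun k z => rfl
  induction r generalizing j k with
  | zero =>
    show letP ω j u * iot (ones k) x * (letP ω j u)⁻¹ = _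
    clear hrk
    induction k generalizing j with
    | zero => rw [letP_inv]; rfl
    | succ k ih =>
      rw [hone, hone, letP_eq ω j u, pr_inv, pr_mul, pr_mul, mul_one, mul_inv_cancel, ih (j + 1),
        show j + (k + 1) = j + 1 + k by omega]
  | succ r ih =>
    obtain ⟨k, rfl⟩ : ∃ k', k = k' + 1 := ⟨k - 1, by omega⟩
    have h1 := ih (j + 1) k (by omega)
    rw [show j + (r + 1) = j + 1 + r by omega, show j + (k + 1) = j + 1 + k by omega, hone, hone]
    show pr (cst r _) (cst r _) * _ * (pr (cst r _) (cst r _))⁻¹ = _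
    rw [pr_inv, pr_mul, pr_mul, mul_one, mul_inv_cancel, h1]

end Pool.Agent.Fol
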