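import Pool.Agent.Fol.Basic
import Pool.Agent.Fol.Coord
import Pool.Agent.Fol.Skeleton
import Pool.Agent.Fol.TogCost

/-!
# The toggles
-/

namespace Pool.Agent.Fol

lemma toggle_iot_one (v : T) : iot v 1 = 1 := by
  have h := iot_mul v 1 1
  rw [mul_one] at h
  exact mul_left_cancel (a := iot v 1) (by rw [← h, mul_one])

lemma toggle_iot_inv (v : T) (x : P) : iot v x⁻¹ = (iot v x)⁻¹ := by
  apply eq_inv_of_mul_eq_one_left
  rw [← iot_mul, inv_mul_cancel, toggle_iot_one]

/-- the section of a word which fixes `1 ^ k` -/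
def toggleSec : ℕ → P → P → Prop
  | 0, y, x => y = x
  | k + 1, y, x => ∃ z y' : P, y = pr z y' ∧ toggleSec k y' x

lemma toggleSec_conj (k : ℕ) (y x w : P) (h : toggleSec k y x) :
    y * iot (ones k) w * y⁻¹ = iot (ones k) (x * w * x⁻¹) := by
  induction k generalizing y with
  | zero =>
    have h' : y = x := h
    subst h'
    rfl
  | succ k ih =>
    obtain ⟨z, y', rfl, h⟩ := h
    have h1 : ones (k + 1) = true :: ones k := List.replicate_succ
    rw [h1]
    show pr z y' * pr 1 (iot (ones k) w) * (pr z y')⁻¹ = pr 1 (iot (ones k) (x * w * x⁻¹))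
    rw [← ih y' h, pr_inv, pr_mul, pr_mul, mul_one, mul_inv_cancel]

lemma toggleSec_conj' (k : ℕ) (y x w : P) (h : toggleSec k y x) :
    y⁻¹ * iot (ones k) w * y = iot (ones k) (x⁻¹ * w * x) := by
  have := toggleSec_conj k y x (x⁻¹ * w * x) h
  have e : x * (x⁻¹ * w * x) * x⁻¹ = w := by group
  rw [e] at this
  rw [← this]
  group

lemma toggle_Lk_sec (ω : ℕ → Fin 3) (k m : ℕ) (g : F) :
    toggleSec k (ev ω m (Lk ω (ones k) m g)) (ev ω (m + k) g) := by
  induction k generalizing m with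
  | zero => rfl
  | succ k ih =>
    have h1 : ones (k + 1) = true :: ones k := List.replicate_succ
    rw [h1]
    obtain ⟨x, hx⟩ := ev_Sk' ω m (Lk ω (ones k) (m + 1) g)
    refine ⟨x, ev ω (m + 1) (Lk ω (ones k) (m + 1) g), hx, ?_⟩
    have := ih (m + 1)
    rwa [show m + 1 + k = m + (k + 1) by omega] at this

lemma toggle_Lk_mul (ω : ℕ → Fin 3) (k m : ℕ) (g h : F) :
    Lk ω (ones k) m (g * h) = Lk ω (ones k) m g * Lk ω (ones k) m h := by
  induction k generalizing m with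
  | zero => rfl
  | succ k ih =>
    have h1 : ones (k + 1) = true :: ones k := List.replicate_succ
    rw [h1]
    show Sk ω m (Lk ω (ones k) (m + 1) (g * h)) = Sk ω m _ * Sk ω m _
    rw [ih, map_mul]

lemma toggle_Lk_fu (ω : ℕ → Fin 3) (k m : ℕ) (u : V) :
    Lk ω (ones k) m (fu u) = fu u := by
  induction k generalizing m with
  | zero => rfl
  | succ k ih =>
    have h1 : ones (k + 1) = true :: ones k := List.replicate_succ
    rw [h1]
    show Sk ω m (Lk ω (ones k) (m + 1) (fu u)) = fu u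
    rw [ih, Sk_fu]

lemma toggle_Lk_AL (ω : ℕ → Fin 3) (k m n : ℕ) (g : F) (hg : AL n g) :
    AL (2 ^ k * n) (Lk ω (ones k) m g) := by
  induction k generalizing m with
  | zero => rw [pow_zero, one_mul]; exact hg
  | succ k ih =>
    have h1 : ones (k + 1) = true :: ones k := List.replicate_succ
    rw [h1]
    show AL _ (Sk ω m (Lk ω (ones k) (m + 1) g))
    rw [pow_succ, mul_comm (2 ^ k) 2, mul_assoc]
    exact AL_Sk (ih (m + 1))

lemma toggle_exists_AL (g : F) : ∃ n, AL n g := by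
  induction g using F_induction with
  | one => exact ⟨0, AL_one⟩
  | a f ih =>
    obtain ⟨n, hn⟩ := ih
    exact ⟨_, AL.mul AL.a hn⟩
  | u u f ih =>
    obtain ⟨n, hn⟩ := ih
    exact ⟨_, AL.mul (AL.u u) hn⟩

lemma toggle_sq (z : Multiplicative (ZMod 2)) : z * z = 1 := by
  revert z; decide

lemma toggle_chi_NK {i : Fin 3} {f : F} (hf : f ∈ NK i) : chi i f = 1 := by
  have h := NK_map (chi i) (i := i) (N := ⊥) (by
    rw [Subgroup.mem_bot, map_pow, pow_two]
    exact toggle_sq _) hf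
  exact Subgroup.mem_bot.1 h

/-- cost of a diagonal element -/
lemma toggle_delta {C0 : ℝ} (hC0 : 0 < C0) (h0 : ∀ (ω : ℕ → Fin 3) (m n : ℕ) (f : F), 1 ≤ m →
    WL gensF n f → chi (ω (m - 1)) f = 1 →
    RL (gens ω 0) (C0 * (8 / 3) ^ m * n) (Theta m (fun _ => ev ω m f)))
    (ω : ℕ → Fin 3) (m k n : ℕ) (g : F) (hm : 1 ≤ m) (hg : AL n g)
    (hchi : chi (ω (m - 1)) (Lk ω (ones k) m g) = 1) :
    RL (gens ω 0) (C0 * (2 * n + 1) * ((8 / 3) ^ m * 2 ^ k))
      (Theta m (fun _ => ev ω m (Lk ω (ones k) m g))) := by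
  have h1 := AL_WL (toggle_Lk_AL ω k m n g hg)
  refine RL_mono ?_ (h0 ω m _ _ hm h1 hchi)
  have h2 : ((2 * (2 ^ k * n) + 1 : ℕ) : ℝ) ≤ (2 * n + 1) * 2 ^ k := by
    push_cast
    have : (1 : ℝ) ≤ 2 ^ k := one_le_pow₀ (by norm_num)
    nlinarith
  calc C0 * (8 / 3) ^ m * ((2 * (2 ^ k * n) + 1 : ℕ) : ℝ)
      ≤ C0 * (8 / 3) ^ m * ((2 * n + 1) * 2 ^ k) :=
        mul_le_mul_of_nonneg_left h2 (by positivity)
    _ = _ := by ring

/-- the main case -/
lemma toggle_main (v p : Fin 3) (hpv : p ≠ v) (g κ' : F) (hκ : κ' ∈ NK v) : ∃ C : ℝ, 0 < C ∧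
    ∀ (ω : ℕ → Fin 3) (m k r : ℕ), Cond ω m k r v p → ∀ ε : T → Bool,
      RL (gens ω 0) (C * ((8 / 3) ^ m * 2 ^ k + 4 ^ m))
        (Theta m (fun u => if ε u then iot (ones k) (ev ω (m + k)
          (g * fu (lt v) * g⁻¹ * κ' * (g * fu (lt v) * g⁻¹) * κ'⁻¹)) else 1)) := by
  obtain ⟨C0, hC0, h0⟩ := delta_cost
  obtain ⟨n, hn⟩ := toggle_exists_AL g
  obtain ⟨l, hl⟩ := toggle_exists_AL κ'
  refine ⟨C0 * (4 * (2 * n + 1) + 2 * (2 * l + 1)) + 40, by positivity, ?_⟩
  intro ω m k r hc ε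
  have hm := hc.m1
  have hup : up ω m = v := by
    obtain ⟨m', rfl⟩ : ∃ m', m = m' + 1 := ⟨m - 1, by omega⟩
    exact hc.hv
  have hupk : up ω (m + (ones k).length) = v := by
    have : (ones k).length = k := List.length_replicate
    rw [this]
    obtain ⟨j, hj⟩ : ∃ j, m + k = j + 1 := ⟨m + k - 1, by omega⟩
    have := hc.hk
    rw [hj] at this ⊢
    exact this
  have hlen : (ones k).length = k := List.length_replicate
  -- the conjugator
  obtain ⟨g', hg', hgn, hchi⟩ : ∃ g' : F, g' * fu (lt v) * g'⁻¹ = g * fu (lt v) * g⁻¹ ∧ AL n g' ∧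
      chi (ω (m - 1)) (Lk ω (ones k) m g') = 1 := by
    by_cases h : chi (ω (m - 1)) (Lk ω (ones k) m g) = 1
    · exact ⟨g, rfl, hn, h⟩
    · refine ⟨g * fu (lt p), ?_, AL.mul hn (AL.u _), ?_⟩
      · have hcomm : fu (lt p) * fu (lt v) = fu (lt v) * fu (lt p) := by
          rw [← map_mul, ← map_mul, mul_comm]
        calc g * fu (lt p) * fu (lt v) * (g * fu (lt p))⁻¹
            = g * (fu (lt p) * fu (lt v)) * (fu (lt p))⁻¹ * g⁻¹ := by group
          _ = g * fu (lt v) * g⁻¹ := by rw [hcomm]; group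
      · rw [toggle_Lk_mul, toggle_Lk_fu, map_mul, chi_fu, hc.hv, act_lt,
          if_pos (decide_eq_true hpv)]
        rw [hc.hv] at h
        have h2 : ∀ z : Multiplicative (ZMod 2), z ≠ 1 → z * Multiplicative.ofAdd 1 = 1 := by
          decide
        exact h2 _ h
  obtain ⟨hK1, hK2⟩ := Lk_NK (ω := ω) (ones k) m (f := κ') (by rw [hupk]; exact hκ)
  rw [hlen] at hK2
  have hchiK : chi (ω (m - 1)) (Lk ω (ones k) m κ') = 1 := by
    rw [hc.hv]
    rw [hup] at hK1
    exact toggle_chi_NK hK1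
  -- the toggling element
  set s : F := (fa * fu (lt v)) ^ (2 ^ r) with hs
  have hsAL : AL (2 ^ r) s := by
    have h1 : ∀ j : ℕ, AL j ((fa * fu (lt v)) ^ j) := by
      intro j
      induction j with
      | zero => simpa using AL_one
      | succ j ih =>
        rw [pow_succ]
        exact AL.mul (n := 1) ih (AL.mul (n := 0) AL.a (AL.u _))
    exact h1 _
  have hsNK : s ∈ NK (up ω m) := by
    rw [hup, hs]
    obtain ⟨r', rfl⟩ : ∃ r', r = r' + 1 := ⟨r - 1, by have := hc.r1; omega⟩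
    rw [pow_succ, mul_comm, pow_mul]
    exact pow_mem (NK_gen v) _
  have hsel : ev ω m s = cst r (letP ω (m + r) (lt v)) := s_elem ω m r v hc.r1 hc.hfirst hc.hret
  have hrk : r ≤ k := hc.r3.trans hc.k3
  have hA := tog_cost ω m (2 ^ r) s hsAL hsNK ε
  have hG := toggle_delta hC0 h0 ω m k n g' hm hgn hchi
  have hK := toggle_delta hC0 h0 ω m k l κ' hm hl hchiK
  have hinv := gens_inv ω 0
  set DG := Theta m (fun _ => ev ω m (Lk ω (ones k) m g')) with hDG
  set DK := Theta m (fun _ => ev ω m (Lk ω (ones k) m κ')) with hDK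
  set A := Theta m (fun u => if ε u then ev ω m s else 1) with hAdef
  have key : Theta m (fun u => if ε u then iot (ones k) (ev ω (m + k)
          (g * fu (lt v) * g⁻¹ * κ' * (g * fu (lt v) * g⁻¹) * κ'⁻¹)) else 1) =
      (DG * A * DG⁻¹) * DK * (DG * A⁻¹ * DG⁻¹) * DK⁻¹ := by
    rw [hDG, hDK, hAdef, ← Theta_inv, ← Theta_inv, ← Theta_inv]
    simp only [← Theta_mul]
    congr 1
    funext u
    by_cases hu : ε u = true
    · rw [if_pos hu, if_pos hu]
      have hsec := toggle_Lk_sec ω k m g'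
      set G := ev ω m (Lk ω (ones k) m g') with hGd
      set e := ev ω (m + k) g' with he
      rw [hK2, hsel]
      have h1 := toggleSec_conj' k G e (ev ω (m + k) κ') hsec
      have h2 := cst_conj ω m r k hrk (lt v) (e⁻¹ * ev ω (m + k) κ' * e)
      rw [← h1] at h2
      have h3 := toggleSec_conj k G e
        (letP ω (m + k) (lt v) * (e⁻¹ * ev ω (m + k) κ' * e) * letP ω (m + k) (lt v)) hsec
      rw [← h2] at h3
      set c := cst r (letP ω (m + r) (lt v)) with hcc
      set I := iot (ones k) (ev ω (m + k) κ') with hI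
      calc iot (ones k) (ev ω (m + k)
            (g * fu (lt v) * g⁻¹ * κ' * (g * fu (lt v) * g⁻¹) * κ'⁻¹))
          = iot (ones k) (e * (letP ω (m + k) (lt v) * (e⁻¹ * ev ω (m + k) κ' * e) *
              letP ω (m + k) (lt v)) * e⁻¹) * I⁻¹ := by
            rw [← hg', hI, ← toggle_iot_inv, ← iot_mul]
            congr 1
            simp only [map_mul, map_inv, ev_fu]
            rw [← he]
            group
        _ = G * (c * (G⁻¹ * I * G) * c⁻¹) * G⁻¹ * I⁻¹ := by rw [← h3]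
        _ = G * c * G⁻¹ * I * (G * c⁻¹ * G⁻¹) * I⁻¹ := by group
    · rw [if_neg hu, if_neg hu]
      simp
  rw [key]
  have hDGA : RL (gens ω 0) (C0 * (2 * n + 1) * ((8 / 3) ^ m * 2 ^ k) +
      2 * 4 ^ m * ((2 ^ r : ℕ) + 2) + C0 * (2 * n + 1) * ((8 / 3) ^ m * 2 ^ k))
      (DG * A * DG⁻¹) := RL_mul (RL_mul hG hA) (RL_inv hinv hG)
  have hDGA' : RL (gens ω 0) (C0 * (2 * n + 1) * ((8 / 3) ^ m * 2 ^ k) +
      2 * 4 ^ m * ((2 ^ r : ℕ) + 2) + C0 * (2 * n + 1) * ((8 / 3) ^ m * 2 ^ k))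
      (DG * A⁻¹ * DG⁻¹) := RL_mul (RL_mul hG (RL_inv hinv hA)) (RL_inv hinv hG)
  refine RL_mono ?_ (RL_mul (RL_mul (RL_mul hDGA hK) hDGA') (RL_inv hinv hK))
  have h8 : ((2 ^ r : ℕ) : ℝ) ≤ 8 := by
    have : 2 ^ r ≤ 2 ^ 3 := Nat.pow_le_pow_right (by norm_num) hc.r3
    have h9 : 2 ^ r ≤ 8 := by simpa using this
    exact_mod_cast h9
  have h4 : (0 : ℝ) < 4 ^ m := by positivity
  have h83 : (0 : ℝ) < (8 / 3) ^ m * 2 ^ k := by positivity
  set X : ℝ := (8 / 3) ^ m * 2 ^ k with hX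
  set Y : ℝ := 4 ^ m with hY
  have e1 : 2 * Y * ((2 ^ r : ℕ) + 2) ≤ 20 * Y := by nlinarith
  have e2 : 0 ≤ C0 * (4 * (2 * n + 1) + 2 * (2 * l + 1)) * Y := by positivity
  have e3 : 0 ≤ 40 * X := by positivity
  calc C0 * (2 * n + 1) * X + 2 * Y * ((2 ^ r : ℕ) + 2) + C0 * (2 * n + 1) * X +
        C0 * (2 * l + 1) * X + (C0 * (2 * n + 1) * X + 2 * Y * ((2 ^ r : ℕ) + 2) +
        C0 * (2 * n + 1) * X) + C0 * (2 * l + 1) * X
      = C0 * (4 * (2 * n + 1) + 2 * (2 * l + 1)) * X + 2 * (2 * Y * ((2 ^ r : ℕ) + 2)) := by ring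
    _ ≤ C0 * (4 * (2 * n + 1) + 2 * (2 * l + 1)) * X + 2 * (20 * Y) := by linarith
    _ ≤ (C0 * (4 * (2 * n + 1) + 2 * (2 * l + 1)) + 40) * (X + Y) := by nlinarith

theorem toggle_all (v p : Fin 3) (hpv : p ≠ v) (f : F) (hf : f ∈ NF v p) : ∃ C : ℝ, 0 < C ∧
    ∀ (ω : ℕ → Fin 3) (m k r : ℕ), Cond ω m k r v p → ∀ ε : T → Bool,
      RL (gens ω 0) (C * ((8 / 3) ^ m * 2 ^ k + 4 ^ m))
        (Theta m (fun u => if ε u then iot (ones k) (ev ω (m + k) f) else 1)) := by
  rw [NF, Subgroup.normalClosure] at hf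
  induction hf using Subgroup.closure_induction with
  | one =>
    refine ⟨1, one_pos, ?_⟩
    intro ω m k r _ ε
    have h1 : (fun u : T => if ε u then iot (ones k) (ev ω (m + k) 1) else 1) = fun _ => 1 := by
      funext u
      rw [map_one, toggle_iot_one]
      simp
    rw [h1, Theta_one]
    exact RL_one _ (by positivity)
  | mul x y _ _ ihx ihy =>
    obtain ⟨C1, hC1, h1⟩ := ihx
    obtain ⟨C2, hC2, h2⟩ := ihy
    refine ⟨C1 + C2, by positivity, ?_⟩
    intro ω m k r hc ε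
    have h3 : (fun u : T => if ε u then iot (ones k) (ev ω (m + k) (x * y)) else 1) = fun u =>
        (if ε u then iot (ones k) (ev ω (m + k) x) else 1) *
        (if ε u then iot (ones k) (ev ω (m + k) y) else 1) := by
      funext u
      by_cases hu : ε u = true
      · rw [if_pos hu, if_pos hu, if_pos hu, map_mul, iot_mul]
      · rw [if_neg hu, if_neg hu, if_neg hu, one_mul]
    rw [h3, Theta_mul, add_mul]
    exact RL_mul (h1 ω m k r hc ε) (h2 ω m k r hc ε)
  | inv x _ ihx =>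
    obtain ⟨C1, hC1, h1⟩ := ihx
    refine ⟨C1, hC1, ?_⟩
    intro ω m k r hc ε
    have h3 : (fun u : T => if ε u then iot (ones k) (ev ω (m + k) x⁻¹) else 1) = fun u =>
        (if ε u then iot (ones k) (ev ω (m + k) x) else 1)⁻¹ := by
      funext u
      by_cases hu : ε u = true
      · rw [if_pos hu, if_pos hu, map_inv, toggle_iot_inv]
      · rw [if_neg hu, if_neg hu, inv_one]
    rw [h3, Theta_inv]
    exact RL_inv (gens_inv ω 0) (h1 ω m k r hc ε)
  | mem x hx =>
    obtain ⟨s, hs, hsx⟩ := Group.mem_conjugatesOfSet_iff.1 hx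
    obtain ⟨g, hg⟩ := isConj_iff.1 hsx
    rcases hs with ⟨κ, hκ, rfl⟩ | hs
    · have hκ' : g * κ * g⁻¹ ∈ NK v := (NK_normal v).conj_mem κ hκ g
      have e : g * fu (lt v) * g⁻¹ * (g * κ * g⁻¹) * (g * fu (lt v) * g⁻¹) * (g * κ * g⁻¹)⁻¹ =
          x := by
        rw [← hg]
        group
      have := toggle_main v p hpv g (g * κ * g⁻¹) hκ'
      rw [e] at this
      exact this
    · have hs' : s = (fa * fu (lt p)) ^ 4 := hs
      refine ⟨1, one_pos, ?_⟩
      intro ω m k r hc ε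
      have h0 : ev ω (m + k) x = 1 := by
        rw [← hg, hs']
        have h4 : ev ω (m + k) ((fa * fu (lt p)) ^ 4) = 1 := by
          have e1 : letP ω (m + k) (lt p) = pr 1 (letP ω (m + k + 1) (lt p)) := by
            rw [letP_eq, hc.hp, act_lt, if_neg (by simp)]
          have e2 : ev ω (m + k) ((fa * fu (lt p)) ^ 2) =
              pr (letP ω (m + k + 1) (lt p)) (letP ω (m + k + 1) (lt p)) := by
            rw [map_pow, map_mul, ev_fa, ev_fu, e1, pow_two, ← mul_assoc, aP_pr_aP, pr_mul,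
              one_mul, mul_one]
          rw [show 4 = 2 * 2 from rfl, pow_mul, map_pow, e2, pow_two, pr_mul, letP_mul_self,
            pr_one]
        rw [map_mul, map_mul, h4, mul_one, map_inv, mul_inv_cancel]
      have h1 : (fun u : T => if ε u then iot (ones k) (ev ω (m + k) x) else 1) = fun _ => 1 := by
        funext u
        rw [h0, toggle_iot_one]
        simp
      rw [h1, Theta_one]
      exact RL_one _ (by positivity)

end Pool.Agent.Fol
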