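import Pool.Agent.Fol.MainAbs
import Pool.Agent.Fol.Site
import Pool.Agent.Fol.Index
import Pool.Agent.Fol.Skeleton
import Pool.Agent.Fol.Toggle
import Pool.Agent.Fol.Lamps

/-!
# The main inequality
-/

namespace Pool.Agent.Fol

open Finset Classical

/-- generators of `NF` with uniform costs -/
theorem gensY {v p : Fin 3} (hpv : p ≠ v) : ∃ (Y : Finset F) (C : ℝ), 0 < C ∧
    (∀ y ∈ Y, y⁻¹ ∈ Y) ∧ 1 ∈ Y ∧
    (∀ (n : ℕ) (f : F), f ∈ NF v p → WL gensF n f → WL (Y : Set F) n f) ∧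
    ∀ y ∈ Y, ∀ (ω : ℕ → Fin 3) (m k r : ℕ), Cond ω m k r v p → ∀ ε : T → Bool,
      RL (gens ω 0) (C * ((8 / 3) ^ m * 2 ^ k + 4 ^ m))
        (Theta m (fun u => if ε u then iot (ones k) (ev ω (m + k) y) else 1)) := by
  have hfin : gensF.Finite := by
    have : gensF = {fa} ∪ Set.range (fun u : V => fu u) := by
      ext x
      constructor
      · rintro (rfl | ⟨u, rfl⟩)
        · exact Or.inl rfl
        · exact Or.inr ⟨u, rfl⟩
      · rintro (h | ⟨u, rfl⟩)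
        · exact Or.inl h
        · exact Or.inr ⟨u, rfl⟩
    rw [this]
    exact (Set.finite_singleton _).union (Set.finite_range _)
  have hN : (NF v p).Normal := Subgroup.normalClosure_normal
  have hQ : Finite (F ⧸ NF v p) := NF_finite hpv
  obtain ⟨Y, hY1, hY2, hY3, hY4⟩ := schreier gensF hfin gensF_inv (NF v p)
  have h1 : ∀ f : F, ∃ C : ℝ, 0 < C ∧ (f ∈ NF v p → ∀ (ω : ℕ → Fin 3) (m k r : ℕ),
      Cond ω m k r v p → ∀ ε : T → Bool, RL (gens ω 0) (C * ((8 / 3) ^ m * 2 ^ k + 4 ^ m))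
        (Theta m (fun u => if ε u then iot (ones k) (ev ω (m + k) f) else 1))) := by
    intro f
    by_cases hf : f ∈ NF v p
    · obtain ⟨C, hC, h⟩ := toggle_all v p hpv f hf
      exact ⟨C, hC, fun _ => h⟩
    · exact ⟨1, one_pos, fun h => absurd h hf⟩
  choose C hC hC2 using h1
  refine ⟨Y, ∑ y ∈ Y, C y, sum_pos (fun y _ => hC y) ⟨1, hY3⟩, hY2, hY3, hY4, ?_⟩
  intro y hy ω m k r hc ε
  refine RL_mono ?_ (hC2 y (hY1 y hy) ω m k r hc ε)
  apply mul_le_mul_of_nonneg_right _ (by positivity)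
  exact single_le_sum (f := C) (fun y _ => (hC y).le) hy

/-- numerical part -/
lemma MI_num (a N m k k0 : ℕ) (hN : 1 ≤ N) (ha : 80000 * N ^ 2 ≤ 4 ^ a) (hk : 1 ≤ k)
    (hk0 : N + 3 ≤ k0) (hm : 2 * k0 + 2 * a ≤ m) :
    (2 : ℝ) ^ k * 2 ^ m * 2 ^ k0 / 16 ≤ (2 : ℝ) ^ (k - 1) / 2 * (2 ^ m * 2 ^ k0 * Real.log 2 -
      2 ^ m * Real.log N - 4 * 2 ^ k0 * ((100 * 2 ^ k0 : ℕ) * N) ^ 2 * (1 / 4)) := by
  have h1 : (2 : ℝ) ^ k = 2 * 2 ^ (k - 1) := by
    rw [← pow_succ']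
    congr 1
    omega
  have h2 : Real.log N ≤ 2 ^ k0 / 8 := by
    have h3 : Real.log N ≤ N := by
      have := Real.log_le_sub_one_of_pos (x := (N : ℝ)) (by exact_mod_cast hN)
      linarith
    have h4 : (N : ℝ) ≤ 2 ^ N := by exact_mod_cast (Nat.lt_two_pow_self (n := N)).le
    have h5 : (2 : ℝ) ^ N * 8 ≤ 2 ^ k0 := by
      have : (2 : ℝ) ^ N * 8 = 2 ^ (N + 3) := by rw [pow_add]; norm_num
      rw [this]
      exact pow_le_pow_right₀ (by norm_num) hk0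
    linarith
  have h3 : (4 : ℝ) * 2 ^ k0 * ((100 * 2 ^ k0 : ℕ) * N) ^ 2 * (1 / 4) ≤ 2 ^ k0 * (2 ^ m / 8) := by
    have h4 : (80000 : ℝ) * N ^ 2 ≤ 4 ^ a := by exact_mod_cast ha
    have h5 : (4 : ℝ) ^ a * 4 ^ k0 ≤ 2 ^ m := by
      have : (4 : ℝ) ^ a * 4 ^ k0 = 2 ^ (2 * k0 + 2 * a) := by
        rw [pow_add, pow_mul, pow_mul]; norm_num; ring
      rw [this]
      exact pow_le_pow_right₀ (by norm_num) hm
    have h6 : ((2 : ℝ) ^ k0) ^ 2 = 4 ^ k0 := by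
      rw [← pow_mul, mul_comm, pow_mul]; norm_num
    have h7 : (4 : ℝ) * 2 ^ k0 * ((100 * 2 ^ k0 : ℕ) * N) ^ 2 * (1 / 4) =
        2 ^ k0 * (10000 * N ^ 2 * 4 ^ k0) := by
      push_cast
      rw [← h6]
      ring
    rw [h7]
    apply mul_le_mul_of_nonneg_left _ (by positivity)
    have h8 : (80000 : ℝ) * N ^ 2 * 4 ^ k0 ≤ 4 ^ a * 4 ^ k0 :=
      mul_le_mul_of_nonneg_right h4 (by positivity)
    linarith
  have h4 : (2 : ℝ) ^ m * Real.log N ≤ 2 ^ m * (2 ^ k0 / 8) :=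
    mul_le_mul_of_nonneg_left h2 (by positivity)
  have h5 : (0.69 : ℝ) < Real.log 2 := by
    have := Real.log_two_gt_d9
    linarith
  have h6 : (2 : ℝ) ^ m * 2 ^ k0 * 0.69 ≤ 2 ^ m * 2 ^ k0 * Real.log 2 :=
    mul_le_mul_of_nonneg_left h5.le (by positivity)
  have h7 : (2 : ℝ) ^ m * 2 ^ k0 / 4 ≤ 2 ^ m * 2 ^ k0 * Real.log 2 -
      2 ^ m * Real.log N - 4 * 2 ^ k0 * ((100 * 2 ^ k0 : ℕ) * N) ^ 2 * (1 / 4) := by
    have h8 : (0 : ℝ) < 2 ^ m * 2 ^ k0 := by positivity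
    linarith
  have h8 : (2 : ℝ) ^ k * 2 ^ m * 2 ^ k0 / 16 = (2 : ℝ) ^ (k - 1) / 2 * (2 ^ m * 2 ^ k0 / 4) := by
    rw [h1]; ring
  rw [h8]
  exact mul_le_mul_of_nonneg_left h7 (by positivity)

theorem MI_vp {v p : Fin 3} (hpv : p ≠ v) : ∃ (C c : ℝ) (M0 : ℕ), 0 < C ∧ 0 < c ∧
    ∀ (ω : ℕ → Fin 3), NC ω → ∀ m k r : ℕ, Cond ω m k r v p → M0 ≤ m →
      ∀ A : Finset P, A.Nonempty → ∀ q : ℝ, 0 ≤ q →
        (∀ s ∈ gens ω 0, (esc A s : ℝ) ≤ q * A.card) →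
        C * ((8 / 3) ^ m * 2 ^ k + 4 ^ m) * q ≤ 1 →
        c * (2 ^ k * 2 ^ m * 2 ^ (m / 2)) ≤ Real.log A.card := by
  obtain ⟨Y, CY, hCY, hYinv, hY1, hYgen, hYtog⟩ := gensY hpv
  obtain ⟨CD, hCD, hdelta⟩ := delta_cost
  set N := Y.card with hN
  have hNpos : 1 ≤ N := card_pos.2 ⟨1, hY1⟩
  obtain ⟨a, ha⟩ : ∃ a : ℕ, 80000 * N ^ 2 ≤ 4 ^ a := by
    obtain ⟨a, ha⟩ := pow_unbounded_of_one_lt (80000 * N ^ 2) (by norm_num : 1 < 4)
    exact ⟨a, ha.le⟩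
  set CR : ℝ := 2 * (10 * CD + N * CY) with hCR
  have hCRpos : 0 < CR := by positivity
  refine ⟨4 * CR, 1 / (16 * 2 ^ a), 2 * (a + N + 3) + 2, by positivity, by positivity, ?_⟩
  intro ω hω m k r hc hm A hA q hq hesc hcost
  set k0 := m / 2 - a with hk0
  have hk0' : N + 3 ≤ k0 := by omega
  have hk0m : 2 * k0 + 2 * a ≤ m := by omega
  set B : ℝ := (8 / 3) ^ m * 2 ^ k + 4 ^ m with hB
  have hBpos : 0 < B := by positivity
  -- lamps
  obtain ⟨z0, hz0, hlamps⟩ := lamps hω (m + k) k0 (by have := hc.m1; omega) (by omega)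
    (by rw [hc.hk, hc.hp]; exact fun h => hpv h.symm)
  rw [hc.hk, hc.hp] at hlamps
  obtain ⟨Z, hZ, hZz⟩ := lamp_fun k0 hz0
  -- coordinates
  obtain ⟨cc, hcc⟩ := coord m
  -- movers
  have hk1 : k - 1 + 1 = k := by have := hc.k3; omega
  have hmov : ∀ w : List.Vector Bool (k - 1), ∃ (b : Bool) (f : F), chi v f = 1 ∧
      WL gensF (10 * 2 ^ (k - 1)) f ∧ ∀ x : P, ∃ y : P,
        ev ω m f * iot (ones k) x * (ev ω m f)⁻¹ = iot (b :: w.1) y := by
    intro w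
    have := mover ω m (k - 1) v w.1 w.2
    rwa [hk1] at this
  choose b g hg1 hg2 hg3 using hmov
  set y : {f // f ∈ Y} → P := fun j => ev ω (m + k) j.1 with hy
  set inv : {f // f ∈ Y} → {f // f ∈ Y} := fun j => ⟨j.1⁻¹, hYinv j.1 j.2⟩ with hinv
  -- cost of the moves
  have hmove : ∀ (w : List.Vector Bool (k - 1)) (φ : List.Vector Bool m → {f // f ∈ Y}),
      RL (gens ω 0) ((10 * CD + N * CY) * B) (siteHom m k (ev ω m (g w)) (y ∘ φ)) := by
    intro w φ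
    have hd : RL (gens ω 0) (5 * CD * B) (Theta m (fun _ => ev ω m (g w))) := by
      refine RL_mono ?_ (hdelta ω m _ (g w) hc.m1 (hg2 w) (by rw [hc.hv]; exact hg1 w))
      have h1 : (2 : ℝ) ^ k = 2 * 2 ^ (k - 1) := by rw [← pow_succ', hk1]
      push_cast
      rw [hB, h1]
      have h2 : (0 : ℝ) < 4 ^ m := by positivity
      nlinarith [mul_pos hCD h2]
    set φ' : T → F := fun u => if h : u.length = m then (φ ⟨u, h⟩).1 else 1 with hφ'
    have hj := joint (Y := Y) (C0 := CY * B) (ω := ω) (m := m) (k := k)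
      (fun f hf ε => hYtog f hf ω m k r hc ε) φ' (fun u => by
        rw [hφ']
        dsimp only
        split_ifs
        · exact (φ _).2
        · exact hY1)
    rw [siteHom_eq]
    have h1 : (fun u => iot (ones k) (vx (y ∘ φ) u)) =
        fun u => iot (ones k) (ev ω (m + k) (φ' u)) := by
      funext u
      congr 1
      rw [hφ']
      unfold vx
      dsimp only
      split_ifs
      · rfl
      · rw [map_one]
    rw [h1]
    refine RL_mono (le_of_eq ?_) (RL_mul (RL_mul hd hj) (RL_inv (gens_inv ω 0) hd))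
    ring
  have hmain := main_abs (G := P) (Γ := P) (T := T) (ι := List.Vector Bool (k - 1))
    (X := List.Vector Bool m) (J := {f // f ∈ Y}) (I := List.Vector Bool k0)
    (fun w => siteHom m k (ev ω m (g w))) (fun w => siteHom_inj m k _) y ⟨1, hY1⟩
    (by rw [hy]; exact map_one _) inv (fun j => by rw [hy]; exact map_inv _ _)
    (fun j => Subtype.ext (inv_inv _)) (fun i => iot i.1 z0) Z hZ hZz (100 * 2 ^ k0)
    (fun i => by
      obtain ⟨f, hf1, hf2, hf3⟩ := hlamps i.1 i.2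
      have h1 := hYgen _ f hf1 hf2
      have h2 := WL_map (S' := Set.range y) (ev ω (m + k)) (c := 1)
        (fun s hs => WL_gen ⟨⟨s, hs⟩, rfl⟩) h1
      rw [one_mul, hf3] at h2
      exact h2)
    (fun w => moved cc m (b w :: w.1)) (fun w w' hne => moved_disj cc m
      (by rw [List.length_cons, List.length_cons, w.2, w'.2])
      (fun h => hne (Subtype.ext (List.cons.inj h).2)))
    (fun w σ => siteHom_supp hcc (hg3 w) σ) A hA (1 / 4) (le_refl _)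
    (fun w φ ψ => by
      have h1 := RL_mul (hmove w φ) (hmove w ψ)
      have h2 := esc_RL (A := A) hesc (by positivity) h1
      have h3 : ((10 * CD + N * CY) * B + (10 * CD + N * CY) * B) * (q * A.card) =
          (CR * B * q) * A.card := by rw [hCR]; ring
      rw [h3] at h2
      refine h2.trans (mul_le_mul_of_nonneg_right ?_ (Nat.cast_nonneg _))
      linarith)
  have hnum := MI_num a N m k k0 hNpos ha (by omega) hk0' hk0m
  have hcard : ∀ n : ℕ, (Fintype.card (List.Vector Bool n) : ℝ) = 2 ^ n := by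
    intro n
    rw [card_vector, Fintype.card_bool]
    push_cast
    rfl
  rw [hcard, hcard, hcard, Fintype.card_coe] at hmain
  refine le_trans ?_ (hnum.trans hmain)
  have h1 : (2 : ℝ) ^ (m / 2) = 2 ^ k0 * 2 ^ a := by
    rw [← pow_add]
    congr 1
    omega
  rw [h1]
  apply le_of_eq
  field_simp

/-- The main inequality with constants independent of the letters. -/
theorem MI_all : ∃ (C c : ℝ) (M0 : ℕ), 1 ≤ C ∧ 0 < c ∧
    ∀ (ω : ℕ → Fin 3), NC ω → ∀ (m k r : ℕ) (v p : Fin 3), Cond ω m k r v p → M0 ≤ m →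
      ∀ A : Finset P, A.Nonempty → ∀ q : ℝ, 0 ≤ q →
        (∀ s ∈ gens ω 0, (esc A s : ℝ) ≤ q * A.card) →
        C * ((8 / 3) ^ m * 2 ^ k + 4 ^ m) * q ≤ 1 →
        c * (2 ^ k * 2 ^ m * 2 ^ (m / 2)) ≤ Real.log A.card := by
  have h1 : ∀ vp : Fin 3 × Fin 3, ∃ (C c : ℝ) (M0 : ℕ), 0 < C ∧ 0 < c ∧ (vp.2 ≠ vp.1 →
    ∀ (ω : ℕ → Fin 3), NC ω → ∀ m k r : ℕ, Cond ω m k r vp.1 vp.2 → M0 ≤ m →
      ∀ A : Finset P, A.Nonempty → ∀ q : ℝ, 0 ≤ q →
        (∀ s ∈ gens ω 0, (esc A s : ℝ) ≤ q * A.card) →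
        C * ((8 / 3) ^ m * 2 ^ k + 4 ^ m) * q ≤ 1 →
        c * (2 ^ k * 2 ^ m * 2 ^ (m / 2)) ≤ Real.log A.card) := by
    intro vp
    by_cases h : vp.2 ≠ vp.1
    · obtain ⟨C, c, M0, hC, hc, h2⟩ := MI_vp h
      exact ⟨C, c, M0, hC, hc, fun _ => h2⟩
    · exact ⟨1, 1, 0, one_pos, one_pos, fun h2 => absurd h2 h⟩
  choose C c M0 hC hc h2 using h1
  obtain ⟨c0, hc0, hc0'⟩ : ∃ c0 : ℝ, 0 < c0 ∧ ∀ vp, c0 ≤ c vp := by
    obtain ⟨vp, -, hvp⟩ := exists_min_image (univ : Finset (Fin 3 × Fin 3)) c ⟨(0, 0), mem_univ _⟩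
    exact ⟨c vp, hc vp, fun vp' => hvp vp' (mem_univ _)⟩
  refine ⟨1 + ∑ vp, C vp, c0, ∑ vp, M0 vp, ?_, hc0, ?_⟩
  · have : 0 ≤ ∑ vp, C vp := sum_nonneg fun vp _ => (hC vp).le
    linarith
  · intro ω hω m k r v p hcond hm A hA q hq hesc hcost
    have h3 : C (v, p) ≤ 1 + ∑ vp, C vp := by
      have := single_le_sum (f := C) (fun vp _ => (hC vp).le) (mem_univ (v, p))
      linarith
    have h4 : M0 (v, p) ≤ ∑ vp, M0 vp :=
      single_le_sum (f := M0) (fun vp _ => Nat.zero_le _) (mem_univ (v, p))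
    have h5 := h2 (v, p) hcond.hpv ω hω m k r hcond (h4.trans hm) A hA q hq hesc (by
      refine le_trans ?_ hcost
      apply mul_le_mul_of_nonneg_right _ hq
      exact mul_le_mul_of_nonneg_right h3 (by positivity))
    refine le_trans ?_ h5
    exact mul_le_mul_of_nonneg_right (hc0' _) (by positivity)

end Pool.Agent.Fol
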