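import Pool.Agent.Fol.Fiber
import Pool.Agent.Fol.Han

/-!
# Lower bound for the size of almost invariant sets: abstract form
-/

namespace Pool.Agent.Fol

open Finset Classical

theorem main_abs {G Γ T ι X J I : Type*} [Group G] [Group Γ] [MulAction G T] [FaithfulSMul G T]
    [Fintype ι] [Fintype X] [DecidableEq X] [Fintype J] [Fintype I] [DecidableEq I]
    (Φ : ι → (X → Γ) →* G) (hΦ : ∀ τ, Function.Injective (Φ τ))
    (y : J → Γ) (j0 : J) (hj0 : y j0 = 1) (inv : J → J) (hinv : ∀ j, y (inv j) = (y j)⁻¹)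
    (hinv2 : Function.Involutive inv) (z : I → Γ) (Z : (I → Bool) → Γ) (hZ : Function.Injective Z)
    (hZz : ∀ ε i, ε i = false → Z (Function.update ε i true) = Z ε * z i)
    (L : ℕ) (hL : ∀ i, WL (Set.range y) L (z i))
    (U : ι → Set T) (hU : Pairwise (fun i j => Disjoint (U i) (U j)))
    (hsupp : ∀ τ σ, Φ τ σ ∈ fixingSubgroup G (U τ)ᶜ)
    (A : Finset G) (hA : A.Nonempty) (p : ℝ) (hp : p ≤ 1 / 4)
    (hesc : ∀ τ (φ ψ : X → J),
      ((A.filter (fun x => x * (Φ τ (y ∘ φ) * Φ τ (y ∘ ψ)) ∉ A)).card : ℝ) ≤ p * A.card) :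
    (Fintype.card ι : ℝ) / 2 * (Fintype.card X * Fintype.card I * Real.log 2 -
      Fintype.card X * Real.log (Fintype.card J) -
      4 * Fintype.card I * (L * Fintype.card J) ^ 2 * p) ≤ Real.log A.card := by
  set β : ℝ := Fintype.card X * Fintype.card I * Real.log 2 -
      Fintype.card X * Real.log (Fintype.card J) -
      4 * Fintype.card I * (L * Fintype.card J) ^ 2 * p with hβ
  have hA1 : (1 : ℝ) ≤ A.card := by exact_mod_cast hA.card_pos
  have hApos : (0 : ℝ) < A.card := by linarith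
  rcases le_or_gt β 0 with hβ0 | hβ0
  · have h1 : (Fintype.card ι : ℝ) / 2 * β ≤ 0 :=
      mul_nonpos_of_nonneg_of_nonpos (by positivity) hβ0
    exact h1.trans (Real.log_nonneg hA1)
  -- sizes of the fibres
  set D : ι → Subgroup G := fun τ => fixingSubgroup G (U τ)ᶜ with hD
  set n : ι → G → ℕ := fun τ a => (A.filter (fun b => a⁻¹ * b ∈ D τ)).card with hn
  have hn1 : ∀ τ, ∀ a ∈ A, 1 ≤ n τ a := by
    intro τ a ha
    refine Finset.card_pos.2 ⟨a, ?_⟩
    simp only [Finset.mem_filter, ha, true_and, inv_mul_cancel]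
    exact (D τ).one_mem
  have hncongr : ∀ τ, ∀ a g : G, g ∈ D τ → n τ (a * g) = n τ a := by
    intro τ a g hg
    simp only [hn]
    congr 1
    refine Finset.filter_congr fun b _ => ?_
    rw [mul_inv_rev, mul_assoc]
    constructor
    · intro h
      have := (D τ).mul_mem hg h
      simpa [mul_assoc] using this
    · intro h
      exact (D τ).mul_mem ((D τ).inv_mem hg) h
  have hlog0 : ∀ τ, ∀ a ∈ A, 0 ≤ Real.log (n τ a) := fun τ a ha =>
    Real.log_nonneg (by exact_mod_cast hn1 τ a ha)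
  have key : ∀ τ, 2 * ((A.filter (fun a => Real.log (n τ a) < β)).card : ℝ) ≤ A.card := by
    intro τ
    by_contra hcon
    push Not at hcon
    have hp0 : 0 ≤ p := by
      have h := hesc τ (fun _ => j0) (fun _ => j0)
      have h0 : (0 : ℝ) ≤ p * A.card := le_trans (Nat.cast_nonneg _) h
      by_contra hneg
      push Not at hneg
      have := mul_neg_of_neg_of_pos hneg hApos
      linarith
    set A' : Finset G := A.filter (fun a => Real.log (n τ a) < β) with hA'
    have hA'ne : A'.Nonempty := by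
      rw [← Finset.card_pos]
      have : (0 : ℝ) < A'.card := by linarith
      exact_mod_cast this
    obtain ⟨a0, ha0, hmax⟩ := Finset.exists_max_image A' (n τ) hA'ne
    have hA'A : A' ⊆ A := Finset.filter_subset _ _
    have hK : ∀ h : G, (A'.filter (fun x => h⁻¹ * x ∈ D τ)).card ≤ n τ a0 := by
      intro h
      rcases (A'.filter (fun x => h⁻¹ * x ∈ D τ)).eq_empty_or_nonempty with he | ⟨x0, hx0⟩
      · rw [he]; simp
      · rw [Finset.mem_filter] at hx0
        refine le_trans (Finset.card_le_card ?_) (hmax x0 hx0.1)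
        intro x hx
        rw [Finset.mem_filter] at hx ⊢
        refine ⟨hA'A hx.1, ?_⟩
        have := (D τ).mul_mem ((D τ).inv_mem hx0.2) hx.2
        simpa [mul_assoc] using this
    have hesc' : ∀ φ ψ : X → J,
        ((A'.filter (fun x => x * (Φ τ (y ∘ φ) * Φ τ (y ∘ ψ)) ∉ A')).card : ℝ) ≤
          (2 * p) * A'.card := by
      intro φ ψ
      have hg : Φ τ (y ∘ φ) * Φ τ (y ∘ ψ) ∈ D τ := (D τ).mul_mem (hsupp τ _) (hsupp τ _)
      have hsub : A'.filter (fun x => x * (Φ τ (y ∘ φ) * Φ τ (y ∘ ψ)) ∉ A') ⊆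
          A.filter (fun x => x * (Φ τ (y ∘ φ) * Φ τ (y ∘ ψ)) ∉ A) := by
        intro x hx
        rw [Finset.mem_filter] at hx ⊢
        refine ⟨hA'A hx.1, fun hxA => hx.2 ?_⟩
        rw [hA', Finset.mem_filter]
        refine ⟨hxA, ?_⟩
        rw [hncongr τ x _ hg]
        exact (Finset.mem_filter.1 hx.1).2
      have h1 : ((A'.filter (fun x => x * (Φ τ (y ∘ φ) * Φ τ (y ∘ ψ)) ∉ A')).card : ℝ) ≤
          ((A.filter (fun x => x * (Φ τ (y ∘ φ) * Φ τ (y ∘ ψ)) ∉ A)).card : ℝ) := by
        exact_mod_cast Finset.card_le_card hsub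
      have h2 := hesc τ φ ψ
      have h3 : p * (A.card : ℝ) ≤ p * (2 * A'.card) :=
        mul_le_mul_of_nonneg_left hcon.le hp0
      linarith
    have hfb := fiber_bound (Φ τ) (hΦ τ) y j0 hj0 inv hinv hinv2 z Z hZ hZz L hL (D τ)
      (hsupp τ) A' hA'ne (n τ a0) hK (2 * p) (by linarith) hesc'
    have hlt : Real.log (n τ a0) < β := (Finset.mem_filter.1 ha0).2
    have heq : (Fintype.card X * Fintype.card I * Real.log 2 -
        Fintype.card X * Real.log (Fintype.card J) -
        2 * Fintype.card I * (L * Fintype.card J) ^ 2 * (2 * p) : ℝ) = β := by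
      rw [hβ]; ring
    linarith
  -- lower bound for every index
  have hlow : ∀ τ, (A.card : ℝ) / 2 * β ≤ ∑ a ∈ A, Real.log (n τ a) := by
    intro τ
    have hsplit := Finset.sum_filter_add_sum_filter_not A (fun a => Real.log (n τ a) < β)
      (fun a => Real.log (n τ a))
    have h1 : 0 ≤ ∑ a ∈ A.filter (fun a => Real.log (n τ a) < β), Real.log (n τ a) :=
      Finset.sum_nonneg fun a ha => hlog0 τ a (Finset.mem_filter.1 ha).1
    have h2 : ((A.filter (fun a => ¬ Real.log (n τ a) < β)).card : ℝ) * β ≤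
        ∑ a ∈ A.filter (fun a => ¬ Real.log (n τ a) < β), Real.log (n τ a) := by
      rw [← nsmul_eq_mul]
      refine Finset.card_nsmul_le_sum _ _ _ fun a ha => ?_
      exact not_lt.1 (Finset.mem_filter.1 ha).2
    have h3 : ((A.filter (fun a => Real.log (n τ a) < β)).card : ℝ) +
        ((A.filter (fun a => ¬ Real.log (n τ a) < β)).card : ℝ) = A.card := by
      exact_mod_cast Finset.card_filter_add_card_filter_not (s := A)
        (fun a => Real.log (n τ a) < β)
    have h4 : (A.card : ℝ) / 2 ≤ ((A.filter (fun a => ¬ Real.log (n τ a) < β)).card : ℝ) := by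
      have := key τ
      linarith
    have h5 := mul_le_mul_of_nonneg_right h4 hβ0.le
    linarith
  have hhan := han (G := G) U hU A
  have hsum : (Fintype.card ι : ℝ) * ((A.card : ℝ) / 2 * β) ≤
      ∑ a ∈ A, ∑ τ, Real.log (n τ a) := by
    rw [Finset.sum_comm]
    calc (Fintype.card ι : ℝ) * ((A.card : ℝ) / 2 * β)
        = ∑ _τ : ι, ((A.card : ℝ) / 2 * β) := by
          rw [Finset.sum_const, nsmul_eq_mul, Finset.card_univ]
      _ ≤ _ := Finset.sum_le_sum fun τ _ => hlow τ
  have hfin : (Fintype.card ι : ℝ) * ((A.card : ℝ) / 2 * β) ≤ A.card * Real.log A.card :=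
    hsum.trans hhan
  have : (A.card : ℝ) * ((Fintype.card ι : ℝ) / 2 * β) ≤ A.card * Real.log A.card := by
    calc (A.card : ℝ) * ((Fintype.card ι : ℝ) / 2 * β)
        = (Fintype.card ι : ℝ) * ((A.card : ℝ) / 2 * β) := by ring
      _ ≤ _ := hfin
  exact le_of_mul_le_mul_left this hApos

end Pool.Agent.Fol
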