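import Pool.Agent.Fol.Final

/-!
# The Grigorchuk groups in plain terms

For a sequence `ω` in `{0, 1, 2}` the Grigorchuk group of `ω` acts on the finite words in the
letters `false`, `true` (the vertices of the binary rooted tree). The generator `a` changes the
first letter. For `x` in `{0, 1, 2}` the generator `b x` acts on the words which begin with
`true ^ k false`: it changes the letter after this beginning if `ω k ≠ x`, and does nothing if
`ω k = x`. (With the usual names `b = b 2`, `c = b 1`, `d = b 0`; for `ω = 0, 1, 2, 0, 1, 2, ...`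
this is the first Grigorchuk group.)
-/

namespace Pool.Agent.Fol

/-- change the first letter of a word -/
def flipW : List Bool → List Bool
  | [] => []
  | y :: w => (!y) :: w

/-- the generator `b x` (with the sequence read from its place `k` on) -/
def spinW (ω : ℕ → Fin 3) (x : Fin 3) : ℕ → List Bool → List Bool
  | _, [] => []
  | k, false :: w => false :: (if ω k = x then w else flipW w)
  | k, true :: w => true :: spinW ω x (k + 1) w

lemma flipW_flipW (w : List Bool) : flipW (flipW w) = w := by
  cases w with
  | nil => rfl
  | cons y w => simp [flipW]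

lemma spinW_spinW (ω : ℕ → Fin 3) (x : Fin 3) (k : ℕ) (w : List Bool) :
    spinW ω x k (spinW ω x k w) = w := by
  induction w generalizing k with
  | nil => rfl
  | cons y w ih =>
    cases y
    · simp only [spinW]
      split_ifs with h
      · rfl
      · rw [flipW_flipW]
    · simp only [spinW, ih]

/-- the permutation `a` -/
def genA : Equiv.Perm (List Bool) where
  toFun := flipW
  invFun := flipW
  left_inv := flipW_flipW
  right_inv := flipW_flipW

/-- the permutation `b x` -/
def genB (ω : ℕ → Fin 3) (x : Fin 3) : Equiv.Perm (List Bool) where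
  toFun := spinW ω x 0
  invFun := spinW ω x 0
  left_inv := spinW_spinW ω x 0
  right_inv := spinW_spinW ω x 0

/-- the Grigorchuk group of the sequence `ω` -/
def Grig (ω : ℕ → Fin 3) : Subgroup (Equiv.Perm (List Bool)) :=
  Subgroup.closure (Set.insert genA (Set.range (genB ω)))

lemma genA_eq : genA = aP := by
  refine Equiv.ext fun w => ?_
  cases w <;> rfl

lemma spinW_eq (ω : ℕ → Fin 3) (x : Fin 3) (k : ℕ) (w : List Bool) :
    spinW ω x k w = letF ω (lt x) k w := by
  have hf : ∀ w, flipW w = flipF w := fun w => by cases w <;> rfl
  have hlt : ∀ i x : Fin 3, act i (lt x) = decide (x ≠ i) := by decide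
  induction w generalizing k with
  | nil => rfl
  | cons y w ih =>
    cases y
    · simp only [spinW, letF, hlt, hf, decide_eq_true_eq]
      by_cases h : ω k = x
      · rw [if_pos h, if_neg (fun h2 => h2 h.symm)]
      · rw [if_neg h, if_pos (fun h2 => h h2.symm)]
    · simp only [spinW, letF, ih]

lemma genB_eq (ω : ℕ → Fin 3) (x : Fin 3) : genB ω x = letP ω 0 (lt x) :=
  Equiv.ext fun w => spinW_eq ω x 0 w

lemma Grig_eq (ω : ℕ → Fin 3) : Grig ω = GG ω := by
  unfold Grig GG
  apply le_antisymm
  · rw [Subgroup.closure_le]
    rintro g (rfl | ⟨x, rfl⟩)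
    · rw [genA_eq]
      exact Subgroup.subset_closure (Or.inl rfl)
    · rw [genB_eq]
      exact Subgroup.subset_closure (Or.inr ⟨_, rfl⟩)
  · rw [Subgroup.closure_le]
    rintro g (rfl | ⟨u, rfl⟩)
    · rw [← genA_eq]
      exact Subgroup.subset_closure (Or.inl rfl)
    · have hu : ∀ u : V, u = 1 ∨ ∃ x : Fin 3, u = lt x := by decide
      rcases hu u with rfl | ⟨x, rfl⟩
      · rw [letP_one]
        exact Subgroup.one_mem _
      · rw [← genB_eq]
        exact Subgroup.subset_closure (Or.inr ⟨x, rfl⟩)

end Pool.Agent.Fol
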