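import Mathlib

/-!
# Spinal groups with an arbitrary root group

Let the group `A` act on the set `X`, let `x₀` be a point of `X`, `B` a group and `ω k x : B → A`
homomorphisms (`k` a natural number, `x` in `X`). Words in the letters `X` are the vertices of a rooted
tree. The element `a` of `A` moves the first letter of a word by `a` (`rootF a`). The element `b` of
`B` acts on the words which begin with `x₀, ..., x₀, x` (`k` letters `x₀`, then a letter `x` different
from `x₀`): it moves the next letter by `ω k x b` (`dirF x₀ ω b 0`).
-/

namespace Pool.Agent.Fol.Rt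

variable {A B X : Type*} [Group A] [Group B] [MulAction A X]

/-- move the first letter by `a` -/
def rootF (a : A) : List X → List X
  | [] => []
  | x :: w => (a • x) :: w

open Classical in
/-- the directed permutation of `b` (with the sequence `ω` read from its place `k` on) -/
noncomputable def dirF (x₀ : X) (ω : ℕ → X → B →* A) (b : B) : ℕ → List X → List X
  | _, [] => []
  | k, x :: w => x :: (if x = x₀ then dirF x₀ ω b (k + 1) w else rootF (ω k x b) w)

lemma rootF_one (w : List X) : rootF (1 : A) w = w := by
  cases w <;> simp [rootF]

lemma rootF_mul (a b : A) (w : List X) : rootF (a * b) w = rootF a (rootF b w) := by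
  cases w <;> simp [rootF, mul_smul]

lemma dirF_one (x₀ : X) (ω : ℕ → X → B →* A) (k : ℕ) (w : List X) :
    dirF x₀ ω (1 : B) k w = w := by
  induction w generalizing k with
  | nil => rfl
  | cons x w ih =>
    simp only [dirF, map_one, ih, rootF_one, ite_self]

lemma dirF_mul (x₀ : X) (ω : ℕ → X → B →* A) (b c : B) (k : ℕ) (w : List X) :
    dirF x₀ ω (b * c) k w = dirF x₀ ω b k (dirF x₀ ω c k w) := by
  induction w generalizing k with
  | nil => rfl
  | cons x w ih =>
    simp only [dirF]
    split_ifs with h
    · rw [ih]
    · rw [map_mul, rootF_mul]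

/-- the rooted permutations -/
def rootP : A →* Equiv.Perm (List X) where
  toFun a :=
    { toFun := rootF a
      invFun := rootF a⁻¹
      left_inv := fun w => by rw [← rootF_mul, inv_mul_cancel, rootF_one]
      right_inv := fun w => by rw [← rootF_mul, mul_inv_cancel, rootF_one] }
  map_one' := Equiv.ext fun w => rootF_one w
  map_mul' a b := Equiv.ext fun w => rootF_mul a b w

/-- the directed permutations -/
noncomputable def dirP (x₀ : X) (ω : ℕ → X → B →* A) (k : ℕ) : B →* Equiv.Perm (List X) where
  toFun b :=
    { toFun := dirF x₀ ω b k
      invFun := dirF x₀ ω b⁻¹ k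
      left_inv := fun w => by rw [← dirF_mul, inv_mul_cancel, dirF_one]
      right_inv := fun w => by rw [← dirF_mul, mul_inv_cancel, dirF_one] }
  map_one' := Equiv.ext fun w => dirF_one x₀ ω k w
  map_mul' b c := Equiv.ext fun w => dirF_mul x₀ ω b c k w

/-- the spinal group of `ω`, generated by all rooted permutations and all directed permutations -/
def Spinal (x₀ : X) (ω : ℕ → X → B →* A) : Subgroup (Equiv.Perm (List X)) :=
  Subgroup.closure (Set.range (rootP : A →* Equiv.Perm (List X)) ∪ Set.range (dirP x₀ ω 0))

end Pool.Agent.Fol.Rt
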