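import Mathlib

/-!
# A pigeonhole lemma for folds

The values of a fold of a function `f : P → H → H` over all lists are at most `card T` many, if the
values over the lists of length at most `card T` are determined by a function with values in the finite
set `T`. (The sets of the values over the lists of length at most `r` increase with `r`; if two
consecutive ones are equal then all later ones are; hence they stabilise at the latest at `r = card T`.)
-/

namespace Pool.Agent.Fol.Rt

theorem fold_pigeon {P H T : Type*} [Fintype T] (f : P → H → H) (h0 : H) (Θ : List P → T)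
    (hΘ : ∀ L L' : List P, L.length ≤ Fintype.card T → L'.length ≤ Fintype.card T → Θ L = Θ L' →
      L.foldr f h0 = L'.foldr f h0) :
    ∃ S : Finset H, S.card ≤ Fintype.card T ∧ ∀ L : List P, L.foldr f h0 ∈ S := by
  classical
  set N := Fintype.card T with hN
  let V : ℕ → Set H := fun r => {v | ∃ L : List P, L.length ≤ r ∧ L.foldr f h0 = v}
  have hmono : ∀ {r s : ℕ}, r ≤ s → V r ⊆ V s := by
    rintro r s hrs v ⟨L, hL, rfl⟩
    exact ⟨L, hL.trans hrs, rfl⟩
  -- the values over the lists of length at most `N`
  let g : V N → T := fun v => Θ v.2.choose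
  have hg : Function.Injective g := by
    intro v w hvw
    have h1 := v.2.choose_spec
    have h2 := w.2.choose_spec
    exact Subtype.ext (h1.2.symm.trans ((hΘ _ _ h1.1 h2.1 hvw).trans h2.2))
  have : Finite (V N) := Finite.of_injective g hg
  have hfin : (V N).Finite := Set.toFinite _
  have hcard : (V N).ncard ≤ N := by
    have h := Nat.card_le_card_of_injective g hg
    rw [Nat.card_eq_fintype_card (α := T)] at h
    exact h
  -- stabilisation propagates
  have hstep : ∀ s, V s = V (s + 1) → V (s + 1) = V (s + 2) := by
    intro s hs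
    apply Set.Subset.antisymm (hmono (Nat.le_succ _))
    rintro v ⟨L, hL, rfl⟩
    cases L with
    | nil => exact ⟨[], Nat.zero_le _, rfl⟩
    | cons p L =>
      have h1 : L.foldr f h0 ∈ V (s + 1) := ⟨L, by simpa using hL, rfl⟩
      rw [← hs] at h1
      obtain ⟨L', hL', h2⟩ := h1
      exact ⟨p :: L', by simpa using hL', by simp [h2]⟩
  have hstab : ∀ s, V s = V (s + 1) → ∀ k, V (s + k) = V (s + k + 1) := by
    intro s hs k
    induction k with
    | zero => exact hs
    | succ k ih => exact hstep _ ih
  have hstab2 : ∀ s, V s = V (s + 1) → ∀ k, V (s + k) = V s := by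
    intro s hs k
    induction k with
    | zero => rfl
    | succ k ih => exact (hstab s hs k).symm.trans ih
  -- growth
  have hgrow : ∀ r, r ≤ N → (∃ s, s < r ∧ V s = V (s + 1)) ∨ r + 1 ≤ (V r).ncard := by
    intro r
    induction r with
    | zero =>
      intro _
      right
      have hf : (V 0).Finite := hfin.subset (hmono (Nat.zero_le _))
      exact (Set.ncard_pos hf).2 ⟨h0, [], le_rfl, rfl⟩
    | succ r ih =>
      intro hr
      rcases ih (Nat.le_of_succ_le hr) with ⟨s, hs, h⟩ | h
      · exact Or.inl ⟨s, Nat.lt_succ_of_lt hs, h⟩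
      · by_cases he : V r = V (r + 1)
        · exact Or.inl ⟨r, Nat.lt_succ_self r, he⟩
        · right
          have hlt : V r ⊂ V (r + 1) := (hmono (Nat.le_succ r)).ssubset_of_ne he
          have := Set.ncard_lt_ncard hlt (hfin.subset (hmono hr))
          omega
  obtain ⟨s, hs, h⟩ : ∃ s, s < N ∧ V s = V (s + 1) := by
    rcases hgrow N le_rfl with h | h
    · exact h
    · omega
  have hall : ∀ t, V t ⊆ V N := by
    intro t
    rcases le_total t N with ht | ht
    · exact hmono ht
    · have h1 := hstab2 s h (t - s)
      have h2 := hstab2 s h (N - s)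
      rw [Nat.add_sub_cancel' (by omega)] at h1 h2
      rw [h1, h2]
  refine ⟨hfin.toFinset, ?_, fun L => ?_⟩
  · rw [← Set.ncard_eq_toFinset_card _ hfin]
    exact hcard
  · rw [Set.Finite.mem_toFinset]
    exact hall L.length ⟨L, le_rfl, rfl⟩

end Pool.Agent.Fol.Rt
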