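import Pool.Agent.Fol.RootMain
import Pool.Agent.Fol.RootPigeon

/-!
# Seeds of the short elements

If all lists `L` with `Ker L` of length at most `2 Q`, `Q = |A ^ ((A ^ A) × (A ^ B))|`, had the value `1`,
then the value of a list of length at most `Q` would be determined by its products `th s η`; by
`fold_pigeon` there would be at most `Q` values of lists, in contradiction to the transitivity on the
levels of the tree.
-/

set_option linter.unusedSectionVars false

namespace Pool.Agent.Fol.Rt

open Finset Classical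

variable {A B X : Type*} [Group A] [Group B] [MulAction A X] {x₀ : X} {ω : ℕ → X → B →* A}

lemma val_foldr (x₀ : X) (ω : ℕ → X → B →* A) (k : ℕ) (L : List (A × B)) :
    L.foldr (fun p h => rootP p.1 * dirP x₀ ω k p.2 * (rootP p.1)⁻¹ * h) 1 = val x₀ ω k L := by
  induction L with
  | nil => simp [val]
  | cons p L ih => rw [List.foldr_cons, ih, val_cons]

theorem Data.seed_exists [Fintype A] [Fintype B] [Fintype X] [MulAction.IsPretransitive A X]
    (D : Data x₀ ω) (k : ℕ) : ∃ L : List (A × B),
      L.length ≤ 2 * Fintype.card (((A → A) × (B → A)) → A) ∧ Ker L ∧ val x₀ ω k L ≠ 1 := by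
  set Q := Fintype.card (((A → A) × (B → A)) → A) with hQ
  by_contra hcon
  push Not at hcon
  obtain ⟨S, hS1, hS2⟩ := fold_pigeon
    (fun (p : A × B) h => rootP p.1 * dirP x₀ ω k p.2 * (rootP p.1)⁻¹ * h)
    (1 : Equiv.Perm (List X)) (fun L => (fun p : (A → A) × (B → A) => th p.1 p.2 L)) (by
      intro L L' h1 h2 h3
      rw [val_foldr, val_foldr]
      have h4 : Ker (L ++ ivl L') := by
        intro s η
        have h5 := congrFun h3 (s, η)
        simp only at h5
        rw [th_append, th_ivl, h5, mul_inv_cancel]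
      have h5 := hcon (L ++ ivl L') (by rw [List.length_append, ivl_length]; omega) h4
      rw [val_append, val_ivl] at h5
      exact mul_inv_eq_one.1 h5)
  set m := Fintype.card A * Q with hm
  have hX : 2 ≤ Fintype.card X := Fintype.one_lt_card_iff.2 ⟨_, _, D.hg 0⟩
  set T : Finset (List X) := ((univ : Finset A) ×ˢ S).image
    (fun p => (rootP p.1 * p.2 : Equiv.Perm (List X)) (List.replicate m x₀)) with hT
  have h1 : T.card ≤ m := by
    refine card_image_le.trans ?_
    rw [card_product, card_univ]
    exact Nat.mul_le_mul_left _ hS1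
  have h2 : ∀ v : List.Vector X m, v.1 ∈ T := by
    intro v
    obtain ⟨a, L, h3⟩ := D.trans (List.replicate m x₀) v.1 (by rw [List.length_replicate, v.2]) k
    rw [hT, mem_image]
    refine ⟨(a, val x₀ ω k L), ?_, h3⟩
    rw [mem_product]
    refine ⟨mem_univ _, ?_⟩
    have h4 := hS2 L
    rwa [val_foldr] at h4
  have h3 : Fintype.card (List.Vector X m) ≤ T.card := by
    rw [← card_univ]
    refine card_le_card_of_injOn (fun v => v.1) (fun v _ => h2 v) ?_
    intro u _ v _ h
    exact Subtype.ext h
  rw [card_vector] at h3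
  have h4 : 2 ^ m ≤ Fintype.card X ^ m := Nat.pow_le_pow_left hX m
  have h5 : m < 2 ^ m := Nat.lt_two_pow_self
  omega

/-- the conditions on `ω`, with seeds -/
structure DataS (x₀ : X) (ω : ℕ → X → B →* A) extends Data x₀ ω where
  N : ℕ
  seed : ℕ → List (A × B)
  seed_len : ∀ k, (seed k).length ≤ N
  seed_ker : ∀ k, Ker (seed k)
  seed_ne : ∀ k, val x₀ ω k (seed k) ≠ 1

/-- the short elements -/
noncomputable def DataS.elt (D : DataS x₀ ω) : ℕ → List X → Equiv.Perm (List X)
  | k, [] => val x₀ ω k (D.seed k)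
  | k, x :: v => secP (Pi.mulSingle x (D.elt (k + 1) v))

theorem DataS.short [MulAction.IsPretransitive A X] (D : DataS x₀ ω) (v : List X) (k : ℕ) :
    ∃ L : List (A × B), L.length + 1 ≤ (D.N + 1) * 2 ^ v.length ∧ Ker L ∧
      val x₀ ω k L = D.elt k v := by
  induction v generalizing k with
  | nil =>
    refine ⟨D.seed k, ?_, D.seed_ker k, rfl⟩
    have := D.seed_len k
    simp only [List.length_nil, pow_zero, mul_one]
    omega
  | cons x v ih =>
    obtain ⟨L, h1, h2, h3⟩ := ih (k + 1)
    obtain ⟨c, hc⟩ := MulAction.exists_smul_eq A (D.g k • x₀) x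
    refine ⟨(sig (D.g k) (D.τ k) 1 L).map fun p => (c * p.1, p.2), ?_,
      conj_ker c _ (sig_ker _ _ L h2), ?_⟩
    · rw [List.length_map, sig_length, List.length_cons, pow_succ, ← mul_assoc]
      omega
    · rw [conj_main, sig_main x₀ ω k (D.g k) (D.hg k) (D.τ k) (D.hτ k) (D.h1 k) L h2, conj_sec, h3]
      show _ = secP (Pi.mulSingle x (D.elt (k + 1) v))
      congr 1
      funext y
      by_cases hy : y = x
      · subst hy
        rw [Pi.mulSingle_eq_same, ← hc, inv_smul_smul, Pi.mulSingle_eq_same]
      · rw [Pi.mulSingle_eq_of_ne hy, Pi.mulSingle_eq_of_ne]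
        intro h
        apply hy
        rw [← hc, ← h, smul_inv_smul]

lemma DataS.elt_ne (D : DataS x₀ ω) (v : List X) (k : ℕ) : D.elt k v ≠ 1 := by
  induction v generalizing k with
  | nil => exact D.seed_ne k
  | cons x v ih =>
    intro h
    apply ih (k + 1)
    refine Equiv.ext fun w => ?_
    have h2 := congrArg (fun f : Equiv.Perm (List X) => f (x :: w)) h
    simp only [DataS.elt, secP_cons, Pi.mulSingle_eq_same, Equiv.Perm.one_apply] at h2
    exact List.tail_eq_of_cons_eq h2

/-- the element at `v` only moves words which begin with `v` -/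
lemma DataS.elt_fix (D : DataS x₀ ω) (v : List X) (k : ℕ) (w : List X) (hw : ¬ v <+: w) :
    D.elt k v w = w := by
  induction v generalizing k w with
  | nil => exact absurd (List.nil_prefix) hw
  | cons x v ih =>
    show secP (Pi.mulSingle x (D.elt (k + 1) v)) w = w
    cases w with
    | nil => rfl
    | cons y w =>
      rw [secP_cons]
      by_cases hy : y = x
      · subst hy
        rw [Pi.mulSingle_eq_same, ih (k + 1) w]
        intro h
        exact hw ((List.cons_prefix_cons).2 ⟨rfl, h⟩)
      · rw [Pi.mulSingle_eq_of_ne hy]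
        rfl

/-- the generators -/
def gens (x₀ : X) (ω : ℕ → X → B →* A) : Set (Equiv.Perm (List X)) :=
  Set.range (rootP : A →* Equiv.Perm (List X)) ∪ Set.range (dirP x₀ ω 0)

lemma val_WL (L : List (A × B)) : WL (gens x₀ ω) (3 * L.length) (val x₀ ω 0 L) := by
  induction L with
  | nil => exact ⟨[], le_refl _, by simp, by simp [val]⟩
  | cons p L ih =>
    obtain ⟨l, h1, h2, h3⟩ := ih
    refine ⟨rootP p.1 :: dirP x₀ ω 0 p.2 :: rootP p.1⁻¹ :: l, ?_, ?_, ?_⟩
    · simp only [List.length_cons]
      omega
    · intro s hs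
      simp only [List.mem_cons] at hs
      rcases hs with rfl | rfl | rfl | hs
      · exact Or.inl ⟨_, rfl⟩
      · exact Or.inr ⟨_, rfl⟩
      · exact Or.inl ⟨_, rfl⟩
      · exact h2 s hs
    · rw [val_cons, List.prod_cons, List.prod_cons, List.prod_cons, h3, rootP_inv]
      group

theorem DataS.WL_elt [MulAction.IsPretransitive A X] (D : DataS x₀ ω) (v : List X) :
    WL (gens x₀ ω) (3 * (D.N + 1) * 2 ^ v.length) (D.elt 0 v) := by
  obtain ⟨L, h1, -, h3⟩ := D.short v 0
  have h4 := val_WL (x₀ := x₀) (ω := ω) L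
  rw [h3] at h4
  obtain ⟨l, h6, h7, h8⟩ := h4
  refine ⟨l, ?_, h7, h8⟩
  rw [mul_assoc]
  omega

/-- **The main inequality.** -/
theorem DataS.lower [Fintype X] [MulAction.IsPretransitive A X] (D : DataS x₀ ω) (m : ℕ)
    (F : Finset (Equiv.Perm (List X))) (hF : F.Nonempty) (q : ℝ) (hq : 0 ≤ q)
    (hs : ∀ s ∈ gens x₀ ω, (esc F s : ℝ) ≤ q * F.card)
    (hm : 3 * (D.N + 1) * 2 ^ m * q ≤ 1 / 4) :
    (Fintype.card X : ℝ) ^ m / 2 ≤ Real.log F.card := by
  have hFc : (0 : ℝ) < F.card := by exact_mod_cast card_pos.2 hF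
  have hX : Pairwise (fun i j : List.Vector X m => Disjoint {w : List X | i.1 <+: w}
      {w : List X | j.1 <+: w}) := by
    intro i j hij
    rw [Set.disjoint_left]
    intro w h1 h2
    apply hij
    apply Subtype.ext
    have h3 := List.prefix_of_prefix_length_le h1 h2 (by rw [i.2, j.2])
    exact h3.eq_of_length (by rw [i.2, j.2])
  have h1 := han (G := Equiv.Perm (List X)) (T := List X)
    (fun v : List.Vector X m => {w : List X | v.1 <+: w}) hX F
  have hl2 : (0 : ℝ) ≤ Real.log 2 := Real.log_nonneg (by norm_num)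
  have h2 : ∀ v : List.Vector X m, Real.log 2 * ((3 / 4 : ℝ) * F.card) ≤
      ∑ a ∈ F, Real.log ((F.filter (fun b => a⁻¹ * b ∈
        fixingSubgroup (Equiv.Perm (List X)) {w : List X | v.1 <+: w}ᶜ)).card) := by
    intro v
    have hmem : D.elt 0 v.1 ∈ fixingSubgroup (Equiv.Perm (List X)) {w : List X | v.1 <+: w}ᶜ := by
      rw [mem_fixingSubgroup_iff]
      intro w hw
      exact D.elt_fix v.1 0 w hw
    have h3 : (esc F (D.elt 0 v.1) : ℝ) ≤ (1 / 4) * F.card := by
      have h4 := esc_WL (A := F) hs (by positivity) (D.WL_elt v.1)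
      rw [v.2] at h4
      refine h4.trans ?_
      push_cast
      calc (3 * (D.N + 1) * 2 ^ m : ℝ) * (q * F.card) = (3 * (D.N + 1) * 2 ^ m * q) * F.card := by
            ring
        _ ≤ (1 / 4) * F.card := mul_le_mul_of_nonneg_right hm hFc.le
    have h4 : ((F.filter (fun x => x * D.elt 0 v.1 ∈ F)).card : ℝ) + esc F (D.elt 0 v.1) =
        F.card := by
      exact_mod_cast card_filter_add_card_filter_not (s := F) (fun x => x * D.elt 0 v.1 ∈ F)
    have h5 : Real.log 2 * ((F.filter (fun x => x * D.elt 0 v.1 ∈ F)).card : ℝ) ≤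
        ∑ a ∈ F, Real.log ((F.filter (fun b => a⁻¹ * b ∈
        fixingSubgroup (Equiv.Perm (List X)) {w : List X | v.1 <+: w}ᶜ)).card) := by
      rw [card_filter]
      push_cast
      rw [mul_sum]
      refine sum_le_sum fun a ha => ?_
      split_ifs with h6
      · rw [mul_one]
        apply Real.log_le_log (by norm_num)
        have h7 : ({a, a * D.elt 0 v.1} : Finset (Equiv.Perm (List X))) ⊆ F.filter (fun b =>
            a⁻¹ * b ∈ fixingSubgroup (Equiv.Perm (List X)) {w : List X | v.1 <+: w}ᶜ) := by
          intro b hb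
          rw [mem_insert, mem_singleton] at hb
          rw [mem_filter]
          rcases hb with rfl | rfl
          · refine ⟨ha, ?_⟩
            rw [inv_mul_cancel]
            exact Subgroup.one_mem _
          · refine ⟨h6, ?_⟩
            rw [inv_mul_cancel_left]
            exact hmem
        have h8 := card_le_card h7
        rw [card_pair] at h8
        · exact_mod_cast h8
        · intro h
          exact D.elt_ne v.1 0 (mul_eq_left.1 h.symm)
      · rw [mul_zero]
        apply Real.log_natCast_nonneg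
    refine le_trans ?_ h5
    apply mul_le_mul_of_nonneg_left _ hl2
    linarith
  rw [sum_comm] at h1
  have h3 := (sum_le_sum fun (v : List.Vector X m) (_ : v ∈ univ) => h2 v).trans h1
  rw [sum_const, card_univ, card_vector, nsmul_eq_mul] at h3
  push_cast at h3
  have h5 : (0.69 : ℝ) < Real.log 2 := by
    have := Real.log_two_gt_d9
    linarith
  have h6 : (0 : ℝ) ≤ (Fintype.card X : ℝ) ^ m := by positivity
  have h7 : (Fintype.card X : ℝ) ^ m / 2 * F.card ≤ Real.log F.card * F.card := by
    have h8 : (Fintype.card X : ℝ) ^ m / 2 * F.card ≤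
        (Fintype.card X : ℝ) ^ m * (Real.log 2 * (3 / 4 * F.card)) := by
      have h9 : (1 / 2 : ℝ) * F.card ≤ Real.log 2 * (3 / 4 * F.card) := by nlinarith
      calc (Fintype.card X : ℝ) ^ m / 2 * F.card = (Fintype.card X : ℝ) ^ m * (1 / 2 * F.card) := by
            ring
        _ ≤ _ := mul_le_mul_of_nonneg_left h9 h6
    linarith
  exact le_of_mul_le_mul_right h7 hFc

end Pool.Agent.Fol.Rt
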