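import Pool.Agent.Fol.SpinFinal
import Pool.Agent.Fol.RootSeed

/-!
# The lower bound for the Folner function, arbitrary root group
-/

set_option linter.unusedSectionVars false

namespace Pool.Agent.Fol.Rt

open Finset Classical

variable {A B X : Type*} [Group A] [Group B] [MulAction A X] {x₀ : X} {ω : ℕ → X → B →* A}

/-- the bound for the permutations -/
theorem powerB [Fintype X] [MulAction.IsPretransitive A X] (D : DataS x₀ ω) (cS : ℝ) (hcS : 1 ≤ cS) :
    ∃ c : ℝ, 0 < c ∧ ∃ C : ℝ, 0 < C ∧ ∀ (n : ℕ) (F : Finset (Equiv.Perm (List X))), F.Nonempty →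
      (∀ s ∈ gens x₀ ω, (esc F s : ℝ) * n ≤ cS * F.card) →
      Real.exp (c * (n : ℝ) ^ (Real.log (Fintype.card X) / Real.log 2)) ≤ C * (F.card : ℝ) := by
  set β : ℝ := Real.log (Fintype.card X) / Real.log 2 with hβ
  haveI : Nonempty X := ⟨x₀⟩
  have hA1 : (1 : ℝ) ≤ Fintype.card X := by
    exact_mod_cast Fintype.card_pos (α := X)
  have hl2 : (0 : ℝ) < Real.log 2 := Real.log_pos (by norm_num)
  have hβ0 : 0 ≤ β := div_nonneg (Real.log_nonneg hA1) hl2.le
  have hpow : ∀ m : ℕ, ((2 : ℝ) ^ m) ^ β = (Fintype.card X : ℝ) ^ m := by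
    intro m
    rw [← Real.rpow_natCast 2 m, ← Real.rpow_mul (by norm_num), mul_comm (m : ℝ) β,
      Real.rpow_mul (by norm_num), Real.rpow_natCast]
    congr 1
    rw [Real.rpow_def_of_pos (by norm_num), hβ, mul_div_cancel₀ _ hl2.ne',
      Real.exp_log (by linarith)]
  set N : ℝ := 12 * (D.N + 1) * cS with hN
  have hNpos : 0 < N := by rw [hN]; positivity
  refine ⟨(1 / 2) * (1 / (2 * N)) ^ β, by positivity,
    Real.exp ((1 / 2) * (1 / (2 * N)) ^ β * N ^ β), Real.exp_pos _, ?_⟩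
  intro n F hF hs
  set c : ℝ := (1 / 2) * (1 / (2 * N)) ^ β with hc
  have hcpos : 0 < c := by rw [hc]; positivity
  have hFc : (1 : ℝ) ≤ F.card := by exact_mod_cast card_pos.2 hF
  rcases lt_or_ge (n : ℝ) N with hn | hn
  · calc Real.exp (c * (n : ℝ) ^ β) ≤ Real.exp (c * N ^ β) := by
          apply Real.exp_le_exp.2
          apply mul_le_mul_of_nonneg_left _ hcpos.le
          exact Real.rpow_le_rpow (Nat.cast_nonneg _) hn.le hβ0
      _ ≤ Real.exp (c * N ^ β) * F.card := le_mul_of_one_le_right (Real.exp_pos _).le hFc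
  · have hnpos : (0 : ℝ) < n := lt_of_lt_of_le hNpos hn
    obtain ⟨m, hm1, hm2⟩ := exists_nat_pow_near (x := (n : ℝ) / N) (y := 2)
      (by rwa [le_div_iff₀ hNpos, one_mul]) (by norm_num)
    rw [le_div_iff₀ hNpos] at hm1
    rw [div_lt_iff₀ hNpos] at hm2
    have h1 := D.lower m F hF (cS / n) (by positivity) (fun s hs' => by
      rw [div_mul_eq_mul_div, le_div_iff₀ hnpos]
      exact hs s hs') (by
      rw [mul_div_assoc', div_le_iff₀ hnpos]
      rw [hN] at hm1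
      linarith)
    have h2 : c * (n : ℝ) ^ β ≤ Real.log F.card := by
      refine le_trans ?_ h1
      rw [← hpow m, hc, mul_assoc, ← Real.mul_rpow (by positivity) hnpos.le]
      have h3 : (1 / (2 * N) * (n : ℝ)) ^ β ≤ ((2 : ℝ) ^ m) ^ β := by
        apply Real.rpow_le_rpow (by positivity) _ hβ0
        rw [one_div_mul_eq_div, div_le_iff₀ (by positivity)]
        rw [pow_succ] at hm2
        linarith
      linarith
    calc Real.exp (c * (n : ℝ) ^ β) ≤ Real.exp (Real.log F.card) := Real.exp_le_exp.2 h2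
      _ = F.card := Real.exp_log (by linarith)
      _ = 1 * F.card := (one_mul _).symm
      _ ≤ Real.exp (c * N ^ β) * F.card := by
          apply mul_le_mul_of_nonneg_right _ (by linarith)
          exact Real.one_le_exp (by positivity)

/-- the data from the assumptions -/
lemma data_exists [Fintype A] [Fintype B] [Fintype X] [MulAction.IsPretransitive A X]
    (h : ∀ k, ∃ g : A, g • x₀ ≠ x₀ ∧ Function.Surjective (ω k (g • x₀)) ∧
      ∀ b, ω k (g⁻¹ • x₀) b = 1) : Nonempty (DataS x₀ ω) := by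
  choose g h1 h2 h3 using h
  choose τ hτ using h2
  have D : Data x₀ ω := ⟨g, τ, h1, hτ, h3⟩
  choose s hs1 hs2 hs3 using fun k => D.seed_exists k
  exact ⟨⟨D, _, s, hs1, hs2, hs3⟩⟩

lemma three_le [Finite X] {g : A} (h1 : g • x₀ ≠ x₀) {f : X → B →* A}
    (h2 : Function.Surjective (f (g • x₀))) (h3 : ∀ b, f (g⁻¹ • x₀) b = 1) :
    3 ≤ Nat.card X := by
  haveI : Fintype X := Fintype.ofFinite X
  have h4 : g⁻¹ • x₀ ≠ x₀ := fun h => h1 (by rw [inv_smul_eq_iff] at h; exact h.symm)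
  have h5 : g⁻¹ • x₀ ≠ g • x₀ := by
    intro h
    obtain ⟨b, hb⟩ := h2 g
    have h6 := h3 b
    rw [h, hb] at h6
    exact h1 (by rw [h6, one_smul])
  have h6 : ({x₀, g • x₀, g⁻¹ • x₀} : Finset X).card = 3 := by
    rw [card_insert_of_notMem, card_pair h5.symm]
    rw [mem_insert, mem_singleton]
    rintro (h | h)
    · exact h1 h.symm
    · exact h4 h.symm
  rw [Nat.card_eq_fintype_card, ← h6]
  exact card_le_univ _

theorem root_main [Finite A] [Finite B] [Finite X] [MulAction.IsPretransitive A X]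
    (h : ∀ k, ∃ g : A, g • x₀ ≠ x₀ ∧ Function.Surjective (ω k (g • x₀)) ∧
      ∀ b, ω k (g⁻¹ • x₀) b = 1)
    {G : Type*} [Group G] {S : Finset G}
    (hS : Subgroup.closure (S : Set G) = ⊤) (K : Subgroup G)
    (π : K →* Spinal x₀ ω) (hπ : Function.Surjective π) :
    (∃ c : ℝ, 0 < c ∧ ∃ C : ℝ, 0 < C ∧ ∀ n : ℕ, ∀ F : Finset G, F.Nonempty →
        n * bd S F ≤ F.card →
        Real.exp (c * (n : ℝ) ^ (Real.log (Nat.card X) / Real.log 2)) ≤ C * (F.card : ℝ)) ∧
    (∀ C : ℝ, ∃ n : ℕ, ∀ F : Finset G, F.Nonempty →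
        n * bd S F ≤ F.card → C * Real.exp (C * n) < (F.card : ℝ)) := by
  haveI : Fintype A := Fintype.ofFinite A
  haveI : Fintype B := Fintype.ofFinite B
  haveI : Fintype X := Fintype.ofFinite X
  have hX : 3 ≤ Nat.card X := by
    obtain ⟨g, h1, h2, h3⟩ := h 0
    exact three_le h1 h2 h3
  obtain ⟨D⟩ := data_exists h
  have hmem : ∀ s ∈ gens x₀ ω, s ∈ Spinal x₀ ω := fun s hs => Subgroup.subset_closure hs
  set gg : A ⊕ B → Spinal x₀ ω := Sum.elim (fun a => ⟨rootP a, hmem _ (Or.inl ⟨a, rfl⟩)⟩)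
    (fun b => ⟨dirP x₀ ω 0 b, hmem _ (Or.inr ⟨b, rfl⟩)⟩) with hgg
  obtain ⟨cS, hcS, h1⟩ := Sp.reduceG (Spinal x₀ ω) gg hS K π hπ
  obtain ⟨c, hc, C, hC, h2⟩ := powerB D cS hcS
  have hmain : ∀ n : ℕ, ∀ F : Finset G, F.Nonempty → n * bd S F ≤ F.card →
      Real.exp (c * (n : ℝ) ^ (Real.log (Nat.card X) / Real.log 2)) ≤ C * (F.card : ℝ) := by
    intro n F hF hn
    obtain ⟨B', hB1, hB2, hB3⟩ := h1 n F hF hn
    rw [Nat.card_eq_fintype_card]
    refine (h2 n B' hB1 ?_).trans (mul_le_mul_of_nonneg_left ?_ hC.le)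
    · rintro s (⟨a, rfl⟩ | ⟨b, rfl⟩)
      · exact hB3 (Sum.inl a)
      · exact hB3 (Sum.inr b)
    · exact_mod_cast hB2
  refine ⟨⟨c, hc, C, hC, hmain⟩, fun C' => ?_⟩
  have hβ : 1 < Real.log (Nat.card X) / Real.log 2 := by
    rw [one_lt_div (Real.log_pos (by norm_num))]
    apply Real.log_lt_log (by norm_num)
    have : (3 : ℝ) ≤ Nat.card X := by exact_mod_cast hX
    linarith
  obtain ⟨n, hn⟩ := Sp.beats hβ hc hC C'
  refine ⟨n, fun F hF hF2 => ?_⟩
  have h4 := hn.trans_le (hmain n F hF hF2)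
  exact lt_of_mul_lt_mul_left h4 hC.le

end Pool.Agent.Fol.Rt
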