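import Pool.Agent.Fol.Han
import Pool.Agent.Fol.Site
import Pool.Agent.Fol.RootDefs

/-!
# Short elements at all vertices of a level of a spinal group, arbitrary root group

For a list `L` of pairs `(a_i, b_i)` let `val k L = ∏ a_i b_i a_i⁻¹` (`b_i` at level `k`) and
`th s η L = ∏ s(a_i) η(b_i) s(a_i)⁻¹` for a map `s : A → A` and a homomorphism `η : B → A`. Let
`ω k (g x₀)` be onto with the section `τ`, and `ω k (g⁻¹ x₀) = 1`. If `th s η L = 1` for all `s`, `η`
(`Ker L`) then the product of the permutations `τ(a_i) (g b_i g⁻¹) τ(a_i)⁻¹` acts below the letter `g x₀`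
as `val (k + 1) L`, and trivially elsewhere. It is `val k L'` for a list `L'` of length `2 |L| + 1` with
`Ker L'`.
-/

set_option linter.unusedSectionVars false

namespace Pool.Agent.Fol.Rt

open Finset Classical

variable {A B X : Type*} [Group A] [Group B] [MulAction A X]

/-- the permutation which acts as `f x` below the letter `x` -/
def secF (f : X → Equiv.Perm (List X)) : List X → List X
  | [] => []
  | x :: w => x :: f x w

def secP : (X → Equiv.Perm (List X)) →* Equiv.Perm (List X) where
  toFun f :=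
    { toFun := secF f
      invFun := secF f⁻¹
      left_inv := fun w => by cases w <;> simp [secF]
      right_inv := fun w => by cases w <;> simp [secF] }
  map_one' := Equiv.ext fun w => by cases w <;> rfl
  map_mul' f g := Equiv.ext fun w => by cases w <;> rfl

lemma secP_nil (f : X → Equiv.Perm (List X)) : secP f [] = [] := rfl

lemma secP_cons (f : X → Equiv.Perm (List X)) (x : X) (w : List X) :
    secP f (x :: w) = x :: f x w := rfl

lemma rootP_nil (a : A) : (rootP a : Equiv.Perm (List X)) [] = [] := rfl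

lemma rootP_cons (a : A) (x : X) (w : List X) : rootP a (x :: w) = (a • x) :: w := rfl

lemma rootP_inv (a : A) : (rootP a : Equiv.Perm (List X))⁻¹ = rootP a⁻¹ := (map_inv _ _).symm

lemma dirP_eq (x₀ : X) (ω : ℕ → X → B →* A) (k : ℕ) (b : B) :
    dirP x₀ ω k b = secP (fun x => if x = x₀ then dirP x₀ ω (k + 1) b else rootP (ω k x b)) := by
  refine Equiv.ext fun w => ?_
  cases w with
  | nil => rfl
  | cons x w =>
    rw [secP_cons]
    show dirF x₀ ω b k (x :: w) = _
    simp only [dirF]
    split_ifs <;> rfl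

lemma conj_sec (a : A) (f : X → Equiv.Perm (List X)) :
    rootP a * secP f * (rootP a)⁻¹ = secP (fun x => f (a⁻¹ • x)) := by
  refine Equiv.ext fun w => ?_
  rw [rootP_inv, Equiv.Perm.mul_apply, Equiv.Perm.mul_apply]
  cases w with
  | nil => rfl
  | cons x w => rw [rootP_cons, secP_cons, rootP_cons, secP_cons, smul_inv_smul]

/-- the value of a list -/
noncomputable def val (x₀ : X) (ω : ℕ → X → B →* A) (k : ℕ) (L : List (A × B)) :
    Equiv.Perm (List X) :=
  (L.map fun p => rootP p.1 * dirP x₀ ω k p.2 * (rootP p.1)⁻¹).prod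

/-- the products in `A` -/
def th (s : A → A) (η : B → A) (L : List (A × B)) : A :=
  (L.map fun p => s p.1 * η p.2 * (s p.1)⁻¹).prod

/-- all products with a homomorphism are trivial -/
def Ker (L : List (A × B)) : Prop := ∀ (s : A → A) (η : B →* A), th s η L = 1

lemma val_cons (x₀ : X) (ω : ℕ → X → B →* A) (k : ℕ) (p : A × B) (L : List (A × B)) :
    val x₀ ω k (p :: L) = rootP p.1 * dirP x₀ ω k p.2 * (rootP p.1)⁻¹ * val x₀ ω k L := by
  rw [val, List.map_cons, List.prod_cons]; rfl

lemma val_append (x₀ : X) (ω : ℕ → X → B →* A) (k : ℕ) (L L' : List (A × B)) :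
    val x₀ ω k (L ++ L') = val x₀ ω k L * val x₀ ω k L' := by
  rw [val, List.map_append, List.prod_append]; rfl

lemma th_cons (s : A → A) (η : B → A) (p : A × B) (L : List (A × B)) :
    th s η (p :: L) = s p.1 * η p.2 * (s p.1)⁻¹ * th s η L := by
  rw [th, List.map_cons, List.prod_cons]; rfl

lemma th_append (s : A → A) (η : B → A) (L L' : List (A × B)) :
    th s η (L ++ L') = th s η L * th s η L' := by
  rw [th, List.map_append, List.prod_append]; rfl

/-- the inverse list -/
def ivl (L : List (A × B)) : List (A × B) := (L.map fun p => (p.1, p.2⁻¹)).reverse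

lemma ivl_length (L : List (A × B)) : (ivl L).length = L.length := by simp [ivl]

lemma ivl_cons (p : A × B) (L : List (A × B)) : ivl (p :: L) = ivl L ++ [(p.1, p.2⁻¹)] := by
  simp [ivl]

lemma val_ivl (x₀ : X) (ω : ℕ → X → B →* A) (k : ℕ) (L : List (A × B)) :
    val x₀ ω k (ivl L) = (val x₀ ω k L)⁻¹ := by
  induction L with
  | nil => simp [ivl, val]
  | cons p L ih =>
    rw [ivl_cons, val_append, val_cons, val_cons, ih, map_inv]
    simp only [val, List.map_nil, List.prod_nil]
    group

lemma th_ivl (s : A → A) (η : B →* A) (L : List (A × B)) : th s η (ivl L) = (th s η L)⁻¹ := by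
  induction L with
  | nil => simp [ivl, th]
  | cons p L ih =>
    rw [ivl_cons, th_append, th_cons, th_cons, ih, map_inv]
    simp only [th, List.map_nil, List.prod_nil]
    group

/-- the substitution -/
def sig (g : A) (τ : A → B) : B → List (A × B) → List (A × B)
  | t, [] => [(1, t)]
  | t, p :: L => (1, t * τ p.1) :: (g, p.2) :: sig g τ (τ p.1)⁻¹ L

lemma sig_length (g : A) (τ : A → B) (t : B) (L : List (A × B)) :
    (sig g τ t L).length = 2 * L.length + 1 := by
  induction L generalizing t with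
  | nil => rfl
  | cons p L ih => simp only [sig, List.length_cons, ih]; ring

lemma sig_th (g : A) (τ : A → B) (t : B) (L : List (A × B)) (s : A → A) (η : B →* A) :
    th s η (sig g τ t L) = s 1 * η t * th (fun a => η (τ a) * ((s 1)⁻¹ * s g)) η L * (s 1)⁻¹ := by
  induction L generalizing t with
  | nil => simp [sig, th]
  | cons p L ih =>
    simp only [sig, th_cons, ih, map_mul, map_inv]
    group

lemma sig_ker (g : A) (τ : A → B) (L : List (A × B)) (h : Ker L) : Ker (sig g τ 1 L) := by
  intro s η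
  rw [sig_th, h, map_one]
  group

/-- one factor -/
noncomputable def fac (x₀ : X) (ω : ℕ → X → B →* A) (k : ℕ) (g : A) (τ : A → B) (p : A × B) :
    Equiv.Perm (List X) :=
  dirP x₀ ω k (τ p.1) * (rootP g * dirP x₀ ω k p.2 * (rootP g)⁻¹) * (dirP x₀ ω k (τ p.1))⁻¹

lemma val_sig (x₀ : X) (ω : ℕ → X → B →* A) (k : ℕ) (g : A) (τ : A → B) (t : B)
    (L : List (A × B)) :
    val x₀ ω k (sig g τ t L) = dirP x₀ ω k t * (L.map (fac x₀ ω k g τ)).prod := by
  induction L generalizing t with
  | nil => simp [sig, val]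
  | cons p L ih =>
    simp only [sig, val_cons, ih, map_one, one_mul, inv_one, mul_one, List.map_cons, List.prod_cons,
      fac, map_mul, map_inv]
    group

/-- the sections of one factor -/
noncomputable def fsec (x₀ : X) (ω : ℕ → X → B →* A) (k : ℕ) (g : A) (τ : A → B) (p : A × B) :
    X → Equiv.Perm (List X) := fun x =>
  (if x = x₀ then dirP x₀ ω (k + 1) (τ p.1) else rootP (ω k x (τ p.1))) *
    (if g⁻¹ • x = x₀ then dirP x₀ ω (k + 1) p.2 else rootP (ω k (g⁻¹ • x) p.2)) *
    (if x = x₀ then dirP x₀ ω (k + 1) (τ p.1) else rootP (ω k x (τ p.1)))⁻¹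

lemma fac_eq (x₀ : X) (ω : ℕ → X → B →* A) (k : ℕ) (g : A) (τ : A → B) (p : A × B) :
    fac x₀ ω k g τ p = secP (fsec x₀ ω k g τ p) := by
  unfold fac
  rw [dirP_eq x₀ ω k p.2, conj_sec, dirP_eq x₀ ω k (τ p.1), ← map_inv, ← map_mul, ← map_mul]
  rfl

lemma facs_eq (x₀ : X) (ω : ℕ → X → B →* A) (k : ℕ) (g : A) (τ : A → B) (L : List (A × B)) :
    (L.map (fac x₀ ω k g τ)).prod =
      secP (fun x => (L.map fun p => fsec x₀ ω k g τ p x).prod) := by
  induction L with
  | nil =>
    rw [List.map_nil, List.prod_nil]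
    exact (map_one secP).symm
  | cons p L ih =>
    rw [List.map_cons, List.prod_cons, ih, fac_eq, ← map_mul]
    congr 1

lemma prod_ne (x₀ : X) (ω : ℕ → X → B →* A) (k : ℕ) (g : A) (τ : A → B) (x : X) (h1 : x ≠ x₀)
    (h2 : x ≠ g • x₀) (L : List (A × B)) :
    (L.map fun p => fsec x₀ ω k g τ p x).prod =
      rootP (th (fun a => ω k x (τ a)) (ω k (g⁻¹ • x)) L) := by
  have h3 : g⁻¹ • x ≠ x₀ := fun h => h2 (inv_smul_eq_iff.1 h)
  induction L with
  | nil => simp [th]
  | cons p L ih =>
    rw [List.map_cons, List.prod_cons, ih, th_cons, map_mul]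
    congr 1
    unfold fsec
    rw [if_neg h1, if_neg h3, ← map_mul, ← map_inv, ← map_mul]

/-- the section at `g x₀` of a substitution -/
theorem sig_at (x₀ : X) (ω : ℕ → X → B →* A) (k : ℕ) (g : A) (hg : g • x₀ ≠ x₀) (τ : A → B)
    (hτ : ∀ a, ω k (g • x₀) (τ a) = a) (L : List (A × B)) (w : List X) :
    val x₀ ω k (sig g τ 1 L) (g • x₀ :: w) = g • x₀ :: val x₀ ω (k + 1) L w := by
  rw [val_sig, map_one, one_mul, facs_eq, secP_cons]
  congr 2
  rw [val]
  congr 1
  refine List.map_congr_left fun p _ => ?_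
  unfold fsec
  rw [if_neg hg, if_pos (inv_smul_smul g x₀), hτ]

/-- **The substitution.** -/
theorem sig_main (x₀ : X) (ω : ℕ → X → B →* A) (k : ℕ) (g : A) (hg : g • x₀ ≠ x₀) (τ : A → B)
    (hτ : ∀ a, ω k (g • x₀) (τ a) = a) (h1 : ∀ b, ω k (g⁻¹ • x₀) b = 1) (L : List (A × B))
    (hL : Ker L) :
    val x₀ ω k (sig g τ 1 L) = secP (Pi.mulSingle (g • x₀) (val x₀ ω (k + 1) L)) := by
  rw [val_sig, map_one, one_mul, facs_eq]
  congr 1
  funext x
  by_cases hx : x = g • x₀
  · subst hx
    rw [Pi.mulSingle_eq_same, val]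
    congr 1
    refine List.map_congr_left fun p _ => ?_
    unfold fsec
    rw [if_neg hg, if_pos (inv_smul_smul g x₀), hτ]
  · rw [Pi.mulSingle_eq_of_ne hx]
    by_cases hx1 : x = x₀
    · subst hx1
      rw [List.prod_eq_one]
      intro y hy
      obtain ⟨p, -, rfl⟩ := List.mem_map.1 hy
      unfold fsec
      rw [if_pos rfl, if_neg (fun h => hg (by rw [inv_smul_eq_iff] at h; exact h.symm)), h1, map_one,
        mul_one, mul_inv_cancel]
    · rw [prod_ne x₀ ω k g τ x hx1 hx, hL, map_one]

/-- conjugation by a rooted permutation -/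
theorem conj_main (x₀ : X) (ω : ℕ → X → B →* A) (k : ℕ) (a : A) (L : List (A × B)) :
    val x₀ ω k (L.map fun p => (a * p.1, p.2)) = rootP a * val x₀ ω k L * (rootP a)⁻¹ := by
  induction L with
  | nil => simp [val]
  | cons p L ih =>
    rw [List.map_cons, val_cons, val_cons, ih, map_mul]
    group

lemma conj_ker (a : A) (L : List (A × B)) (h : Ker L) : Ker (L.map fun p => (a * p.1, p.2)) := by
  intro s η
  have := h (fun x => s (a * x)) η
  rw [← this]
  simp [th, List.map_map, Function.comp_def]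

/-- the conditions on `ω` -/
structure Data (x₀ : X) (ω : ℕ → X → B →* A) where
  g : ℕ → A
  τ : ℕ → A → B
  hg : ∀ k, g k • x₀ ≠ x₀
  hτ : ∀ k a, ω k (g k • x₀) (τ k a) = a
  h1 : ∀ k b, ω k ((g k)⁻¹ • x₀) b = 1

variable {x₀ : X} {ω : ℕ → X → B →* A}

/-- the groups are transitive on the levels -/
theorem Data.trans [MulAction.IsPretransitive A X] (D : Data x₀ ω) (u v : List X)
    (h : u.length = v.length) (k : ℕ) :
    ∃ (a : A) (L : List (A × B)), (rootP a * val x₀ ω k L : Equiv.Perm (List X)) u = v := by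
  induction u generalizing v k with
  | nil =>
    have : v = [] := List.length_eq_zero_iff.1 h.symm
    subst this
    exact ⟨1, [], by simp [val]⟩
  | cons x u ih =>
    cases v with
    | nil => simp at h
    | cons y v =>
      simp only [List.length_cons, Nat.add_right_cancel_iff] at h
      obtain ⟨a, L, h1⟩ := ih v h (k + 1)
      obtain ⟨c, hc⟩ := MulAction.exists_smul_eq A x (D.g k • x₀)
      obtain ⟨d, hd⟩ := MulAction.exists_smul_eq A (D.g k • x₀) y
      refine ⟨d * c, ((1, D.τ k a) :: sig (D.g k) (D.τ k) 1 L).map fun p => (c⁻¹ * p.1, p.2), ?_⟩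
      have e : ∀ V : Equiv.Perm (List X), rootP (d * c) * (rootP c⁻¹ * V * (rootP c⁻¹)⁻¹) =
          rootP d * (V * rootP c) := fun V => by
        rw [map_mul, ← rootP_inv c]
        group
      rw [conj_main, e, Equiv.Perm.mul_apply, Equiv.Perm.mul_apply, rootP_cons, hc, val_cons]
      simp only [map_one, one_mul, inv_one, mul_one]
      rw [Equiv.Perm.mul_apply, sig_at x₀ ω k (D.g k) (D.hg k) (D.τ k) (D.hτ k), dirP_eq, secP_cons,
        if_neg (D.hg k), D.hτ, rootP_cons, hd]
      rw [Equiv.Perm.mul_apply] at h1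
      rw [h1]

end Pool.Agent.Fol.Rt
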