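import Mathlib

/-!
# Spinal groups over a finite abelian group

Let `A`, `B` be abelian groups and let `ω k x : B → A` be homomorphisms (`k` a natural number, `x` in
`A`). Words in the letters `A` are the vertices of a rooted tree. The element `a` of `A` multiplies the
first letter of a word by `a` (`rootF a`). The element `b` of `B` acts on the words which begin with
`1, ..., 1, x` (`k` letters `1`, then a letter `x` different from `1`): it multiplies the next letter by
`ω k x b` (`dirF ω b 0`).
-/

namespace Pool.Agent.Fol.Sp

variable {A B : Type*} [CommGroup A] [CommGroup B]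

/-- multiply the first letter by `a` -/
def rootF (a : A) : List A → List A
  | [] => []
  | x :: w => (a * x) :: w

open Classical in
/-- the directed permutation of `b` (with the sequence `ω` read from its place `k` on) -/
noncomputable def dirF (ω : ℕ → A → B →* A) (b : B) : ℕ → List A → List A
  | _, [] => []
  | k, x :: w => x :: (if x = 1 then dirF ω b (k + 1) w else rootF (ω k x b) w)

lemma rootF_one (w : List A) : rootF (1 : A) w = w := by
  cases w <;> simp [rootF]

lemma rootF_mul (a b : A) (w : List A) : rootF (a * b) w = rootF a (rootF b w) := by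
  cases w <;> simp [rootF, mul_assoc]

lemma dirF_one (ω : ℕ → A → B →* A) (k : ℕ) (w : List A) : dirF ω (1 : B) k w = w := by
  induction w generalizing k with
  | nil => rfl
  | cons x w ih =>
    simp only [dirF, map_one, ih, rootF_one, ite_self]

lemma dirF_mul (ω : ℕ → A → B →* A) (b c : B) (k : ℕ) (w : List A) :
    dirF ω (b * c) k w = dirF ω b k (dirF ω c k w) := by
  induction w generalizing k with
  | nil => rfl
  | cons x w ih =>
    simp only [dirF]
    split_ifs with h
    · rw [ih]
    · rw [map_mul, rootF_mul]

/-- the rooted permutations -/
def rootP : A →* Equiv.Perm (List A) where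
  toFun a :=
    { toFun := rootF a
      invFun := rootF a⁻¹
      left_inv := fun w => by rw [← rootF_mul, inv_mul_cancel, rootF_one]
      right_inv := fun w => by rw [← rootF_mul, mul_inv_cancel, rootF_one] }
  map_one' := Equiv.ext fun w => rootF_one w
  map_mul' a b := Equiv.ext fun w => rootF_mul a b w

/-- the directed permutations -/
noncomputable def dirP (ω : ℕ → A → B →* A) (k : ℕ) : B →* Equiv.Perm (List A) where
  toFun b :=
    { toFun := dirF ω b k
      invFun := dirF ω b⁻¹ k
      left_inv := fun w => by rw [← dirF_mul, inv_mul_cancel, dirF_one]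
      right_inv := fun w => by rw [← dirF_mul, mul_inv_cancel, dirF_one] }
  map_one' := Equiv.ext fun w => dirF_one ω k w
  map_mul' b c := Equiv.ext fun w => dirF_mul ω b c k w

/-- the spinal group of `ω`, generated by all rooted permutations and all directed permutations -/
def Spinal (ω : ℕ → A → B →* A) : Subgroup (Equiv.Perm (List A)) :=
  Subgroup.closure (Set.range (rootP : A →* Equiv.Perm (List A)) ∪ Set.range (dirP ω 0))

/-- The condition on one place `f` of the sequence: either `A` has prime order and some `f x` with
`x ≠ 1` is not trivial, or some `f g` with `g ≠ 1` is onto and moreover `f g⁻¹` is trivial or another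
`f g'` with `g' ≠ 1` is onto. -/
def Good (f : A → B →* A) : Prop :=
  ((Nat.card A).Prime ∧ ∃ x : A, x ≠ 1 ∧ f x ≠ 1) ∨
    ∃ g : A, g ≠ 1 ∧ Function.Surjective (f g) ∧
      (f g⁻¹ = 1 ∨ ∃ g' : A, g' ≠ 1 ∧ g' ≠ g ∧ Function.Surjective (f g'))

end Pool.Agent.Fol.Sp
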