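import Pool.Agent.Fol.Han
import Pool.Agent.Fol.Site
import Pool.Agent.Fol.SpinDefs

/-!
# Short elements at all vertices of a level of a spinal group

For a list `L` of pairs `(a_i, b_i)` with `∏ b_i = 1` let `val k L = ∏ a_i b_i a_i⁻¹` (`b_i` at level
`k`). Let `ω k g` be onto with the section `τ`. The product of the permutations
`τ(a_i) (g b_i g⁻¹) τ(a_i)⁻¹` acts below the letter `g` as `val (k + 1) L`, and trivially below all
letters different from `g` and `1`; if `ω k g⁻¹ = 1` also below the letter `1`.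
It is `val k L'` for a list `L'` of length `2 |L| + 1`. For two different `g` (conjugated to the same
letter) the commutator of two such elements lives below one letter only.
-/

namespace Pool.Agent.Fol.Sp

open Finset Classical

variable {A B : Type*} [CommGroup A] [CommGroup B]

/-- the permutation which acts as `f x` below the letter `x` -/
def secF (f : A → Equiv.Perm (List A)) : List A → List A
  | [] => []
  | x :: w => x :: f x w

def secP : (A → Equiv.Perm (List A)) →* Equiv.Perm (List A) where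
  toFun f :=
    { toFun := secF f
      invFun := secF f⁻¹
      left_inv := fun w => by cases w <;> simp [secF]
      right_inv := fun w => by cases w <;> simp [secF] }
  map_one' := Equiv.ext fun w => by cases w <;> rfl
  map_mul' f g := Equiv.ext fun w => by cases w <;> rfl

lemma secP_nil (f : A → Equiv.Perm (List A)) : secP f [] = [] := rfl

lemma secP_cons (f : A → Equiv.Perm (List A)) (x : A) (w : List A) :
    secP f (x :: w) = x :: f x w := rfl

lemma rootP_nil (a : A) : rootP a [] = [] := rfl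

lemma rootP_cons (a x : A) (w : List A) : rootP a (x :: w) = (a * x) :: w := rfl

lemma rootP_inv (a : A) : (rootP a)⁻¹ = rootP a⁻¹ := (map_inv _ _).symm

lemma dirP_eq (ω : ℕ → A → B →* A) (k : ℕ) (b : B) :
    dirP ω k b = secP (fun x => if x = 1 then dirP ω (k + 1) b else rootP (ω k x b)) := by
  refine Equiv.ext fun w => ?_
  cases w with
  | nil => rfl
  | cons x w =>
    rw [secP_cons]
    show dirF ω b k (x :: w) = _
    simp only [dirF]
    split_ifs <;> rfl

lemma conj_sec (a : A) (f : A → Equiv.Perm (List A)) :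
    rootP a * secP f * (rootP a)⁻¹ = secP (fun x => f (a⁻¹ * x)) := by
  refine Equiv.ext fun w => ?_
  rw [rootP_inv, Equiv.Perm.mul_apply, Equiv.Perm.mul_apply]
  cases w with
  | nil => rfl
  | cons x w => rw [rootP_cons, secP_cons, rootP_cons, secP_cons, mul_inv_cancel_left]

/-- the value of a list -/
noncomputable def val (ω : ℕ → A → B →* A) (k : ℕ) (L : List (A × B)) : Equiv.Perm (List A) :=
  (L.map fun p => rootP p.1 * dirP ω k p.2 * (rootP p.1)⁻¹).prod

/-- the product of the second components -/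
def tot (L : List (A × B)) : B := (L.map Prod.snd).prod

lemma val_cons (ω : ℕ → A → B →* A) (k : ℕ) (p : A × B) (L : List (A × B)) :
    val ω k (p :: L) = rootP p.1 * dirP ω k p.2 * (rootP p.1)⁻¹ * val ω k L := by
  rw [val, List.map_cons, List.prod_cons]; rfl

lemma tot_cons (p : A × B) (L : List (A × B)) : tot (p :: L) = p.2 * tot L := by
  rw [tot, List.map_cons, List.prod_cons]; rfl

/-- the substitution -/
def sig (g : A) (τ : A → B) : B → List (A × B) → List (A × B)
  | t, [] => [(1, t)]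
  | t, p :: L => (1, t * τ p.1) :: (g, p.2) :: sig g τ (τ p.1)⁻¹ L

lemma sig_length (g : A) (τ : A → B) (t : B) (L : List (A × B)) :
    (sig g τ t L).length = 2 * L.length + 1 := by
  induction L generalizing t with
  | nil => rfl
  | cons p L ih => simp only [sig, List.length_cons, ih]; ring

lemma sig_tot (g : A) (τ : A → B) (t : B) (L : List (A × B)) :
    tot (sig g τ t L) = t * tot L := by
  induction L generalizing t with
  | nil => simp [sig, tot]
  | cons p L ih =>
    simp only [sig, tot_cons, ih]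
    rw [mul_assoc t, mul_left_comm p.2, mul_inv_cancel_left]

/-- one factor -/
noncomputable def fac (ω : ℕ → A → B →* A) (k : ℕ) (g : A) (τ : A → B) (p : A × B) :
    Equiv.Perm (List A) :=
  dirP ω k (τ p.1) * (rootP g * dirP ω k p.2 * (rootP g)⁻¹) * (dirP ω k (τ p.1))⁻¹

lemma val_sig (ω : ℕ → A → B →* A) (k : ℕ) (g : A) (τ : A → B) (t : B) (L : List (A × B)) :
    val ω k (sig g τ t L) = dirP ω k t * (L.map (fac ω k g τ)).prod := by
  induction L generalizing t with
  | nil => simp [sig, val]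
  | cons p L ih =>
    simp only [sig, val_cons, ih, map_one, one_mul, inv_one, mul_one, List.map_cons, List.prod_cons,
      fac, map_mul, map_inv]
    group

/-- the sections of one factor -/
noncomputable def fsec (ω : ℕ → A → B →* A) (k : ℕ) (g : A) (τ : A → B) (p : A × B) :
    A → Equiv.Perm (List A) := fun x =>
  (if x = 1 then dirP ω (k + 1) (τ p.1) else rootP (ω k x (τ p.1))) *
    (if g⁻¹ * x = 1 then dirP ω (k + 1) p.2 else rootP (ω k (g⁻¹ * x) p.2)) *
    (if x = 1 then dirP ω (k + 1) (τ p.1) else rootP (ω k x (τ p.1)))⁻¹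

lemma fac_eq (ω : ℕ → A → B →* A) (k : ℕ) (g : A) (τ : A → B) (p : A × B) :
    fac ω k g τ p = secP (fsec ω k g τ p) := by
  unfold fac
  rw [dirP_eq ω k p.2, conj_sec, dirP_eq ω k (τ p.1), ← map_inv, ← map_mul, ← map_mul]
  rfl

lemma facs_eq (ω : ℕ → A → B →* A) (k : ℕ) (g : A) (τ : A → B) (L : List (A × B)) :
    (L.map (fac ω k g τ)).prod = secP (fun x => (L.map fun p => fsec ω k g τ p x).prod) := by
  induction L with
  | nil =>
    rw [List.map_nil, List.prod_nil]
    exact (map_one secP).symm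
  | cons p L ih =>
    rw [List.map_cons, List.prod_cons, ih, fac_eq, ← map_mul]
    congr 1

lemma prod_ne (ω : ℕ → A → B →* A) (k : ℕ) (g : A) (τ : A → B) (x : A) (h1 : x ≠ 1)
    (h2 : x ≠ g) (L : List (A × B)) :
    (L.map fun p => fsec ω k g τ p x).prod = rootP (ω k (g⁻¹ * x) (tot L)) := by
  have h3 : g⁻¹ * x ≠ 1 := fun h => h2 (inv_mul_eq_one.1 h).symm
  induction L with
  | nil => simp [tot]
  | cons p L ih =>
    rw [List.map_cons, List.prod_cons, ih, tot_cons, map_mul, map_mul]
    congr 1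
    unfold fsec
    rw [if_neg h1, if_neg h3, ← map_mul, ← map_inv, ← map_mul, mul_comm (ω k x (τ p.1)),
      mul_assoc, mul_inv_cancel, mul_one]

/-- **The substitution.** -/
theorem sig_main (ω : ℕ → A → B →* A) (k : ℕ) (g : A) (hg : g ≠ 1) (τ : A → B)
    (hτ : ∀ a, ω k g (τ a) = a) (L : List (A × B)) (hL : tot L = 1) :
    ∃ f : A → Equiv.Perm (List A), val ω k (sig g τ 1 L) = secP f ∧ f g = val ω (k + 1) L ∧
      (∀ x, x ≠ g → x ≠ 1 → f x = 1) ∧ ((∀ b, ω k g⁻¹ b = 1) → ∀ x, x ≠ g → f x = 1) := by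
  have hx0 : ∀ x, x ≠ g → x ≠ 1 → (L.map fun p => fsec ω k g τ p x).prod = 1 := by
    intro x hx hx1
    rw [prod_ne ω k g τ x hx1 hx, hL, map_one, map_one]
  refine ⟨_, by rw [val_sig, map_one, one_mul, facs_eq], ?_, hx0, ?_⟩
  · rw [val]
    congr 1
    refine List.map_congr_left fun p _ => ?_
    unfold fsec
    rw [if_neg hg, if_pos (inv_mul_cancel g), hτ]
  · intro h1 x hx
    by_cases hx1 : x = 1
    · subst hx1
      rw [List.prod_eq_one]
      intro y hy
      obtain ⟨p, -, rfl⟩ := List.mem_map.1 hy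
      unfold fsec
      rw [if_pos rfl, if_neg (by rwa [mul_one, inv_eq_one]), mul_one, h1, map_one, mul_one,
        mul_inv_cancel]
    · exact hx0 x hx hx1

/-- conjugation by a rooted permutation -/
theorem conj_main (ω : ℕ → A → B →* A) (k : ℕ) (a : A) (L : List (A × B)) :
    val ω k (L.map fun p => (a * p.1, p.2)) = rootP a * val ω k L * (rootP a)⁻¹ := by
  induction L with
  | nil => simp [val]
  | cons p L ih =>
    rw [List.map_cons, val_cons, val_cons, ih, map_mul]
    group

lemma conj_tot (a : A) (L : List (A × B)) : tot (L.map fun p => (a * p.1, p.2)) = tot L := by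
  simp [tot, List.map_map, Function.comp_def]

/-- commutators -/
def cm {H : Type*} [Group H] (x y : H) : H := x * y * x⁻¹ * y⁻¹

lemma cm_map {H H' : Type*} [Group H] [Group H'] (f : H →* H') (x y : H) :
    f (cm x y) = cm (f x) (f y) := by simp [cm]

lemma cm_comm {H : Type*} [Group H] {x y : H} (h : cm x y = 1) : x * y = y * x := by
  unfold cm at h
  rw [mul_inv_eq_one, mul_inv_eq_iff_eq_mul] at h
  exact h

/-- the conditions on `ω` -/
structure Data (ω : ℕ → A → B →* A) where
  g : ℕ → A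
  τ : ℕ → A → B
  hg : ∀ k, g k ≠ 1
  hτ : ∀ k a, ω k (g k) (τ k a) = a
  g' : ℕ → A
  τ' : ℕ → A → B
  hg' : ∀ k, g' k ≠ 1
  hτ' : ∀ k a, ω k (g' k) (τ' k a) = a
  hor : ∀ k, g k ≠ g' k ∨ ∀ b, ω k (g k)⁻¹ b = 1
  a0 : A
  ha0 : a0 ≠ 1
  h : ℕ → A
  hh1 : ∀ k, h k ≠ 1
  hh2 : ∀ k, h k * g (k + 1) ≠ 1

variable {ω : ℕ → A → B →* A}

/-- the simplest lists -/
def Data.s0 (D : Data ω) (k : ℕ) (a : A) : List (A × B) := [(1, D.τ k a), (D.g k, (D.τ k a)⁻¹)]

/-- the lists of the seed -/
def Data.s1 (D : Data ω) (k : ℕ) : List (A × B) := D.s0 k (D.h k)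

def Data.s2 (D : Data ω) (k : ℕ) : List (A × B) :=
  sig (D.g k) (D.τ k) 1 (sig (D.g (k + 1)) (D.τ (k + 1)) 1 (D.s0 (k + 2) D.a0))

/-- the short elements -/
noncomputable def Data.elt (D : Data ω) : ℕ → List A → Equiv.Perm (List A)
  | k, [] => cm (val ω k (D.s1 k)) (val ω k (D.s2 k))
  | k, x :: v => secP (Pi.mulSingle x (D.elt (k + 1) v))

lemma Data.s0_tot (D : Data ω) (k : ℕ) (a : A) : tot (D.s0 k a) = 1 := by simp [Data.s0, tot]

/-- the sections of a conjugated substitution -/
lemma conj_sig (ω : ℕ → A → B →* A) (k : ℕ) (g : A) (hg : g ≠ 1) (τ : A → B)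
    (hτ : ∀ a, ω k g (τ a) = a) (L : List (A × B)) (hL : tot L = 1) (x : A) :
    ∃ f : A → Equiv.Perm (List A), val ω k ((sig g τ 1 L).map fun p => ((x * g⁻¹) * p.1, p.2)) =
      secP f ∧ f x = val ω (k + 1) L ∧ (∀ y, y ≠ x → y ≠ x * g⁻¹ → f y = 1) ∧
      ((∀ b, ω k g⁻¹ b = 1) → ∀ y, y ≠ x → f y = 1) := by
  obtain ⟨f, h1, h2, h3, h4⟩ := sig_main ω k g hg τ hτ L hL
  have e1 : ∀ y, (x * g⁻¹)⁻¹ * y = g → y = x := by
    intro y h
    rw [mul_inv_rev, inv_inv, mul_assoc] at h
    have h5 := mul_eq_left.1 h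
    exact (inv_mul_eq_one.1 h5).symm
  have e2 : ∀ y, (x * g⁻¹)⁻¹ * y = 1 → y = x * g⁻¹ := fun y h => (inv_mul_eq_one.1 h).symm
  refine ⟨fun y => f ((x * g⁻¹)⁻¹ * y), by rw [conj_main, h1, conj_sec], ?_, ?_, ?_⟩
  · dsimp only
    rw [← h2]
    congr 1
    rw [mul_inv_rev, inv_inv, mul_assoc, inv_mul_cancel, mul_one]
  · intro y hy hy2
    exact h3 _ (fun h => hy (e1 y h)) (fun h => hy2 (e2 y h))
  · intro h y hy
    exact h4 h _ (fun h => hy (e1 y h))

theorem Data.short (D : Data ω) (v : List A) (k : ℕ) : ∃ L L' : List (A × B),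
    L.length + 1 ≤ 12 * 2 ^ v.length ∧ L'.length + 1 ≤ 12 * 2 ^ v.length ∧ tot L = 1 ∧
      tot L' = 1 ∧ cm (val ω k L) (val ω k L') = D.elt k v := by
  induction v generalizing k with
  | nil =>
    refine ⟨D.s1 k, D.s2 k, by simp [Data.s1, Data.s0], ?_, D.s0_tot _ _, ?_, rfl⟩
    · simp [Data.s2, sig_length, Data.s0]
    · rw [Data.s2, sig_tot, sig_tot, D.s0_tot, one_mul, one_mul]
  | cons x v ih =>
    obtain ⟨L, L', h1, h1', h2, h2', h3⟩ := ih (k + 1)
    obtain ⟨f, f1, f2, f3, f4⟩ := conj_sig ω k (D.g k) (D.hg k) (D.τ k) (D.hτ k) L h2 x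
    obtain ⟨f', f1', f2', f3', f4'⟩ := conj_sig ω k (D.g' k) (D.hg' k) (D.τ' k) (D.hτ' k) L' h2' x
    refine ⟨(sig (D.g k) (D.τ k) 1 L).map fun p => ((x * (D.g k)⁻¹) * p.1, p.2),
      (sig (D.g' k) (D.τ' k) 1 L').map fun p => ((x * (D.g' k)⁻¹) * p.1, p.2),
      ?_, ?_, ?_, ?_, ?_⟩
    · rw [List.length_map, sig_length, List.length_cons, pow_succ]
      omega
    · rw [List.length_map, sig_length, List.length_cons, pow_succ]
      omega
    · rw [conj_tot, sig_tot, h2, one_mul]
    · rw [conj_tot, sig_tot, h2', one_mul]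
    · rw [f1, f1', ← cm_map]
      show _ = secP (Pi.mulSingle x (D.elt (k + 1) v))
      congr 1
      funext y
      rw [cm, Pi.mul_apply, Pi.mul_apply, Pi.mul_apply, Pi.inv_apply,
        Pi.inv_apply]
      by_cases hy : y = x
      · subst hy
        rw [Pi.mulSingle_eq_same, f2, f2', ← h3, cm]
      · rw [Pi.mulSingle_eq_of_ne hy]
        have h4 : f y = 1 ∨ f' y = 1 := by
          rcases D.hor k with h | h
          · by_cases h5 : y = x * (D.g k)⁻¹
            · right
              apply f3' y hy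
              intro h6
              apply h
              rw [h5] at h6
              exact inv_injective (mul_left_cancel h6)
            · left
              exact f3 y hy h5
          · left
            exact f4 h y hy
        rcases h4 with h4 | h4
        · rw [h4]; simp
        · rw [h4]; simp

/-- the sections of the simplest elements -/
lemma Data.s0_apply (D : Data ω) (k : ℕ) (a x : A) (w : List A) :
    val ω k (D.s0 k a) (D.g k :: x :: w) =
      D.g k :: (a * x) :: (if x = 1 then dirP ω (k + 2) (D.τ k a)⁻¹ else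
        rootP (ω (k + 1) x (D.τ k a)⁻¹)) w := by
  have hv : val ω k (D.s0 k a) = dirP ω k (D.τ k a) * (rootP (D.g k) * (dirP ω k (D.τ k a)⁻¹ *
      (rootP (D.g k))⁻¹)) := by
    simp [Data.s0, val, mul_assoc]
  rw [hv]
  simp only [Equiv.Perm.mul_apply]
  rw [rootP_inv, rootP_cons, inv_mul_cancel, dirP_eq ω k (D.τ k a)⁻¹, secP_cons, if_pos rfl,
    rootP_cons, mul_one, dirP_eq ω k (D.τ k a), secP_cons, if_neg (D.hg k), D.hτ]
  rw [dirP_eq ω (k + 1), secP_cons, rootP_cons]

lemma Data.s0_ne (D : Data ω) (k : ℕ) (a : A) (ha : a ≠ 1) : val ω k (D.s0 k a) ≠ 1 := by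
  intro h
  have h2 := D.s0_apply k a 1 []
  rw [h, Equiv.Perm.one_apply, mul_one] at h2
  exact ha (List.head_eq_of_cons_eq (List.tail_eq_of_cons_eq h2)).symm

lemma Data.seed_ne (D : Data ω) (k : ℕ) : cm (val ω k (D.s1 k)) (val ω k (D.s2 k)) ≠ 1 := by
  intro hc
  have hcom := cm_comm hc
  obtain ⟨f, h1, h2, h3, -⟩ := sig_main ω (k + 1) (D.g (k + 1)) (D.hg _) (D.τ (k + 1)) (D.hτ _)
    (D.s0 (k + 2) D.a0) (D.s0_tot _ _)
  obtain ⟨f', h1', h2', -, -⟩ := sig_main ω k (D.g k) (D.hg _) (D.τ k) (D.hτ _)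
    (sig (D.g (k + 1)) (D.τ (k + 1)) 1 (D.s0 (k + 2) D.a0))
    (by rw [sig_tot, D.s0_tot, one_mul])
  obtain ⟨w, hw⟩ : ∃ w, f (D.g (k + 1)) w ≠ w := by
    by_contra hcon
    push Not at hcon
    apply D.s0_ne (k + 2) D.a0 D.ha0
    rw [← h2]
    exact Equiv.ext hcon
  have h4 := congrArg (fun q : Equiv.Perm (List A) => q (D.g k :: D.g (k + 1) :: w)) hcom
  have hz : ∀ (x : A) (u : List A), val ω k (D.s2 k) (D.g k :: x :: u) = D.g k :: x :: f x u := by
    intro x u
    rw [Data.s2, h1', secP_cons, h2', h1, secP_cons]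
  simp only [Equiv.Perm.mul_apply] at h4
  rw [hz, Data.s1, D.s0_apply, D.s0_apply, hz, if_neg (D.hg _), h3 (D.h k * D.g (k + 1))
    (fun h => D.hh1 k (mul_eq_right.1 h)) (D.hh2 k), Equiv.Perm.one_apply] at h4
  have h5 := List.tail_eq_of_cons_eq (List.tail_eq_of_cons_eq h4)
  exact hw ((Equiv.injective _) h5)

lemma Data.elt_ne (D : Data ω) (v : List A) (k : ℕ) : D.elt k v ≠ 1 := by
  induction v generalizing k with
  | nil => exact D.seed_ne k
  | cons x v ih =>
    intro h
    apply ih (k + 1)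
    refine Equiv.ext fun w => ?_
    have h2 := congrArg (fun f : Equiv.Perm (List A) => f (x :: w)) h
    simp only [Data.elt, secP_cons, Pi.mulSingle_eq_same, Equiv.Perm.one_apply] at h2
    exact List.tail_eq_of_cons_eq h2

/-- the element at `v` only moves words which begin with `v` -/
lemma Data.elt_fix (D : Data ω) (v : List A) (k : ℕ) (w : List A) (hw : ¬ v <+: w) :
    D.elt k v w = w := by
  induction v generalizing k w with
  | nil => exact absurd (List.nil_prefix) hw
  | cons x v ih =>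
    show secP (Pi.mulSingle x (D.elt (k + 1) v)) w = w
    cases w with
    | nil => rfl
    | cons y w =>
      rw [secP_cons]
      by_cases hy : y = x
      · subst hy
        rw [Pi.mulSingle_eq_same, ih (k + 1) w]
        intro h
        exact hw ((List.cons_prefix_cons).2 ⟨rfl, h⟩)
      · rw [Pi.mulSingle_eq_of_ne hy]
        rfl

/-- the generators -/
def gens (ω : ℕ → A → B →* A) : Set (Equiv.Perm (List A)) :=
  Set.range (rootP : A →* Equiv.Perm (List A)) ∪ Set.range (dirP ω 0)

lemma val_WL (L : List (A × B)) : WL (gens ω) (3 * L.length) (val ω 0 L) := by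
  induction L with
  | nil => exact ⟨[], le_refl _, by simp, by simp [val]⟩
  | cons p L ih =>
    obtain ⟨l, h1, h2, h3⟩ := ih
    refine ⟨rootP p.1 :: dirP ω 0 p.2 :: rootP p.1⁻¹ :: l, ?_, ?_, ?_⟩
    · simp only [List.length_cons]
      omega
    · intro s hs
      simp only [List.mem_cons] at hs
      rcases hs with rfl | rfl | rfl | hs
      · exact Or.inl ⟨_, rfl⟩
      · exact Or.inr ⟨_, rfl⟩
      · exact Or.inl ⟨_, rfl⟩
      · exact h2 s hs
    · rw [val_cons, List.prod_cons, List.prod_cons, List.prod_cons, h3, rootP_inv]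
      group

lemma gens_inv {s : Equiv.Perm (List A)} (hs : s ∈ gens ω) : s⁻¹ ∈ gens ω := by
  rcases hs with ⟨a, rfl⟩ | ⟨b, rfl⟩
  · exact Or.inl ⟨a⁻¹, map_inv _ _⟩
  · exact Or.inr ⟨b⁻¹, map_inv _ _⟩

lemma WL_inv' {n : ℕ} {x : Equiv.Perm (List A)} (h : WL (gens ω) n x) : WL (gens ω) n x⁻¹ := by
  obtain ⟨l, h1, h2, h3⟩ := h
  refine ⟨(l.map fun s => s⁻¹).reverse, by simpa using h1, ?_, ?_⟩
  · intro s hs
    rw [List.mem_reverse, List.mem_map] at hs
    obtain ⟨t, ht, rfl⟩ := hs
    exact gens_inv (h2 t ht)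
  · rw [← h3, List.prod_inv_reverse]

lemma WL_mul' {n m : ℕ} {x y : Equiv.Perm (List A)} (hx : WL (gens ω) n x) (hy : WL (gens ω) m y) :
    WL (gens ω) (n + m) (x * y) := by
  obtain ⟨l, h1, h2, h3⟩ := hx
  obtain ⟨l', h1', h2', h3'⟩ := hy
  refine ⟨l ++ l', by rw [List.length_append]; omega, ?_, by rw [List.prod_append, h3, h3']⟩
  intro s hs
  rcases List.mem_append.1 hs with hs | hs
  · exact h2 s hs
  · exact h2' s hs

theorem Data.WL_elt (D : Data ω) (v : List A) :
    WL (gens ω) (144 * 2 ^ v.length) (D.elt 0 v) := by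
  obtain ⟨L, L', h1, h1', -, -, h3⟩ := D.short v 0
  have h4 := val_WL (ω := ω) L
  have h4' := val_WL (ω := ω) L'
  have h5 := WL_mul' (WL_mul' (WL_mul' h4 h4') (WL_inv' h4)) (WL_inv' h4')
  rw [← cm.eq_1, h3] at h5
  obtain ⟨l, h6, h7, h8⟩ := h5
  exact ⟨l, by omega, h7, h8⟩

/-- **The main inequality.** -/
theorem Data.lower [Fintype A] (D : Data ω) (m : ℕ) (F : Finset (Equiv.Perm (List A)))
    (hF : F.Nonempty) (q : ℝ) (hq : 0 ≤ q) (hs : ∀ s ∈ gens ω, (esc F s : ℝ) ≤ q * F.card)
    (hm : 144 * 2 ^ m * q ≤ 1 / 4) :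
    (Fintype.card A : ℝ) ^ m / 2 ≤ Real.log F.card := by
  have hFc : (0 : ℝ) < F.card := by exact_mod_cast card_pos.2 hF
  have hX : Pairwise (fun i j : List.Vector A m => Disjoint {w : List A | i.1 <+: w}
      {w : List A | j.1 <+: w}) := by
    intro i j hij
    rw [Set.disjoint_left]
    intro w h1 h2
    apply hij
    apply Subtype.ext
    have h3 := List.prefix_of_prefix_length_le h1 h2 (by rw [i.2, j.2])
    exact h3.eq_of_length (by rw [i.2, j.2])
  have h1 := han (G := Equiv.Perm (List A)) (T := List A)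
    (fun v : List.Vector A m => {w : List A | v.1 <+: w}) hX F
  have hl2 : (0 : ℝ) ≤ Real.log 2 := Real.log_nonneg (by norm_num)
  have h2 : ∀ v : List.Vector A m, Real.log 2 * ((3 / 4 : ℝ) * F.card) ≤
      ∑ a ∈ F, Real.log ((F.filter (fun b => a⁻¹ * b ∈
        fixingSubgroup (Equiv.Perm (List A)) {w : List A | v.1 <+: w}ᶜ)).card) := by
    intro v
    have hmem : D.elt 0 v.1 ∈ fixingSubgroup (Equiv.Perm (List A)) {w : List A | v.1 <+: w}ᶜ := by
      rw [mem_fixingSubgroup_iff]
      intro w hw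
      exact D.elt_fix v.1 0 w hw
    have h3 : (esc F (D.elt 0 v.1) : ℝ) ≤ (1 / 4) * F.card := by
      have h4 := esc_WL (A := F) hs (by positivity) (D.WL_elt v.1)
      rw [v.2] at h4
      refine h4.trans ?_
      push_cast
      calc (144 * 2 ^ m : ℝ) * (q * F.card) = (144 * 2 ^ m * q) * F.card := by ring
        _ ≤ (1 / 4) * F.card := mul_le_mul_of_nonneg_right hm hFc.le
    have h4 : ((F.filter (fun x => x * D.elt 0 v.1 ∈ F)).card : ℝ) + esc F (D.elt 0 v.1) =
        F.card := by
      exact_mod_cast card_filter_add_card_filter_not (s := F) (fun x => x * D.elt 0 v.1 ∈ F)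
    have h5 : Real.log 2 * ((F.filter (fun x => x * D.elt 0 v.1 ∈ F)).card : ℝ) ≤
        ∑ a ∈ F, Real.log ((F.filter (fun b => a⁻¹ * b ∈
        fixingSubgroup (Equiv.Perm (List A)) {w : List A | v.1 <+: w}ᶜ)).card) := by
      rw [card_filter]
      push_cast
      rw [mul_sum]
      refine sum_le_sum fun a ha => ?_
      split_ifs with h6
      · rw [mul_one]
        apply Real.log_le_log (by norm_num)
        have h7 : ({a, a * D.elt 0 v.1} : Finset (Equiv.Perm (List A))) ⊆ F.filter (fun b =>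
            a⁻¹ * b ∈ fixingSubgroup (Equiv.Perm (List A)) {w : List A | v.1 <+: w}ᶜ) := by
          intro b hb
          rw [mem_insert, mem_singleton] at hb
          rw [mem_filter]
          rcases hb with rfl | rfl
          · refine ⟨ha, ?_⟩
            rw [inv_mul_cancel]
            exact Subgroup.one_mem _
          · refine ⟨h6, ?_⟩
            rw [inv_mul_cancel_left]
            exact hmem
        have h8 := card_le_card h7
        rw [card_pair] at h8
        · exact_mod_cast h8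
        · intro h
          exact D.elt_ne v.1 0 (mul_eq_left.1 h.symm)
      · rw [mul_zero]
        apply Real.log_natCast_nonneg
    refine le_trans ?_ h5
    apply mul_le_mul_of_nonneg_left _ hl2
    linarith
  rw [sum_comm] at h1
  have h3 := (sum_le_sum fun (v : List.Vector A m) (_ : v ∈ univ) => h2 v).trans h1
  rw [sum_const, card_univ, card_vector, nsmul_eq_mul] at h3
  push_cast at h3
  have h5 : (0.69 : ℝ) < Real.log 2 := by
    have := Real.log_two_gt_d9
    linarith
  have h6 : (0 : ℝ) ≤ (Fintype.card A : ℝ) ^ m := by positivity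
  have h7 : (Fintype.card A : ℝ) ^ m / 2 * F.card ≤ Real.log F.card * F.card := by
    have h8 : (Fintype.card A : ℝ) ^ m / 2 * F.card ≤
        (Fintype.card A : ℝ) ^ m * (Real.log 2 * (3 / 4 * F.card)) := by
      have h9 : (1 / 2 : ℝ) * F.card ≤ Real.log 2 * (3 / 4 * F.card) := by nlinarith
      calc (Fintype.card A : ℝ) ^ m / 2 * F.card = (Fintype.card A : ℝ) ^ m * (1 / 2 * F.card) := by
            ring
        _ ≤ _ := mul_le_mul_of_nonneg_left h9 h6
    linarith
  exact le_of_mul_le_mul_right h7 hFc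

end Pool.Agent.Fol.Sp
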