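import Pool.Agent.Fol.Final
import Pool.Agent.Fol.SpinMain

/-!
# The lower bound for the Folner function
-/

namespace Pool.Agent.Fol.Sp

open Finset Classical

/-- passing from a group with a subquotient to the subquotient -/
lemma reduceG {H : Type*} [Group H] (Q : Subgroup H) {J : Type*} [Fintype J] (gg : J → Q)
    {G : Type*} [Group G] {S : Finset G} (hS : Subgroup.closure (S : Set G) = ⊤) (K : Subgroup G)
    (π : K →* Q) (hπ : Function.Surjective π) :
    ∃ cS : ℝ, 1 ≤ cS ∧ ∀ (n : ℕ) (A : Finset G), A.Nonempty → n * bd S A ≤ A.card →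
      ∃ B : Finset H, B.Nonempty ∧ B.card ≤ A.card ∧ ∀ j : J,
        (esc B (gg j : H) : ℝ) * n ≤ cS * B.card := by
  choose c hc using ctl_top hS
  choose t ht using fun o => hπ (gg o)
  refine ⟨1 + ∑ o, (c (t o : G) : ℝ), ?_, ?_⟩
  · have : (0 : ℝ) ≤ ∑ o, (c (t o : G) : ℝ) := sum_nonneg fun _ _ => Nat.cast_nonneg _
    linarith
  intro n A hA hn
  rcases Nat.eq_zero_or_pos n with rfl | hnpos
  · refine ⟨{1}, singleton_nonempty _, ?_, ?_⟩
    · rw [card_singleton]
      exact card_pos.2 hA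
    · intro s
      rw [Nat.cast_zero, mul_zero]
      have : (0 : ℝ) ≤ ∑ o, (c (t o : G) : ℝ) := sum_nonneg fun _ _ => Nat.cast_nonneg _
      positivity
  have hn' : (0 : ℝ) < n := by exact_mod_cast hnpos
  have h1 : ∑ o, (esc A (t o : G) : ℝ) ≤ ((∑ o, (c (t o : G) : ℝ)) / n) * A.card := by
    rw [div_mul_eq_mul_div, le_div_iff₀ hn', sum_mul, sum_mul]
    apply sum_le_sum
    intro o _
    have h2 : (esc A (t o : G) : ℝ) ≤ c (t o : G) * bd S A := by exact_mod_cast hc _ A
    have h3 : (n : ℝ) * bd S A ≤ A.card := by exact_mod_cast hn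
    calc (esc A (t o : G) : ℝ) * n ≤ c (t o : G) * bd S A * n :=
          mul_le_mul_of_nonneg_right h2 hn'.le
      _ = c (t o : G) * (n * bd S A) := by ring
      _ ≤ c (t o : G) * A.card := mul_le_mul_of_nonneg_left h3 (Nat.cast_nonneg _)
  obtain ⟨B, hB1, hB2, hB3⟩ := subquot_step K (Q.subtype.comp π) t A hA _ h1
  refine ⟨B, hB1, hB2, fun o => ?_⟩
  have h2 : (Q.subtype.comp π) (t o) = gg o := by
    rw [MonoidHom.comp_apply, ht]
    rfl
  have h3 : (esc B (gg o : H) : ℝ) ≤ ∑ o, (esc B ((Q.subtype.comp π) (t o)) : ℝ) := by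
    rw [← h2]
    exact single_le_sum (f := fun o => (esc B ((Q.subtype.comp π) (t o)) : ℝ))
      (fun _ _ => Nat.cast_nonneg _) (mem_univ o)
  have h4 := h3.trans hB3
  rw [div_mul_eq_mul_div, le_div_iff₀ hn'] at h4
  have h5 : (0 : ℝ) ≤ B.card := Nat.cast_nonneg _
  linarith

variable {A B : Type*} [CommGroup A] [CommGroup B]

/-- a group of at least three elements has an element different from two given ones -/
lemma exists_third (hA : 3 ≤ Nat.card A) (x y : A) : ∃ z, z ≠ x ∧ z ≠ y := by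
  haveI : Finite A := Nat.finite_of_card_ne_zero (by omega)
  haveI : Fintype A := Fintype.ofFinite A
  rw [Nat.card_eq_fintype_card] at hA
  by_contra h
  push Not at h
  have h1 : (univ : Finset A) ⊆ {x, y} := by
    intro z _
    rw [mem_insert, mem_singleton]
    by_cases hz : z = x
    · exact Or.inl hz
    · exact Or.inr (h z hz)
  have h2 := (card_le_card h1).trans card_le_two
  rw [card_univ] at h2
  omega

/-- a nontrivial homomorphism to a group of prime order is onto -/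
lemma surj_of_prime (hp : (Nat.card A).Prime) {f : B →* A} (hf : f ≠ 1) :
    Function.Surjective f := by
  haveI : Fact (Nat.card A).Prime := ⟨hp⟩
  rcases (f.range).eq_bot_or_eq_top_of_prime_card with h | h
  · exact absurd (MonoidHom.range_eq_bot_iff.1 h) hf
  · exact MonoidHom.range_eq_top.1 h

lemma good_strong (hA : 3 ≤ Nat.card A) {f : A → B →* A} (h : Good f) :
    ∃ g g' : A, g ≠ 1 ∧ g' ≠ 1 ∧ Function.Surjective (f g) ∧ Function.Surjective (f g') ∧
      (g ≠ g' ∨ ∀ b, f g⁻¹ b = 1) := by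
  rcases h with ⟨hp, x, hx, hf⟩ | ⟨g, hg, h1, h2 | ⟨g', hg', h3, h4⟩⟩
  · have h1 := surj_of_prime hp hf
    by_cases h2 : f x⁻¹ = 1
    · exact ⟨x, x, hx, hx, h1, h1, Or.inr fun b => by rw [h2]; rfl⟩
    · refine ⟨x, x⁻¹, hx, fun h => hx (inv_eq_one.1 h), h1, surj_of_prime hp h2, Or.inl ?_⟩
      intro h3
      have h4 : x ^ 2 = 1 := by
        rw [pow_two]
        nth_rewrite 2 [h3]
        exact mul_inv_cancel x
      have h5 : orderOf x ∣ 2 := orderOf_dvd_of_pow_eq_one h4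
      have h6 : orderOf x = Nat.card A := by
        have h7 := orderOf_dvd_natCard x
        rcases (Nat.dvd_prime hp).1 h7 with h8 | h8
        · exact absurd (orderOf_eq_one_iff.1 h8) hx
        · exact h8
      have h7 := Nat.le_of_dvd (by norm_num) h5
      omega
  · exact ⟨g, g, hg, hg, h1, h1, Or.inr fun b => by rw [h2]; rfl⟩
  · exact ⟨g, g', hg, hg', h1, h4, Or.inl h3.symm⟩

/-- the data from the assumptions -/
lemma data_exists {ω : ℕ → A → B →* A} (hA : 3 ≤ Nat.card A) (h : ∀ k, Good (ω k)) :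
    Nonempty (Data ω) := by
  choose g g' h1 h2 h3 h4 h5 using fun k => good_strong hA (h k)
  choose τ hτ using h3
  choose τ' hτ' using h4
  obtain ⟨a, ha, -⟩ := exists_third hA (1 : A) 1
  choose hh hh1 hh2 using fun k => exists_third hA (1 : A) (g (k + 1))⁻¹
  exact ⟨⟨g, τ, h1, hτ, g', τ', h2, hτ', h5, a, ha, hh, hh1, fun k hk => hh2 k
    (mul_eq_one_iff_eq_inv.1 hk)⟩⟩

/-- the bound for the permutations -/
theorem powerB [Fintype A] {ω : ℕ → A → B →* A} (D : Data ω) (cS : ℝ) (hcS : 1 ≤ cS) :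
    ∃ c : ℝ, 0 < c ∧ ∃ C : ℝ, 0 < C ∧ ∀ (n : ℕ) (F : Finset (Equiv.Perm (List A))), F.Nonempty →
      (∀ s ∈ gens ω, (esc F s : ℝ) * n ≤ cS * F.card) →
      Real.exp (c * (n : ℝ) ^ (Real.log (Fintype.card A) / Real.log 2)) ≤ C * (F.card : ℝ) := by
  set β : ℝ := Real.log (Fintype.card A) / Real.log 2 with hβ
  have hA1 : (1 : ℝ) ≤ Fintype.card A := by
    exact_mod_cast Fintype.card_pos (α := A)
  have hl2 : (0 : ℝ) < Real.log 2 := Real.log_pos (by norm_num)
  have hβ0 : 0 ≤ β := div_nonneg (Real.log_nonneg hA1) hl2.le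
  have hpow : ∀ m : ℕ, ((2 : ℝ) ^ m) ^ β = (Fintype.card A : ℝ) ^ m := by
    intro m
    rw [← Real.rpow_natCast 2 m, ← Real.rpow_mul (by norm_num), mul_comm (m : ℝ) β,
      Real.rpow_mul (by norm_num), Real.rpow_natCast]
    congr 1
    rw [Real.rpow_def_of_pos (by norm_num), hβ, mul_div_cancel₀ _ hl2.ne',
      Real.exp_log (by linarith)]
  set N : ℝ := 576 * cS with hN
  have hNpos : 0 < N := by rw [hN]; linarith
  refine ⟨(1 / 2) * (1 / (2 * N)) ^ β, by positivity,
    Real.exp ((1 / 2) * (1 / (2 * N)) ^ β * N ^ β), Real.exp_pos _, ?_⟩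
  intro n F hF hs
  set c : ℝ := (1 / 2) * (1 / (2 * N)) ^ β with hc
  have hcpos : 0 < c := by rw [hc]; positivity
  have hFc : (1 : ℝ) ≤ F.card := by exact_mod_cast card_pos.2 hF
  rcases lt_or_ge (n : ℝ) N with hn | hn
  · calc Real.exp (c * (n : ℝ) ^ β) ≤ Real.exp (c * N ^ β) := by
          apply Real.exp_le_exp.2
          apply mul_le_mul_of_nonneg_left _ hcpos.le
          exact Real.rpow_le_rpow (Nat.cast_nonneg _) hn.le hβ0
      _ ≤ Real.exp (c * N ^ β) * F.card := le_mul_of_one_le_right (Real.exp_pos _).le hFc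
  · have hnpos : (0 : ℝ) < n := lt_of_lt_of_le hNpos hn
    obtain ⟨m, hm1, hm2⟩ := exists_nat_pow_near (x := (n : ℝ) / N) (y := 2)
      (by rwa [le_div_iff₀ hNpos, one_mul]) (by norm_num)
    rw [le_div_iff₀ hNpos] at hm1
    rw [div_lt_iff₀ hNpos] at hm2
    have h1 := D.lower m F hF (cS / n) (by positivity) (fun s hs' => by
      rw [div_mul_eq_mul_div, le_div_iff₀ hnpos]
      exact hs s hs') (by
      rw [mul_div_assoc', div_le_iff₀ hnpos]
      rw [hN] at hm1
      linarith)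
    have h2 : c * (n : ℝ) ^ β ≤ Real.log F.card := by
      refine le_trans ?_ h1
      rw [← hpow m, hc, mul_assoc, ← Real.mul_rpow (by positivity) hnpos.le]
      have h3 : (1 / (2 * N) * (n : ℝ)) ^ β ≤ ((2 : ℝ) ^ m) ^ β := by
        apply Real.rpow_le_rpow (by positivity) _ hβ0
        rw [one_div_mul_eq_div, div_le_iff₀ (by positivity)]
        rw [pow_succ] at hm2
        linarith
      linarith
    calc Real.exp (c * (n : ℝ) ^ β) ≤ Real.exp (Real.log F.card) := Real.exp_le_exp.2 h2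
      _ = F.card := Real.exp_log (by linarith)
      _ = 1 * F.card := (one_mul _).symm
      _ ≤ Real.exp (c * N ^ β) * F.card := by
          apply mul_le_mul_of_nonneg_right _ (by linarith)
          exact Real.one_le_exp (by positivity)

/-- exponents larger than one -/
lemma beats {β c C0 : ℝ} (hβ : 1 < β) (hc : 0 < c) (hC0 : 0 < C0) (C : ℝ) :
    ∃ n : ℕ, C0 * (C * Real.exp (C * n)) < Real.exp (c * (n : ℝ) ^ β) := by
  set C1 : ℝ := max C 1 with hC1
  have h1 : 1 ≤ C1 := le_max_right _ _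
  have hC : C ≤ C1 := le_max_left _ _
  have ht : Filter.Tendsto (fun n : ℕ => ((n : ℝ)) ^ (β - 1)) Filter.atTop Filter.atTop :=
    (tendsto_rpow_atTop (by linarith)).comp tendsto_natCast_atTop_atTop
  obtain ⟨n, hn, hn1⟩ := ((ht.eventually_gt_atTop ((C1 + |Real.log (C0 * C1)|) / c)).and
    (Filter.eventually_ge_atTop 1)).exists
  refine ⟨n, ?_⟩
  have hn1' : (1 : ℝ) ≤ n := by exact_mod_cast hn1
  rw [div_lt_iff₀ hc] at hn
  have h2 : C1 * n + Real.log (C0 * C1) < c * (n : ℝ) ^ β := by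
    have h3 : (n : ℝ) ^ β = (n : ℝ) ^ (β - 1) * n := by
      rw [Real.rpow_sub_one (by linarith)]
      field_simp
    rw [h3]
    have h4 := le_abs_self (Real.log (C0 * C1))
    have h5 : (C1 + |Real.log (C0 * C1)|) * n < (n : ℝ) ^ (β - 1) * c * n :=
      mul_lt_mul_of_pos_right hn (by linarith)
    have h6 : |Real.log (C0 * C1)| ≤ |Real.log (C0 * C1)| * n :=
      le_mul_of_one_le_right (abs_nonneg _) hn1'
    nlinarith
  calc C0 * (C * Real.exp (C * n)) ≤ C0 * (C1 * Real.exp (C1 * n)) := by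
        apply mul_le_mul_of_nonneg_left _ hC0.le
        apply mul_le_mul hC _ (Real.exp_pos _).le (by linarith)
        exact Real.exp_le_exp.2 (mul_le_mul_of_nonneg_right hC (by linarith))
    _ = Real.exp (C1 * n + Real.log (C0 * C1)) := by
        rw [Real.exp_add, Real.exp_log (by positivity)]
        ring
    _ < _ := Real.exp_lt_exp.2 h2

theorem spinal_main [Finite B] (hA : 3 ≤ Nat.card A) {ω : ℕ → A → B →* A}
    (hω : ∀ k, Good (ω k)) {G : Type*} [Group G] {S : Finset G}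
    (hS : Subgroup.closure (S : Set G) = ⊤) (K : Subgroup G)
    (π : K →* Spinal ω) (hπ : Function.Surjective π) :
    (∃ c : ℝ, 0 < c ∧ ∃ C : ℝ, 0 < C ∧ ∀ n : ℕ, ∀ F : Finset G, F.Nonempty →
        n * bd S F ≤ F.card →
        Real.exp (c * (n : ℝ) ^ (Real.log (Nat.card A) / Real.log 2)) ≤ C * (F.card : ℝ)) ∧
    (∀ C : ℝ, ∃ n : ℕ, ∀ F : Finset G, F.Nonempty →
        n * bd S F ≤ F.card → C * Real.exp (C * n) < (F.card : ℝ)) := by
  haveI : Finite A := Nat.finite_of_card_ne_zero (by omega)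
  haveI : Fintype A := Fintype.ofFinite A
  haveI : Fintype B := Fintype.ofFinite B
  obtain ⟨D⟩ := data_exists hA hω
  have hmem : ∀ s ∈ gens ω, s ∈ Spinal ω := fun s hs => Subgroup.subset_closure hs
  set gg : A ⊕ B → Spinal ω := Sum.elim (fun a => ⟨rootP a, hmem _ (Or.inl ⟨a, rfl⟩)⟩)
    (fun b => ⟨dirP ω 0 b, hmem _ (Or.inr ⟨b, rfl⟩)⟩) with hgg
  obtain ⟨cS, hcS, h1⟩ := reduceG (Spinal ω) gg hS K π hπ
  obtain ⟨c, hc, C, hC, h2⟩ := powerB D cS hcS
  have hmain : ∀ n : ℕ, ∀ F : Finset G, F.Nonempty → n * bd S F ≤ F.card →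
      Real.exp (c * (n : ℝ) ^ (Real.log (Nat.card A) / Real.log 2)) ≤ C * (F.card : ℝ) := by
    intro n F hF hn
    obtain ⟨B', hB1, hB2, hB3⟩ := h1 n F hF hn
    rw [Nat.card_eq_fintype_card]
    refine (h2 n B' hB1 ?_).trans (mul_le_mul_of_nonneg_left ?_ hC.le)
    · rintro s (⟨a, rfl⟩ | ⟨b, rfl⟩)
      · exact hB3 (Sum.inl a)
      · exact hB3 (Sum.inr b)
    · exact_mod_cast hB2
  refine ⟨⟨c, hc, C, hC, hmain⟩, fun C' => ?_⟩
  have hβ : 1 < Real.log (Nat.card A) / Real.log 2 := by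
    rw [one_lt_div (Real.log_pos (by norm_num))]
    apply Real.log_lt_log (by norm_num)
    have : (3 : ℝ) ≤ Nat.card A := by exact_mod_cast hA
    linarith
  obtain ⟨n, hn⟩ := beats hβ hc hC C'
  refine ⟨n, fun F hF hF2 => ?_⟩
  have h4 := hn.trans_le (hmain n F hF hF2)
  exact lt_of_mul_lt_mul_left h4 hC.le

end Pool.Agent.Fol.Sp
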